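import Pool.Agent.SPB.Stmts
import Pool.Agent.Lib_helper87.SPB.Bases

/-!
# M8: Banach's theorem on Schauder bases
-/

namespace SPB

open SPB87

theorem basis_holds : BasisStmt := by
  intro X _ _ _ e he
  obtain ⟨b, hb⟩ := IsSchauderBasis.exists_schauderBasis (X := X) (e := e) he
  obtain ⟨C, hC⟩ := b.exists_norm_proj_le
  refine ⟨b.proj, C, b.proj_zero, ?_, hC, ?_, b.tendsto_proj⟩
  · intro n m
    ext x
    exact b.proj_comp n m x
  · intro n x
    rw [b.proj_apply, b.proj_apply, Finset.sum_range_succ, add_sub_cancel_left, ← hb]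
    exact Submodule.smul_mem _ _ (Submodule.mem_span_singleton_self _)

end SPB
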