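import Pool.Agent.SPB.CStmts
import Pool.Agent.Lib_helper87.SPB.BasesK

/-!
# C3a: Banach's theorem on Schauder bases over `ℝ` or `ℂ`
-/

namespace SPB

theorem basisK_holds : BasisKStmt := by
  intro 𝕜 _ X _ _ _ e he
  obtain ⟨b, hb⟩ := SPB87K.IsSchauderBasis.exists_schauderBasis (𝕜 := 𝕜) (X := X) (e := e) he
  obtain ⟨C, hC⟩ := b.exists_norm_proj_le
  refine ⟨b.proj, C, b.proj_zero, ?_, ?_, hC, b.tendsto_proj⟩
  · intro n m
    ext x
    exact b.proj_comp n m x
  · intro n
    refine ⟨e n, fun x => ?_⟩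
    rw [b.proj_apply, b.proj_apply, Finset.sum_range_succ, add_sub_cancel_left, ← hb]
    exact Submodule.smul_mem _ _ (Submodule.mem_span_singleton_self _)

end SPB
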