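import Pool.Agent.SPB.Stmts

/-!
# The normed space of a block and the `ℓ¹`-sum
-/

namespace SPB

open scoped BigOperators InnerProductSpace ENNReal

/-- The normed space of a block (a copy of the underlying Euclidean space). -/
def Blk.E (b : Blk) : Type := b.V

noncomputable instance (b : Blk) : AddCommGroup b.E := inferInstanceAs (AddCommGroup b.V)

noncomputable instance (b : Blk) : Module ℝ b.E := inferInstanceAs (Module ℝ b.V)

/-- The identity map, from the Euclidean space to the block. -/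
noncomputable def Blk.toE (b : Blk) : b.V ≃ₗ[ℝ] b.E := LinearEquiv.refl ℝ b.V

/-- The identity map, from the block to the Euclidean space. -/
noncomputable def Blk.ofE (b : Blk) : b.E ≃ₗ[ℝ] b.V := b.toE.symm

theorem Blk.nrm_zero (b : Blk) : b.nrm 0 = 0 := by
  have := b.nrm_smul 0 0
  simpa using this

theorem Blk.nrm_neg (b : Blk) (x : b.V) : b.nrm (-x) = b.nrm x := by
  have := b.nrm_smul (-1) x
  simpa using this

theorem Blk.nrm_nonneg (b : Blk) (x : b.V) : 0 ≤ b.nrm x := by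
  have h1 := b.nrm_add x (-x)
  rw [b.nrm_neg, add_neg_cancel, b.nrm_zero] at h1
  linarith

noncomputable instance (b : Blk) : Norm b.E := ⟨fun x => b.nrm (b.ofE x)⟩

theorem Blk.norm_def (b : Blk) (x : b.E) : ‖x‖ = b.nrm (b.ofE x) := rfl

theorem Blk.norm_toE (b : Blk) (x : b.V) : ‖b.toE x‖ = b.nrm x := rfl

/-- Norm core of a block. -/
theorem Blk.core (b : Blk) : NormedSpace.Core ℝ b.E where
  norm_nonneg x := b.nrm_nonneg _
  norm_smul c x := b.nrm_smul c _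
  norm_triangle x y := b.nrm_add _ _
  norm_eq_zero_iff x := by
    constructor
    · intro h
      exact b.nrm_eq_zero _ h
    · intro h
      subst h
      exact b.nrm_zero

noncomputable instance (b : Blk) : NormedAddCommGroup b.E := NormedAddCommGroup.ofCore b.core

noncomputable instance (b : Blk) : NormedSpace ℝ b.E :=
  NormedSpace.ofCore b.core

instance (b : Blk) : FiniteDimensional ℝ b.E :=
  LinearEquiv.finiteDimensional b.toE

/-- The `ℓ¹`-sum of the blocks. -/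
abbrev XX (b : ℕ → Blk) : Type := lp (fun k => (b k).E) 1

instance (b : ℕ → Blk) : CompleteSpace (XX b) := by
  have : ∀ k, CompleteSpace ((b k).E) := fun k => FiniteDimensional.complete ℝ _
  infer_instance

/-- The `k`-th coordinate map. -/
noncomputable def QQ (b : ℕ → Blk) (k : ℕ) : XX b →L[ℝ] (b k).E :=
  LinearMap.mkContinuous
    { toFun := fun x => x k
      map_add' := fun x y => rfl
      map_smul' := fun c x => rfl } 1
    (fun x => by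
      have := lp.norm_apply_le_norm (E := fun k => (b k).E) one_ne_zero x k
      simpa using this)

/-- The `k`-th inclusion. -/
noncomputable def JJ (b : ℕ → Blk) (k : ℕ) : (b k).E →L[ℝ] XX b :=
  lp.singleContinuousLinearMap ℝ (fun k => (b k).E) 1 k

/-- M10 (file `SumFlag.lean`). The flags of the blocks give a slow chain on the sum. -/
def SumFlagStmt : Prop :=
  ∀ b : ℕ → Blk, (∀ k, (b k).Flag) → (∀ k, 0 < (b k).N) →
    ¬ FiniteDimensional ℝ (XX b) ∧ ∃ W : ℕ → XX b →L[ℝ] XX b, W 0 = 0 ∧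
      (∀ t s, t ≤ s → W s ∘L W t = W t) ∧
      (∀ t, ∃ e : XX b, ∀ x, W (t + 1) x - W t x ∈ Submodule.span ℝ {e}) ∧
      (∀ t, ‖W t‖ ≤ 4) ∧
      (∀ x, Filter.Tendsto (fun t => W t x) Filter.atTop (nhds x))

/-- M11 (file `NoBasis.lean`). The sum of good blocks has no bounded chain of commuting
projections with rank one steps. -/
def NoBasisStmt : Prop :=
  ∀ (b : ℕ → Blk) (B : ℕ → ℕ), (∀ k, Good k (B k) (b k)) →
    (∀ j k, j < k → (b j).m ≤ B k ∧ (b j).N ≤ B k ∧ 1 / (b j).ρ ≤ B k) →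
    ¬ ∃ (P : ℕ → XX b →L[ℝ] XX b) (C : ℝ), P 0 = 0 ∧ (∀ n m, P n ∘L P m = P (min n m)) ∧
      (∀ n, ‖P n‖ ≤ C) ∧
      (∀ n, ∃ e : XX b, ∀ x, P (n + 1) x - P n x ∈ Submodule.span ℝ {e}) ∧
      ∀ x, Filter.Tendsto (fun n => P n x) Filter.atTop (nhds x)

/-! ### Concrete blocks -/

/-- M12 (file `CFlag.lean`). The flag of a concrete block. -/
def CFlagStmt : Prop :=
  ∀ (h d M m : ℕ) (ρ : ℝ) (ω : Fin m → Cd h d M → Bool), 0 < h → 0 < d → 0 < M →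
    0 < ρ → ρ ≤ 1 → 8 ≤ ρ ^ 2 * (2 * Fintype.card (Nd h d)) →
    Wt h d M 0 = 0 ∧ (∀ t, len h d * M ≤ t → Wt h d M t = LinearMap.id) ∧
    (∀ t s, t ≤ s → Wt h d M s ∘ₗ Wt h d M t = Wt h d M t) ∧
    (∀ t, ∃ e : VV h d M, ∀ z, Wt h d M (t + 1) z - Wt h d M t z ∈ Submodule.span ℝ {e}) ∧
    (∀ t z, nE (gen h d M ω) ρ (Wt h d M t z) ≤ 4 * nE (gen h d M ω) ρ z)

/-- M13 (file `CNoChain.lean`). No long chain in a concrete block. -/
def CNoChainStmt : Prop :=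
  ∀ (k h M m : ℕ) (d : ℕ) (ρ : ℝ) (ω : Fin m → Cd h d M → Bool),
    d = 2 * (10 * (k + 1) + 1) + 1 → 0 < h → 0 < M → 0 < m →
    ρ = 1 / (10 ^ 6 * ((k : ℝ) + 1) ^ 2 * 2 ^ d) → 400 * ((k : ℝ) + 1) ≤ ρ * (h * M) →
    FewOp (fun p : Fin (len h d + 1) => U h d M p) ((k : ℝ) + 1) ρ (fun j => sv (ω j)) →
    ∀ C : ℝ, 0 < C → C < k + 1 → ¬ ∃ T : ℕ → VV h d M →ₗ[ℝ] VV h d M,
      T 0 = 0 ∧ (∀ n z, nE (gen h d M ω) ρ (T n z) ≤ C * nE (gen h d M ω) ρ z) ∧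
      (∀ z, Filter.Tendsto (fun n => T n z) Filter.atTop (nhds z)) ∧
      (∀ n, ∃ e : VV h d M, ∀ z, T (n + 1) z - T n z ∈ Submodule.span ℝ {e}) ∧
      (∀ n n', ∀ t : VV h d M →ₗ[ℝ] VV h d M, (∀ z, ‖t z‖ ≤ ‖z‖) →
        |tr (t ∘ₗ (T n ∘ₗ T n' - T (min n n')))| ≤
          841 * ((k : ℝ) + 1) ^ 2 * ρ * Fintype.card (Cd h d M))

/-- M14 (file `CTransfer.lean`). Transfer estimate into a concrete block. -/
def CTransferStmt : Prop :=
  ∀ (h d M m : ℕ) (ρ' δ : ℝ) (ω : Fin m → Cd h d M → Bool) (K B : ℕ) (a : Blk),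
    0 < h → 0 < d → 0 < M → 0 < m → 0 < ρ' → ρ' ≤ 1 → 0 ≤ δ → NO h d M δ ω →
    4 ≤ ρ' ^ 2 * K → 20 * ((K : ℝ) * B) * δ ≤ 1 → a.Basic → a.m ≤ B →
    ∀ C : ℝ, 0 < C → ∀ (α : a.V →ₗ[ℝ] VV h d M) (β : VV h d M →ₗ[ℝ] a.V)
      (t : a.V →ₗ[ℝ] a.V), (∀ z, ‖t z‖ ≤ ‖z‖) →
      (∀ z, a.nrm (β z) ≤ C * nE (gen h d M ω) ρ' z) →
      |tr (t ∘ₗ β ∘ₗ α)| ≤ 840 * C * a.ρ * a.N *
        ((1 / (a.m : ℝ)) * ∑ i, nE (gen h d M ω) ρ' (α (a.w i)))

/-- M15 (file `ExistsGood.lean`). Existence of good blocks. -/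
def ExistsGoodStmt : Prop := ∀ k B : ℕ, ∃ b : Blk, Good k B b

/-- The final statement. -/
def FinalStmt : Prop :=
  ∃ (X : Type) (_ : NormedAddCommGroup X) (_ : NormedSpace ℝ X) (_ : CompleteSpace X),
    (∃ u : ℕ → X →L[ℝ] X,
      (∀ n, FiniteDimensional ℝ (LinearMap.range (u n : X →ₗ[ℝ] X)) ∧
        Module.finrank ℝ (LinearMap.range (u n : X →ₗ[ℝ] X)) = n) ∧
      (∀ n m, n ≤ m → u m ∘L u n = u n) ∧ (∀ n, ‖u n‖ ≤ 4) ∧
      ∀ x, Filter.Tendsto (fun n => u n x) Filter.atTop (nhds x)) ∧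
    ¬ ∃ e : ℕ → X, ∀ x, ∃! a : ℕ → ℝ,
      Filter.Tendsto (fun n => ∑ i ∈ Finset.range n, a i • e i) Filter.atTop (nhds x)

end SPB
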