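import Pool.Agent.SPB.OpLemmas
import Pool.Agent.SPB.Space

set_option linter.unusedSectionVars false

/-!
# M12: the strict flag of a concrete block
-/

namespace SPB

open scoped BigOperators InnerProductSpace

/-- Number of events of the pair `π` at position `q` (`0` or `1`). -/
noncomputable def ev (h d q : ℕ) (π : Nd h d) : ℝ :=
  (if pa h d π = q then 1 else 0) + (if pb h d π = q then 1 else 0) +
    (if pc h d π = q then 1 else 0)

theorem ev_nonneg (h d q : ℕ) (π : Nd h d) : 0 ≤ ev h d q π := by
  unfold ev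
  split_ifs <;> norm_num

theorem sum_ev (hT : TreeStmt) (h d q : ℕ) : ∑ π, ev h d q π ≤ 1 := by
  have h1 := hT.sum_pos h d (fun x => if x = q then 1 else 0)
  have h2 : ∑ π, ev h d q π = ∑ x ∈ Finset.range (len h d), if x = q then (1 : ℝ) else 0 := by
    rw [← h1]
    rfl
  rw [h2, Finset.sum_ite_eq']
  split_ifs <;> norm_num

theorem ev_unique (hT : TreeStmt) {h d q : ℕ} {π π' : Nd h d} (h1 : 1 ≤ ev h d q π)
    (h2 : 1 ≤ ev h d q π') : π = π' := by
  by_contra hne
  have h3 : ∑ x ∈ ({π, π'} : Finset (Nd h d)), ev h d q x ≤ ∑ x, ev h d q x :=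
    Finset.sum_le_sum_of_subset_of_nonneg (Finset.subset_univ _) fun x _ _ => ev_nonneg h d q x
  rw [Finset.sum_pair hne] at h3
  have := sum_ev hT h d q
  linarith

/-- The value of the time function on slot `μ`. -/
def tf (M t μ : ℕ) : ℕ := (t + (M - 1 - μ)) / M

theorem tf_eq {M t μ : ℕ} (hμ : μ < M) :
    tf M t μ = if μ < t % M then t / M + 1 else t / M := by
  have hM : 0 < M := by omega
  have h1 : t = M * (t / M) + t % M := (Nat.div_add_mod t M).symm
  have h2 : t % M < M := Nat.mod_lt _ hM
  unfold tf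
  set q := t / M with hq
  set r := t % M with hr
  have e1 : t + (M - 1 - μ) = M * q + (r + (M - 1 - μ)) := by omega
  rw [e1, Nat.mul_add_div hM]
  split_ifs with hlt
  · have : (r + (M - 1 - μ)) / M = 1 := by
      rw [Nat.div_eq_iff hM]
      constructor <;> omega
    rw [this]
  · have : (r + (M - 1 - μ)) / M = 0 := by
      rw [Nat.div_eq_zero_iff]
      right
      omega
    rw [this, Nat.add_zero]

theorem Wt_eq (h d M t : ℕ) :
    Wt h d M t = Op h d M fun μ => st (tf M t μ) := rfl

theorem st_succ_sub (q x : ℕ) : st (q + 1) x - st q x = if x = q then 1 else 0 := by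
  simp only [st_apply]
  split_ifs <;> first | omega | norm_num

section

variable {h d M : ℕ}

theorem Wt_zero : Wt h d M 0 = 0 := by
  have h0 : ∀ μ : Fin M, tf M 0 μ = 0 := by
    intro μ
    rw [tf_eq μ.2]
    simp
  rw [Wt_eq]
  apply Op_ext
  · intro z π μ
    rw [Op_false]
    simp only [h0, st_apply]
    simp
  · intro z π μ
    rw [Op_true]
    simp only [h0, st_apply]
    simp

theorem Wt_top (hT : TreeStmt) (hM : 0 < M) {t : ℕ} (ht : len h d * M ≤ t) :
    Wt h d M t = LinearMap.id := by
  rw [Wt_eq]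
  apply Op_st_of_len_le hT
  intro μ
  unfold tf
  rw [Nat.le_div_iff_mul_le hM]
  omega

theorem Wt_comp (hT : TreeStmt) {t s : ℕ} (hts : t ≤ s) :
    Wt h d M s ∘ₗ Wt h d M t = Wt h d M t := by
  rw [Wt_eq, Wt_eq]
  apply Op_st_comp hT
  intro μ
  unfold tf
  exact Nat.div_le_div_right (by omega)

theorem Wt_step (hT : TreeStmt) (hM : 0 < M) (t : ℕ) :
    ∃ e : VV h d M, ∀ z, Wt h d M (t + 1) z - Wt h d M t z ∈ Submodule.span ℝ {e} := by
  set q := t / M with hq
  set r := t % M with hr
  have hrM : r < M := Nat.mod_lt _ hM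
  have htq : t = M * q + r := (Nat.div_add_mod t M).symm
  -- the time functions at `t` and `t+1`
  have hf : ∀ μ : Fin M, tf M t μ = if (μ : ℕ) < r then q + 1 else q := fun μ => tf_eq μ.2
  have hf' : ∀ μ : Fin M, tf M (t + 1) μ = if (μ : ℕ) ≤ r then q + 1 else q := by
    intro μ
    have hμ := μ.2
    unfold tf
    have e1 : t + 1 + (M - 1 - (μ : ℕ)) = M * q + (r + 1 + (M - 1 - (μ : ℕ))) := by omega
    rw [e1, Nat.mul_add_div hM]
    split_ifs with hlt
    · have : (r + 1 + (M - 1 - (μ : ℕ))) / M = 1 := by
        rw [Nat.div_eq_iff hM]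
        constructor <;> omega
      rw [this]
    · have : (r + 1 + (M - 1 - (μ : ℕ))) / M = 0 := by
        rw [Nat.div_eq_zero_iff]
        right
        omega
      rw [this, Nat.add_zero]
  -- the difference of the step functions
  have hD : ∀ (μ : Fin M) (x : ℕ), st (tf M (t + 1) μ) x - st (tf M t μ) x =
      if (μ : ℕ) = r then (if x = q then 1 else 0) else 0 := by
    intro μ x
    rw [hf, hf']
    by_cases h1 : (μ : ℕ) = r
    · rw [if_pos h1, if_pos h1.le, if_neg (by omega), st_succ_sub]
    · rw [if_neg h1]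
      by_cases h2 : (μ : ℕ) < r
      · rw [if_pos h2, if_pos h2.le, sub_self]
      · rw [if_neg h2, if_neg (by omega), sub_self]
  have hdf : ∀ z (π : Nd h d) (μ : Fin M),
      (Wt h d M (t + 1) z - Wt h d M t z) ((π, false), μ) =
        if (μ : ℕ) = r then (if pa h d π = q then 1 else 0) * z ((π, false), μ) +
          ((if pb h d π = q then 1 else 0) - (if pc h d π = q then 1 else 0)) *
            z ((π, true), μ) else 0 := by
    intro z π μ
    have e1 := hD μ (pa h d π)
    have e2 := hD μ (pb h d π)
    have e3 := hD μ (pc h d π)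
    rw [PiLp.sub_apply, Wt_eq, Wt_eq, Op_false, Op_false]
    split_ifs at e1 e2 e3 ⊢ <;>
      linear_combination (z ((π, false), μ)) * e1 + (z ((π, true), μ)) * (e2 - e3)
  have hdt : ∀ z (π : Nd h d) (μ : Fin M),
      (Wt h d M (t + 1) z - Wt h d M t z) ((π, true), μ) =
        if (μ : ℕ) = r then (if pc h d π = q then 1 else 0) * z ((π, true), μ) else 0 := by
    intro z π μ
    have e3 := hD μ (pc h d π)
    rw [PiLp.sub_apply, Wt_eq, Wt_eq, Op_true, Op_true]
    split_ifs at e3 ⊢ <;> linear_combination (z ((π, true), μ)) * e3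
  by_cases hex : ∃ π : Nd h d, 1 ≤ ev h d q π
  · obtain ⟨π₀, hπ₀⟩ := hex
    set rr : Fin M := ⟨r, hrM⟩ with hrr
    have hμ : ∀ μ : Fin M, (μ : ℕ) = r ↔ μ = rr := by
      intro μ
      constructor
      · intro hh; exact Fin.ext hh
      · intro hh; rw [hh]
    have hab := hT.ab h d π₀
    have hbc := hT.bc h d π₀
    -- pairs other than `π₀` have no event at `q`
    have hoth : ∀ π : Nd h d, π ≠ π₀ → pa h d π ≠ q ∧ pb h d π ≠ q ∧ pc h d π ≠ q := by
      intro π hπ
      have : ¬ 1 ≤ ev h d q π := fun hh => hπ (ev_unique hT hh hπ₀)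
      unfold ev at this
      refine ⟨fun hh => this ?_, fun hh => this ?_, fun hh => this ?_⟩ <;>
        (rw [hh]; split_ifs <;> norm_num)
    refine ⟨WithLp.toLp 2 fun l => match l with
      | ((π, false), μ) => if π = π₀ ∧ μ = rr then (if pc h d π₀ = q then (-1 : ℝ) else 1) else 0
      | ((π, true), μ) => if π = π₀ ∧ μ = rr then (if pc h d π₀ = q then (1 : ℝ) else 0) else 0,
      fun z => ?_⟩
    rw [Submodule.mem_span_singleton]
    refine ⟨if pa h d π₀ = q then z ((π₀, false), rr) else z ((π₀, true), rr), ?_⟩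
    refine VV_ext (fun π μ => ?_) (fun π μ => ?_)
    · rw [hdf, PiLp.smul_apply]
      simp only [smul_eq_mul, hμ]
      by_cases h1 : μ = rr
      · subst h1
        by_cases h2 : π = π₀
        · subst h2
          clear hoth hdf hdt hD hf hf' hμ
          simp only [and_self, if_true]
          unfold ev at hπ₀
          by_cases ca : pa h d π = q
          · rw [if_pos ca, if_pos ca, if_neg (by omega : ¬ pb h d π = q),
              if_neg (by omega : ¬ pc h d π = q), if_neg (by omega : ¬ pc h d π = q)]
            ring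
          · by_cases cb : pb h d π = q
            · rw [if_neg ca, if_neg ca, if_pos cb,
                if_neg (by omega : ¬ pc h d π = q), if_neg (by omega : ¬ pc h d π = q)]
              ring
            · by_cases cc : pc h d π = q
              · rw [if_neg ca, if_neg ca, if_neg cb, if_pos cc, if_pos cc]
                ring
              · exfalso
                rw [if_neg ca, if_neg cb, if_neg cc] at hπ₀
                norm_num at hπ₀
        · obtain ⟨h3, h4, h5⟩ := hoth π h2
          simp [h2, h3, h4, h5]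
      · simp [h1]
    · rw [hdt, PiLp.smul_apply]
      simp only [smul_eq_mul, hμ]
      by_cases h1 : μ = rr
      · subst h1
        by_cases h2 : π = π₀
        · subst h2
          clear hoth hdf hdt hD hf hf' hμ
          simp only [and_self, if_true]
          by_cases cc : pc h d π = q
          · rw [if_neg (by omega : ¬ pa h d π = q), if_pos cc]
            ring
          · rw [if_neg cc]
            ring
        · obtain ⟨h3, h4, h5⟩ := hoth π h2
          simp [h2, h5]
      · simp [h1]
  · push Not at hex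
    refine ⟨0, fun z => ?_⟩
    have hno : ∀ π : Nd h d, pa h d π ≠ q ∧ pb h d π ≠ q ∧ pc h d π ≠ q := by
      intro π
      have := hex π
      unfold ev at this
      refine ⟨fun hh => ?_, fun hh => ?_, fun hh => ?_⟩ <;>
        (rw [if_pos hh] at this; split_ifs at this <;> norm_num at this)
    have : Wt h d M (t + 1) z - Wt h d M t z = 0 := by
      refine VV_ext (fun π μ => ?_) (fun π μ => ?_)
      · obtain ⟨h1, h2, h3⟩ := hno π
        rw [hdf]
        simp [h1, h2, h3]
      · obtain ⟨h1, h2, h3⟩ := hno π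
        rw [hdt]
        simp [h3]
    rw [this]
    exact Submodule.zero_mem _

/-- The difference between the refined time and the coarse time is small on the generators. -/
theorem Wt_sub_U_norm (hT : TreeStmt) (hM : 0 < M) {m : ℕ} (ω : Fin m → Cd h d M → Bool)
    (x : Fin (len h d + 1) × Fin m) (t : ℕ) :
    ‖Wt h d M t (gen h d M ω x) - U h d M (t / M) (gen h d M ω x)‖ ^ 2 ≤
      8 * M / Fintype.card (Cd h d M) := by
  set v := gen h d M ω x with hv
  set q := t / M with hq
  set N : ℝ := (Fintype.card (Cd h d M) : ℝ) with hN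
  have hN0 : 0 ≤ N := Nat.cast_nonneg _
  have hvl : ∀ l, v l ^ 2 ≤ 4 / N := by
    intro l
    have h1 := abs_gen_le hT ω x l
    rw [← sq_abs]
    calc |v l| ^ 2 ≤ (2 / √N) ^ 2 := pow_le_pow_left₀ (abs_nonneg _) h1 2
      _ = 4 / N := by rw [div_pow, Real.sq_sqrt hN0]; norm_num
  have hf : ∀ μ : Fin M, tf M t μ = if (μ : ℕ) < t % M then q + 1 else q := fun μ => tf_eq μ.2
  have hD : ∀ (μ : Fin M) (x : ℕ), st (tf M t μ) x - st q x =
      if (μ : ℕ) < t % M then (if x = q then 1 else 0) else 0 := by
    intro μ x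
    rw [hf]
    by_cases h1 : (μ : ℕ) < t % M
    · rw [if_pos h1, if_pos h1, st_succ_sub]
    · rw [if_neg h1, if_neg h1, sub_self]
  rw [sq_norm_VV]
  have hpt : ∀ (π : Nd h d) (μ : Fin M),
      (Wt h d M t v - U h d M q v) ((π, false), μ) ^ 2 +
        (Wt h d M t v - U h d M q v) ((π, true), μ) ^ 2 ≤ 8 / N * ev h d q π := by
    intro π μ
    have e1 := hD μ (pa h d π)
    have e2 := hD μ (pb h d π)
    have e3 := hD μ (pc h d π)
    have hab := hT.ab h d π
    have hbc := hT.bc h d π
    have hN4 : (0 : ℝ) ≤ 4 / N := by positivity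
    have e8 : 8 / N = 4 / N + 4 / N := by ring
    have f1 : (Wt h d M t v - U h d M q v) ((π, false), μ) =
        (st (tf M t μ) (pa h d π) - st q (pa h d π)) * v ((π, false), μ) +
        ((st (tf M t μ) (pb h d π) - st q (pb h d π)) -
          (st (tf M t μ) (pc h d π) - st q (pc h d π))) * v ((π, true), μ) := by
      rw [PiLp.sub_apply, Wt_eq, U, Op_false, Op_false]
      ring
    have f2 : (Wt h d M t v - U h d M q v) ((π, true), μ) =
        (st (tf M t μ) (pc h d π) - st q (pc h d π)) * v ((π, true), μ) := by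
      rw [PiLp.sub_apply, Wt_eq, U, Op_true, Op_true]
      ring
    rw [f1, f2, e1, e2, e3, e8]
    have g1 := hvl ((π, false), μ)
    have g2 := hvl ((π, true), μ)
    have hev := ev_nonneg h d q π
    by_cases h0 : (μ : ℕ) < t % M
    · simp only [if_pos h0]
      unfold ev
      by_cases ha : pa h d π = q
      · rw [if_pos ha, if_neg (by omega), if_neg (by omega)]
        nlinarith
      · by_cases hb : pb h d π = q
        · rw [if_neg ha, if_pos hb, if_neg (by omega)]
          nlinarith
        · by_cases hc : pc h d π = q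
          · rw [if_neg ha, if_neg hb, if_pos hc]
            nlinarith
          · rw [if_neg ha, if_neg hb, if_neg hc]
            norm_num
    · simp only [if_neg h0]
      have : 0 ≤ (4 / N + 4 / N) * ev h d q π := by positivity
      linarith
  calc ∑ π, ∑ μ, ((Wt h d M t v - U h d M q v) ((π, false), μ) ^ 2 +
        (Wt h d M t v - U h d M q v) ((π, true), μ) ^ 2)
      ≤ ∑ π : Nd h d, ∑ _μ : Fin M, 8 / N * ev h d q π :=
        Finset.sum_le_sum fun π _ => Finset.sum_le_sum fun μ _ => hpt π μ
    _ = 8 * M / N * ∑ π : Nd h d, ev h d q π := by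
        rw [Finset.mul_sum]
        refine Finset.sum_congr rfl fun π _ => ?_
        rw [Finset.sum_const, Finset.card_univ, Fintype.card_fin, nsmul_eq_mul]
        ring
    _ ≤ 8 * M / N * 1 := by
        have := sum_ev hT h d q
        have h8 : (0 : ℝ) ≤ 8 * M / N := by positivity
        exact mul_le_mul_of_nonneg_left this h8
    _ = 8 * M / N := mul_one _

end

theorem cFlag_holds (hT : TreeStmt) (hNm : NormStmt) : CFlagStmt := by
  intro h d M m ρ ω hh hd hM hρ hρ1 hρ8
  refine ⟨Wt_zero, fun t ht => Wt_top hT hM ht, fun t s hts => Wt_comp hT hts,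
    fun t => Wt_step hT hM t, ?_⟩
  intro t
  have hcNd : 0 < Fintype.card (Nd h d) := by
    rcases Nat.eq_zero_or_pos (Fintype.card (Nd h d)) with h0 | h0
    · rw [h0] at hρ8
      norm_num at hρ8
    · exact h0
  have hcard : 0 < Fintype.card (Cd h d M) := by
    rw [card_Cd]
    positivity
  apply hNm.op _ _ _ _ _ hρ _ (by norm_num)
  · -- generators
    intro x
    set v := gen h d M ω x with hv
    set q := t / M with hq
    have hgen : ∀ p : ℕ, p ≤ len h d → ∀ i, nE (gen h d M ω) ρ (U h d M p (sv (ω i))) ≤ 1 := by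
      intro p hp i
      exact hNm.gen _ _ (gen h d M ω) ρ hρ (⟨p, by omega⟩, i)
    have h1 : nE (gen h d M ω) ρ (U h d M q v) ≤ 3 := by
      have hx1 : (x.1 : ℕ) ≤ len h d := Nat.lt_succ_iff.mp x.1.2
      have hvdef : v = U h d M x.1 (sv (ω x.2)) := rfl
      rcases Nat.lt_or_ge q x.1 with hlt | hge
      · obtain ⟨p', q', hp', hq', hcomp⟩ := U_comp_of_lt (M := M) hT hlt
        have e1 : U h d M q v = U h d M q (sv (ω x.2)) + U h d M q' (sv (ω x.2)) +
            (-1 : ℝ) • U h d M p' (sv (ω x.2)) := by
          rw [hvdef, ← LinearMap.comp_apply, hcomp]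
          simp [sub_eq_add_neg]
        rw [e1]
        refine (hNm.add _ _ _ _ hρ _ _).trans ?_
        have g1 := hNm.add _ _ (gen h d M ω) ρ hρ (U h d M q (sv (ω x.2)))
          (U h d M q' (sv (ω x.2)))
        have g2 := hNm.smul _ _ (gen h d M ω) ρ hρ (-1) (U h d M p' (sv (ω x.2)))
        have g3 := hgen q (by omega) x.2
        have g4 := hgen q' hq' x.2
        have g5 := hgen p' hp' x.2
        rw [abs_neg, abs_one, one_mul] at g2
        linarith
      · have e1 : U h d M q v = v := by
          rw [hvdef, ← LinearMap.comp_apply, U_comp_of_le hT hge]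
        rw [e1]
        have := hNm.gen _ _ (gen h d M ω) ρ hρ x
        linarith
    have h2 : nE (gen h d M ω) ρ (Wt h d M t v - U h d M q v) ≤ 1 := by
      refine (hNm.low _ _ _ _ hρ _).trans ?_
      rw [div_le_one hρ]
      have h3 := Wt_sub_U_norm hT hM ω x t
      have h4 : 8 * (M : ℝ) / Fintype.card (Cd h d M) ≤ ρ ^ 2 := by
        rw [card_Cd, div_le_iff₀ (by positivity)]
        push_cast
        have hM' : (0 : ℝ) ≤ M := Nat.cast_nonneg _
        nlinarith
      exact le_of_sq_le_sq (h3.trans h4) hρ.le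
    have h5 : Wt h d M t v = U h d M q v + (Wt h d M t v - U h d M q v) := by abel
    rw [h5]
    refine (hNm.add _ _ _ _ hρ _ _).trans ?_
    linarith
  · intro z
    have h1 : ‖Wt h d M t z‖ ≤ 2 * ‖z‖ := Op_st_norm_le hT _ z
    have h2 := norm_nonneg z
    linarith

end SPB
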