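import Pool.Agent.SPB.Stmts
import Pool.Agent.Lib_helper65.SPB.FewOps

/-! M2: the few operators theorem. -/

namespace SPB

open Finset

lemma sv_eq_gv {ι : Type} [Fintype ι] (ε : ι → Bool) : sv ε = SPB65.gv ε := by
  unfold sv SPB65.gv
  congr 1
  ext i
  change sg (ε i) / √(Fintype.card ι : ℝ) = (Real.sqrt (Fintype.card ι))⁻¹ * SPB65.sg (ε i)
  rw [div_eq_mul_inv, mul_comm]
  rfl

/-- the family with an additional zero operator -/
noncomputable def optU {ι P : Type} [Fintype ι] [DecidableEq ι]
    (U : P → EuclideanSpace ℝ ι →ₗ[ℝ] EuclideanSpace ℝ ι) :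
    Option P → EuclideanSpace ℝ ι →L[ℝ] EuclideanSpace ℝ ι
  | none => 0
  | some p => LinearMap.toContinuousLinearMap (U p)

lemma badSample_of_not_fewOp {ι P : Type} [Fintype ι] [DecidableEq ι] [Fintype P] {m : ℕ}
    (U : P → EuclideanSpace ℝ ι →ₗ[ℝ] EuclideanSpace ℝ ι) {C ρ : ℝ} (hC : 1 ≤ C) (hρ : 0 < ρ)
    (ω : Fin m → (ι → Bool)) (h : ¬ FewOp U C ρ (fun j => sv (ω j))) :
    SPB65.BadSample (optU U) C ρ ω := by
  classical
  unfold FewOp at h
  push Not at h
  obtain ⟨T, hT1, hT2, hT3⟩ := h
  refine ⟨LinearMap.toContinuousLinearMap T, ?_, ?_, ?_⟩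
  · refine ContinuousLinearMap.opNorm_le_bound _ (by positivity) fun z => ?_
    refine (hT1 z).trans ?_
    have : 2 * C / ρ ≤ 4 * C / ρ := by
      gcongr; norm_num
    exact mul_le_mul_of_nonneg_right this (norm_nonneg _)
  · intro i
    obtain ⟨c, hc1, hc2⟩ := hT2 i
    refine ⟨fun a => match a.2 with
      | none => 0
      | some p => c (p, a.1), ?_, ?_⟩
    · rw [Fintype.sum_prod_type]
      simp only [Fintype.sum_option, abs_zero, zero_add]
      rw [Fintype.sum_prod_type, Finset.sum_comm] at hc1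
      exact hc1
    · rw [Fintype.sum_prod_type]
      simp only [Fintype.sum_option, zero_smul, zero_add]
      have e : ∑ x, ∑ p, c (p, x) • (optU U (some p)) (SPB65.gv (ω x)) =
          ∑ q : P × Fin m, c q • U q.1 (sv (ω q.2)) := by
        rw [Fintype.sum_prod_type, Finset.sum_comm]
        refine Finset.sum_congr rfl fun p _ => Finset.sum_congr rfl fun x _ => ?_
        rw [sv_eq_gv]
        rfl
      rw [e, ← sv_eq_gv]
      exact hc2
  · intro c hc
    have h1 : ∑ p, |c (some p)| ≤ C := by
      rw [Fintype.sum_option] at hc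
      have := abs_nonneg (c none)
      linarith
    have h2 := hT3 (fun p => c (some p)) h1
    refine h2.trans_le (le_of_eq ?_)
    unfold hs2 SPB65.hs2
    refine Finset.sum_congr rfl fun l _ => ?_
    congr 2
    have e1 : (∑ p, c p • optU U p) (EuclideanSpace.single l (1 : ℝ)) =
        ∑ p, c p • (optU U p (EuclideanSpace.single l (1 : ℝ))) := by
      rw [_root_.sum_apply]
      rfl
    have e2 : (LinearMap.toContinuousLinearMap T - ∑ p, c p • optU U p)
        (EuclideanSpace.single l (1 : ℝ)) =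
        T (EuclideanSpace.single l (1 : ℝ)) -
          ∑ p, c p • (optU U p (EuclideanSpace.single l (1 : ℝ))) := by
      rw [_root_.sub_apply, e1]; rfl
    rw [e2, Fintype.sum_option]
    have e3 : optU U none (EuclideanSpace.single l (1 : ℝ)) = 0 := rfl
    rw [e3, smul_zero, zero_add, LinearMap.sub_apply, LinearMap.sum_apply]
    rfl

theorem fewOp_holds : FewOpStmt := by
  classical
  intro P _ C ρ hC hρ hρ1
  obtain ⟨N₀, hN₀⟩ := SPB65.few_operators hC hρ hρ1 5
  refine ⟨max N₀ (Fintype.card P + 1), fun ι _ _ hι U hU => ?_⟩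
  have h1 : 1 ≤ Fintype.card ι := by
    have := (le_max_right N₀ (Fintype.card P + 1)).trans hι
    omega
  have hnorm : ∀ p, ‖optU U p‖ ≤ 2 := by
    intro p
    match p with
    | none => 
      have : optU U none = 0 := rfl
      rw [this, norm_zero]; norm_num
    | some p => exact ContinuousLinearMap.opNorm_le_bound _ (by norm_num) fun z => hU p z
  have h := hN₀ ι (Option P) (optU U) hnorm ((le_max_left _ _).trans hι)
    (by rw [Fintype.card_option]; exact (le_max_right _ _).trans hι) (Fintype.card ι ^ 5)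
    (Nat.pow_le_pow_right h1 (by norm_num)) le_rfl
  have hcard : (Fintype.card (Fin (Fintype.card ι ^ 5) → (ι → Bool)) : ℝ) =
      (2 ^ Fintype.card ι) ^ (Fintype.card ι ^ 5) := by
    rw [Fintype.card_fun, Fintype.card_fun, Fintype.card_bool, Fintype.card_fin]
    push_cast; rfl
  rw [hcard]
  have hle : cnt (fun ω : Fin (Fintype.card ι ^ 5) → (ι → Bool) =>
        ¬ FewOp U C ρ (fun j => sv (ω j))) ≤
      1 / 8 * (2 ^ Fintype.card ι) ^ (Fintype.card ι ^ 5) := by
    refine le_trans ?_ h
    unfold cnt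
    refine Nat.cast_le.2 (card_le_card ?_)
    intro ω hω
    simp only [mem_filter, mem_univ, true_and] at hω ⊢
    exact badSample_of_not_fewOp U hC hρ ω hω
  refine hle.trans ?_
  have : (0 : ℝ) ≤ (2 ^ Fintype.card ι) ^ (Fintype.card ι ^ 5) := by positivity
  linarith

end SPB
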