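import Pool.Agent.SPB.Defs

/-!
# Traces and Hilbert-Schmidt norms on Euclidean spaces
-/

set_option linter.unusedSectionVars false

namespace SPB

open scoped BigOperators InnerProductSpace

variable {ι κ ν : Type} [Fintype ι] [DecidableEq ι] [Fintype κ] [DecidableEq κ]
  [Fintype ν] [DecidableEq ν]

theorem bv_apply (l k : ι) : (bv l) k = if k = l then (1 : ℝ) else 0 := by
  unfold bv
  simp [PiLp.single_apply]

theorem norm_bv (l : ι) : ‖bv l‖ = 1 := by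
  unfold bv
  simp

theorem inner_bv (l : ι) (z : EuclideanSpace ℝ ι) : ⟪bv l, z⟫_ℝ = z l := by
  unfold bv
  rw [EuclideanSpace.inner_single_left]
  simp

theorem sum_bv (z : EuclideanSpace ℝ ι) : ∑ l, z l • bv l = z := by
  ext k
  simp [bv_apply]

theorem sq_norm_eq (z : EuclideanSpace ℝ ι) : ‖z‖ ^ 2 = ∑ l, z l ^ 2 := by
  rw [EuclideanSpace.norm_sq_eq]
  simp

theorem tr_zero : tr (0 : EuclideanSpace ℝ ι →ₗ[ℝ] EuclideanSpace ℝ ι) = 0 := by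
  simp [tr]

theorem tr_add (S T : EuclideanSpace ℝ ι →ₗ[ℝ] EuclideanSpace ℝ ι) :
    tr (S + T) = tr S + tr T := by
  simp [tr, Finset.sum_add_distrib]

theorem tr_sub (S T : EuclideanSpace ℝ ι →ₗ[ℝ] EuclideanSpace ℝ ι) :
    tr (S - T) = tr S - tr T := by
  simp [tr, Finset.sum_sub_distrib]

theorem tr_neg (T : EuclideanSpace ℝ ι →ₗ[ℝ] EuclideanSpace ℝ ι) :
    tr (-T) = -tr T := by
  simp [tr, Finset.sum_neg_distrib]

theorem tr_smul (c : ℝ) (T : EuclideanSpace ℝ ι →ₗ[ℝ] EuclideanSpace ℝ ι) :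
    tr (c • T) = c * tr T := by
  simp [tr, Finset.mul_sum]

theorem apply_eq_sum (A : EuclideanSpace ℝ ι →ₗ[ℝ] EuclideanSpace ℝ κ) (z : EuclideanSpace ℝ ι)
    (k : κ) : (A z) k = ∑ l, z l * (A (bv l)) k := by
  conv_lhs => rw [← sum_bv z]
  rw [map_sum]
  simp

theorem tr_comm (A : EuclideanSpace ℝ ι →ₗ[ℝ] EuclideanSpace ℝ κ)
    (B : EuclideanSpace ℝ κ →ₗ[ℝ] EuclideanSpace ℝ ι) : tr (B ∘ₗ A) = tr (A ∘ₗ B) := by
  unfold tr
  simp only [LinearMap.comp_apply]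
  have h1 : ∀ l : ι, (B (A (bv l))) l = ∑ k, (A (bv l)) k * (B (bv k)) l := fun l =>
    apply_eq_sum B (A (bv l)) l
  have h2 : ∀ k : κ, (A (B (bv k))) k = ∑ l, (B (bv k)) l * (A (bv l)) k := fun k =>
    apply_eq_sum A (B (bv k)) k
  simp only [h1, h2]
  rw [Finset.sum_comm]
  refine Finset.sum_congr rfl fun k _ => Finset.sum_congr rfl fun l _ => ?_
  ring

theorem hs2_nonneg {F : Type} [NormedAddCommGroup F] [NormedSpace ℝ F]
    (T : EuclideanSpace ℝ ι →ₗ[ℝ] F) : 0 ≤ hs2 T :=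
  Finset.sum_nonneg fun _ _ => by positivity

theorem hs2_eq_sum (T : EuclideanSpace ℝ ι →ₗ[ℝ] EuclideanSpace ℝ κ) :
    hs2 T = ∑ l, ∑ k, ((T (bv l)) k) ^ 2 := by
  unfold hs2
  simp only [sq_norm_eq]

theorem hs2_neg {F : Type} [NormedAddCommGroup F] [NormedSpace ℝ F]
    (T : EuclideanSpace ℝ ι →ₗ[ℝ] F) : hs2 (-T) = hs2 T := by
  simp [hs2]

theorem hs2_smul {F : Type} [NormedAddCommGroup F] [NormedSpace ℝ F] (c : ℝ)
    (T : EuclideanSpace ℝ ι →ₗ[ℝ] F) : hs2 (c • T) = c ^ 2 * hs2 T := by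
  simp [hs2, norm_smul, mul_pow, Finset.mul_sum]

/-- Left composition. -/
theorem hs2_comp_left {F G : Type} [NormedAddCommGroup F] [NormedSpace ℝ F]
    [NormedAddCommGroup G] [NormedSpace ℝ G] (A : EuclideanSpace ℝ ι →ₗ[ℝ] F) (t : F →ₗ[ℝ] G)
    {c : ℝ} (ht : ∀ z, ‖t z‖ ≤ c * ‖z‖) : hs2 (t ∘ₗ A) ≤ c ^ 2 * hs2 A := by
  unfold hs2
  rw [Finset.mul_sum]
  refine Finset.sum_le_sum fun l _ => ?_
  rw [← mul_pow]
  exact pow_le_pow_left₀ (norm_nonneg _) (ht _) 2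

/-- Transpose. -/
noncomputable def tp (A : EuclideanSpace ℝ ι →ₗ[ℝ] EuclideanSpace ℝ κ) :
    EuclideanSpace ℝ κ →ₗ[ℝ] EuclideanSpace ℝ ι := LinearMap.adjoint A

theorem inner_tp (A : EuclideanSpace ℝ ι →ₗ[ℝ] EuclideanSpace ℝ κ) (x : EuclideanSpace ℝ κ)
    (y : EuclideanSpace ℝ ι) : ⟪tp A x, y⟫_ℝ = ⟪x, A y⟫_ℝ :=
  LinearMap.adjoint_inner_left A y x

theorem tp_bv (A : EuclideanSpace ℝ ι →ₗ[ℝ] EuclideanSpace ℝ κ) (k : κ) (l : ι) :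
    (tp A (bv k)) l = (A (bv l)) k := by
  rw [← inner_bv l, real_inner_comm, inner_tp, inner_bv]

theorem hs2_tp (A : EuclideanSpace ℝ ι →ₗ[ℝ] EuclideanSpace ℝ κ) : hs2 (tp A) = hs2 A := by
  rw [hs2_eq_sum, hs2_eq_sum, Finset.sum_comm]
  refine Finset.sum_congr rfl fun k _ => Finset.sum_congr rfl fun l _ => ?_
  rw [tp_bv]

theorem norm_tp_le (t : EuclideanSpace ℝ ι →ₗ[ℝ] EuclideanSpace ℝ κ) {c : ℝ} (hc : 0 ≤ c)
    (ht : ∀ z, ‖t z‖ ≤ c * ‖z‖) (x : EuclideanSpace ℝ κ) : ‖tp t x‖ ≤ c * ‖x‖ := by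
  by_cases h0 : ‖tp t x‖ = 0
  · rw [h0]
    positivity
  · have h1 : ‖tp t x‖ ^ 2 ≤ ‖x‖ * (c * ‖tp t x‖) := by
      rw [← real_inner_self_eq_norm_sq, inner_tp]
      calc ⟪x, t (tp t x)⟫_ℝ ≤ ‖x‖ * ‖t (tp t x)‖ := real_inner_le_norm _ _
        _ ≤ ‖x‖ * (c * ‖tp t x‖) := by gcongr; exact ht _
    have h2 : 0 < ‖tp t x‖ := lt_of_le_of_ne (norm_nonneg _) (Ne.symm h0)
    nlinarith

theorem tp_comp (A : EuclideanSpace ℝ κ →ₗ[ℝ] EuclideanSpace ℝ ν)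
    (t : EuclideanSpace ℝ ι →ₗ[ℝ] EuclideanSpace ℝ κ) : tp (A ∘ₗ t) = tp t ∘ₗ tp A :=
  LinearMap.adjoint_comp A t

/-- Right composition. -/
theorem hs2_comp_right (A : EuclideanSpace ℝ κ →ₗ[ℝ] EuclideanSpace ℝ ν)
    (t : EuclideanSpace ℝ ι →ₗ[ℝ] EuclideanSpace ℝ κ) {c : ℝ} (hc : 0 ≤ c)
    (ht : ∀ z, ‖t z‖ ≤ c * ‖z‖) : hs2 (A ∘ₗ t) ≤ c ^ 2 * hs2 A := by
  rw [← hs2_tp (A ∘ₗ t), ← hs2_tp A, tp_comp]
  exact hs2_comp_left _ _ (norm_tp_le t hc ht)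

/-- Cauchy-Schwarz for the trace. -/
theorem abs_tr_comp_le (A : EuclideanSpace ℝ ι →ₗ[ℝ] EuclideanSpace ℝ κ)
    (B : EuclideanSpace ℝ κ →ₗ[ℝ] EuclideanSpace ℝ ι) :
    |tr (B ∘ₗ A)| ≤ √(hs2 B) * √(hs2 A) := by
  have h1 : tr (B ∘ₗ A) = ∑ p : ι × κ, (B (bv p.2)) p.1 * (A (bv p.1)) p.2 := by
    unfold tr
    rw [Fintype.sum_prod_type]
    refine Finset.sum_congr rfl fun l _ => ?_
    rw [LinearMap.comp_apply, apply_eq_sum B]
    refine Finset.sum_congr rfl fun k _ => ?_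
    ring
  have h2 : hs2 B = ∑ p : ι × κ, ((B (bv p.2)) p.1) ^ 2 := by
    rw [hs2_eq_sum, Fintype.sum_prod_type, Finset.sum_comm]
  have h3 : hs2 A = ∑ p : ι × κ, ((A (bv p.1)) p.2) ^ 2 := by
    rw [hs2_eq_sum, Fintype.sum_prod_type]
  rw [← Real.sqrt_mul (hs2_nonneg B), h1]
  apply Real.abs_le_sqrt
  rw [h2, h3]
  exact Finset.sum_mul_sq_le_sq_mul_sq _ _ _

/-- The matrix of an operator as a Euclidean vector. -/
noncomputable def vecOf (A : EuclideanSpace ℝ ι →ₗ[ℝ] EuclideanSpace ℝ κ) :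
    EuclideanSpace ℝ (ι × κ) := WithLp.toLp 2 fun p => (A (bv p.1)) p.2

theorem norm_vecOf (A : EuclideanSpace ℝ ι →ₗ[ℝ] EuclideanSpace ℝ κ) :
    ‖vecOf A‖ = √(hs2 A) := by
  have : ‖vecOf A‖ ^ 2 = hs2 A := by
    rw [sq_norm_eq, hs2_eq_sum, Fintype.sum_prod_type]
    rfl
  rw [← this, Real.sqrt_sq (norm_nonneg _)]

theorem vecOf_add (A B : EuclideanSpace ℝ ι →ₗ[ℝ] EuclideanSpace ℝ κ) :
    vecOf (A + B) = vecOf A + vecOf B := by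
  ext p
  simp [vecOf]

/-- Triangle inequality. -/
theorem sqrt_hs2_add_le (A B : EuclideanSpace ℝ ι →ₗ[ℝ] EuclideanSpace ℝ κ) :
    √(hs2 (A + B)) ≤ √(hs2 A) + √(hs2 B) := by
  rw [← norm_vecOf, ← norm_vecOf, ← norm_vecOf, vecOf_add]
  exact norm_add_le _ _

theorem sqrt_hs2_sub_le (A B : EuclideanSpace ℝ ι →ₗ[ℝ] EuclideanSpace ℝ κ) :
    √(hs2 (A - B)) ≤ √(hs2 A) + √(hs2 B) := by
  rw [sub_eq_add_neg, ← hs2_neg B]
  exact sqrt_hs2_add_le _ _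

theorem hs2_le_of_bound {F : Type} [NormedAddCommGroup F] [NormedSpace ℝ F]
    (T : EuclideanSpace ℝ ι →ₗ[ℝ] F) {c : ℝ} (hT : ∀ z, ‖T z‖ ≤ c * ‖z‖) :
    hs2 T ≤ c ^ 2 * Fintype.card ι := by
  unfold hs2
  calc ∑ l, ‖T (bv l)‖ ^ 2 ≤ ∑ _l : ι, c ^ 2 := by
        refine Finset.sum_le_sum fun l _ => ?_
        have := hT (bv l)
        rw [norm_bv, mul_one] at this
        exact pow_le_pow_left₀ (norm_nonneg _) this 2
    _ = c ^ 2 * Fintype.card ι := by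
        rw [Finset.sum_const, Finset.card_univ, nsmul_eq_mul, mul_comm]

theorem norm_apply_le (T : EuclideanSpace ℝ ι →ₗ[ℝ] EuclideanSpace ℝ κ)
    (z : EuclideanSpace ℝ ι) : ‖T z‖ ≤ √(hs2 T) * ‖z‖ := by
  have h1 : ‖T z‖ ≤ ∑ l, |z l| * ‖T (bv l)‖ := by
    conv_lhs => rw [← sum_bv z]
    rw [map_sum]
    refine (norm_sum_le _ _).trans (le_of_eq ?_)
    refine Finset.sum_congr rfl fun l _ => ?_
    rw [map_smul, norm_smul, Real.norm_eq_abs]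
  refine h1.trans ?_
  have h2 : (∑ l, |z l| * ‖T (bv l)‖) ≤ √(∑ l, |z l| ^ 2) * √(∑ l, ‖T (bv l)‖ ^ 2) :=
    Real.sum_mul_le_sqrt_mul_sqrt _ _ _
  refine h2.trans (le_of_eq ?_)
  have h3 : ∑ l, |z l| ^ 2 = ‖z‖ ^ 2 := by
    rw [sq_norm_eq]
    refine Finset.sum_congr rfl fun l _ => ?_
    rw [sq_abs]
  rw [h3, Real.sqrt_sq (norm_nonneg _), mul_comm]
  rfl

/-- Trace of a bounded operator. -/
theorem abs_tr_le_card (T : EuclideanSpace ℝ ι →ₗ[ℝ] EuclideanSpace ℝ ι) {c : ℝ}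
    (hT : ∀ z, ‖T z‖ ≤ c * ‖z‖) : |tr T| ≤ c * Fintype.card ι := by
  unfold tr
  calc |∑ l, (T (bv l)) l| ≤ ∑ l, |(T (bv l)) l| := Finset.abs_sum_le_sum_abs _ _
    _ ≤ ∑ _l : ι, c := by
        refine Finset.sum_le_sum fun l _ => ?_
        rw [← inner_bv l (T (bv l))]
        calc |⟪bv l, T (bv l)⟫_ℝ| ≤ ‖bv l‖ * ‖T (bv l)‖ := abs_real_inner_le_norm _ _
          _ ≤ 1 * (c * 1) := by
              rw [norm_bv]
              have := hT (bv l)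
              rw [norm_bv] at this
              linarith
          _ = c := by ring
    _ = c * Fintype.card ι := by
        rw [Finset.sum_const, Finset.card_univ, nsmul_eq_mul, mul_comm]

/-- Trace of a rank one operator times a contraction. -/
theorem abs_tr_rank_one (T t : EuclideanSpace ℝ ι →ₗ[ℝ] EuclideanSpace ℝ ι) {c : ℝ}
    (e : EuclideanSpace ℝ ι) (hr : ∀ z, T z ∈ Submodule.span ℝ {e})
    (hT : ∀ z, ‖T z‖ ≤ c * ‖z‖) (ht : ∀ z, ‖t z‖ ≤ ‖z‖) (hc : 0 ≤ c) :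
    |tr (t ∘ₗ T)| ≤ c := by
  -- T z = φ z • e
  have h1 : ∀ l, ∃ a : ℝ, a • e = T (bv l) := fun l => Submodule.mem_span_singleton.mp (hr _)
  choose a ha using h1
  set v : EuclideanSpace ℝ ι := WithLp.toLp 2 a with hv
  have hTz : ∀ z, T z = (∑ l, z l * a l) • e := by
    intro z
    conv_lhs => rw [← sum_bv z]
    rw [map_sum, Finset.sum_smul]
    refine Finset.sum_congr rfl fun l _ => ?_
    rw [map_smul, ← ha l, smul_smul]
  have htr : tr (t ∘ₗ T) = ∑ l, (t e) l * a l := by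
    unfold tr
    refine Finset.sum_congr rfl fun l _ => ?_
    rw [LinearMap.comp_apply, ← ha l, map_smul]
    simp [mul_comm]
  have h2 : T (t e) = (tr (t ∘ₗ T)) • e := by rw [htr]; exact hTz _
  by_cases he : e = 0
  · have : tr (t ∘ₗ T) = 0 := by rw [htr, he]; simp
    rw [this, abs_zero]
    exact hc
  · have h3 : 0 < ‖e‖ := norm_pos_iff.mpr he
    have h4 : |tr (t ∘ₗ T)| * ‖e‖ ≤ c * ‖e‖ := by
      calc |tr (t ∘ₗ T)| * ‖e‖ = ‖T (t e)‖ := by rw [h2, norm_smul, Real.norm_eq_abs]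
        _ ≤ c * ‖t e‖ := hT _
        _ ≤ c * ‖e‖ := by gcongr; exact ht e
    exact le_of_mul_le_mul_right h4 h3

end SPB
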