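import Pool.Agent.SPB.Stmts
import Pool.Agent.Lib_helper65.SPB.FourLeaves

/-! M6: the four leaves obstruction, averaged form. -/

namespace SPB

open Finset SPB65

section avg

variable {D : ℕ → ℕ → ℝ} {h : ℕ} {ε : ℝ}

/-- the relations of a node, for all times -/
def NodeRel (D : ℕ → ℕ → ℝ) (h : ℕ) (ε : ℝ) (v : ℕ × ℕ × ℕ) : Prop :=
  ∀ n n' : ℕ, n ≤ n' →
      (∑ τ ∈ Finset.range h, |D n (v.1 + τ) * D n' (v.1 + τ) - D n (v.1 + τ)| ≤ ε * h) ∧
      (∑ τ ∈ Finset.range h, |D n (v.2.2 + τ) * D n' (v.2.2 + τ) - D n (v.2.2 + τ)| ≤ ε * h) ∧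
      (∑ τ ∈ Finset.range h, |D n (v.1 + τ) * (D n' (v.2.1 + τ) - D n' (v.2.2 + τ))
          + (D n (v.2.1 + τ) - D n (v.2.2 + τ)) * D n' (v.2.2 + τ)
          - (D n (v.2.1 + τ) - D n (v.2.2 + τ))| ≤ ε * h) ∧
      (∑ τ ∈ Finset.range h, |D n' (v.1 + τ) * (D n (v.2.1 + τ) - D n (v.2.2 + τ))
          + (D n' (v.2.1 + τ) - D n' (v.2.2 + τ)) * D n (v.2.2 + τ)
          - (D n (v.2.1 + τ) - D n (v.2.2 + τ))| ≤ ε * h)

/-- the time `n` is half-way at some block in `[lo, hi]` -/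
def HalfA (D : ℕ → ℕ → ℝ) (h : ℕ) (ε : ℝ) (n lo hi : ℕ) : Prop :=
  ∃ a, lo ≤ a ∧ a + h ≤ hi ∧ |(∑ τ ∈ Finset.range h, D n (a + τ)) / h - 1 / 2| ≤ 1 / 10 ∧
    ∀ n1 n2, n1 ≤ n2 →
      ∑ τ ∈ Finset.range h, |D n1 (a + τ) * D n2 (a + τ) - D n1 (a + τ)| ≤ ε * h

lemma HalfA.mono {n lo hi lo' hi' : ℕ} (hh : HalfA D h ε n lo hi) (h1 : lo' ≤ lo) (h2 : hi ≤ hi') :
    HalfA D h ε n lo' hi' := by
  obtain ⟨a, h3, h4, h5, h6⟩ := hh
  exact ⟨a, h1.trans h3, h4.trans h2, h5, h6⟩

lemma exists_le_of_avg (hh : 0 < h) {f : ℕ → ℝ} {c : ℝ} (hf : ∑ τ ∈ range h, f τ ≤ c * h) :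
    ∃ τ < h, f τ ≤ c := by
  by_contra hcon
  push Not at hcon
  have h1 : ∑ τ ∈ range h, c < ∑ τ ∈ range h, f τ :=
    sum_lt_sum_of_nonempty ⟨0, mem_range.2 hh⟩ fun τ hτ => hcon τ (mem_range.1 hτ)
  rw [sum_const, card_range, nsmul_eq_mul] at h1
  linarith

lemma exists_classA (hh : 0 < h) (hε : ε ≤ 1 / 100) {n lo l r hi : ℕ} {v : ℕ × ℕ × ℕ}
    (hv : NodeRel D h ε v) (h1 : lo ≤ v.1) (h2 : v.1 + h ≤ l) (h4 : r ≤ v.2.2)
    (h5 : v.2.2 + h ≤ hi) (hvr : vr (D n) lo l + vr (D n) r hi < 1 / 10) :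
    ∃ k, k ≤ 2 ∧ Cl D n lo l r hi k := by
  obtain ⟨ga, gc, -, -⟩ := hv n n le_rfl
  obtain ⟨τ, hτ, ga⟩ := exists_le_of_avg hh ga
  obtain ⟨τ', hτ', gc⟩ := exists_le_of_avg hh gc
  have v1 := vr_nonneg (D n) lo l
  have v2 := vr_nonneg (D n) r hi
  have L : ∀ s : ℝ, |D n (v.1 + τ) - s| ≤ 2 * ε → ∀ p, lo ≤ p → p ≤ l →
      |D n p - s| ≤ 12 / 100 := by
    intro s hs p hp hp'
    have e1 := abs_sub_le_vr' (D n) hp hp' (q := v.1 + τ) (by omega) (by omega)
    have e2 : |D n p - s| ≤ |D n p - D n (v.1 + τ)| + |D n (v.1 + τ) - s| := abs_sub_le _ _ _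
    linarith
  have R : ∀ s : ℝ, |D n (v.2.2 + τ') - s| ≤ 2 * ε → ∀ p, r ≤ p → p ≤ hi →
      |D n p - s| ≤ 12 / 100 := by
    intro s hs p hp hp'
    have e1 := abs_sub_le_vr' (D n) hp hp' (q := v.2.2 + τ') (by omega) (by omega)
    have e2 : |D n p - s| ≤ |D n p - D n (v.2.2 + τ')| + |D n (v.2.2 + τ') - s| := abs_sub_le _ _ _
    linarith
  rcases near01 ga with ha | ha <;> rcases near01 gc with hc | hc
  · exact ⟨0, by norm_num, 0, 0, by simp, L 0 ha, R 0 hc⟩
  · exact ⟨2, by norm_num, 0, 1, by simp, L 0 ha, R 1 hc⟩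
  · exact ⟨2, by norm_num, 1, 0, by simp, L 1 ha, R 0 hc⟩
  · exact ⟨1, by norm_num, 1, 1, by simp, L 1 ha, R 1 hc⟩

/-- if `y ≈ 0` on the block and `x y ≈ x` then `x ≈ 0` on average: contradiction with half-way -/
lemma zero_contra (hh : 0 < h) (hε : ε ≤ 1 / 100) {a : ℕ} {x y : ℕ → ℝ}
    (hx : |(∑ τ ∈ Finset.range h, x (a + τ)) / h - 1 / 2| ≤ 1 / 10)
    (hy : ∀ τ < h, |y (a + τ)| ≤ 12 / 100)
    (hr : ∑ τ ∈ Finset.range h, |x (a + τ) * y (a + τ) - x (a + τ)| ≤ ε * h) : False := by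
  have hh0 : (0 : ℝ) < h := Nat.cast_pos.2 hh
  have h1 : ∑ τ ∈ range h, 88 / 100 * x (a + τ) ≤ ε * h := by
    refine le_trans (sum_le_sum fun τ hτ => ?_) hr
    have h2 := hy τ (mem_range.1 hτ)
    have e : x (a + τ) * y (a + τ) - x (a + τ) = -(x (a + τ) * (1 - y (a + τ))) := by ring
    rw [e, abs_neg, abs_mul]
    have h3 := (abs_le.1 h2).2
    have h4 : 88 / 100 ≤ |1 - y (a + τ)| := by
      rw [abs_of_nonneg (by linarith)]; linarith
    have h5 := le_abs_self (x (a + τ))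
    have h6 := abs_nonneg (x (a + τ))
    nlinarith
  rw [← mul_sum] at h1
  have h2 := (abs_le.1 hx).1
  have h3 : 4 / 10 * (h : ℝ) ≤ ∑ τ ∈ range h, x (a + τ) := by
    have : 4 / 10 ≤ (∑ τ ∈ Finset.range h, x (a + τ)) / h := by linarith
    rwa [le_div_iff₀ hh0] at this
  nlinarith

/-- if `x ≈ 1` on the block and `x y ≈ x` then `y ≈ 1` on average -/
lemma one_contra (hh : 0 < h) (hε : ε ≤ 1 / 100) {a : ℕ} {x y : ℕ → ℝ}
    (hy : |(∑ τ ∈ Finset.range h, y (a + τ)) / h - 1 / 2| ≤ 1 / 10)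
    (hx : ∀ τ < h, |x (a + τ) - 1| ≤ 12 / 100)
    (hr : ∑ τ ∈ Finset.range h, |x (a + τ) * y (a + τ) - x (a + τ)| ≤ ε * h) : False := by
  have hh0 : (0 : ℝ) < h := Nat.cast_pos.2 hh
  have h1 : ∑ τ ∈ range h, 88 / 100 * (1 - y (a + τ)) ≤ ε * h := by
    refine le_trans (sum_le_sum fun τ hτ => ?_) hr
    have h2 := hx τ (mem_range.1 hτ)
    have e : x (a + τ) * y (a + τ) - x (a + τ) = -(x (a + τ) * (1 - y (a + τ))) := by ring
    rw [e, abs_neg, abs_mul]
    have h3 := (abs_le.1 h2).1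
    have h4 : 88 / 100 ≤ |x (a + τ)| := by
      rw [abs_of_nonneg (by linarith)]; linarith
    have h5 := le_abs_self (1 - y (a + τ))
    have h6 := abs_nonneg (1 - y (a + τ))
    nlinarith
  rw [← mul_sum, sum_sub_distrib, sum_const, card_range, nsmul_eq_mul, mul_one] at h1
  have h2 := (abs_le.1 hy).2
  have h3 : ∑ τ ∈ range h, y (a + τ) ≤ 6 / 10 * (h : ℝ) := by
    have : (∑ τ ∈ Finset.range h, y (a + τ)) / h ≤ 6 / 10 := by linarith
    rwa [div_le_iff₀ hh0] at this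
  nlinarith

lemma pair_contraA (hh : 0 < h) (hε : ε ≤ 1 / 100) {lo hi l r l' r' n n' k k' : ℕ}
    {v : ℕ × ℕ × ℕ} (hv : NodeRel D h ε v)
    (h1 : lo ≤ v.1) (h2 : v.1 + h ≤ l) (h4 : r ≤ v.2.1) (h5 : v.2.1 + h ≤ l')
    (h7 : r' ≤ v.2.2) (h8 : v.2.2 + h ≤ hi) (hlr : l ≤ r) (hlr' : l' ≤ r')
    (hc : Cl D n lo l r hi k) (hc' : Cl D n' lo l' r' hi k') (hW : HalfA D h ε n l r)
    (hW' : HalfA D h ε n' l' r') : k ≠ k' := by
  intro hkk
  subst hkk
  obtain ⟨s, t, hst, hL, hR⟩ := hc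
  obtain ⟨s', t', hst', hL', hR'⟩ := hc'
  obtain ⟨a, w1, w2, w3, w4⟩ := hW
  obtain ⟨a', w1', w2', w3', w4'⟩ := hW'
  rcases hst with ⟨rfl, rfl, rfl⟩ | ⟨rfl, rfl, rfl⟩ | ⟨rfl, hst⟩
  · -- class (0,0)
    rcases hst' with ⟨_, rfl, rfl⟩ | ⟨h, _, _⟩ | ⟨h, _⟩
    · rcases le_total n n' with hle | hle
      · refine zero_contra hh hε w3 (fun τ hτ => ?_) (w4 n n' hle)
        have := hL' (a + τ) (by omega) (by omega)
        rwa [sub_zero] at this
      · refine zero_contra hh hε w3' (fun τ hτ => ?_) (w4' n' n hle)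
        have := hR (a' + τ) (by omega) (by omega)
        rwa [sub_zero] at this
    · omega
    · omega
  · -- class (1,1)
    rcases hst' with ⟨h, _, _⟩ | ⟨_, rfl, rfl⟩ | ⟨h, _⟩
    · omega
    · rcases le_total n n' with hle | hle
      · exact one_contra hh hε w3' (fun τ hτ => hR (a' + τ) (by omega) (by omega)) (w4' n n' hle)
      · exact one_contra hh hε w3 (fun τ hτ => hL' (a + τ) (by omega) (by omega)) (w4 n' n hle)
    · omega
  · -- mixed
    rcases hst' with ⟨h, _, _⟩ | ⟨h, _, _⟩ | ⟨_, hst'⟩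
    · omega
    · omega
    · obtain ⟨τ, hτ, hcomm⟩ : ∃ τ < h, |D n (v.1 + τ) * (D n' (v.2.1 + τ) - D n' (v.2.2 + τ)) +
          (D n (v.2.1 + τ) - D n (v.2.2 + τ)) * D n' (v.2.2 + τ) -
          (D n' (v.1 + τ) * (D n (v.2.1 + τ) - D n (v.2.2 + τ)) +
            (D n' (v.2.1 + τ) - D n' (v.2.2 + τ)) * D n (v.2.2 + τ))| ≤ 2 * ε := by
        rcases le_total n n' with hle | hle
        · obtain ⟨-, -, g1, g2⟩ := hv n n' hle
          have g3 := add_le_add g1 g2
          rw [← sum_add_distrib] at g3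
          obtain ⟨τ, hτ, g4⟩ := exists_le_of_avg (c := 2 * ε) hh (g3.trans (by linarith))
          refine ⟨τ, hτ, ?_⟩
          refine le_trans ?_ g4
          refine le_trans (le_of_eq ?_) (abs_sub _ _)
          congr 1; ring
        · obtain ⟨-, -, g1, g2⟩ := hv n' n hle
          have g3 := add_le_add g1 g2
          rw [← sum_add_distrib] at g3
          obtain ⟨τ, hτ, g4⟩ := exists_le_of_avg (c := 2 * ε) hh (g3.trans (by linarith))
          refine ⟨τ, hτ, ?_⟩
          refine le_trans ?_ g4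
          rw [add_comm |D n' (v.1 + τ) * (D n (v.2.1 + τ) - D n (v.2.2 + τ))
          + (D n' (v.2.1 + τ) - D n' (v.2.2 + τ)) * D n (v.2.2 + τ)
          - (D n' (v.2.1 + τ) - D n' (v.2.2 + τ))|]
          refine le_trans (le_of_eq ?_) (abs_sub _ _)
          congr 1; ring
      have a1 := hL (v.1 + τ) (by omega) (by omega)
      have a2 := hR (v.2.1 + τ) (by omega) (by omega)
      have a3 := hR (v.2.2 + τ) (by omega) (by omega)
      have b1 := hL' (v.1 + τ) (by omega) (by omega)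
      have b2 := hL' (v.2.1 + τ) (by omega) (by omega)
      have b3 := hR' (v.2.2 + τ) (by omega) (by omega)
      have hbe : |D n (v.2.1 + τ) - D n (v.2.2 + τ)| ≤ 24 / 100 := by
        have e : D n (v.2.1 + τ) - D n (v.2.2 + τ) =
          (D n (v.2.1 + τ) - t) - (D n (v.2.2 + τ) - t) := by ring
        rw [e]
        exact (abs_sub _ _).trans (by linarith)
      have hbe' : |D n' (v.2.1 + τ) - D n' (v.2.2 + τ) - (s' - t')| ≤ 24 / 100 := by
        have e : D n' (v.2.1 + τ) - D n' (v.2.2 + τ) - (s' - t') =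
          (D n' (v.2.1 + τ) - s') - (D n' (v.2.2 + τ) - t') := by ring
        rw [e]
        exact (abs_sub _ _).trans (by linarith)
      exact mixed_contra hε a1 hbe a3 b1 hbe' b3 hst hst' hcomm

theorem obstruction_aux (hh : 0 < h) (hε : ε ≤ 1 / 100) (e : ℕ) : ∀ o : ℕ,
    (∀ v ∈ nodes h (2 * e + 1) o, NodeRel D h ε v) →
    (∀ v ∈ nodes h (2 * e + 1) o, ∃ n : ℕ,
      |(∑ τ ∈ Finset.range h, D n (v.1 + τ)) / h - 1 / 2| ≤ 1 / 10) →
    ∃ n, HalfA D h ε n o (o + len h (2 * e + 1)) ∧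
      (e : ℝ) / 10 ≤ vr (D n) o (o + len h (2 * e + 1)) := by
  induction e with
  | zero =>
    intro o hrel hhalf
    have hmem : (o, o + h + len h 0, o + 2 * h + 2 * len h 0) ∈ nodes h (2 * 0 + 1) o :=
      Set.mem_insert _ _
    obtain ⟨n, hn⟩ := hhalf _ hmem
    refine ⟨n, ⟨o, le_rfl, ?_, hn, fun n1 n2 h12 => ?_⟩, ?_⟩
    · simp only [len]; omega
    · exact (hrel _ hmem n1 n2 h12).1
    · simpa using vr_nonneg (D n) _ _
  | succ e ih =>
    intro o hrel hhalf
    have e2 : 2 * (e + 1) + 1 = (2 * e + 1) + 2 := by ring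
    rw [e2] at hrel hhalf ⊢
    set L := len h (2 * e + 1) with hL
    have hL1 : len h (2 * e + 1 + 1) = 3 * h + 2 * L := rfl
    have hL2 : len h (2 * e + 1 + 2) = 3 * h + 2 * (3 * h + 2 * L) := rfl
    -- membership
    have hroot : (o, o + h + (3 * h + 2 * L), o + 2 * h + 2 * (3 * h + 2 * L)) ∈
        nodes h (2 * e + 1 + 2) o := Set.mem_insert _ _
    have hleft : nodes h (2 * e + 1 + 1) (o + h) ⊆ nodes h (2 * e + 1 + 2) o :=
      fun v hv => Set.mem_insert_of_mem _ (Or.inl hv)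
    have hright : nodes h (2 * e + 1 + 1) (o + 2 * h + (3 * h + 2 * L)) ⊆
        nodes h (2 * e + 1 + 2) o :=
      fun v hv => Set.mem_insert_of_mem _ (Or.inr hv)
    have hlc : (o + h, o + h + h + L, o + h + 2 * h + 2 * L) ∈ nodes h (2 * e + 1 + 2) o :=
      hleft (Set.mem_insert _ _)
    have hrc : (o + 2 * h + (3 * h + 2 * L), o + 2 * h + (3 * h + 2 * L) + h + L,
        o + 2 * h + (3 * h + 2 * L) + 2 * h + 2 * L) ∈ nodes h (2 * e + 1 + 2) o :=
      hright (Set.mem_insert _ _)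
    have g1 : nodes h (2 * e + 1) (o + h + h) ⊆ nodes h (2 * e + 1 + 2) o :=
      fun v hv => hleft (Set.mem_insert_of_mem _ (Or.inl hv))
    have g2 : nodes h (2 * e + 1) (o + h + 2 * h + L) ⊆ nodes h (2 * e + 1 + 2) o :=
      fun v hv => hleft (Set.mem_insert_of_mem _ (Or.inr hv))
    have g3 : nodes h (2 * e + 1) (o + 2 * h + (3 * h + 2 * L) + h) ⊆
        nodes h (2 * e + 1 + 2) o :=
      fun v hv => hright (Set.mem_insert_of_mem _ (Or.inl hv))
    have g4 : nodes h (2 * e + 1) (o + 2 * h + (3 * h + 2 * L) + 2 * h + L) ⊆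
        nodes h (2 * e + 1 + 2) o :=
      fun v hv => hright (Set.mem_insert_of_mem _ (Or.inr hv))
    obtain ⟨n1, H1, v1⟩ := ih (o + h + h) (fun v hv => hrel v (g1 hv)) (fun v hv => hhalf v (g1 hv))
    obtain ⟨n2, H2, v2⟩ := ih (o + h + 2 * h + L) (fun v hv => hrel v (g2 hv))
      (fun v hv => hhalf v (g2 hv))
    obtain ⟨n3, H3, v3⟩ := ih (o + 2 * h + (3 * h + 2 * L) + h) (fun v hv => hrel v (g3 hv))
      (fun v hv => hhalf v (g3 hv))
    obtain ⟨n4, H4, v4⟩ := ih (o + 2 * h + (3 * h + 2 * L) + 2 * h + L)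
      (fun v hv => hrel v (g4 hv)) (fun v hv => hhalf v (g4 hv))
    rw [hL2]
    set hi := o + (3 * h + 2 * (3 * h + 2 * L)) with hhi
    have hd : (((e + 1 : ℕ) : ℝ)) / 10 = (e : ℝ) / 10 + 1 / 10 := by push_cast; ring
    rw [hd]
    have step : ∀ n l r, HalfA D h ε n l r → o ≤ l → l ≤ r → r ≤ hi →
        (e : ℝ) / 10 ≤ vr (D n) l r →
        (∃ n, HalfA D h ε n o hi ∧ (e : ℝ) / 10 + 1 / 10 ≤ vr (D n) o hi) ∨
        vr (D n) o l + vr (D n) r hi < 1 / 10 := by
      intro n l r hH hl hlr hr hv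
      by_cases hcase : vr (D n) o l + vr (D n) r hi < 1 / 10
      · exact Or.inr hcase
      · left
        push Not at hcase
        refine ⟨n, hH.mono hl hr, ?_⟩
        rw [vr_add (D n) hl (hlr.trans hr), vr_add (D n) hlr hr]
        linarith
    rcases step n1 _ _ H1 (by omega) (by omega) (by omega) v1 with hres | o1
    · exact hres
    rcases step n2 _ _ H2 (by omega) (by omega) (by omega) v2 with hres | o2
    · exact hres
    rcases step n3 _ _ H3 (by omega) (by omega) (by omega) v3 with hres | o3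
    · exact hres
    rcases step n4 _ _ H4 (by omega) (by omega) (by omega) v4 with hres | o4
    · exact hres
    exfalso
    have R0 := hrel _ hroot
    have R1 := hrel _ hlc
    have R2 := hrel _ hrc
    obtain ⟨k1, hk1, C1⟩ := exists_classA hh hε R0 (n := n1) (lo := o) (hi := hi)
      (by simp only; omega) (by simp only; omega) (by simp only; omega) (by simp only; omega) o1
    obtain ⟨k2, hk2, C2⟩ := exists_classA hh hε R0 (n := n2) (lo := o) (hi := hi)
      (by simp only; omega) (by simp only; omega) (by simp only; omega) (by simp only; omega) o2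
    obtain ⟨k3, hk3, C3⟩ := exists_classA hh hε R0 (n := n3) (lo := o) (hi := hi)
      (by simp only; omega) (by simp only; omega) (by simp only; omega) (by simp only; omega) o3
    obtain ⟨k4, hk4, C4⟩ := exists_classA hh hε R0 (n := n4) (lo := o) (hi := hi)
      (by simp only; omega) (by simp only; omega) (by simp only; omega) (by simp only; omega) o4
    have p12 := pair_contraA hh hε R1 (by simp only; omega) (by simp only; omega)
      (by simp only; omega) (by simp only; omega) (by simp only; omega) (by simp only; omega)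
      (by omega) (by omega) C1 C2 H1 H2
    have p34 := pair_contraA hh hε R2 (by simp only; omega) (by simp only; omega)
      (by simp only; omega) (by simp only; omega) (by simp only; omega) (by simp only; omega)
      (by omega) (by omega) C3 C4 H3 H4
    have p13 := pair_contraA hh hε R0 (by simp only; omega) (by simp only; omega)
      (by simp only; omega) (by simp only; omega) (by simp only; omega) (by simp only; omega)
      (by omega) (by omega) C1 C3 H1 H3
    have p14 := pair_contraA hh hε R0 (by simp only; omega) (by simp only; omega)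
      (by simp only; omega) (by simp only; omega) (by simp only; omega) (by simp only; omega)
      (by omega) (by omega) C1 C4 H1 H4
    have p23 := pair_contraA hh hε R0 (by simp only; omega) (by simp only; omega)
      (by simp only; omega) (by simp only; omega) (by simp only; omega) (by simp only; omega)
      (by omega) (by omega) C2 C3 H2 H3
    have p24 := pair_contraA hh hε R0 (by simp only; omega) (by simp only; omega)
      (by simp only; omega) (by simp only; omega) (by simp only; omega) (by simp only; omega)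
      (by omega) (by omega) C2 C4 H2 H4
    omega

end avg

theorem obstruction_holds : ObstructionStmt := by
  intro h e D ε hh hε hrel hhalf
  obtain ⟨n, -, hn⟩ := obstruction_aux hh hε e 0 hrel hhalf
  refine ⟨n, ?_⟩
  rw [vr, zero_add, ← Finset.range_eq_Ico] at hn
  exact hn

end SPB
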