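import Pool.Agent.SPB.Stmts

/-!
# M3d: existence of a good sample
-/

namespace SPB

open Finset Filter Topology
open scoped BigOperators InnerProductSpace

/-- the Euclidean norm of the projections `U p` is at most `2` -/
lemma sample_U_norm_le (h d M p : ℕ) (z : VV h d M) : ‖U h d M p z‖ ≤ 2 * ‖z‖ := by
  have hst : ∀ q, st p q = 0 ∨ st p q = 1 := by
    intro q
    unfold st
    split_ifs
    · exact Or.inr rfl
    · exact Or.inl rfl
  have h1 : ‖U h d M p z‖ ^ 2 ≤ (2 * ‖z‖) ^ 2 := by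
    rw [mul_pow, EuclideanSpace.norm_sq_eq, EuclideanSpace.norm_sq_eq]
    simp only [Fintype.sum_prod_type, Fintype.sum_bool]
    rw [mul_sum]
    refine sum_le_sum fun π _ => ?_
    rw [← sum_add_distrib, ← sum_add_distrib, mul_sum]
    refine sum_le_sum fun μ _ => ?_
    have e1 : (U h d M p z) ((π, true), μ) = st p (pc h d π) * z ((π, true), μ) := rfl
    have e2 : (U h d M p z) ((π, false), μ) = st p (pa h d π) * z ((π, false), μ)
        + (st p (pb h d π) - st p (pc h d π)) * z ((π, true), μ) := rfl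
    rw [e1, e2]
    simp only [Real.norm_eq_abs, sq_abs]
    set x := z ((π, false), μ)
    set y := z ((π, true), μ)
    rcases hst (pa h d π) with ha | ha <;> rcases hst (pb h d π) with hb | hb <;>
      rcases hst (pc h d π) with hc | hc <;> rw [ha, hb, hc] <;>
      nlinarith [sq_nonneg (x - y), sq_nonneg (x + y), sq_nonneg x, sq_nonneg y]
  exact (abs_le_of_sq_le_sq' h1 (by positivity)).2

lemma cnt_eq_sample {Ω : Type} [Fintype Ω] (P : Ω → Prop) [DecidablePred P] :
    cnt P = ((univ.filter P).card : ℝ) := by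
  unfold cnt
  congr!

/-- the exponential term -/
lemma sample_exp (K : ℕ) {δ : ℝ} (hδ : 0 < δ) :
    Tendsto (fun M : ℕ => 2 * (((K * M : ℕ) : ℝ) ^ 5 * K) ^ 2 *
      Real.exp (-(δ ^ 2 * M / 2))) atTop (𝓝 0) := by
  have h1 := Real.tendsto_pow_mul_exp_neg_atTop_nhds_zero 10
  have h2 : Tendsto (fun M : ℕ => δ ^ 2 * (M : ℝ) / 2) atTop atTop := by
    apply Tendsto.atTop_div_const (by norm_num)
    exact Tendsto.const_mul_atTop (by positivity) tendsto_natCast_atTop_atTop
  have h3 := (h1.comp h2).const_mul (2 * (K : ℝ) ^ 12 * (2 / δ ^ 2) ^ 10)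
  rw [mul_zero] at h3
  refine h3.congr fun M => ?_
  simp only [Function.comp]
  rw [Nat.cast_mul]
  field_simp

/-- union bound for four bad events -/
lemma exists_good_of_cnt {Ω : Type} [Fintype Ω] (P1 P2 P3 P4 : Ω → Prop)
    (hlt : cnt (fun ω => ¬ P1 ω) + cnt (fun ω => ¬ P2 ω) + cnt (fun ω => ¬ P3 ω)
      + cnt (fun ω => ¬ P4 ω) < Fintype.card Ω) :
    ∃ ω, P1 ω ∧ P2 ω ∧ P3 ω ∧ P4 ω := by
  classical
  by_contra hne
  push Not at hne
  have hsub : (univ : Finset Ω) ⊆ (univ.filter fun ω => ¬ P1 ω) ∪ (univ.filter fun ω => ¬ P2 ω) ∪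
      (univ.filter fun ω => ¬ P3 ω) ∪ (univ.filter fun ω => ¬ P4 ω) := by
    intro ω _
    simp only [mem_union, mem_filter, mem_univ, true_and]
    by_cases h1 : P1 ω
    · by_cases h2 : P2 ω
      · by_cases h3 : P3 ω
        · exact Or.inr (hne ω h1 h2 h3)
        · exact Or.inl (Or.inr h3)
      · exact Or.inl (Or.inl (Or.inr h2))
    · exact Or.inl (Or.inl (Or.inl h1))
  have h1 := card_le_card hsub
  have h2 : Fintype.card Ω ≤ (univ.filter fun ω => ¬ P1 ω).card +
      (univ.filter fun ω => ¬ P2 ω).card + (univ.filter fun ω => ¬ P3 ω).card +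
      (univ.filter fun ω => ¬ P4 ω).card := by
    rw [card_univ] at h1
    refine h1.trans ((card_union_le _ _).trans (Nat.add_le_add_right ?_ _))
    refine (card_union_le _ _).trans (Nat.add_le_add_right (card_union_le _ _) _)
  rw [cnt_eq_sample, cnt_eq_sample, cnt_eq_sample, cnt_eq_sample] at hlt
  have h4 : (Fintype.card Ω : ℝ) ≤ ((univ.filter fun ω => ¬ P1 ω).card : ℝ) +
      (univ.filter fun ω => ¬ P2 ω).card + (univ.filter fun ω => ¬ P3 ω).card +
      (univ.filter fun ω => ¬ P4 ω).card := by exact_mod_cast h2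
  exact absurd hlt (not_lt.2 h4)

theorem sample_holds (hF : FewOpStmt) (hI1 : I1Stmt) (hI2 : I2Stmt) (hNO : NOStmt) :
    SampleStmt := by
  classical
  intro h d hh hd C ρ δ hC hρ hρ1 hδ
  obtain ⟨N0, hN0⟩ := hF (Fin (len h d + 1)) C ρ hC hρ hρ1
  set K : ℕ := 2 * Fintype.card (Nd h d) with hK
  have hNd : 0 < Fintype.card (Nd h d) := by
    obtain ⟨d', rfl⟩ : ∃ d', d = d' + 1 := ⟨d - 1, by omega⟩
    exact Fintype.card_pos_iff.2 ⟨(Sum.inl ⟨0, hh⟩ : Fin h ⊕ (Nd h d' ⊕ Nd h d'))⟩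
  have hKpos : 0 < K := by omega
  have hKr : (0 : ℝ) < K := Nat.cast_pos.2 hKpos
  have hK1 : (1 : ℝ) ≤ K := by exact_mod_cast hKpos
  have hexp := sample_exp K hδ
  have hev : ∀ᶠ M : ℕ in atTop, 2 * (((K * M : ℕ) : ℝ) ^ 5 * K) ^ 2 *
      Real.exp (-(δ ^ 2 * M / 2)) < 1 / 8 :=
    hexp.eventually_lt_const (by norm_num)
  obtain ⟨M0, hM0⟩ := eventually_atTop.1 hev
  refine ⟨max M0 (max N0 20), fun M hM => ?_⟩
  have hM1 : M0 ≤ M := (le_max_left _ _).trans hM
  have hM2 : N0 ≤ M := (le_max_left _ _).trans ((le_max_right _ _).trans hM)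
  have hM3 : 20 ≤ M := (le_max_right _ _).trans ((le_max_right _ _).trans hM)
  have hcard : Fintype.card (Cd h d M) = K * M := by
    simp only [Fintype.card_prod, Fintype.card_bool, Fintype.card_fin, hK]
    ring
  have hMle : M ≤ K * M := Nat.le_mul_of_pos_left M hKpos
  have hpos : 0 < Fintype.card (Cd h d M) := by rw [hcard]; omega
  have hmpos : 0 < Fintype.card (Cd h d M) ^ 5 := Nat.pow_pos hpos
  have b1 := hN0 (Cd h d M) (by rw [hcard]; omega) (fun p => U h d M p)
    (fun p z => sample_U_norm_le h d M p z)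
  have b2 := hI1 (Cd h d M) (Fintype.card (Cd h d M) ^ 5) hmpos hpos
  have b3 := hI2 (Cd h d M) (Fintype.card (Cd h d M) ^ 5) hmpos hpos
  have b4 := hNO h d M (Fintype.card (Cd h d M) ^ 5) δ hδ (by omega)
  set n : ℝ := (Fintype.card (Cd h d M) : ℝ) with hn
  have hn20 : (20 : ℝ) ≤ n := by
    have : 20 ≤ Fintype.card (Cd h d M) := by rw [hcard]; omega
    rw [hn]
    exact_mod_cast this
  have hnpos : 0 < n := by linarith
  set T : ℝ := (Fintype.card (Fin (Fintype.card (Cd h d M) ^ 5) → Cd h d M → Bool) : ℝ) with hT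
  have hTpos : 0 < T := by
    rw [hT]
    exact_mod_cast Fintype.card_pos
  have c2 : 100 * n ^ 2 / ((Fintype.card (Cd h d M) ^ 5 : ℕ) : ℝ) ≤ 1 / 8 := by
    rw [Nat.cast_pow, ← hn, div_le_iff₀ (by positivity)]
    have : (20 : ℝ) ^ 3 ≤ n ^ 3 := pow_le_pow_left₀ (by norm_num) hn20 3
    nlinarith [sq_nonneg n, pow_pos hnpos 2]
  have c3 : n ^ 4 / ((Fintype.card (Cd h d M) ^ 5 : ℕ) : ℝ) ≤ 1 / 8 := by
    rw [Nat.cast_pow, ← hn, div_le_iff₀ (by positivity)]
    nlinarith [pow_pos hnpos 4]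
  have c4 : 2 * (((Fintype.card (Cd h d M) ^ 5 : ℕ) : ℝ) * (2 * Fintype.card (Nd h d))) ^ 2 *
      Real.exp (-(δ ^ 2 * M / 2)) < 1 / 8 := by
    have := hM0 M hM1
    rw [hcard]
    rw [hK] at this ⊢
    push_cast at this ⊢
    exact this
  obtain ⟨ω, h1, h2, h3, h4⟩ := exists_good_of_cnt
    (fun ω : Fin (Fintype.card (Cd h d M) ^ 5) → Cd h d M → Bool =>
      FewOp (fun p : Fin (len h d + 1) => U h d M p) C ρ (fun j => sv (ω j)))
    (fun ω => I1 (fun j => sv (ω j))) (fun ω => I2 (fun j => sv (ω j)))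
    (fun ω => NO h d M δ ω) (by
      have e2 := mul_le_mul_of_nonneg_right c2 hTpos.le
      have e3 := mul_le_mul_of_nonneg_right c3 hTpos.le
      have e4 := mul_le_mul_of_nonneg_right c4.le hTpos.le
      have f1 := b1
      have f2 := b2.trans e2
      have f3 := b3.trans e3
      have f4 := b4.trans e4
      calc _ ≤ 1 / 4 * T + 1 / 8 * T + 1 / 8 * T + 1 / 8 * T := by
            exact add_le_add (add_le_add (add_le_add f1 f2) f3) f4
        _ < T := by linarith)
  exact ⟨_, ω, hmpos, h1, h2, h3, h4⟩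

end SPB
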