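import Pool.Agent.SPB.Space
import Pool.Agent.SPB.HS
import Pool.Agent.SPB.FewOp
import Pool.Agent.SPB.Sample
import Pool.Agent.SPB.Obstruction

/-! M13: no long chain in a concrete block. -/

set_option linter.unusedSectionVars false

namespace SPB

open Finset Filter Topology
open scoped BigOperators InnerProductSpace

section ops

variable {h d M : ℕ}

/-- upper triangular operator, diagonal in the slots -/
noncomputable def Gop (h d M : ℕ) (A B C : Nd h d → ℝ) : VV h d M →ₗ[ℝ] VV h d M where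
  toFun z := WithLp.toLp 2 fun l => match l with
    | ((π, false), μ) => A π * z ((π, false), μ) + B π * z ((π, true), μ)
    | ((π, true), μ) => C π * z ((π, true), μ)
  map_add' x y := by
    ext ⟨⟨π, b⟩, μ⟩
    cases b <;> simp <;> ring
  map_smul' c x := by
    ext ⟨⟨π, b⟩, μ⟩
    cases b <;> simp <;> ring

/-- strictly lower triangular operator, diagonal in the slots -/
noncomputable def Lop (h d M : ℕ) (A : Nd h d → ℝ) : VV h d M →ₗ[ℝ] VV h d M where
  toFun z := WithLp.toLp 2 fun l => match l with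
    | ((_, false), _) => 0
    | ((π, true), μ) => A π * z ((π, false), μ)
  map_add' x y := by
    ext ⟨⟨π, b⟩, μ⟩
    cases b <;> simp <;> ring
  map_smul' c x := by
    ext ⟨⟨π, b⟩, μ⟩
    cases b <;> simp <;> ring

lemma Gop_false (A B C : Nd h d → ℝ) (z : VV h d M) (π : Nd h d) (μ : Fin M) :
    (Gop h d M A B C z) ((π, false), μ) = A π * z ((π, false), μ) + B π * z ((π, true), μ) := rfl

lemma Gop_true (A B C : Nd h d → ℝ) (z : VV h d M) (π : Nd h d) (μ : Fin M) :
    (Gop h d M A B C z) ((π, true), μ) = C π * z ((π, true), μ) := rfl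

lemma Lop_false (A : Nd h d → ℝ) (z : VV h d M) (π : Nd h d) (μ : Fin M) :
    (Lop h d M A z) ((π, false), μ) = 0 := rfl

lemma Lop_true (A : Nd h d → ℝ) (z : VV h d M) (π : Nd h d) (μ : Fin M) :
    (Lop h d M A z) ((π, true), μ) = A π * z ((π, false), μ) := rfl

lemma Op_eq_Gop (D : ℕ → ℝ) : Op h d M (fun _ => D) =
    Gop h d M (fun π => D (pa h d π)) (fun π => D (pb h d π) - D (pc h d π))
      (fun π => D (pc h d π)) := by
  ext z ⟨⟨π, b⟩, μ⟩
  cases b <;> rfl

lemma Gop_comp (A B C A' B' C' : Nd h d → ℝ) : Gop h d M A B C ∘ₗ Gop h d M A' B' C' =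
    Gop h d M (fun π => A π * A' π) (fun π => A π * B' π + B π * C' π) (fun π => C π * C' π) := by
  ext z ⟨⟨π, b⟩, μ⟩
  cases b
  · rw [LinearMap.comp_apply, Gop_false, Gop_false, Gop_true, Gop_false]; ring
  · rw [LinearMap.comp_apply, Gop_true, Gop_true, Gop_true]; ring

lemma Gop_sub (A B C A' B' C' : Nd h d → ℝ) : Gop h d M A B C - Gop h d M A' B' C' =
    Gop h d M (fun π => A π - A' π) (fun π => B π - B' π) (fun π => C π - C' π) := by
  ext z ⟨⟨π, b⟩, μ⟩
  cases b
  · rw [LinearMap.sub_apply, PiLp.sub_apply, Gop_false, Gop_false, Gop_false]; ring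
  · rw [LinearMap.sub_apply, PiLp.sub_apply, Gop_true, Gop_true, Gop_true]; ring

lemma nc_sum_Cd (f : Cd h d M → ℝ) :
    ∑ l, f l = ∑ π : Nd h d, (∑ μ : Fin M, f ((π, true), μ) + ∑ μ : Fin M, f ((π, false), μ)) := by
  rw [Fintype.sum_prod_type, Fintype.sum_prod_type]
  refine Finset.sum_congr rfl fun π _ => ?_
  rw [Fintype.sum_bool]

lemma tr_Gop (A B C : Nd h d → ℝ) : tr (Gop h d M A B C) = M * ∑ π, (A π + C π) := by
  unfold tr
  rw [nc_sum_Cd, Finset.mul_sum]
  refine Finset.sum_congr rfl fun π _ => ?_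
  simp only [Gop_true, Gop_false, bv_apply]
  simp
  ring

lemma tr_Lop_Gop (S A B C : Nd h d → ℝ) :
    tr (Lop h d M S ∘ₗ Gop h d M A B C) = M * ∑ π, S π * B π := by
  unfold tr
  rw [nc_sum_Cd, Finset.mul_sum]
  refine Finset.sum_congr rfl fun π _ => ?_
  simp only [LinearMap.comp_apply, Lop_true, Lop_false, Gop_false, bv_apply]
  simp

lemma tr_A_Gop (S A B C : Nd h d → ℝ) :
    tr (Gop h d M S (fun _ => 0) (fun _ => 0) ∘ₗ Gop h d M A B C) = M * ∑ π, S π * A π := by
  rw [Gop_comp, tr_Gop]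
  simp

lemma tr_C_Gop (S A B C : Nd h d → ℝ) :
    tr (Gop h d M (fun _ => 0) (fun _ => 0) S ∘ₗ Gop h d M A B C) = M * ∑ π, S π * C π := by
  rw [Gop_comp, tr_Gop]
  simp

lemma norm_le_of_sq {x y : VV h d M} (H : ∑ l, x l ^ 2 ≤ ∑ l, y l ^ 2) : ‖x‖ ≤ ‖y‖ := by
  rw [← sq_norm_eq, ← sq_norm_eq] at H
  exact le_of_sq_le_sq H (norm_nonneg _)
where
  le_of_sq_le_sq {a b : ℝ} (h : a ^ 2 ≤ b ^ 2) (hb : 0 ≤ b) : a ≤ b := by
    exact le_of_not_gt fun hlt => by nlinarith

lemma norm_A_le {S : Nd h d → ℝ} (hS : ∀ π, |S π| ≤ 1) (z : VV h d M) :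
    ‖Gop h d M S (fun _ => 0) (fun _ => 0) z‖ ≤ ‖z‖ := by
  refine norm_le_of_sq ?_
  rw [nc_sum_Cd, nc_sum_Cd]
  refine Finset.sum_le_sum fun π _ => add_le_add (Finset.sum_le_sum fun μ _ => ?_)
    (Finset.sum_le_sum fun μ _ => ?_)
  · rw [Gop_true]; nlinarith [sq_nonneg (z ((π, true), μ))]
  · rw [Gop_false]
    have h1 := hS π
    have h2 : S π ^ 2 ≤ 1 := by rw [← sq_abs]; nlinarith [abs_nonneg (S π)]
    nlinarith [sq_nonneg (z ((π, false), μ))]

lemma norm_C_le {S : Nd h d → ℝ} (hS : ∀ π, |S π| ≤ 1) (z : VV h d M) :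
    ‖Gop h d M (fun _ => 0) (fun _ => 0) S z‖ ≤ ‖z‖ := by
  refine norm_le_of_sq ?_
  rw [nc_sum_Cd, nc_sum_Cd]
  refine Finset.sum_le_sum fun π _ => add_le_add (Finset.sum_le_sum fun μ _ => ?_)
    (Finset.sum_le_sum fun μ _ => ?_)
  · rw [Gop_true]
    have h1 := hS π
    have h2 : S π ^ 2 ≤ 1 := by rw [← sq_abs]; nlinarith [abs_nonneg (S π)]
    nlinarith [sq_nonneg (z ((π, true), μ))]
  · rw [Gop_false]; nlinarith [sq_nonneg (z ((π, false), μ))]

lemma norm_L_le {S : Nd h d → ℝ} (hS : ∀ π, |S π| ≤ 1) (z : VV h d M) :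
    ‖Lop h d M S z‖ ≤ ‖z‖ := by
  refine norm_le_of_sq ?_
  rw [nc_sum_Cd, nc_sum_Cd]
  refine Finset.sum_le_sum fun π _ => ?_
  rw [← Finset.sum_add_distrib, ← Finset.sum_add_distrib]
  refine Finset.sum_le_sum fun μ _ => ?_
  rw [Lop_true, Lop_false]
  have h1 := hS π
  have h2 : S π ^ 2 ≤ 1 := by rw [← sq_abs]; nlinarith [abs_nonneg (S π)]
  nlinarith [sq_nonneg (z ((π, false), μ)), sq_nonneg (z ((π, true), μ))]

/-- sign test: a bound against all sign patterns gives a bound for the sum of absolute values -/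
lemma sign_test {X : Nd h d → ℝ} {K : ℝ}
    (hX : ∀ S : Nd h d → ℝ, (∀ π, |S π| ≤ 1) → |∑ π, S π * X π| ≤ K) {f : Fin h → Nd h d}
    (hf : Function.Injective f) : ∑ τ, |X (f τ)| ≤ K := by
  classical
  let S : Nd h d → ℝ := fun π => if π ∈ Finset.univ.image f then (if 0 ≤ X π then 1 else -1) else 0
  have hS : ∀ π, |S π| ≤ 1 := by
    intro π
    simp only [S]
    split_ifs <;> simp
  have h1 := hX S hS
  have h2 : ∑ π, S π * X π = ∑ τ, |X (f τ)| := by
    have h3 : ∀ π, S π * X π = if π ∈ Finset.univ.image f then |X π| else 0 := by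
      intro π
      simp only [S]
      split_ifs with h4 h5
      · rw [one_mul, abs_of_nonneg h5]
      · rw [neg_one_mul, abs_of_neg (not_le.1 h5)]
      · rw [zero_mul]
    simp only [h3]
    rw [← Finset.sum_filter, Finset.filter_mem_eq_inter, Finset.univ_inter,
      Finset.sum_image (fun a _ b _ hab => hf hab)]
  rw [h2] at h1
  exact (le_abs_self _).trans h1

lemma sum_smul_U (c : Fin (len h d + 1) → ℝ) : ∑ p, c p • U h d M p =
    Op h d M (fun _ q => ∑ p, c p * st p q) := by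
  ext z ⟨⟨π, b⟩, μ⟩
  have key : ∀ l, ((∑ p, c p • U h d M p) z) l = ∑ p, c p * (U h d M p z) l := by
    intro l
    rw [LinearMap.sum_apply]
    simp
  rw [key]
  cases b
  · have e : ∀ p : Fin (len h d + 1), (U h d M p z) ((π, false), μ) =
      st p (pa h d π) * z ((π, false), μ) + (st p (pb h d π) - st p (pc h d π)) *
        z ((π, true), μ) := fun p => rfl
    have e2 : (Op h d M (fun _ q => ∑ p, c p * st p q) z) ((π, false), μ) =
      (∑ p, c p * st p (pa h d π)) * z ((π, false), μ) +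
        ((∑ p, c p * st p (pb h d π)) - ∑ p, c p * st p (pc h d π)) * z ((π, true), μ) := rfl
    rw [e2]
    simp only [e]
    rw [← Finset.sum_sub_distrib, Finset.sum_mul, Finset.sum_mul, ← Finset.sum_add_distrib]
    exact Finset.sum_congr rfl fun p _ => by ring
  · have e : ∀ p : Fin (len h d + 1), (U h d M p z) ((π, true), μ) =
      st p (pc h d π) * z ((π, true), μ) := fun p => rfl
    have e2 : (Op h d M (fun _ q => ∑ p, c p * st p q) z) ((π, true), μ) =
      (∑ p, c p * st p (pc h d π)) * z ((π, true), μ) := rfl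
    rw [e2]
    simp only [e]
    rw [Finset.sum_mul]
    exact Finset.sum_congr rfl fun p _ => by ring

lemma st_diff_sum (p L : ℕ) : ∑ q ∈ range L, |st p (q + 1) - st p q| ≤ 1 := by
  have h1 : ∀ q, |st p (q + 1) - st p q| = if q + 1 = p then 1 else 0 := by
    intro q
    unfold st
    by_cases h1 : q + 1 < p
    · have h2 : q < p := by omega
      have h3 : ¬ q + 1 = p := by omega
      simp [h1, h2, h3]
    · by_cases h2 : q < p
      · have h3 : q + 1 = p := by omega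
        simp [h1, h2, h3]
      · have h3 : ¬ q + 1 = p := by omega
        simp [h1, h2, h3]
  simp only [h1]
  rw [← Finset.sum_filter, Finset.sum_const, nsmul_eq_mul, mul_one]
  have : ((range L).filter fun q => q + 1 = p).card ≤ 1 := by
    rw [Finset.card_le_one]
    intro a ha b hb
    rw [Finset.mem_filter] at ha hb
    omega
  exact_mod_cast this

lemma variation_le (c : Fin (len h d + 1) → ℝ) {K : ℝ} (hc : ∑ p, |c p| ≤ K) (L : ℕ) :
    ∑ q ∈ range L, |(∑ p, c p * st p (q + 1)) - ∑ p, c p * st p q| ≤ K := by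
  calc _ ≤ ∑ q ∈ range L, ∑ p : Fin (len h d + 1), |c p| * |st p (q + 1) - st p q| := by
        refine Finset.sum_le_sum fun q _ => ?_
        rw [← Finset.sum_sub_distrib]
        refine (Finset.abs_sum_le_sum_abs _ _).trans (le_of_eq ?_)
        refine Finset.sum_congr rfl fun p _ => ?_
        rw [← abs_mul]; congr 1; ring
    _ = ∑ p : Fin (len h d + 1), |c p| * ∑ q ∈ range L, |st p (q + 1) - st p q| := by
        rw [Finset.sum_comm]
        exact Finset.sum_congr rfl fun p _ => by rw [Finset.mul_sum]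
    _ ≤ ∑ p : Fin (len h d + 1), |c p| * 1 := Finset.sum_le_sum fun p _ =>
        mul_le_mul_of_nonneg_left (st_diff_sum _ _) (abs_nonneg _)
    _ ≤ K := by simpa using hc

lemma norm_sum_U_le (c : Fin (len h d + 1) → ℝ) {K : ℝ} (hc : ∑ p, |c p| ≤ K) (z : VV h d M) :
    ‖(∑ p, c p • U h d M p) z‖ ≤ 2 * K * ‖z‖ := by
  rw [LinearMap.sum_apply]
  calc _ ≤ ∑ p : Fin (len h d + 1), ‖(c p • U h d M p) z‖ := norm_sum_le _ _
    _ ≤ ∑ p : Fin (len h d + 1), |c p| * (2 * ‖z‖) := by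
        refine Finset.sum_le_sum fun p _ => ?_
        rw [LinearMap.smul_apply, norm_smul, Real.norm_eq_abs]
        exact mul_le_mul_of_nonneg_left (sample_U_norm_le h d M p z) (abs_nonneg _)
    _ = (∑ p, |c p|) * (2 * ‖z‖) := by rw [Finset.sum_mul]
    _ ≤ K * (2 * ‖z‖) := mul_le_mul_of_nonneg_right hc (by positivity)
    _ = 2 * K * ‖z‖ := by ring

lemma nc_U_len (hT : TreeStmt) : U h d M (len h d) = LinearMap.id := by
  have hst : ∀ q, q < len h d → st (len h d) q = 1 := fun q hq => by simp [st, hq]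
  ext z ⟨⟨π, b⟩, μ⟩
  have ha : pa h d π < len h d := (hT.ab h d π).trans ((hT.bc h d π).trans (hT.cl h d π))
  have hb : pb h d π < len h d := (hT.bc h d π).trans (hT.cl h d π)
  have hc : pc h d π < len h d := hT.cl h d π
  cases b
  · change st (len h d) (pa h d π) * z ((π, false), μ) +
      (st (len h d) (pb h d π) - st (len h d) (pc h d π)) * z ((π, true), μ) = z ((π, false), μ)
    rw [hst _ ha, hst _ hb, hst _ hc]; ring
  · change st (len h d) (pc h d π) * z ((π, true), μ) = z ((π, true), μ)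
    rw [hst _ hc]; ring

end ops

section intermediate

/-- discrete intermediate value -/
lemma exists_near_half {a : ℕ → ℝ} {A δ : ℝ} (hA : 0 < A) (h0 : a 0 = 0)
    (hlim : Tendsto a atTop (𝓝 A)) (hstep : ∀ n, |a (n + 1) - a n| ≤ δ) :
    ∃ n, |a n - A / 2| ≤ δ := by
  have hex : ∃ n, A / 2 ≤ a n := by
    have h1 : ∀ᶠ n in atTop, A / 2 < a n := hlim.eventually (lt_mem_nhds (by linarith))
    obtain ⟨n, hn⟩ := h1.exists
    exact ⟨n, hn.le⟩
  classical
  set n := Nat.find hex with hn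
  have h1 : A / 2 ≤ a n := Nat.find_spec hex
  have hn0 : n ≠ 0 := by
    intro h
    rw [h, h0] at h1
    linarith
  obtain ⟨p, hp⟩ := Nat.exists_eq_succ_of_ne_zero hn0
  have h2 : ¬ A / 2 ≤ a p := Nat.find_min hex (by omega)
  push Not at h2
  have h3 := hstep p
  have hp' : p + 1 = n := hp.symm
  rw [hp'] at h3
  refine ⟨n, ?_⟩
  rw [abs_le] at h3 ⊢
  constructor <;> linarith [h3.1, h3.2]

end intermediate

section main

variable {h d M m : ℕ}

/-- The trace estimate passes from the operators to their approximations. -/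
lemma trace_approx {T Y : ℕ → VV h d M →ₗ[ℝ] VV h d M} {K ρ N : ℝ} (hK : 1 ≤ K) (hρ : 0 < ρ)
    (hρ1 : ρ ≤ 1) (hN : N = Fintype.card (Cd h d M))
    (hY : ∀ n z, ‖Y n z‖ ≤ 2 * K * ‖z‖) (hR : ∀ n, hs2 (T n - Y n) ≤ (7 * K * ρ) ^ 2 * N)
    (t : VV h d M →ₗ[ℝ] VV h d M) (ht : ∀ z, ‖t z‖ ≤ ‖z‖) (n n' : ℕ)
    (hTt : |tr (t ∘ₗ (T n ∘ₗ T n' - T (min n n')))| ≤ 841 * K ^ 2 * ρ * N) :
    |tr (t ∘ₗ (Y n ∘ₗ Y n' - Y (min n n')))| ≤ 925 * K ^ 2 * ρ * N := by
  have hN0 : 0 ≤ N := by rw [hN]; positivity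
  set s := √N with hs
  have hs2' : s * s = N := Real.mul_self_sqrt hN0
  have hs0 : 0 ≤ s := Real.sqrt_nonneg _
  have ht' : ∀ z, ‖t z‖ ≤ 1 * ‖z‖ := fun z => by rw [one_mul]; exact ht z
  have rR : ∀ n, √(hs2 (T n - Y n)) ≤ 7 * K * ρ * s := by
    intro n
    rw [Real.sqrt_le_left (by positivity), mul_pow, hs, Real.sq_sqrt hN0]
    exact hR n
  have rtR : ∀ n, √(hs2 (t ∘ₗ (T n - Y n))) ≤ 7 * K * ρ * s := by
    intro n
    refine le_trans (Real.sqrt_le_sqrt ?_) (rR n)
    have := hs2_comp_left (T n - Y n) t ht'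
    simpa using this
  have rY : ∀ n, √(hs2 (Y n)) ≤ 2 * K * s := by
    intro n
    rw [Real.sqrt_le_left (by positivity), mul_pow, hs, Real.sq_sqrt hN0, hN]
    exact hs2_le_of_bound (Y n) (hY n)
  have rtY : ∀ n, √(hs2 (t ∘ₗ Y n)) ≤ 2 * K * s := by
    intro n
    refine le_trans (Real.sqrt_le_sqrt ?_) (rY n)
    have := hs2_comp_left (Y n) t ht'
    simpa using this
  have rt : √(hs2 t) ≤ s := by
    rw [Real.sqrt_le_left hs0, hs, Real.sq_sqrt hN0, hN]
    have := hs2_le_of_bound t ht'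
    simpa using this
  have key : t ∘ₗ (Y n ∘ₗ Y n' - Y (min n n')) =
      t ∘ₗ (T n ∘ₗ T n' - T (min n n')) - (t ∘ₗ Y n) ∘ₗ (T n' - Y n') -
        (t ∘ₗ (T n - Y n)) ∘ₗ Y n' - (t ∘ₗ (T n - Y n)) ∘ₗ (T n' - Y n') +
        t ∘ₗ (T (min n n') - Y (min n n')) := by
    refine LinearMap.ext fun z => ?_
    simp only [LinearMap.comp_apply, LinearMap.sub_apply, LinearMap.add_apply, map_sub]
    abel
  rw [key, tr_add, tr_sub, tr_sub, tr_sub]
  have b1 := (abs_tr_comp_le (T n' - Y n') (t ∘ₗ Y n)).trans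
    (mul_le_mul (rtY n) (rR n') (Real.sqrt_nonneg _) (by positivity))
  have b2 := (abs_tr_comp_le (Y n') (t ∘ₗ (T n - Y n))).trans
    (mul_le_mul (rtR n) (rY n') (Real.sqrt_nonneg _) (by positivity))
  have b3 := (abs_tr_comp_le (T n' - Y n') (t ∘ₗ (T n - Y n))).trans
    (mul_le_mul (rtR n) (rR n') (Real.sqrt_nonneg _) (by positivity))
  have b4 := (abs_tr_comp_le (T (min n n') - Y (min n n')) t).trans
    (mul_le_mul rt (rR (min n n')) (Real.sqrt_nonneg _) hs0)
  have c1 : 2 * K * s * (7 * K * ρ * s) = 14 * (K ^ 2 * ρ * N) := by rw [← hs2']; ring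
  have c2 : 7 * K * ρ * s * (2 * K * s) = 14 * (K ^ 2 * ρ * N) := by rw [← hs2']; ring
  have hX : 0 ≤ K ^ 2 * ρ * N := by positivity
  have c3 : 7 * K * ρ * s * (7 * K * ρ * s) ≤ 49 * (K ^ 2 * ρ * N) := by
    have : 7 * K * ρ * s * (7 * K * ρ * s) = 49 * (K ^ 2 * ρ * N) * ρ := by rw [← hs2']; ring
    rw [this]
    nlinarith
  have c4 : s * (7 * K * ρ * s) ≤ 7 * (K ^ 2 * ρ * N) := by
    have : s * (7 * K * ρ * s) = 7 * (K * (ρ * N)) := by rw [← hs2']; ring
    rw [this]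
    have h1 : 0 ≤ ρ * N := by positivity
    nlinarith [mul_nonneg (by linarith : 0 ≤ K - 1) h1, mul_nonneg (mul_nonneg (by linarith : 0 ≤ K - 1) (by linarith : 0 ≤ K)) h1]
  rw [c1] at b1
  rw [c2] at b2
  rw [abs_le] at *
  constructor <;> nlinarith [hTt.1, hTt.2, b1.1, b1.2, b2.1, b2.2, b3.1, b3.2, b4.1, b4.2]

theorem cNoChain_holds (hT : TreeStmt) (hN : NormStmt) : CNoChainStmt := by
  classical
  rintro k h M m d ρ ω hd hh hM hm hρ hρM hF C hC0 hC1 ⟨T, hT0, hTn, hTlim, hTr, hTt⟩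
  set K : ℝ := (k : ℝ) + 1 with hK
  have hK1 : 1 ≤ K := by rw [hK]; have : (0 : ℝ) ≤ k := Nat.cast_nonneg k; linarith
  have hK0 : 0 < K := by linarith
  have h2d : (1 : ℝ) ≤ 2 ^ d := one_le_pow₀ (by norm_num)
  have hρ0 : 0 < ρ := by rw [hρ]; positivity
  have hρeq : K ^ 2 * ρ * 2 ^ d = 1 / 10 ^ 6 := by rw [hρ]; field_simp
  have hρ1 : ρ ≤ 1 := by
    have h1 : ρ ≤ K ^ 2 * ρ * 2 ^ d := by
      have : 1 ≤ K ^ 2 * 2 ^ d := by nlinarith [one_le_pow₀ hK1 (n := 2)]
      nlinarith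
    rw [hρeq] at h1
    linarith
  set N : ℝ := (Fintype.card (Cd h d M) : ℝ) with hNdef
  have hhR : (0 : ℝ) < h := Nat.cast_pos.2 hh
  have hMR : (0 : ℝ) < M := Nat.cast_pos.2 hM
  have hcardN : Fintype.card (Cd h d M) = h * (2 ^ d - 1) * 2 * M := by
    rw [Fintype.card_prod, Fintype.card_prod, Fintype.card_bool, Fintype.card_fin, hT.card]
  have hNle : N ≤ 2 * h * 2 ^ d * M := by
    rw [hNdef, hcardN]
    push_cast
    have h1 : ((2 ^ d - 1 : ℕ) : ℝ) ≤ 2 ^ d := by
      have : 2 ^ d - 1 ≤ 2 ^ d := Nat.sub_le _ _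
      exact_mod_cast this
    calc (h : ℝ) * ((2 ^ d - 1 : ℕ) : ℝ) * 2 * M ≤ h * 2 ^ d * 2 * M := by gcongr
      _ = _ := by ring
  have hcard0 : 0 < Fintype.card (Cd h d M) := by
    rw [hcardN]
    have h1 : 0 < 2 ^ d - 1 := by
      have : 2 ≤ 2 ^ d := by
        rw [hd]
        calc 2 = 2 ^ 1 := by norm_num
          _ ≤ _ := Nat.pow_le_pow_right (by norm_num) (by omega)
      omega
    positivity
  have hne : Nonempty (Cd h d M) := Fintype.card_pos_iff.1 hcard0
  have hN0 : 0 < N := Nat.cast_pos.2 hcard0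
  -- norms of the generators
  have hsv : ∀ j, ‖sv (ω j)‖ = 1 := fun j => by rw [sv_eq_gv]; exact SPB65.norm_gv _
  have hgen : ∀ q, ‖gen h d M ω q‖ ≤ 2 := by
    intro q
    refine (sample_U_norm_le h d M _ _).trans ?_
    rw [hsv, mul_one]
  have htwo := hN.two _ _ (gen h d M ω) ρ hρ0 hρ1 hgen
  have hlow := hN.low _ _ (gen h d M ω) ρ hρ0
  have hnE0 : ∀ z, 0 ≤ nE (gen h d M ω) ρ z := fun z => by
    have := htwo z
    have := norm_nonneg z
    linarith
  have hTnorm : ∀ n z, ‖T n z‖ ≤ 2 * K / ρ * ‖z‖ := by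
    intro n z
    calc ‖T n z‖ ≤ 2 * nE (gen h d M ω) ρ (T n z) := htwo _
      _ ≤ 2 * (C * nE (gen h d M ω) ρ z) := by have := hTn n z; linarith
      _ ≤ 2 * (K * (‖z‖ / ρ)) := by
          have h1 := hlow z
          have h2 := hnE0 z
          have : C * nE (gen h d M ω) ρ z ≤ K * (‖z‖ / ρ) := mul_le_mul hC1.le h1 h2 hK0.le
          linarith
      _ = 2 * K / ρ * ‖z‖ := by ring
  -- few operators
  have hFew : ∀ n, ∃ c : Fin (len h d + 1) → ℝ, (∑ p, |c p|) ≤ K ∧
      hs2 (T n - ∑ p, c p • U h d M p) ≤ (7 * K * ρ) ^ 2 * N := by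
    intro n
    refine hF (T n) (hTnorm n) fun j => ?_
    have hg : gen h d M ω (⟨len h d, by omega⟩, j) = sv (ω j) := by
      change U h d M (len h d) (sv (ω j)) = sv (ω j)
      rw [nc_U_len hT]; rfl
    have h1 : nE (gen h d M ω) ρ (T n (sv (ω j))) < K := by
      refine lt_of_le_of_lt (hTn n _) ?_
      have h2 := hN.gen _ _ (gen h d M ω) ρ hρ0 (⟨len h d, by omega⟩, j)
      rw [hg] at h2
      have := mul_le_mul_of_nonneg_left h2 hC0.le
      linarith
    obtain ⟨c, hc⟩ := hN.attain _ _ (gen h d M ω) ρ K hρ0 _ h1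
    refine ⟨c, ?_, ?_⟩
    · have : 0 ≤ ‖T n (sv (ω j)) - ∑ q, c q • gen h d M ω q‖ / ρ := by positivity
      linarith
    · have h2 : 0 ≤ ∑ q, |c q| := Finset.sum_nonneg fun _ _ => abs_nonneg _
      have h3 : ‖T n (sv (ω j)) - ∑ q, c q • gen h d M ω q‖ / ρ ≤ K := by linarith
      rw [div_le_iff₀ hρ0] at h3
      exact h3
  choose c hc1 hc2 using hFew
  set D : ℕ → ℕ → ℝ := fun n q => ∑ p, c n p * st p q with hD
  set Y : ℕ → VV h d M →ₗ[ℝ] VV h d M := fun n => ∑ p, c n p • U h d M p with hYdef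
  have hYG : ∀ n, Y n = Gop h d M (fun π => D n (pa h d π))
      (fun π => D n (pb h d π) - D n (pc h d π)) (fun π => D n (pc h d π)) := by
    intro n
    rw [hYdef]
    simp only
    rw [sum_smul_U, Op_eq_Gop]
  have hYn : ∀ n z, ‖Y n z‖ ≤ 2 * K * ‖z‖ := fun n z => norm_sum_U_le (c n) (hc1 n) z
  have htrace : ∀ (t : VV h d M →ₗ[ℝ] VV h d M), (∀ z, ‖t z‖ ≤ ‖z‖) → ∀ n n',
      |tr (t ∘ₗ (Y n ∘ₗ Y n' - Y (min n n')))| ≤ 925 * K ^ 2 * ρ * N := fun t ht n n' =>
    trace_approx hK1 hρ0 hρ1 hNdef hYn hc2 t ht n n' (hTt n n' t ht)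
  have hbig : ∀ x : ℝ, |M * x| ≤ 925 * K ^ 2 * ρ * N → |x| ≤ 1 / 100 * h := by
    intro x hx
    rw [abs_mul, abs_of_pos hMR] at hx
    have h1 : 925 * K ^ 2 * ρ * N ≤ 925 * K ^ 2 * ρ * (2 * h * 2 ^ d * M) := by gcongr
    have h2 : 925 * K ^ 2 * ρ * (2 * h * 2 ^ d * M) = M * (1850 * (K ^ 2 * ρ * 2 ^ d) * h) := by
      ring
    rw [h2, hρeq] at h1
    have h3 := le_of_mul_le_mul_left (hx.trans h1) hMR
    refine h3.trans ?_
    nlinarith
  -- pairwise relations
  have relA : ∀ n n' (f : Fin h → Nd h d), Function.Injective f →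
      ∑ τ, |D n (pa h d (f τ)) * D n' (pa h d (f τ)) - D (min n n') (pa h d (f τ))| ≤
        1 / 100 * h := by
    intro n n' f hf
    refine sign_test (X := fun π => D n (pa h d π) * D n' (pa h d π) - D (min n n') (pa h d π))
      (fun S hS => ?_) hf
    have h1 := htrace _ (norm_A_le (M := M) hS) n n'
    rw [hYG n, hYG n', hYG (min n n'), Gop_comp, Gop_sub, tr_A_Gop] at h1
    exact hbig _ h1
  have relC : ∀ n n' (f : Fin h → Nd h d), Function.Injective f →
      ∑ τ, |D n (pc h d (f τ)) * D n' (pc h d (f τ)) - D (min n n') (pc h d (f τ))| ≤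
        1 / 100 * h := by
    intro n n' f hf
    refine sign_test (X := fun π => D n (pc h d π) * D n' (pc h d π) - D (min n n') (pc h d π))
      (fun S hS => ?_) hf
    have h1 := htrace _ (norm_C_le (M := M) hS) n n'
    rw [hYG n, hYG n', hYG (min n n'), Gop_comp, Gop_sub, tr_C_Gop] at h1
    exact hbig _ h1
  have relB : ∀ n n' (f : Fin h → Nd h d), Function.Injective f →
      ∑ τ, |D n (pa h d (f τ)) * (D n' (pb h d (f τ)) - D n' (pc h d (f τ))) +
          (D n (pb h d (f τ)) - D n (pc h d (f τ))) * D n' (pc h d (f τ)) -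
          (D (min n n') (pb h d (f τ)) - D (min n n') (pc h d (f τ)))| ≤ 1 / 100 * h := by
    intro n n' f hf
    refine sign_test (X := fun π => D n (pa h d π) * (D n' (pb h d π) - D n' (pc h d π)) +
          (D n (pb h d π) - D n (pc h d π)) * D n' (pc h d π) -
          (D (min n n') (pb h d π) - D (min n n') (pc h d π)))
      (fun S hS => ?_) hf
    have h1 := htrace _ (norm_L_le (M := M) hS) n n'
    rw [hYG n, hYG n', hYG (min n n'), Gop_comp, Gop_sub, tr_Lop_Gop] at h1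
    exact hbig _ h1
  -- the obstruction
  have hrel : ∀ v ∈ nodes h d 0, ∀ n n' : ℕ, n ≤ n' →
      (∑ τ ∈ Finset.range h, |D n (v.1 + τ) * D n' (v.1 + τ) - D n (v.1 + τ)| ≤ 1 / 100 * h) ∧
      (∑ τ ∈ Finset.range h, |D n (v.2.2 + τ) * D n' (v.2.2 + τ) - D n (v.2.2 + τ)| ≤
        1 / 100 * h) ∧
      (∑ τ ∈ Finset.range h, |D n (v.1 + τ) * (D n' (v.2.1 + τ) - D n' (v.2.2 + τ))
          + (D n (v.2.1 + τ) - D n (v.2.2 + τ)) * D n' (v.2.2 + τ)
          - (D n (v.2.1 + τ) - D n (v.2.2 + τ))| ≤ 1 / 100 * h) ∧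
      (∑ τ ∈ Finset.range h, |D n' (v.1 + τ) * (D n (v.2.1 + τ) - D n (v.2.2 + τ))
          + (D n' (v.2.1 + τ) - D n' (v.2.2 + τ)) * D n (v.2.2 + τ)
          - (D n (v.2.1 + τ) - D n (v.2.2 + τ))| ≤ 1 / 100 * h) := by
    intro v hv n n' hnn
    obtain ⟨f, hf, hfv⟩ := hT.emb h d 0 v hv
    have ea : ∀ τ : Fin h, pa h d (f τ) = v.1 + τ := fun τ => by
      have := (hfv τ).1; omega
    have eb : ∀ τ : Fin h, pb h d (f τ) = v.2.1 + τ := fun τ => by
      have := (hfv τ).2.1; omega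
    have ec : ∀ τ : Fin h, pc h d (f τ) = v.2.2 + τ := fun τ => by
      have := (hfv τ).2.2; omega
    have r1 := relA n n' f hf
    have r2 := relC n n' f hf
    have r3 := relB n n' f hf
    have r4 := relB n' n f hf
    rw [min_eq_left hnn] at r1 r2 r3
    rw [min_eq_right hnn] at r4
    simp only [ea, eb, ec] at r1 r2 r3 r4
    refine ⟨?_, ?_, ?_, ?_⟩
    · rw [Finset.sum_range]; exact r1
    · rw [Finset.sum_range]; exact r2
    · rw [Finset.sum_range]; exact r3
    · rw [Finset.sum_range]; exact r4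
  have hhalf : ∀ v ∈ nodes h d 0, ∃ n : ℕ,
      |(∑ τ ∈ Finset.range h, D n (v.1 + τ)) / h - 1 / 2| ≤ 1 / 10 := by
    intro v hv
    obtain ⟨f, hf, hfv⟩ := hT.emb h d 0 v hv
    have ea : ∀ τ : Fin h, pa h d (f τ) = v.1 + τ := fun τ => by
      have := (hfv τ).1; omega
    let S : Nd h d → ℝ := fun π => if π ∈ Finset.univ.image f then 1 else 0
    have hS : ∀ π, |S π| ≤ 1 := by
      intro π
      simp only [S]
      split_ifs <;> simp
    have hSsum : ∀ X : Nd h d → ℝ, ∑ π, S π * X π = ∑ τ, X (f τ) := by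
      intro X
      have h3 : ∀ π, S π * X π = if π ∈ Finset.univ.image f then X π else 0 := by
        intro π
        simp only [S]
        split_ifs <;> simp
      simp only [h3]
      rw [← Finset.sum_filter, Finset.filter_mem_eq_inter, Finset.univ_inter,
        Finset.sum_image (fun a _ b _ hab => hf hab)]
    set t : VV h d M →ₗ[ℝ] VV h d M := Gop h d M S (fun _ => 0) (fun _ => 0) with ht
    have htc : ∀ z, ‖t z‖ ≤ ‖z‖ := norm_A_le hS
    set a : ℕ → ℝ := fun n => tr (t ∘ₗ T n) with ha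
    have ha0 : a 0 = 0 := by
      simp only [ha, hT0, LinearMap.comp_zero, tr_zero]
    have htr1 : tr t = M * h := by
      rw [ht, tr_Gop]
      simp only [add_zero]
      have := hSsum (fun _ => 1)
      simp only [mul_one] at this
      rw [this]
      simp
    have hlim : Tendsto a atTop (𝓝 (M * h)) := by
      rw [← htr1]
      unfold tr at *
      refine tendsto_finset_sum _ fun l _ => ?_
      have hc : Continuous t := LinearMap.continuous_of_finiteDimensional t
      have h1 : Tendsto (fun n => t (T n (bv l))) atTop (𝓝 (t (bv l))) :=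
        (hc.tendsto _).comp (hTlim (bv l))
      have h2 : Continuous fun z : VV h d M => z l := by fun_prop
      exact (h2.tendsto _).comp h1
    have hstep : ∀ n, |a (n + 1) - a n| ≤ M * h / 100 := by
      intro n
      obtain ⟨e, he⟩ := hTr n
      have e1 : a (n + 1) - a n = tr (t ∘ₗ (T (n + 1) - T n)) := by
        simp only [ha]
        rw [LinearMap.comp_sub, tr_sub]
      rw [e1]
      refine (abs_tr_rank_one (c := 4 * K / ρ) (T (n + 1) - T n) t e (fun z => he z)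
        (fun z => ?_) htc (by positivity)).trans ?_
      · rw [LinearMap.sub_apply]
        refine (norm_sub_le _ _).trans ?_
        have h1 := hTnorm (n + 1) z
        have h2 := hTnorm n z
        have h3 : 4 * K / ρ * ‖z‖ = 2 * K / ρ * ‖z‖ + 2 * K / ρ * ‖z‖ := by ring
        rw [h3]; linarith
      · rw [div_le_iff₀ hρ0]
        nlinarith
    obtain ⟨n, hn⟩ := exists_near_half (by positivity) ha0 hlim hstep
    refine ⟨n, ?_⟩
    -- compare `a n` with the average
    have hYt : tr (t ∘ₗ Y n) = M * ∑ τ ∈ Finset.range h, D n (v.1 + τ) := by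
      rw [hYG n, ht, tr_A_Gop, hSsum, Finset.sum_range]
      simp only [ea]
    have hdiff : |a n - tr (t ∘ₗ Y n)| ≤ 7 * K * ρ * N := by
      have e1 : a n - tr (t ∘ₗ Y n) = tr (t ∘ₗ (T n - Y n)) := by
        simp only [ha]
        rw [LinearMap.comp_sub, tr_sub]
      rw [e1]
      refine (abs_tr_comp_le _ _).trans ?_
      have r1 : √(hs2 t) ≤ √N := by
        refine Real.sqrt_le_sqrt ?_
        have := hs2_le_of_bound t (c := 1) (fun z => by rw [one_mul]; exact htc z)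
        rw [one_pow, one_mul] at this
        exact this
      have r2 : √(hs2 (T n - Y n)) ≤ 7 * K * ρ * √N := by
        rw [Real.sqrt_le_left (by positivity), mul_pow, Real.sq_sqrt hN0.le]
        exact hc2 n
      calc √(hs2 t) * √(hs2 (T n - Y n)) ≤ √N * (7 * K * ρ * √N) :=
            mul_le_mul r1 r2 (Real.sqrt_nonneg _) (Real.sqrt_nonneg _)
        _ = 7 * K * ρ * (√N * √N) := by ring
        _ = 7 * K * ρ * N := by rw [Real.mul_self_sqrt hN0.le]
    have hsmall : 7 * K * ρ * N ≤ M * h / 100 := by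
      have h1 : 7 * K * ρ * N ≤ 7 * K * ρ * (2 * h * 2 ^ d * M) := by gcongr
      have h2 : 7 * K * ρ * (2 * h * 2 ^ d * M) = 14 * (K * ρ * 2 ^ d) * (M * h) := by ring
      have h3 : K * ρ * 2 ^ d ≤ K ^ 2 * ρ * 2 ^ d := by
        have : 0 ≤ ρ * 2 ^ d := by positivity
        nlinarith
      rw [hρeq] at h3
      rw [h2] at h1
      have h4 : 0 ≤ (M : ℝ) * h := by positivity
      nlinarith
    rw [hYt] at hdiff
    set Sg := ∑ τ ∈ Finset.range h, D n (v.1 + τ) with hSgdef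
    have h5 : |M * Sg - M * h / 2| ≤ M * h / 50 := by
      rw [abs_le] at hn hdiff ⊢
      constructor <;> linarith [hn.1, hn.2, hdiff.1, hdiff.2]
    have h6 : Sg / h - 1 / 2 = (M * Sg - M * h / 2) / (M * h) := by
      field_simp
    rw [h6, abs_div, abs_of_pos (by positivity : (0 : ℝ) < M * h), div_le_iff₀ (by positivity)]
    have : 0 < (M : ℝ) * h := by positivity
    linarith
  have hd' : d = 2 * (10 * (k + 1) + 1) + 1 := hd
  rw [hd'] at hrel hhalf
  obtain ⟨n, hn⟩ := obstruction_holds h (10 * (k + 1) + 1) D (1 / 100) hh le_rfl hrel hhalf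
  have hvar := variation_le (c n) (hc1 n) (len h (2 * (10 * (k + 1) + 1) + 1))
  have h7 := hn.trans hvar
  push_cast at h7
  rw [hK] at h7
  linarith

end main

end SPB
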