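import Pool.Agent.SPB.Space

/-!
# Complex version: statements of the modules
-/

namespace SPB

open scoped BigOperators InnerProductSpace

/-- There is a Banach space over `𝕜` with a strict pi-basis and without a Schauder basis. -/
def Answer (𝕜 : Type) [RCLike 𝕜] : Prop :=
  ∃ (X : Type) (_ : NormedAddCommGroup X) (_ : NormedSpace 𝕜 X) (_ : CompleteSpace X),
    (∃ u : ℕ → X →L[𝕜] X,
      (∀ n, u n ∘L u n = u n) ∧ (∀ m n, n ≤ m → u m ∘L u n = u n) ∧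
      (∀ n, FiniteDimensional 𝕜 (LinearMap.range (u n : X →ₗ[𝕜] X)) ∧
        Module.finrank 𝕜 (LinearMap.range (u n : X →ₗ[𝕜] X)) = n) ∧
      (∀ n, ‖u n‖ ≤ 4) ∧
      ∀ x, Filter.Tendsto (fun n => u n x) Filter.atTop (nhds x)) ∧
    ¬ ∃ e : ℕ → X, ∀ x, ∃! a : ℕ → 𝕜,
      Filter.Tendsto (fun n => ∑ i ∈ Finset.range n, a i • e i) Filter.atTop (nhds x)

/-- A bounded increasing chain of projections with rank one steps, tending to the identity. -/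
structure SlowChain (𝕜 : Type) [RCLike 𝕜] {X : Type} [NormedAddCommGroup X] [NormedSpace 𝕜 X]
    (W : ℕ → X →L[𝕜] X) (lam : ℝ) : Prop where
  zero : W 0 = 0
  comp : ∀ t s, t ≤ s → W s ∘L W t = W t
  rank : ∀ t, ∃ e : X, ∀ x, W (t + 1) x - W t x ∈ Submodule.span 𝕜 {e}
  norm : ∀ t, ‖W t‖ ≤ lam
  lim : ∀ x, Filter.Tendsto (fun t => W t x) Filter.atTop (nhds x)

/-- A bounded commuting chain of projections with rank one steps, tending to the identity. -/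
structure CommChain (𝕜 : Type) [RCLike 𝕜] {X : Type} [NormedAddCommGroup X] [NormedSpace 𝕜 X]
    (P : ℕ → X →L[𝕜] X) (C : ℝ) : Prop where
  zero : P 0 = 0
  comp : ∀ n m, P n ∘L P m = P (min n m)
  rank : ∀ n, ∃ e : X, ∀ x, P (n + 1) x - P n x ∈ Submodule.span 𝕜 {e}
  norm : ∀ n, ‖P n‖ ≤ C
  lim : ∀ x, Filter.Tendsto (fun n => P n x) Filter.atTop (nhds x)

/-- C3a (file `BasisK.lean`). Banach's theorem over `𝕜`. -/
def BasisKStmt : Prop :=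
  ∀ (𝕜 : Type) [RCLike 𝕜] (X : Type) [NormedAddCommGroup X] [NormedSpace 𝕜 X] [CompleteSpace X]
    (e : ℕ → X),
    (∀ x, ∃! a : ℕ → 𝕜, Filter.Tendsto (fun n => ∑ i ∈ Finset.range n, a i • e i)
      Filter.atTop (nhds x)) →
    ∃ (P : ℕ → X →L[𝕜] X) (C : ℝ), CommChain 𝕜 P C

/-- C3b (file `StrictPiK.lean`). A slow chain contains a strict one, over `𝕜`. -/
def StrictPiKStmt : Prop :=
  ∀ (𝕜 : Type) [RCLike 𝕜] (X : Type) [NormedAddCommGroup X] [NormedSpace 𝕜 X]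
    (W : ℕ → X →L[𝕜] X) (lam : ℝ), ¬ FiniteDimensional 𝕜 X → SlowChain 𝕜 W lam →
    ∃ u : ℕ → X →L[𝕜] X, (∀ n, FiniteDimensional 𝕜 (LinearMap.range (u n : X →ₗ[𝕜] X)) ∧
        Module.finrank 𝕜 (LinearMap.range (u n : X →ₗ[𝕜] X)) = n) ∧
      (∀ n m, n ≤ m → u m ∘L u n = u n) ∧ (∀ n, ‖u n‖ ≤ lam) ∧
      ∀ x, Filter.Tendsto (fun n => u n x) Filter.atTop (nhds x)

/-! ### Complexification -/

/-- The complexification of a real normed space, with its Taylor norm: `T` stands for the vector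
`T 1 - i • T I`. -/
def Cx (X : Type) [NormedAddCommGroup X] [NormedSpace ℝ X] : Type := ℂ →L[ℝ] X

section Cx

variable {X : Type} [NormedAddCommGroup X] [NormedSpace ℝ X]

noncomputable instance : NormedAddCommGroup (Cx X) :=
  inferInstanceAs (NormedAddCommGroup (ℂ →L[ℝ] X))

instance [CompleteSpace X] : CompleteSpace (Cx X) :=
  inferInstanceAs (CompleteSpace (ℂ →L[ℝ] X))

/-- From the complexification to real linear maps. -/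
def Cx.map (T : Cx X) : ℂ →L[ℝ] X := T

/-- From real linear maps to the complexification. -/
def Cx.mk (T : ℂ →L[ℝ] X) : Cx X := T

noncomputable instance : SMul ℂ (Cx X) :=
  ⟨fun z T => Cx.mk (T.map ∘L ContinuousLinearMap.mul ℝ ℂ z)⟩

theorem Cx.smul_apply (z : ℂ) (T : Cx X) (w : ℂ) : (z • T).map w = T.map (z * w) := rfl

theorem Cx.add_apply (S T : Cx X) (w : ℂ) : (S + T).map w = S.map w + T.map w := rfl

theorem Cx.zero_apply (w : ℂ) : (0 : Cx X).map w = 0 := rfl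

theorem Cx.ext' {S T : Cx X} (h : ∀ w, S.map w = T.map w) : S = T :=
  ContinuousLinearMap.ext h

noncomputable instance : Module ℂ (Cx X) where
  one_smul T := Cx.ext' fun w => by rw [Cx.smul_apply, one_mul]
  mul_smul z z' T := Cx.ext' fun w => by
    rw [Cx.smul_apply, Cx.smul_apply, Cx.smul_apply]
    congr 1
    ring
  smul_zero z := Cx.ext' fun w => by rw [Cx.smul_apply, Cx.zero_apply, Cx.zero_apply]
  smul_add z S T := Cx.ext' fun w => by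
    rw [Cx.smul_apply, Cx.add_apply, Cx.add_apply, Cx.smul_apply, Cx.smul_apply]
  add_smul z z' T := Cx.ext' fun w => by
    rw [Cx.smul_apply, Cx.add_apply, Cx.smul_apply, Cx.smul_apply, add_mul, map_add]
  zero_smul T := Cx.ext' fun w => by rw [Cx.smul_apply, Cx.zero_apply, zero_mul, map_zero]

noncomputable instance : NormedSpace ℂ (Cx X) where
  norm_smul_le z T := by
    show ‖T.map ∘L ContinuousLinearMap.mul ℝ ℂ z‖ ≤ ‖z‖ * ‖T.map‖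
    calc ‖T.map ∘L ContinuousLinearMap.mul ℝ ℂ z‖
        ≤ ‖T.map‖ * ‖ContinuousLinearMap.mul ℝ ℂ z‖ := ContinuousLinearMap.opNorm_comp_le _ _
      _ ≤ ‖T.map‖ * ‖z‖ := by
          gcongr
          exact ContinuousLinearMap.opNorm_mul_apply_le ℝ ℂ z
      _ = ‖z‖ * ‖T.map‖ := mul_comm _ _

end Cx

/-- C3c (file `Complexify.lean`). Chains on the complexification. -/
structure CxStmt : Prop where
  inf : ∀ (X : Type) [NormedAddCommGroup X] [NormedSpace ℝ X], ¬ FiniteDimensional ℝ X →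
    ¬ FiniteDimensional ℂ (Cx X)
  up : ∀ (X : Type) [NormedAddCommGroup X] [NormedSpace ℝ X] (W : ℕ → X →L[ℝ] X) (lam : ℝ),
    SlowChain ℝ W lam → ∃ W' : ℕ → Cx X →L[ℂ] Cx X, SlowChain ℂ W' lam
  down : ∀ (X : Type) [NormedAddCommGroup X] [NormedSpace ℝ X] (P : ℕ → Cx X →L[ℂ] Cx X) (C : ℝ),
    CommChain ℂ P C → ∃ A S : ℕ → X →L[ℝ] X, A 0 = 0 ∧ S 0 = 0 ∧
      (∀ n m, A n ∘L A m - S n ∘L S m = A (min n m)) ∧
      (∀ n m, A n ∘L S m + S n ∘L A m = S (min n m)) ∧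
      (∀ n, ‖A n‖ ≤ C) ∧ (∀ n, ‖S n‖ ≤ C) ∧
      (∀ n, ∃ e e' : X, ∀ x, A (n + 1) x - A n x ∈ Submodule.span ℝ {e, e'}) ∧
      (∀ x, Filter.Tendsto (fun n => A n x) Filter.atTop (nhds x))

/-! ### Complex obstruction -/

/-- C1 (file `ObstructionC.lean`). The four leaves obstruction with complex values. -/
def ObstructionCStmt : Prop :=
  ∀ (h e : ℕ) (D : ℕ → ℕ → ℂ) (ε : ℝ), 0 < h → ε ≤ 1 / 100 →
    (∀ v ∈ nodes h (2 * e + 1) 0, ∀ n n' : ℕ, n ≤ n' →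
      (∑ τ ∈ Finset.range h, ‖D n (v.1 + τ) * D n' (v.1 + τ) - D n (v.1 + τ)‖ ≤ ε * h) ∧
      (∑ τ ∈ Finset.range h, ‖D n (v.2.2 + τ) * D n' (v.2.2 + τ) - D n (v.2.2 + τ)‖ ≤ ε * h) ∧
      (∑ τ ∈ Finset.range h, ‖D n (v.1 + τ) * (D n' (v.2.1 + τ) - D n' (v.2.2 + τ))
          + (D n (v.2.1 + τ) - D n (v.2.2 + τ)) * D n' (v.2.2 + τ)
          - (D n (v.2.1 + τ) - D n (v.2.2 + τ))‖ ≤ ε * h) ∧
      (∑ τ ∈ Finset.range h, ‖D n' (v.1 + τ) * (D n (v.2.1 + τ) - D n (v.2.2 + τ))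
          + (D n' (v.2.1 + τ) - D n' (v.2.2 + τ)) * D n (v.2.2 + τ)
          - (D n (v.2.1 + τ) - D n (v.2.2 + τ))‖ ≤ ε * h)) →
    (∀ v ∈ nodes h (2 * e + 1) 0, ∃ n : ℕ,
      |(∑ τ ∈ Finset.range h, (D n (v.1 + τ)).re) / h - 1 / 2| ≤ 1 / 10) →
    ∃ n : ℕ, (e : ℝ) / 10 ≤
      ∑ q ∈ Finset.range (len h (2 * e + 1)), ‖D n (q + 1) - D n q‖

/-! ### Blocks for the complex version -/

/-- No long complex chain: `T + iS` in place of `T` in `NoChain`. -/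
def NoChainC (k : ℕ) (b : Blk) : Prop :=
  ∀ C : ℝ, 0 < C → C < k + 1 → ¬ ∃ T S : ℕ → b.V →ₗ[ℝ] b.V,
    T 0 = 0 ∧ S 0 = 0 ∧ (∀ n, OpBd b b (T n) C) ∧ (∀ n, OpBd b b (S n) C) ∧
    (∀ z, Filter.Tendsto (fun n => T n z) Filter.atTop (nhds z)) ∧
    (∀ n, ∃ e e' : b.V, ∀ z, T (n + 1) z - T n z ∈ Submodule.span ℝ {e, e'}) ∧
    (∀ n n', ∀ t : b.V →ₗ[ℝ] b.V, (∀ z, ‖t z‖ ≤ ‖z‖) →
      |tr (t ∘ₗ (T n ∘ₗ T n' - S n ∘ₗ S n' - T (min n n')))| ≤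
        1682 * ((k : ℝ) + 1) ^ 2 * b.ρ * b.N) ∧
    (∀ n n', ∀ t : b.V →ₗ[ℝ] b.V, (∀ z, ‖t z‖ ≤ ‖z‖) →
      |tr (t ∘ₗ (T n ∘ₗ S n' + S n ∘ₗ T n' - S (min n n')))| ≤
        1682 * ((k : ℝ) + 1) ^ 2 * b.ρ * b.N)

/-- The block `b` is good for step `k` of the complex version. -/
structure GoodC (k B : ℕ) (b : Blk) : Prop where
  basic : b.Basic
  flag : b.Flag
  large : 4 * (k : ℝ) * (k + 1) ^ 2 * (B : ℝ) ^ 2 ≤ b.ρ ^ 2 * b.N
  transfer : ∀ a : Blk, a.Basic → a.m ≤ B → Transfer a b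
  noChain : NoChainC k b

/-- C2 (file `CNoChainC.lean`). No long complex chain in a concrete block. -/
def CNoChainCStmt : Prop :=
  ∀ (k h M m : ℕ) (d : ℕ) (ρ : ℝ) (ω : Fin m → Cd h d M → Bool),
    d = 2 * (20 * (k + 1) + 1) + 1 → 0 < h → 0 < M → 0 < m →
    ρ = 1 / (10 ^ 6 * ((k : ℝ) + 1) ^ 2 * 2 ^ d) → 800 * ((k : ℝ) + 1) ≤ ρ * (h * M) →
    FewOp (fun p : Fin (len h d + 1) => U h d M p) ((k : ℝ) + 1) ρ (fun j => sv (ω j)) →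
    ∀ C : ℝ, 0 < C → C < k + 1 → ¬ ∃ T S : ℕ → VV h d M →ₗ[ℝ] VV h d M,
      T 0 = 0 ∧ S 0 = 0 ∧
      (∀ n z, nE (gen h d M ω) ρ (T n z) ≤ C * nE (gen h d M ω) ρ z) ∧
      (∀ n z, nE (gen h d M ω) ρ (S n z) ≤ C * nE (gen h d M ω) ρ z) ∧
      (∀ z, Filter.Tendsto (fun n => T n z) Filter.atTop (nhds z)) ∧
      (∀ n, ∃ e e' : VV h d M, ∀ z, T (n + 1) z - T n z ∈ Submodule.span ℝ {e, e'}) ∧
      (∀ n n', ∀ t : VV h d M →ₗ[ℝ] VV h d M, (∀ z, ‖t z‖ ≤ ‖z‖) →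
        |tr (t ∘ₗ (T n ∘ₗ T n' - S n ∘ₗ S n' - T (min n n')))| ≤
          1682 * ((k : ℝ) + 1) ^ 2 * ρ * Fintype.card (Cd h d M)) ∧
      (∀ n n', ∀ t : VV h d M →ₗ[ℝ] VV h d M, (∀ z, ‖t z‖ ≤ ‖z‖) →
        |tr (t ∘ₗ (T n ∘ₗ S n' + S n ∘ₗ T n' - S (min n n')))| ≤
          1682 * ((k : ℝ) + 1) ^ 2 * ρ * Fintype.card (Cd h d M))

/-- C4 (file `NoBasisC.lean`). No complex chain on the sum. -/
def NoBasisCStmt : Prop :=
  ∀ (b : ℕ → Blk) (B : ℕ → ℕ), (∀ k, GoodC k (B k) (b k)) →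
    (∀ j k, j < k → (b j).m ≤ B k ∧ (b j).N ≤ B k ∧ 1 / (b j).ρ ≤ B k) →
    ¬ ∃ (A S : ℕ → XX b →L[ℝ] XX b) (C : ℝ), A 0 = 0 ∧ S 0 = 0 ∧
      (∀ n m, A n ∘L A m - S n ∘L S m = A (min n m)) ∧
      (∀ n m, A n ∘L S m + S n ∘L A m = S (min n m)) ∧
      (∀ n, ‖A n‖ ≤ C) ∧ (∀ n, ‖S n‖ ≤ C) ∧
      (∀ n, ∃ e e' : XX b, ∀ x, A (n + 1) x - A n x ∈ Submodule.span ℝ {e, e'}) ∧
      (∀ x, Filter.Tendsto (fun n => A n x) Filter.atTop (nhds x))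

/-- C5 (file `FinalC.lean`). -/
def ExistsGoodCStmt : Prop := ∀ k B : ℕ, ∃ b : Blk, GoodC k B b

end SPB
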