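import Pool.Agent.SPB.CNoChain
import Pool.Agent.SPB.CStmts

/-! C2: no long complex chain in a concrete block. -/

set_option linter.unusedSectionVars false

namespace SPB

open Finset Filter Topology
open scoped BigOperators InnerProductSpace

section main

variable {h d M m : ℕ}

lemma Gop_add (A B C A' B' C' : Nd h d → ℝ) : Gop h d M A B C + Gop h d M A' B' C' =
    Gop h d M (fun π => A π + A' π) (fun π => B π + B' π) (fun π => C π + C' π) := by
  ext z ⟨⟨π, b⟩, μ⟩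
  cases b
  · rw [LinearMap.add_apply, PiLp.add_apply, Gop_false, Gop_false, Gop_false]; ring
  · rw [LinearMap.add_apply, PiLp.add_apply, Gop_true, Gop_true, Gop_true]; ring

/-- Replacing a product by the product of the approximations, under a test. -/
lemma prod_approx {T T' Y Y' : VV h d M →ₗ[ℝ] VV h d M} {K ρ N : ℝ} (hK : 1 ≤ K) (hρ : 0 < ρ)
    (hρ1 : ρ ≤ 1) (hN : N = Fintype.card (Cd h d M))
    (hY : ∀ z, ‖Y z‖ ≤ 2 * K * ‖z‖) (hY' : ∀ z, ‖Y' z‖ ≤ 2 * K * ‖z‖)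
    (hR : hs2 (T - Y) ≤ (7 * K * ρ) ^ 2 * N) (hR' : hs2 (T' - Y') ≤ (7 * K * ρ) ^ 2 * N)
    (t : VV h d M →ₗ[ℝ] VV h d M) (ht : ∀ z, ‖t z‖ ≤ ‖z‖) :
    |tr (t ∘ₗ (T ∘ₗ T')) - tr (t ∘ₗ (Y ∘ₗ Y'))| ≤ 77 * (K ^ 2 * ρ * N) := by
  have hN0 : 0 ≤ N := by rw [hN]; positivity
  set s := √N with hs
  have hs2' : s * s = N := Real.mul_self_sqrt hN0
  have hs0 : 0 ≤ s := Real.sqrt_nonneg _
  have ht' : ∀ z, ‖t z‖ ≤ 1 * ‖z‖ := fun z => by rw [one_mul]; exact ht z
  have rR' : √(hs2 (T' - Y')) ≤ 7 * K * ρ * s := by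
    rw [Real.sqrt_le_left (by positivity), mul_pow, hs, Real.sq_sqrt hN0]
    exact hR'
  have rtR : √(hs2 (t ∘ₗ (T - Y))) ≤ 7 * K * ρ * s := by
    rw [Real.sqrt_le_left (by positivity), mul_pow, hs, Real.sq_sqrt hN0]
    refine le_trans ?_ hR
    have := hs2_comp_left (T - Y) t ht'
    simpa using this
  have rY' : √(hs2 Y') ≤ 2 * K * s := by
    rw [Real.sqrt_le_left (by positivity), mul_pow, hs, Real.sq_sqrt hN0, hN]
    exact hs2_le_of_bound Y' hY'
  have rtY : √(hs2 (t ∘ₗ Y)) ≤ 2 * K * s := by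
    rw [Real.sqrt_le_left (by positivity), mul_pow, hs, Real.sq_sqrt hN0, hN]
    refine le_trans ?_ (hs2_le_of_bound Y hY)
    have := hs2_comp_left Y t ht'
    simpa using this
  have key : t ∘ₗ (T ∘ₗ T') = t ∘ₗ (Y ∘ₗ Y') + (t ∘ₗ Y) ∘ₗ (T' - Y') +
        (t ∘ₗ (T - Y)) ∘ₗ Y' + (t ∘ₗ (T - Y)) ∘ₗ (T' - Y') := by
    refine LinearMap.ext fun z => ?_
    simp only [LinearMap.comp_apply, LinearMap.sub_apply, LinearMap.add_apply, map_sub]
    abel
  rw [key, tr_add, tr_add, tr_add]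
  have b1 := (abs_tr_comp_le (T' - Y') (t ∘ₗ Y)).trans
    (mul_le_mul rtY rR' (Real.sqrt_nonneg _) (by positivity))
  have b2 := (abs_tr_comp_le Y' (t ∘ₗ (T - Y))).trans
    (mul_le_mul rtR rY' (Real.sqrt_nonneg _) (by positivity))
  have b3 := (abs_tr_comp_le (T' - Y') (t ∘ₗ (T - Y))).trans
    (mul_le_mul rtR rR' (Real.sqrt_nonneg _) (by positivity))
  have c1 : 2 * K * s * (7 * K * ρ * s) = 14 * (K ^ 2 * ρ * N) := by rw [← hs2']; ring
  have c2 : 7 * K * ρ * s * (2 * K * s) = 14 * (K ^ 2 * ρ * N) := by rw [← hs2']; ring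
  have hX : 0 ≤ K ^ 2 * ρ * N := by positivity
  have c3 : 7 * K * ρ * s * (7 * K * ρ * s) ≤ 49 * (K ^ 2 * ρ * N) := by
    have : 7 * K * ρ * s * (7 * K * ρ * s) = 49 * (K ^ 2 * ρ * N) * ρ := by rw [← hs2']; ring
    rw [this]
    nlinarith
  rw [c1] at b1
  rw [c2] at b2
  have b3' := b3.trans c3
  rw [abs_le] at b1 b2 b3' ⊢
  constructor <;> linarith [b1.1, b1.2, b2.1, b2.2, b3'.1, b3'.2]

/-- Replacing an operator by its approximation, under a test. -/
lemma one_approx {T Y : VV h d M →ₗ[ℝ] VV h d M} {K ρ N : ℝ} (hK : 1 ≤ K) (hρ : 0 < ρ)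
    (hN : N = Fintype.card (Cd h d M)) (hR : hs2 (T - Y) ≤ (7 * K * ρ) ^ 2 * N)
    (t : VV h d M →ₗ[ℝ] VV h d M) (ht : ∀ z, ‖t z‖ ≤ ‖z‖) :
    |tr (t ∘ₗ T) - tr (t ∘ₗ Y)| ≤ 7 * (K * ρ * N) := by
  have hN0 : 0 ≤ N := by rw [hN]; positivity
  have e1 : tr (t ∘ₗ T) - tr (t ∘ₗ Y) = tr (t ∘ₗ (T - Y)) := by
    rw [LinearMap.comp_sub, tr_sub]
  rw [e1]
  refine (abs_tr_comp_le _ _).trans ?_
  have r1 : √(hs2 t) ≤ √N := by
    refine Real.sqrt_le_sqrt ?_
    have := hs2_le_of_bound t (c := 1) (fun z => by rw [one_mul]; exact ht z)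
    rw [one_pow, one_mul] at this
    rw [hN]
    exact this
  have r2 : √(hs2 (T - Y)) ≤ 7 * K * ρ * √N := by
    rw [Real.sqrt_le_left (by positivity), mul_pow, Real.sq_sqrt hN0]
    exact hR
  calc √(hs2 t) * √(hs2 (T - Y)) ≤ √N * (7 * K * ρ * √N) :=
        mul_le_mul r1 r2 (Real.sqrt_nonneg _) (Real.sqrt_nonneg _)
    _ = 7 * (K * ρ * (√N * √N)) := by ring
    _ = 7 * (K * ρ * N) := by rw [Real.mul_self_sqrt hN0]

/-- Trace of a rank two operator times a contraction. -/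
theorem abs_tr_rank_two {ι : Type} [Fintype ι] [DecidableEq ι]
    (T t : EuclideanSpace ℝ ι →ₗ[ℝ] EuclideanSpace ℝ ι) {c : ℝ}
    (e e' : EuclideanSpace ℝ ι) (hr : ∀ z, T z ∈ Submodule.span ℝ {e, e'})
    (hT : ∀ z, ‖T z‖ ≤ c * ‖z‖) (ht : ∀ z, ‖t z‖ ≤ ‖z‖) (hc : 0 ≤ c) :
    |tr (t ∘ₗ T)| ≤ 2 * c := by
  -- split `T` along the line spanned by `e` and its orthogonal complement
  set L : Submodule ℝ (EuclideanSpace ℝ ι) := Submodule.span ℝ {e} with hL
  set p : EuclideanSpace ℝ ι →L[ℝ] EuclideanSpace ℝ ι := L.starProjection with hp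
  set T1 : EuclideanSpace ℝ ι →ₗ[ℝ] EuclideanSpace ℝ ι := p.toLinearMap ∘ₗ T with hT1
  set T2 : EuclideanSpace ℝ ι →ₗ[ℝ] EuclideanSpace ℝ ι := T - T1 with hT2
  have hp1 : ∀ z, ‖p z‖ ≤ ‖z‖ := fun z => L.norm_starProjection_apply_le z
  have hp2 : ∀ z, ‖z - p z‖ ≤ ‖z‖ := by
    intro z
    have h1 := L.norm_sq_eq_add_norm_sq_starProjection z
    have h2 : Lᗮ.starProjection z = z - p z := by
      rw [hp]
      simp [Submodule.starProjection_orthogonal]
    rw [h2] at h1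
    have h3 : ‖z - p z‖ ^ 2 ≤ ‖z‖ ^ 2 := by nlinarith [sq_nonneg ‖L.starProjection z‖]
    exact le_of_sq_le_sq' h3 (norm_nonneg _)
  have e1 : T = T1 + T2 := by rw [hT2]; abel
  have hb1 : |tr (t ∘ₗ T1)| ≤ c := by
    refine abs_tr_rank_one T1 t e (fun z => ?_) (fun z => ?_) ht hc
    · exact L.starProjection_apply_mem _
    · exact (hp1 _).trans (hT z)
  have hb2 : |tr (t ∘ₗ T2)| ≤ c := by
    refine abs_tr_rank_one T2 t (e' - p e') (fun z => ?_) (fun z => ?_) ht hc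
    · have h1 := hr z
      rw [Submodule.mem_span_pair] at h1
      obtain ⟨a, b, hab⟩ := h1
      have h2 : T2 z = b • (e' - p e') := by
        have h3 : T2 z = T z - p (T z) := rfl
        rw [h3, ← hab, map_add, map_smul, map_smul]
        have h4 : p e = e := by
          rw [hp]
          exact Submodule.starProjection_eq_self_iff.mpr (Submodule.mem_span_singleton_self e)
        rw [h4, smul_sub]
        abel
      rw [h2]
      exact Submodule.smul_mem _ _ (Submodule.mem_span_singleton_self _)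
    · exact (hp2 _).trans (hT z)
  rw [e1, LinearMap.comp_add, tr_add]
  refine (abs_add_le _ _).trans ?_
  linarith
where
  le_of_sq_le_sq' {a b : ℝ} (h : a ^ 2 ≤ b ^ 2) (hb : 0 ≤ b) : a ≤ b := by
    exact le_of_not_gt fun hlt => by nlinarith

theorem cNoChainC_of (hT : TreeStmt) (hN : NormStmt) (hO : ObstructionCStmt) : CNoChainCStmt := by
  classical
  rintro k h M m d ρ ω hd hh hM hm hρ hρM hF C hC0 hC1
    ⟨T, S, hT0, hS0, hTn, hSn, hTlim, hTr, hTt, hSt⟩
  set K : ℝ := (k : ℝ) + 1 with hK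
  have hK1 : 1 ≤ K := by rw [hK]; have : (0 : ℝ) ≤ k := Nat.cast_nonneg k; linarith
  have hK0 : 0 < K := by linarith
  have h2d : (1 : ℝ) ≤ 2 ^ d := one_le_pow₀ (by norm_num)
  have hρ0 : 0 < ρ := by rw [hρ]; positivity
  have hρeq : K ^ 2 * ρ * 2 ^ d = 1 / 10 ^ 6 := by rw [hρ]; field_simp
  have hρ1 : ρ ≤ 1 := by
    have h1 : ρ ≤ K ^ 2 * ρ * 2 ^ d := by
      have : 1 ≤ K ^ 2 * 2 ^ d := by nlinarith [one_le_pow₀ hK1 (n := 2)]
      nlinarith
    rw [hρeq] at h1
    linarith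
  set N : ℝ := (Fintype.card (Cd h d M) : ℝ) with hNdef
  have hhR : (0 : ℝ) < h := Nat.cast_pos.2 hh
  have hMR : (0 : ℝ) < M := Nat.cast_pos.2 hM
  have hcardN : Fintype.card (Cd h d M) = h * (2 ^ d - 1) * 2 * M := by
    rw [Fintype.card_prod, Fintype.card_prod, Fintype.card_bool, Fintype.card_fin, hT.card]
  have hNle : N ≤ 2 * h * 2 ^ d * M := by
    rw [hNdef, hcardN]
    push_cast
    have h1 : ((2 ^ d - 1 : ℕ) : ℝ) ≤ 2 ^ d := by
      have : 2 ^ d - 1 ≤ 2 ^ d := Nat.sub_le _ _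
      exact_mod_cast this
    calc (h : ℝ) * ((2 ^ d - 1 : ℕ) : ℝ) * 2 * M ≤ h * 2 ^ d * 2 * M := by gcongr
      _ = _ := by ring
  have hcard0 : 0 < Fintype.card (Cd h d M) := by
    rw [hcardN]
    have h1 : 0 < 2 ^ d - 1 := by
      have : 2 ≤ 2 ^ d := by
        rw [hd]
        calc 2 = 2 ^ 1 := by norm_num
          _ ≤ _ := Nat.pow_le_pow_right (by norm_num) (by omega)
      omega
    positivity
  have hne : Nonempty (Cd h d M) := Fintype.card_pos_iff.1 hcard0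
  have hN0 : 0 < N := Nat.cast_pos.2 hcard0
  -- norms of the generators
  have hsv : ∀ j, ‖sv (ω j)‖ = 1 := fun j => by rw [sv_eq_gv]; exact SPB65.norm_gv _
  have hgen : ∀ q, ‖gen h d M ω q‖ ≤ 2 := by
    intro q
    refine (sample_U_norm_le h d M _ _).trans ?_
    rw [hsv, mul_one]
  have htwo := hN.two _ _ (gen h d M ω) ρ hρ0 hρ1 hgen
  have hlow := hN.low _ _ (gen h d M ω) ρ hρ0
  have hnE0 : ∀ z, 0 ≤ nE (gen h d M ω) ρ z := fun z => by
    have := htwo z
    have := norm_nonneg z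
    linarith
  have hnorm : ∀ R : VV h d M →ₗ[ℝ] VV h d M,
      (∀ z, nE (gen h d M ω) ρ (R z) ≤ C * nE (gen h d M ω) ρ z) →
      ∀ z, ‖R z‖ ≤ 2 * K / ρ * ‖z‖ := by
    intro R hR z
    calc ‖R z‖ ≤ 2 * nE (gen h d M ω) ρ (R z) := htwo _
      _ ≤ 2 * (C * nE (gen h d M ω) ρ z) := by have := hR z; linarith
      _ ≤ 2 * (K * (‖z‖ / ρ)) := by
          have h1 := hlow z
          have h2 := hnE0 z
          have : C * nE (gen h d M ω) ρ z ≤ K * (‖z‖ / ρ) := mul_le_mul hC1.le h1 h2 hK0.le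
          linarith
      _ = 2 * K / ρ * ‖z‖ := by ring
  -- few operators
  have hFew : ∀ R : VV h d M →ₗ[ℝ] VV h d M,
      (∀ z, nE (gen h d M ω) ρ (R z) ≤ C * nE (gen h d M ω) ρ z) →
      ∃ c : Fin (len h d + 1) → ℝ, (∑ p, |c p|) ≤ K ∧
      hs2 (R - ∑ p, c p • U h d M p) ≤ (7 * K * ρ) ^ 2 * N := by
    intro R hRn
    refine hF R (hnorm R hRn) fun j => ?_
    have hg : gen h d M ω (⟨len h d, by omega⟩, j) = sv (ω j) := by
      change U h d M (len h d) (sv (ω j)) = sv (ω j)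
      rw [nc_U_len hT]; rfl
    have h1 : nE (gen h d M ω) ρ (R (sv (ω j))) < K := by
      refine lt_of_le_of_lt (hRn _) ?_
      have h2 := hN.gen _ _ (gen h d M ω) ρ hρ0 (⟨len h d, by omega⟩, j)
      rw [hg] at h2
      have := mul_le_mul_of_nonneg_left h2 hC0.le
      linarith
    obtain ⟨c, hc⟩ := hN.attain _ _ (gen h d M ω) ρ K hρ0 _ h1
    refine ⟨c, ?_, ?_⟩
    · have : 0 ≤ ‖R (sv (ω j)) - ∑ q, c q • gen h d M ω q‖ / ρ := by positivity
      linarith
    · have h2 : 0 ≤ ∑ q, |c q| := Finset.sum_nonneg fun _ _ => abs_nonneg _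
      have h3 : ‖R (sv (ω j)) - ∑ q, c q • gen h d M ω q‖ / ρ ≤ K := by linarith
      rw [div_le_iff₀ hρ0] at h3
      exact h3
  have hFT := fun n => hFew (T n) (hTn n)
  have hFS := fun n => hFew (S n) (hSn n)
  choose c hc1 hc2 using hFT
  choose c' hc1' hc2' using hFS
  set D : ℕ → ℕ → ℝ := fun n q => ∑ p, c n p * st p q with hD
  set D' : ℕ → ℕ → ℝ := fun n q => ∑ p, c' n p * st p q with hD'
  set Y : ℕ → VV h d M →ₗ[ℝ] VV h d M := fun n => ∑ p, c n p • U h d M p with hYdef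
  set Z : ℕ → VV h d M →ₗ[ℝ] VV h d M := fun n => ∑ p, c' n p • U h d M p with hZdef
  have hYG : ∀ n, Y n = Gop h d M (fun π => D n (pa h d π))
      (fun π => D n (pb h d π) - D n (pc h d π)) (fun π => D n (pc h d π)) := by
    intro n
    rw [hYdef]
    simp only
    rw [sum_smul_U, Op_eq_Gop]
  have hZG : ∀ n, Z n = Gop h d M (fun π => D' n (pa h d π))
      (fun π => D' n (pb h d π) - D' n (pc h d π)) (fun π => D' n (pc h d π)) := by
    intro n
    rw [hZdef]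
    simp only
    rw [sum_smul_U, Op_eq_Gop]
  have hYn : ∀ n z, ‖Y n z‖ ≤ 2 * K * ‖z‖ := fun n z => norm_sum_U_le (c n) (hc1 n) z
  have hZn : ∀ n z, ‖Z n z‖ ≤ 2 * K * ‖z‖ := fun n z => norm_sum_U_le (c' n) (hc1' n) z
  have hX0 : 0 ≤ K * ρ * N := by positivity
  have hX1 : K * ρ * N ≤ K ^ 2 * ρ * N := by
    have : 0 ≤ ρ * N := by positivity
    nlinarith
  have htrT : ∀ (t : VV h d M →ₗ[ℝ] VV h d M), (∀ z, ‖t z‖ ≤ ‖z‖) → ∀ n n',
      |tr (t ∘ₗ (Y n ∘ₗ Y n' - Z n ∘ₗ Z n' - Y (min n n')))| ≤ 1843 * K ^ 2 * ρ * N := by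
    intro t ht n n'
    have a1 := prod_approx hK1 hρ0 hρ1 hNdef (hYn n) (hYn n') (hc2 n) (hc2 n') t ht
    have a2 := prod_approx hK1 hρ0 hρ1 hNdef (hZn n) (hZn n') (hc2' n) (hc2' n') t ht
    have a3 := one_approx hK1 hρ0 hNdef (hc2 (min n n')) t ht
    have a4 := hTt n n' t ht
    rw [LinearMap.comp_sub, LinearMap.comp_sub, tr_sub, tr_sub] at a4 ⊢
    rw [abs_le] at a1 a2 a3 a4 ⊢
    constructor <;> nlinarith [a1.1, a1.2, a2.1, a2.2, a3.1, a3.2, a4.1, a4.2]
  have htrS : ∀ (t : VV h d M →ₗ[ℝ] VV h d M), (∀ z, ‖t z‖ ≤ ‖z‖) → ∀ n n',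
      |tr (t ∘ₗ (Y n ∘ₗ Z n' + Z n ∘ₗ Y n' - Z (min n n')))| ≤ 1843 * K ^ 2 * ρ * N := by
    intro t ht n n'
    have a1 := prod_approx hK1 hρ0 hρ1 hNdef (hYn n) (hZn n') (hc2 n) (hc2' n') t ht
    have a2 := prod_approx hK1 hρ0 hρ1 hNdef (hZn n) (hYn n') (hc2' n) (hc2 n') t ht
    have a3 := one_approx hK1 hρ0 hNdef (hc2' (min n n')) t ht
    have a4 := hSt n n' t ht
    rw [LinearMap.comp_sub, LinearMap.comp_add, tr_sub, tr_add] at a4 ⊢
    rw [abs_le] at a1 a2 a3 a4 ⊢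
    constructor <;> nlinarith [a1.1, a1.2, a2.1, a2.2, a3.1, a3.2, a4.1, a4.2]
  have hbig : ∀ x : ℝ, |M * x| ≤ 1843 * K ^ 2 * ρ * N → |x| ≤ 1 / 200 * h := by
    intro x hx
    rw [abs_mul, abs_of_pos hMR] at hx
    have h1 : 1843 * K ^ 2 * ρ * N ≤ 1843 * K ^ 2 * ρ * (2 * h * 2 ^ d * M) := by gcongr
    have h2 : 1843 * K ^ 2 * ρ * (2 * h * 2 ^ d * M) = M * (3686 * (K ^ 2 * ρ * 2 ^ d) * h) := by
      ring
    rw [h2, hρeq] at h1
    have h3 := le_of_mul_le_mul_left (hx.trans h1) hMR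
    refine h3.trans ?_
    nlinarith
  -- from real and imaginary parts to norms
  have hcomb : ∀ X X' : Fin h → ℝ, ∑ τ, |X τ| ≤ 1 / 200 * h → ∑ τ, |X' τ| ≤ 1 / 200 * h →
      ∀ W : Fin h → ℂ, (∀ τ, (W τ).re = X τ) → (∀ τ, (W τ).im = X' τ) →
      ∑ τ, ‖W τ‖ ≤ 1 / 100 * h := by
    intro X X' h1 h2 W hre him
    calc ∑ τ, ‖W τ‖ ≤ ∑ τ, (|X τ| + |X' τ|) := by
          refine Finset.sum_le_sum fun τ _ => ?_
          rw [← hre, ← him]
          exact Complex.norm_le_abs_re_add_abs_im _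
      _ ≤ 1 / 100 * h := by rw [Finset.sum_add_distrib]; linarith
  set E : ℕ → ℕ → ℂ := fun n q => ⟨D n q, D' n q⟩ with hE
  have hEre : ∀ n q, (E n q).re = D n q := fun n q => rfl
  have hEim : ∀ n q, (E n q).im = D' n q := fun n q => rfl
  -- pairwise relations
  have relA : ∀ n n' (f : Fin h → Nd h d), Function.Injective f →
      ∑ τ, ‖E n (pa h d (f τ)) * E n' (pa h d (f τ)) - E (min n n') (pa h d (f τ))‖ ≤
        1 / 100 * h := by
    intro n n' f hf
    refine hcomb (fun τ => D n (pa h d (f τ)) * D n' (pa h d (f τ)) -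
      D' n (pa h d (f τ)) * D' n' (pa h d (f τ)) - D (min n n') (pa h d (f τ)))
      (fun τ => D n (pa h d (f τ)) * D' n' (pa h d (f τ)) +
      D' n (pa h d (f τ)) * D n' (pa h d (f τ)) - D' (min n n') (pa h d (f τ))) ?_ ?_ _ ?_ ?_
    · refine sign_test (X := fun π => D n (pa h d π) * D n' (pa h d π) -
        D' n (pa h d π) * D' n' (pa h d π) - D (min n n') (pa h d π)) (fun S hS => ?_) hf
      have h1 := htrT _ (norm_A_le (M := M) hS) n n'
      rw [hYG n, hYG n', hZG n, hZG n', hYG (min n n'), Gop_comp, Gop_comp, Gop_sub, Gop_sub,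
        tr_A_Gop] at h1
      exact hbig _ h1
    · refine sign_test (X := fun π => D n (pa h d π) * D' n' (pa h d π) +
        D' n (pa h d π) * D n' (pa h d π) - D' (min n n') (pa h d π)) (fun S hS => ?_) hf
      have h1 := htrS _ (norm_A_le (M := M) hS) n n'
      rw [hYG n, hYG n', hZG n, hZG n', hZG (min n n'), Gop_comp, Gop_comp, Gop_add, Gop_sub,
        tr_A_Gop] at h1
      exact hbig _ h1
    · intro τ
      simp [hE, Complex.mul_re]
    · intro τ
      simp [hE, Complex.mul_im]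
  have relC : ∀ n n' (f : Fin h → Nd h d), Function.Injective f →
      ∑ τ, ‖E n (pc h d (f τ)) * E n' (pc h d (f τ)) - E (min n n') (pc h d (f τ))‖ ≤
        1 / 100 * h := by
    intro n n' f hf
    refine hcomb (fun τ => D n (pc h d (f τ)) * D n' (pc h d (f τ)) -
      D' n (pc h d (f τ)) * D' n' (pc h d (f τ)) - D (min n n') (pc h d (f τ)))
      (fun τ => D n (pc h d (f τ)) * D' n' (pc h d (f τ)) +
      D' n (pc h d (f τ)) * D n' (pc h d (f τ)) - D' (min n n') (pc h d (f τ))) ?_ ?_ _ ?_ ?_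
    · refine sign_test (X := fun π => D n (pc h d π) * D n' (pc h d π) -
        D' n (pc h d π) * D' n' (pc h d π) - D (min n n') (pc h d π)) (fun S hS => ?_) hf
      have h1 := htrT _ (norm_C_le (M := M) hS) n n'
      rw [hYG n, hYG n', hZG n, hZG n', hYG (min n n'), Gop_comp, Gop_comp, Gop_sub, Gop_sub,
        tr_C_Gop] at h1
      exact hbig _ h1
    · refine sign_test (X := fun π => D n (pc h d π) * D' n' (pc h d π) +
        D' n (pc h d π) * D n' (pc h d π) - D' (min n n') (pc h d π)) (fun S hS => ?_) hf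
      have h1 := htrS _ (norm_C_le (M := M) hS) n n'
      rw [hYG n, hYG n', hZG n, hZG n', hZG (min n n'), Gop_comp, Gop_comp, Gop_add, Gop_sub,
        tr_C_Gop] at h1
      exact hbig _ h1
    · intro τ
      simp [hE, Complex.mul_re]
    · intro τ
      simp [hE, Complex.mul_im]
  have relB : ∀ n n' (f : Fin h → Nd h d), Function.Injective f →
      ∑ τ, ‖E n (pa h d (f τ)) * (E n' (pb h d (f τ)) - E n' (pc h d (f τ))) +
          (E n (pb h d (f τ)) - E n (pc h d (f τ))) * E n' (pc h d (f τ)) -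
          (E (min n n') (pb h d (f τ)) - E (min n n') (pc h d (f τ)))‖ ≤ 1 / 100 * h := by
    intro n n' f hf
    refine hcomb (fun τ => (D n (pa h d (f τ)) * (D n' (pb h d (f τ)) - D n' (pc h d (f τ))) +
        (D n (pb h d (f τ)) - D n (pc h d (f τ))) * D n' (pc h d (f τ))) -
        (D' n (pa h d (f τ)) * (D' n' (pb h d (f τ)) - D' n' (pc h d (f τ))) +
        (D' n (pb h d (f τ)) - D' n (pc h d (f τ))) * D' n' (pc h d (f τ))) -
        (D (min n n') (pb h d (f τ)) - D (min n n') (pc h d (f τ))))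
      (fun τ => (D n (pa h d (f τ)) * (D' n' (pb h d (f τ)) - D' n' (pc h d (f τ))) +
        (D n (pb h d (f τ)) - D n (pc h d (f τ))) * D' n' (pc h d (f τ))) +
        (D' n (pa h d (f τ)) * (D n' (pb h d (f τ)) - D n' (pc h d (f τ))) +
        (D' n (pb h d (f τ)) - D' n (pc h d (f τ))) * D n' (pc h d (f τ))) -
        (D' (min n n') (pb h d (f τ)) - D' (min n n') (pc h d (f τ)))) ?_ ?_ _ ?_ ?_
    · refine sign_test (X := fun π => (D n (pa h d π) * (D n' (pb h d π) - D n' (pc h d π)) +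
        (D n (pb h d π) - D n (pc h d π)) * D n' (pc h d π)) -
        (D' n (pa h d π) * (D' n' (pb h d π) - D' n' (pc h d π)) +
        (D' n (pb h d π) - D' n (pc h d π)) * D' n' (pc h d π)) -
        (D (min n n') (pb h d π) - D (min n n') (pc h d π))) (fun S hS => ?_) hf
      have h1 := htrT _ (norm_L_le (M := M) hS) n n'
      rw [hYG n, hYG n', hZG n, hZG n', hYG (min n n'), Gop_comp, Gop_comp, Gop_sub, Gop_sub,
        tr_Lop_Gop] at h1
      exact hbig _ h1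
    · refine sign_test (X := fun π => (D n (pa h d π) * (D' n' (pb h d π) - D' n' (pc h d π)) +
        (D n (pb h d π) - D n (pc h d π)) * D' n' (pc h d π)) +
        (D' n (pa h d π) * (D n' (pb h d π) - D n' (pc h d π)) +
        (D' n (pb h d π) - D' n (pc h d π)) * D n' (pc h d π)) -
        (D' (min n n') (pb h d π) - D' (min n n') (pc h d π))) (fun S hS => ?_) hf
      have h1 := htrS _ (norm_L_le (M := M) hS) n n'
      rw [hYG n, hYG n', hZG n, hZG n', hZG (min n n'), Gop_comp, Gop_comp, Gop_add, Gop_sub,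
        tr_Lop_Gop] at h1
      exact hbig _ h1
    · intro τ
      simp only [hE, Complex.sub_re, Complex.add_re, Complex.mul_re, Complex.sub_im]
      ring
    · intro τ
      simp only [hE, Complex.sub_im, Complex.add_im, Complex.mul_im, Complex.sub_re]
      ring
  -- the obstruction
  have hrel : ∀ v ∈ nodes h d 0, ∀ n n' : ℕ, n ≤ n' →
      (∑ τ ∈ Finset.range h, ‖E n (v.1 + τ) * E n' (v.1 + τ) - E n (v.1 + τ)‖ ≤ 1 / 100 * h) ∧
      (∑ τ ∈ Finset.range h, ‖E n (v.2.2 + τ) * E n' (v.2.2 + τ) - E n (v.2.2 + τ)‖ ≤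
        1 / 100 * h) ∧
      (∑ τ ∈ Finset.range h, ‖E n (v.1 + τ) * (E n' (v.2.1 + τ) - E n' (v.2.2 + τ))
          + (E n (v.2.1 + τ) - E n (v.2.2 + τ)) * E n' (v.2.2 + τ)
          - (E n (v.2.1 + τ) - E n (v.2.2 + τ))‖ ≤ 1 / 100 * h) ∧
      (∑ τ ∈ Finset.range h, ‖E n' (v.1 + τ) * (E n (v.2.1 + τ) - E n (v.2.2 + τ))
          + (E n' (v.2.1 + τ) - E n' (v.2.2 + τ)) * E n (v.2.2 + τ)
          - (E n (v.2.1 + τ) - E n (v.2.2 + τ))‖ ≤ 1 / 100 * h) := by
    intro v hv n n' hnn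
    obtain ⟨f, hf, hfv⟩ := hT.emb h d 0 v hv
    have ea : ∀ τ : Fin h, pa h d (f τ) = v.1 + τ := fun τ => by
      have := (hfv τ).1; omega
    have eb : ∀ τ : Fin h, pb h d (f τ) = v.2.1 + τ := fun τ => by
      have := (hfv τ).2.1; omega
    have ec : ∀ τ : Fin h, pc h d (f τ) = v.2.2 + τ := fun τ => by
      have := (hfv τ).2.2; omega
    have r1 := relA n n' f hf
    have r2 := relC n n' f hf
    have r3 := relB n n' f hf
    have r4 := relB n' n f hf
    rw [min_eq_left hnn] at r1 r2 r3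
    rw [min_eq_right hnn] at r4
    simp only [ea, eb, ec] at r1 r2 r3 r4
    refine ⟨?_, ?_, ?_, ?_⟩
    · rw [Finset.sum_range]; exact r1
    · rw [Finset.sum_range]; exact r2
    · rw [Finset.sum_range]; exact r3
    · rw [Finset.sum_range]; exact r4
  have hhalf : ∀ v ∈ nodes h d 0, ∃ n : ℕ,
      |(∑ τ ∈ Finset.range h, (E n (v.1 + τ)).re) / h - 1 / 2| ≤ 1 / 10 := by
    intro v hv
    obtain ⟨f, hf, hfv⟩ := hT.emb h d 0 v hv
    have ea : ∀ τ : Fin h, pa h d (f τ) = v.1 + τ := fun τ => by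
      have := (hfv τ).1; omega
    let S : Nd h d → ℝ := fun π => if π ∈ Finset.univ.image f then 1 else 0
    have hS : ∀ π, |S π| ≤ 1 := by
      intro π
      simp only [S]
      split_ifs <;> simp
    have hSsum : ∀ X : Nd h d → ℝ, ∑ π, S π * X π = ∑ τ, X (f τ) := by
      intro X
      have h3 : ∀ π, S π * X π = if π ∈ Finset.univ.image f then X π else 0 := by
        intro π
        simp only [S]
        split_ifs <;> simp
      simp only [h3]
      rw [← Finset.sum_filter, Finset.filter_mem_eq_inter, Finset.univ_inter,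
        Finset.sum_image (fun a _ b _ hab => hf hab)]
    set t : VV h d M →ₗ[ℝ] VV h d M := Gop h d M S (fun _ => 0) (fun _ => 0) with ht
    have htc : ∀ z, ‖t z‖ ≤ ‖z‖ := norm_A_le hS
    set a : ℕ → ℝ := fun n => tr (t ∘ₗ T n) with ha
    have ha0 : a 0 = 0 := by
      simp only [ha, hT0, LinearMap.comp_zero, tr_zero]
    have htr1 : tr t = M * h := by
      rw [ht, tr_Gop]
      simp only [add_zero]
      have := hSsum (fun _ => 1)
      simp only [mul_one] at this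
      rw [this]
      simp
    have hlim : Tendsto a atTop (𝓝 (M * h)) := by
      rw [← htr1]
      unfold tr at *
      refine tendsto_finsetSum _ fun l _ => ?_
      have hc : Continuous t := LinearMap.continuous_of_finiteDimensional t
      have h1 : Tendsto (fun n => t (T n (bv l))) atTop (𝓝 (t (bv l))) :=
        (hc.tendsto _).comp (hTlim (bv l))
      have h2 : Continuous fun z : VV h d M => z l := by fun_prop
      exact (h2.tendsto _).comp h1
    have hstep : ∀ n, |a (n + 1) - a n| ≤ M * h / 100 := by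
      intro n
      obtain ⟨e, e', he⟩ := hTr n
      have e1 : a (n + 1) - a n = tr (t ∘ₗ (T (n + 1) - T n)) := by
        simp only [ha]
        rw [LinearMap.comp_sub, tr_sub]
      rw [e1]
      refine (abs_tr_rank_two (c := 4 * K / ρ) (T (n + 1) - T n) t e e' (fun z => he z)
        (fun z => ?_) htc (by positivity)).trans ?_
      · rw [LinearMap.sub_apply]
        refine (norm_sub_le _ _).trans ?_
        have h1 := hnorm _ (hTn (n + 1)) z
        have h2 := hnorm _ (hTn n) z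
        have h3 : 4 * K / ρ * ‖z‖ = 2 * K / ρ * ‖z‖ + 2 * K / ρ * ‖z‖ := by ring
        rw [h3]; linarith
      · have e2 : 2 * (4 * K / ρ) = 8 * K / ρ := by ring
        rw [e2, div_le_iff₀ hρ0]
        nlinarith
    obtain ⟨n, hn⟩ := exists_near_half (by positivity) ha0 hlim hstep
    refine ⟨n, ?_⟩
    -- compare `a n` with the average
    have hYt : tr (t ∘ₗ Y n) = M * ∑ τ ∈ Finset.range h, D n (v.1 + τ) := by
      rw [hYG n, ht, tr_A_Gop, hSsum, Finset.sum_range]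
      simp only [ea]
    have hdiff : |a n - tr (t ∘ₗ Y n)| ≤ 7 * (K * ρ * N) :=
      one_approx hK1 hρ0 hNdef (hc2 n) t htc
    have hsmall : 7 * (K * ρ * N) ≤ M * h / 100 := by
      have h1 : 7 * (K * ρ * N) ≤ 7 * (K * ρ * (2 * h * 2 ^ d * M)) := by gcongr
      have h2 : 7 * (K * ρ * (2 * h * 2 ^ d * M)) = 14 * (K * ρ * 2 ^ d) * (M * h) := by ring
      have h3 : K * ρ * 2 ^ d ≤ K ^ 2 * ρ * 2 ^ d := by
        have : 0 ≤ ρ * 2 ^ d := by positivity
        nlinarith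
      rw [hρeq] at h3
      rw [h2] at h1
      have h4 : 0 ≤ (M : ℝ) * h := by positivity
      nlinarith
    rw [hYt] at hdiff
    simp only [hEre]
    set Sg := ∑ τ ∈ Finset.range h, D n (v.1 + τ) with hSgdef
    have h5 : |M * Sg - M * h / 2| ≤ M * h / 50 := by
      rw [abs_le] at hn hdiff ⊢
      constructor <;> linarith [hn.1, hn.2, hdiff.1, hdiff.2]
    have h6 : Sg / h - 1 / 2 = (M * Sg - M * h / 2) / (M * h) := by
      field_simp
    rw [h6, abs_div, abs_of_pos (by positivity : (0 : ℝ) < M * h), div_le_iff₀ (by positivity)]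
    have : 0 < (M : ℝ) * h := by positivity
    linarith
  have hd' : d = 2 * (20 * (k + 1) + 1) + 1 := hd
  rw [hd'] at hrel hhalf
  obtain ⟨n, hn⟩ := hO h (20 * (k + 1) + 1) E (1 / 100) hh le_rfl hrel hhalf
  have hvar := variation_le (c n) (hc1 n) (len h (2 * (20 * (k + 1) + 1) + 1))
  have hvar' := variation_le (c' n) (hc1' n) (len h (2 * (20 * (k + 1) + 1) + 1))
  have h7 : ∑ q ∈ Finset.range (len h (2 * (20 * (k + 1) + 1) + 1)), ‖E n (q + 1) - E n q‖ ≤
      K + K := by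
    refine le_trans ?_ (add_le_add hvar hvar')
    rw [← Finset.sum_add_distrib]
    refine Finset.sum_le_sum fun q _ => ?_
    exact Complex.norm_le_abs_re_add_abs_im _
  have h8 := hn.trans h7
  push_cast at h8
  rw [hK] at h8
  linarith

end main

end SPB
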