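import Pool.Agent.SPB.Defs

/-!
# Statements of the modules of the blueprint

Each `def XStmt : Prop` below is proved in its own file `Pool/Agent/SPB/<Module>.lean`
as a theorem `x_holds : XStmt`; a module may take the other statements as hypotheses.
-/

namespace SPB

open scoped BigOperators InnerProductSpace

/-- Number of elements satisfying `P`, as a real number. -/
noncomputable def cnt {Ω : Type} [Fintype Ω] (P : Ω → Prop) : ℝ := by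
  classical exact ((Finset.univ.filter P).card : ℝ)

/-! ### M1 small ball -/

/-- M1 (file `SmallBall.lean`). Small ball estimate for Rademacher sums in a Hilbert space. -/
def SmallBallStmt : Prop :=
  ∀ (ι : Type) [Fintype ι] [DecidableEq ι] (H : Type) [NormedAddCommGroup H]
    [InnerProductSpace ℝ H] (A : ι → H) (κ r : ℝ), 0 < κ →
    (∀ c : ι → ℝ, ‖∑ i, c i • A i‖ ^ 2 ≤ κ ^ 2 * ∑ i, c i ^ 2) →
    3 * r ^ 2 ≤ ∑ i, ‖A i‖ ^ 2 → ∀ y : H,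
    cnt (fun ε : ι → Bool => ‖∑ i, sg (ε i) • A i - y‖ ≤ r) ≤
      2 ^ Fintype.card ι * Real.exp (-(∑ i, ‖A i‖ ^ 2) / (18 * κ ^ 2))

/-! ### M2 Maurey, independent sets, fibres -/

/-- The element chosen by an optional signed index. -/
noncomputable def pick {J H : Type} [NormedAddCommGroup H] [NormedSpace ℝ H] (x : J → H) :
    Option (J × Bool) → H
  | none => 0
  | some (j, b) => sg b • x j

/-- M2a (file `Maurey.lean`). Maurey's empirical method. -/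
def MaureyStmt : Prop :=
  ∀ (J : Type) [Fintype J] (H : Type) [NormedAddCommGroup H] [InnerProductSpace ℝ H]
    (x : J → H) (B : ℝ), 0 ≤ B → (∀ j, ‖x j‖ ≤ B) → ∀ (c : J → ℝ) (A : ℝ), 0 < A →
    ∑ j, |c j| ≤ A → ∀ K : ℕ, 0 < K → ∃ φ : Fin K → Option (J × Bool),
      ‖∑ j, c j • x j - (A / K) • ∑ l, pick x (φ l)‖ ≤ A * B / √(K : ℝ)

/-- M2b (file `Indep.lean`). A digraph of out-degree at most `K` on `m` vertices has an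
independent set of size at least `m/(2K+1)`. -/
def IndepStmt : Prop :=
  ∀ (m K : ℕ) (S : Fin m → Finset (Fin m)), (∀ j, (S j).card ≤ K) →
    ∃ J : Finset (Fin m), m ≤ (2 * K + 1) * J.card ∧ ∀ i ∈ J, ∀ j ∈ J, i ≠ j → i ∉ S j

/-- M2c (file `Fiber.lean`). Conditional independence, in counting form. -/
def FiberStmt : Prop :=
  ∀ (m : ℕ) (Ω : Type) [Fintype Ω] (J : Finset (Fin m)) (Ev : Fin m → (Fin m → Ω) → Prop)
    (q : ℝ), 0 ≤ q →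
    (∀ j ∈ J, ∀ i ∈ J, i ≠ j → ∀ (ω : Fin m → Ω) (ε : Ω),
      Ev j (Function.update ω i ε) ↔ Ev j ω) →
    (∀ j ∈ J, ∀ ω : Fin m → Ω, cnt (fun ε : Ω => Ev j (Function.update ω j ε)) ≤
      q * Fintype.card Ω) →
    cnt (fun ω : Fin m → Ω => ∀ j ∈ J, Ev j ω) ≤ q ^ J.card * (Fintype.card Ω : ℝ) ^ m

/-- M2d (file `FewOp.lean`). Few operators: fails for at most a quarter of the samples. -/
def FewOpStmt : Prop :=
  ∀ (P : Type) [Fintype P] (C ρ : ℝ), 1 ≤ C → 0 < ρ → ρ ≤ 1 → ∃ N0 : ℕ,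
    ∀ (ι : Type) [Fintype ι] [DecidableEq ι], N0 ≤ Fintype.card ι →
    ∀ U : P → EuclideanSpace ℝ ι →ₗ[ℝ] EuclideanSpace ℝ ι, (∀ p z, ‖U p z‖ ≤ 2 * ‖z‖) →
    cnt (fun ω : Fin (Fintype.card ι ^ 5) → (ι → Bool) =>
        ¬ FewOp U C ρ (fun j => sv (ω j))) ≤
      (1 / 4) * Fintype.card (Fin (Fintype.card ι ^ 5) → (ι → Bool))

/-! ### M3 moments and near orthogonality -/

/-- M3a (file `Moments.lean`). -/
def I1Stmt : Prop :=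
  ∀ (ι : Type) [Fintype ι] [DecidableEq ι] (m : ℕ), 0 < m → 0 < Fintype.card ι →
    cnt (fun ω : Fin m → (ι → Bool) => ¬ I1 (fun j => sv (ω j))) ≤
      (100 * (Fintype.card ι : ℝ) ^ 2 / m) * Fintype.card (Fin m → (ι → Bool))

/-- M3b (file `Moments.lean`). -/
def I2Stmt : Prop :=
  ∀ (ι : Type) [Fintype ι] [DecidableEq ι] (m : ℕ), 0 < m → 0 < Fintype.card ι →
    cnt (fun ω : Fin m → (ι → Bool) => ¬ I2 (fun j => sv (ω j))) ≤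
      ((Fintype.card ι : ℝ) ^ 4 / m) * Fintype.card (Fin m → (ι → Bool))

/-- M3c (file `NearOrth.lean`). -/
def NOStmt : Prop :=
  ∀ (h d M m : ℕ) (δ : ℝ), 0 < δ → 0 < M →
    cnt (fun ω : Fin m → Cd h d M → Bool => ¬ NO h d M δ ω) ≤
      2 * ((m : ℝ) * (2 * Fintype.card (Nd h d))) ^ 2 * Real.exp (-(δ ^ 2 * M / 2)) *
        Fintype.card (Fin m → Cd h d M → Bool)

/-- M3d (file `Sample.lean`). Existence of a good sample for all large `M`. -/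
def SampleStmt : Prop :=
  ∀ (h d : ℕ), 0 < h → 0 < d → ∀ (C ρ δ : ℝ), 1 ≤ C → 0 < ρ → ρ ≤ 1 → 0 < δ →
    ∃ M0 : ℕ, ∀ M, M0 ≤ M → ∃ (m : ℕ) (ω : Fin m → Cd h d M → Bool), 0 < m ∧
      FewOp (fun p : Fin (len h d + 1) => U h d M p) C ρ (fun j => sv (ω j)) ∧
      I1 (fun j => sv (ω j)) ∧ I2 (fun j => sv (ω j)) ∧ NO h d M δ ω

/-! ### M4 the tree -/

/-- M4a (file `Tree.lean`). Combinatorics of the positions. -/
structure TreeStmt : Prop where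
  ab : ∀ (h d : ℕ) (π : Nd h d), pa h d π < pb h d π
  bc : ∀ (h d : ℕ) (π : Nd h d), pb h d π < pc h d π
  cl : ∀ (h d : ℕ) (π : Nd h d), pc h d π < len h d
  card : ∀ (h d : ℕ), Fintype.card (Nd h d) = h * (2 ^ d - 1)
  sum_pos : ∀ (h d : ℕ) (f : ℕ → ℝ),
    ∑ π : Nd h d, (f (pa h d π) + f (pb h d π) + f (pc h d π)) =
      ∑ q ∈ Finset.range (len h d), f q
  closure : ∀ (h d p q : ℕ), p < q → ∃ p' q' : ℕ, p' ≤ q' ∧ q' ≤ len h d ∧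
    ∀ π : Nd h d, ¬ (p' ≤ pa h d π ∧ pa h d π < q') ∧ ¬ (p' ≤ pc h d π ∧ pc h d π < q') ∧
      ((p' ≤ pb h d π ∧ pb h d π < q') ↔
        (pa h d π < p ∧ p ≤ pb h d π ∧ pb h d π < q ∧ q ≤ pc h d π))
  emb : ∀ (h d o : ℕ) (v : ℕ × ℕ × ℕ), v ∈ nodes h d o → ∃ f : Fin h → Nd h d,
    Function.Injective f ∧ ∀ τ, o + pa h d (f τ) = v.1 + τ ∧ o + pb h d (f τ) = v.2.1 + τ ∧
      o + pc h d (f τ) = v.2.2 + τ

/-- M4b (file `NearIso.lean`). Near isometry. -/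
def NearIsoStmt : Prop :=
  ∀ (h d M m : ℕ) (δ : ℝ) (ω : Fin m → Cd h d M → Bool), 0 < h → 0 < d → 0 < M → 0 ≤ δ →
    NO h d M δ ω → ∀ S : Finset (Fin m), 20 * (S.card : ℝ) * δ ≤ 1 →
    ∀ D : Fin m → ℕ → ℝ,
      (3 / 10) * (1 / (2 * Fintype.card (Nd h d))) *
          (∑ s ∈ S, ∑ q ∈ Finset.range (len h d), D s q ^ 2) ≤
        ‖∑ s ∈ S, ∑ q ∈ Finset.range (len h d),
            D s q • (U h d M (q + 1) (sv (ω s)) - U h d M q (sv (ω s)))‖ ^ 2 ∧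
      ‖∑ s ∈ S, ∑ q ∈ Finset.range (len h d),
            D s q • (U h d M (q + 1) (sv (ω s)) - U h d M q (sv (ω s)))‖ ^ 2 ≤
        3 * (1 / (2 * Fintype.card (Nd h d))) *
          (∑ s ∈ S, ∑ q ∈ Finset.range (len h d), D s q ^ 2)

/-! ### M5 transfer -/

/-- M5 (file `TransferCore.lean`). The trace estimate. -/
def TransferCoreStmt : Prop :=
  ∀ (ι κ S : Type) [Fintype ι] [DecidableEq ι] [Fintype κ] [DecidableEq κ] [Fintype S]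
    (m : ℕ) (w : Fin m → EuclideanSpace ℝ ι) (R : ℕ) (x : S → ℕ → EuclideanSpace ℝ κ)
    (γ ρ ρ' C : ℝ) (α : EuclideanSpace ℝ ι →ₗ[ℝ] EuclideanSpace ℝ κ)
    (β : EuclideanSpace ℝ κ →ₗ[ℝ] EuclideanSpace ℝ ι) (a : Fin m → ℝ),
    0 < m → 0 < γ → 0 < ρ → 0 < ρ' → 0 < C → I1 w → I2 w → (∀ s, x s 0 = 0) →
    (∀ D : S → Fin R → ℝ, (3 / 10) * γ * (∑ s, ∑ q, D s q ^ 2) ≤
      ‖∑ s, ∑ q : Fin R, D s q • (x s (q + 1) - x s q)‖ ^ 2) →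
    (∀ D : S → Fin R → ℝ, ‖∑ s, ∑ q : Fin R, D s q • (x s (q + 1) - x s q)‖ ^ 2 ≤
      3 * γ * (∑ s, ∑ q, D s q ^ 2)) →
    (∀ i, ∃ c : S → Fin R → ℝ, (∑ s, ∑ p, |c s p|) ≤ a i ∧
      ‖α (w i) - ∑ s, ∑ p : Fin R, c s p • x s (p + 1)‖ ≤ ρ' * a i) →
    (∀ s, ∀ p ≤ R, ‖β (x s p)‖ ≤ 2 * C) →
    hs2 β ≤ (C * ρ / ρ') ^ 2 * Fintype.card ι →
    2 ≤ ρ * √(Fintype.card ι : ℝ) →
    |tr (β ∘ₗ α)| ≤ 210 * C * ρ * Fintype.card ι * ((1 / (m : ℝ)) * ∑ i, a i)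

/-! ### M6 obstruction -/

/-- M6 (file `Obstruction.lean`). The four leaves obstruction: a long chain of approximate
solutions on the tree of depth `2e+1` has variation at least `e/10`. -/
def ObstructionStmt : Prop :=
  ∀ (h e : ℕ) (D : ℕ → ℕ → ℝ) (ε : ℝ), 0 < h → ε ≤ 1 / 100 →
    (∀ v ∈ nodes h (2 * e + 1) 0, ∀ n n' : ℕ, n ≤ n' →
      (∑ τ ∈ Finset.range h, |D n (v.1 + τ) * D n' (v.1 + τ) - D n (v.1 + τ)| ≤ ε * h) ∧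
      (∑ τ ∈ Finset.range h, |D n (v.2.2 + τ) * D n' (v.2.2 + τ) - D n (v.2.2 + τ)| ≤ ε * h) ∧
      (∑ τ ∈ Finset.range h, |D n (v.1 + τ) * (D n' (v.2.1 + τ) - D n' (v.2.2 + τ))
          + (D n (v.2.1 + τ) - D n (v.2.2 + τ)) * D n' (v.2.2 + τ)
          - (D n (v.2.1 + τ) - D n (v.2.2 + τ))| ≤ ε * h) ∧
      (∑ τ ∈ Finset.range h, |D n' (v.1 + τ) * (D n (v.2.1 + τ) - D n (v.2.2 + τ))
          + (D n' (v.2.1 + τ) - D n' (v.2.2 + τ)) * D n (v.2.2 + τ)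
          - (D n (v.2.1 + τ) - D n (v.2.2 + τ))| ≤ ε * h)) →
    (∀ v ∈ nodes h (2 * e + 1) 0, ∃ n : ℕ,
      |(∑ τ ∈ Finset.range h, D n (v.1 + τ)) / h - 1 / 2| ≤ 1 / 10) →
    ∃ n : ℕ, (e : ℝ) / 10 ≤
      ∑ q ∈ Finset.range (len h (2 * e + 1)), |D n (q + 1) - D n q|

/-! ### M7 block norm -/

/-- M7 (file `Norm.lean`). Properties of the block norm. -/
structure NormStmt : Prop where
  add : ∀ (ι Q : Type) [Fintype ι] [Fintype Q] (x : Q → EuclideanSpace ℝ ι) (ρ : ℝ), 0 < ρ →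
    ∀ y z, nE x ρ (y + z) ≤ nE x ρ y + nE x ρ z
  smul : ∀ (ι Q : Type) [Fintype ι] [Fintype Q] (x : Q → EuclideanSpace ℝ ι) (ρ : ℝ), 0 < ρ →
    ∀ (a : ℝ) z, nE x ρ (a • z) = |a| * nE x ρ z
  two : ∀ (ι Q : Type) [Fintype ι] [Fintype Q] (x : Q → EuclideanSpace ℝ ι) (ρ : ℝ), 0 < ρ →
    ρ ≤ 1 → (∀ q, ‖x q‖ ≤ 2) → ∀ z, ‖z‖ ≤ 2 * nE x ρ z
  low : ∀ (ι Q : Type) [Fintype ι] [Fintype Q] (x : Q → EuclideanSpace ℝ ι) (ρ : ℝ), 0 < ρ →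
    ∀ z, nE x ρ z ≤ ‖z‖ / ρ
  gen : ∀ (ι Q : Type) [Fintype ι] [Fintype Q] (x : Q → EuclideanSpace ℝ ι) (ρ : ℝ), 0 < ρ →
    ∀ q, nE x ρ (x q) ≤ 1
  coord : ∀ (ι Q : Type) [Fintype ι] [Fintype Q] (x : Q → EuclideanSpace ℝ ι) (ρ : ℝ), 0 < ρ →
    (∀ q l, |x q l| ≤ ρ) → ∀ z l, |z l| ≤ ρ * nE x ρ z
  attain : ∀ (ι Q : Type) [Fintype ι] [Fintype Q] (x : Q → EuclideanSpace ℝ ι) (ρ A : ℝ), 0 < ρ →
    ∀ z, nE x ρ z < A → ∃ c : Q → ℝ, (∑ q, |c q|) + ‖z - ∑ q, c q • x q‖ / ρ < A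
  op : ∀ (ι Q : Type) [Fintype ι] [Fintype Q] (x : Q → EuclideanSpace ℝ ι) (ρ A : ℝ), 0 < ρ →
    ∀ T : EuclideanSpace ℝ ι →ₗ[ℝ] EuclideanSpace ℝ ι, 0 ≤ A → (∀ q, nE x ρ (T (x q)) ≤ A) →
    (∀ z, ‖T z‖ ≤ A * ‖z‖) → ∀ z, nE x ρ (T z) ≤ A * nE x ρ z

/-! ### M8 bases -/

/-- M8 (file `Basis.lean`). Banach's theorem: unique expansions give uniformly bounded commuting
partial sum projections. -/
def BasisStmt : Prop :=
  ∀ (X : Type) [NormedAddCommGroup X] [NormedSpace ℝ X] [CompleteSpace X] (e : ℕ → X),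
    (∀ x, ∃! a : ℕ → ℝ, Filter.Tendsto (fun n => ∑ i ∈ Finset.range n, a i • e i)
      Filter.atTop (nhds x)) →
    ∃ (P : ℕ → X →L[ℝ] X) (C : ℝ), P 0 = 0 ∧ (∀ n m, P n ∘L P m = P (min n m)) ∧
      (∀ n, ‖P n‖ ≤ C) ∧ (∀ n x, P (n + 1) x - P n x ∈ Submodule.span ℝ {e n}) ∧
      ∀ x, Filter.Tendsto (fun n => P n x) Filter.atTop (nhds x)

/-- M9 (file `StrictPi.lean`). A slow chain of projections contains a strict one. -/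
def StrictPiStmt : Prop :=
  ∀ (X : Type) [NormedAddCommGroup X] [NormedSpace ℝ X] (W : ℕ → X →L[ℝ] X) (lam : ℝ),
    ¬ FiniteDimensional ℝ X → W 0 = 0 → (∀ t s, t ≤ s → W s ∘L W t = W t) →
    (∀ t, ∃ e : X, ∀ x, W (t + 1) x - W t x ∈ Submodule.span ℝ {e}) → (∀ t, ‖W t‖ ≤ lam) →
    (∀ x, Filter.Tendsto (fun t => W t x) Filter.atTop (nhds x)) →
    ∃ u : ℕ → X →L[ℝ] X, (∀ n, FiniteDimensional ℝ (LinearMap.range (u n : X →ₗ[ℝ] X)) ∧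
        Module.finrank ℝ (LinearMap.range (u n : X →ₗ[ℝ] X)) = n) ∧
      (∀ n m, n ≤ m → u m ∘L u n = u n) ∧ (∀ n, ‖u n‖ ≤ lam) ∧
      ∀ x, Filter.Tendsto (fun n => u n x) Filter.atTop (nhds x)

end SPB
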