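import Pool.Agent.SPB.HS
import Pool.Agent.SPB.Stmts

set_option linter.unusedSectionVars false

/-!
# Elementary properties of the operators `Op`, `U`, `Wt`
-/

namespace SPB

open scoped BigOperators InnerProductSpace

theorem sg_sq (b : Bool) : sg b ^ 2 = 1 := by cases b <;> simp [sg]

theorem abs_sg (b : Bool) : |sg b| = 1 := by cases b <;> simp [sg]

theorem sv_apply {ι : Type} [Fintype ι] (ε : ι → Bool) (l : ι) :
    (sv ε) l = sg (ε l) / √(Fintype.card ι : ℝ) := rfl

theorem abs_sv_apply {ι : Type} [Fintype ι] (ε : ι → Bool) (l : ι) :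
    |(sv ε) l| = 1 / √(Fintype.card ι : ℝ) := by
  rw [sv_apply, abs_div, abs_sg, abs_of_nonneg (Real.sqrt_nonneg _)]

theorem norm_sv {ι : Type} [Fintype ι] [DecidableEq ι] (hN : 0 < Fintype.card ι) (ε : ι → Bool) :
    ‖sv ε‖ = 1 := by
  have hN' : (0 : ℝ) < Fintype.card ι := by exact_mod_cast hN
  have h1 : ‖sv ε‖ ^ 2 = 1 := by
    rw [sq_norm_eq]
    have : ∀ l : ι, (sv ε) l ^ 2 = 1 / (Fintype.card ι : ℝ) := by
      intro l
      rw [sv_apply, div_pow, sg_sq, Real.sq_sqrt hN'.le]
    simp only [this]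
    rw [Finset.sum_const, Finset.card_univ, nsmul_eq_mul]
    field_simp
  have h2 : 0 ≤ ‖sv ε‖ := norm_nonneg _
  nlinarith [sq_nonneg (‖sv ε‖ - 1)]

section Op

variable {h d M : ℕ}

theorem Op_false (D : Fin M → ℕ → ℝ) (z : VV h d M) (π : Nd h d) (μ : Fin M) :
    (Op h d M D z) ((π, false), μ) = D μ (pa h d π) * z ((π, false), μ)
        + (D μ (pb h d π) - D μ (pc h d π)) * z ((π, true), μ) := rfl

theorem Op_true (D : Fin M → ℕ → ℝ) (z : VV h d M) (π : Nd h d) (μ : Fin M) :
    (Op h d M D z) ((π, true), μ) = D μ (pc h d π) * z ((π, true), μ) := rfl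

/-- Two vectors of the block space agree if they agree on target and source cells. -/
theorem VV_ext {x y : VV h d M} (h1 : ∀ π μ, x ((π, false), μ) = y ((π, false), μ))
    (h2 : ∀ π μ, x ((π, true), μ) = y ((π, true), μ)) : x = y := by
  ext ⟨⟨π, b⟩, μ⟩
  cases b
  · exact h1 π μ
  · exact h2 π μ

theorem Op_ext {S T : VV h d M →ₗ[ℝ] VV h d M}
    (h1 : ∀ z π μ, (S z) ((π, false), μ) = (T z) ((π, false), μ))
    (h2 : ∀ z π μ, (S z) ((π, true), μ) = (T z) ((π, true), μ)) : S = T := by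
  refine LinearMap.ext fun z => VV_ext (h1 z) (h2 z)

theorem sum_Cd {A : Type} [AddCommMonoid A] (f : Cd h d M → A) :
    ∑ l : Cd h d M, f l = ∑ π : Nd h d, ∑ μ : Fin M, (f ((π, false), μ) + f ((π, true), μ)) := by
  rw [Fintype.sum_prod_type, Fintype.sum_prod_type]
  refine Finset.sum_congr rfl fun π _ => ?_
  rw [Fintype.sum_bool, ← Finset.sum_add_distrib]
  refine Finset.sum_congr rfl fun μ _ => ?_
  rw [add_comm]

theorem sq_norm_VV (z : VV h d M) :
    ‖z‖ ^ 2 = ∑ π : Nd h d, ∑ μ : Fin M, (z ((π, false), μ) ^ 2 + z ((π, true), μ) ^ 2) := by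
  rw [sq_norm_eq, sum_Cd]

theorem card_Cd : Fintype.card (Cd h d M) = 2 * Fintype.card (Nd h d) * M := by
  simp [Cd, Fintype.card_prod, mul_comm]

theorem st_apply (p q : ℕ) : st p q = if q < p then 1 else 0 := rfl

theorem U_zero : U h d M 0 = 0 := by
  apply Op_ext
  · intro z π μ
    simp [U, Op_false, st_apply]
  · intro z π μ
    simp [U, Op_true, st_apply]

/-- The operators given by step functions, slot by slot. -/
theorem Op_st_of_len_le (hT : TreeStmt) (f : Fin M → ℕ) (hf : ∀ μ, len h d ≤ f μ) :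
    Op h d M (fun μ => st (f μ)) = LinearMap.id := by
  apply Op_ext
  · intro z π μ
    have h1 := hT.ab h d π
    have h2 := hT.bc h d π
    have h3 := hT.cl h d π
    have h4 := hf μ
    rw [Op_false]
    simp only [st_apply]
    rw [if_pos (by omega), if_pos (by omega), if_pos (by omega)]
    simp
  · intro z π μ
    have h3 := hT.cl h d π
    have h4 := hf μ
    rw [Op_true]
    simp only [st_apply]
    rw [if_pos (by omega)]
    simp

theorem U_len (hT : TreeStmt) : U h d M (len h d) = LinearMap.id :=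
  Op_st_of_len_le hT _ fun _ => le_rfl

theorem st_mul_st {p q : ℕ} (hpq : p ≤ q) (x : ℕ) : st q x * st p x = st p x := by
  simp only [st_apply]
  split_ifs <;> first | omega | simp

theorem st_mul_st' {p q : ℕ} (hpq : p ≤ q) (x : ℕ) : st p x * st q x = st p x := by
  rw [mul_comm, st_mul_st hpq]

theorem st_eq_of_not {p q x : ℕ} (hpq : p ≤ q) (hx : ¬ (p ≤ x ∧ x < q)) : st q x = st p x := by
  simp only [st_apply]
  split_ifs <;> first | omega | rfl

theorem key_comp {f g a b c : ℕ} (hfg : f ≤ g) (hab : a < b) (hbc : b < c) :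
    st g a * (st f b - st f c) + (st g b - st g c) * st f c = st f b - st f c := by
  by_cases h1 : b < f
  · have h2 : st g a = 1 := if_pos (by omega)
    have h3 : st g b = 1 := if_pos (by omega)
    rw [h2, h3]
    by_cases h4 : c < f
    · have h5 : st g c = 1 := if_pos (by omega)
      rw [h5]; ring
    · have h5 : st f c = 0 := if_neg (by omega)
      rw [h5]; ring
  · have h2 : st f b = 0 := if_neg h1
    have h3 : st f c = 0 := if_neg (by omega)
    rw [h2, h3]; ring

theorem Op_st_comp (hT : TreeStmt) (f g : Fin M → ℕ) (hfg : ∀ μ, f μ ≤ g μ) :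
    Op h d M (fun μ => st (g μ)) ∘ₗ Op h d M (fun μ => st (f μ)) =
      Op h d M (fun μ => st (f μ)) := by
  apply Op_ext
  · intro z π μ
    have h1 := hT.ab h d π
    have h2 := hT.bc h d π
    have h4 := hfg μ
    simp only [LinearMap.comp_apply, Op_false, Op_true]
    have e1 := st_mul_st h4 (pa h d π)
    have e2 := key_comp h4 h1 h2
    linear_combination (z ((π, false), μ)) * e1 + (z ((π, true), μ)) * e2
  · intro z π μ
    have h4 := hfg μ
    simp only [LinearMap.comp_apply, Op_true]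
    have e1 := st_mul_st h4 (pc h d π)
    linear_combination (z ((π, true), μ)) * e1

theorem key_norm {f a b c : ℕ} (hab : a < b) (hbc : b < c) (x y : ℝ) :
    (st f a * x + (st f b - st f c) * y) ^ 2 + (st f c * y) ^ 2 ≤ 2 * (x ^ 2 + y ^ 2) := by
  have e1 := sq_nonneg (x - y)
  have e2 := sq_nonneg x
  have e3 := sq_nonneg y
  by_cases h1 : c < f
  · rw [show st f a = 1 from if_pos (by omega), show st f b = 1 from if_pos (by omega),
      show st f c = 1 from if_pos h1]
    nlinarith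
  · rw [show st f c = 0 from if_neg h1]
    by_cases h2 : b < f
    · rw [show st f a = 1 from if_pos (by omega), show st f b = 1 from if_pos h2]
      nlinarith
    · rw [show st f b = 0 from if_neg h2]
      by_cases h3 : a < f
      · rw [show st f a = 1 from if_pos h3]
        nlinarith
      · rw [show st f a = 0 from if_neg h3]
        nlinarith

theorem Op_st_norm (hT : TreeStmt) (f : Fin M → ℕ) (z : VV h d M) :
    ‖Op h d M (fun μ => st (f μ)) z‖ ^ 2 ≤ 2 * ‖z‖ ^ 2 := by
  rw [sq_norm_VV, sq_norm_VV, Finset.mul_sum]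
  refine Finset.sum_le_sum fun π _ => ?_
  rw [Finset.mul_sum]
  refine Finset.sum_le_sum fun μ _ => ?_
  rw [Op_false, Op_true]
  exact key_norm (hT.ab h d π) (hT.bc h d π) _ _

theorem Op_st_norm_le (hT : TreeStmt) (f : Fin M → ℕ) (z : VV h d M) :
    ‖Op h d M (fun μ => st (f μ)) z‖ ≤ 2 * ‖z‖ := by
  have h1 := Op_st_norm hT f z
  have h2 : (0 : ℝ) ≤ 2 * ‖z‖ := by positivity
  refine abs_le_of_sq_le_sq' ?_ h2 |>.2
  nlinarith [sq_nonneg ‖z‖]

theorem U_norm_le (hT : TreeStmt) (p : ℕ) (z : VV h d M) : ‖U h d M p z‖ ≤ 2 * ‖z‖ :=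
  Op_st_norm_le hT _ z

theorem U_comp_of_le (hT : TreeStmt) {p q : ℕ} (hpq : p ≤ q) :
    U h d M q ∘ₗ U h d M p = U h d M p :=
  Op_st_comp hT (fun _ => p) (fun _ => q) fun _ => hpq

theorem key_closure {p q p' q' a b c : ℕ} (hpq : p < q) (hpq' : p' ≤ q') (hab : a < b)
    (hbc : b < c) (hc : ¬ (p' ≤ c ∧ c < q'))
    (hb : (p' ≤ b ∧ b < q') ↔ (a < p ∧ p ≤ b ∧ b < q ∧ q ≤ c)) :
    st p a * (st q b - st q c) + (st p b - st p c) * st q c =
      (st p b - st p c) + (st q' b - st q' c) - (st p' b - st p' c) := by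
  rw [st_eq_of_not hpq' hc]
  by_cases hcond : a < p ∧ p ≤ b ∧ b < q ∧ q ≤ c
  · have hb' := hb.mpr hcond
    obtain ⟨h1, h2, h3, h4⟩ := hcond
    obtain ⟨h5, h6⟩ := hb'
    rw [show st p a = 1 from if_pos h1, show st q b = 1 from if_pos h3,
      show st q c = 0 from if_neg (by omega), show st p b = 0 from if_neg (by omega),
      show st p c = 0 from if_neg (by omega), show st q' b = 1 from if_pos h6,
      show st p' b = 0 from if_neg (by omega)]
    ring
  · have hb' : ¬(p' ≤ b ∧ b < q') := fun hh => hcond (hb.mp hh)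
    rw [st_eq_of_not hpq' hb']
    simp only [st_apply]
    split_ifs <;> first | omega | ring

/-- Almost commutation. -/
theorem U_comp_of_lt (hT : TreeStmt) {p q : ℕ} (hpq : p < q) :
    ∃ p' q' : ℕ, p' ≤ len h d ∧ q' ≤ len h d ∧
      U h d M p ∘ₗ U h d M q = U h d M p + U h d M q' - U h d M p' := by
  obtain ⟨p', q', h1, h2, h3⟩ := hT.closure h d p q hpq
  refine ⟨p', q', by omega, h2, ?_⟩
  apply Op_ext
  · intro z π μ
    obtain ⟨ha, hc, hb⟩ := h3 π
    have e1 := key_closure hpq h1 (hT.ab h d π) (hT.bc h d π) hc hb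
    have e2 := st_mul_st' hpq.le (pa h d π)
    have e3 := st_eq_of_not h1 ha
    simp only [LinearMap.comp_apply, LinearMap.add_apply, LinearMap.sub_apply, PiLp.add_apply,
      PiLp.sub_apply, U, Op_false, Op_true]
    linear_combination (z ((π, true), μ)) * e1 + (z ((π, false), μ)) * (e2 - e3)
  · intro z π μ
    obtain ⟨ha, hc, hb⟩ := h3 π
    have e2 := st_mul_st' hpq.le (pc h d π)
    have e3 := st_eq_of_not h1 hc
    simp only [LinearMap.comp_apply, LinearMap.add_apply, LinearMap.sub_apply, PiLp.add_apply,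
      PiLp.sub_apply, U, Op_true]
    linear_combination (z ((π, true), μ)) * (e2 - e3)

/-- Linear combinations of the `U p`. -/
theorem sum_U {n : ℕ} (c : Fin n → ℝ) :
    ∑ p, c p • U h d M p = Op h d M fun _ q => ∑ p : Fin n, if q < (p : ℕ) then c p else 0 := by
  apply Op_ext
  · intro z π μ
    rw [Op_false, LinearMap.sum_apply, WithLp.ofLp_sum, Finset.sum_apply, ← Finset.sum_sub_distrib,
      Finset.sum_mul, Finset.sum_mul, ← Finset.sum_add_distrib]
    refine Finset.sum_congr rfl fun p _ => ?_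
    rw [LinearMap.smul_apply, PiLp.smul_apply, U, Op_false]
    simp only [st_apply, smul_eq_mul]
    split_ifs <;> ring
  · intro z π μ
    rw [Op_true, LinearMap.sum_apply, WithLp.ofLp_sum, Finset.sum_apply, Finset.sum_mul]
    refine Finset.sum_congr rfl fun p _ => ?_
    rw [LinearMap.smul_apply, PiLp.smul_apply, U, Op_true]
    simp only [st_apply, smul_eq_mul]
    split_ifs <;> ring

/-- Coordinates of the generators. -/
theorem abs_Op_st_sv (hT : TreeStmt) (f : Fin M → ℕ) (ε : Cd h d M → Bool) (l : Cd h d M) :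
    |(Op h d M (fun μ => st (f μ)) (sv ε)) l| ≤ 2 / √(Fintype.card (Cd h d M) : ℝ) := by
  set s : ℝ := √(Fintype.card (Cd h d M) : ℝ) with hs
  have hs0 : 0 ≤ 1 / s := by positivity
  have hpt : ∀ l, |(sv ε) l| = 1 / s := fun l => abs_sv_apply ε l
  have e2 : 2 / s = 1 / s + 1 / s := by ring
  obtain ⟨⟨π, b⟩, μ⟩ := l
  have h1 := hT.ab h d π
  have h2 := hT.bc h d π
  have ht := hpt ((π, false), μ)
  have hs' := hpt ((π, true), μ)
  rw [e2]
  have hst : ∀ p q : ℕ, |st p q| ≤ 1 := by
    intro p q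
    simp only [st_apply]
    split_ifs <;> simp
  have hst2 : |st (f μ) (pb h d π) - st (f μ) (pc h d π)| ≤ 1 := by
    simp only [st_apply]
    split_ifs <;> simp
  cases b
  · rw [Op_false]
    refine (abs_add_le _ _).trans ?_
    rw [abs_mul, abs_mul, ht, hs']
    have e3 := mul_le_mul_of_nonneg_right (hst (f μ) (pa h d π)) hs0
    have e4 := mul_le_mul_of_nonneg_right hst2 hs0
    linarith
  · rw [Op_true, abs_mul, hs']
    have e3 := mul_le_mul_of_nonneg_right (hst (f μ) (pc h d π)) hs0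
    linarith

theorem norm_gen_le (hT : TreeStmt) {m : ℕ} (hN : 0 < Fintype.card (Cd h d M))
    (ω : Fin m → Cd h d M → Bool) (q : Fin (len h d + 1) × Fin m) : ‖gen h d M ω q‖ ≤ 2 := by
  have := U_norm_le hT (h := h) (d := d) (M := M) q.1 (sv (ω q.2))
  rw [norm_sv hN, mul_one] at this
  exact this

theorem abs_gen_le (hT : TreeStmt) {m : ℕ} (ω : Fin m → Cd h d M → Bool)
    (q : Fin (len h d + 1) × Fin m) (l : Cd h d M) :
    |(gen h d M ω q) l| ≤ 2 / √(Fintype.card (Cd h d M) : ℝ) :=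
  abs_Op_st_sv hT _ _ _

end Op

end SPB
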