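import Pool.Agent.SPB.Space
import Pool.Agent.SPB.HS
import Pool.Agent.SPB.OpLemmas
import Pool.Agent.Lib_helper65.SPB.FewOps1

/-! M14: transfer estimate into a concrete block. -/

set_option linter.unusedSectionVars false

namespace SPB

open Finset
open scoped BigOperators InnerProductSpace

section pick

/-- selecting one term of a double sum -/
lemma pick_smul {m R : ℕ} {V : Type} [AddCommGroup V] [Module ℝ V] (S : Finset (Fin m))
    (y : Fin m → ℕ → V) (hy : ∀ s, y s 0 = 0) {s₀ : Fin m} (hs₀ : s₀ ∈ S) (q : Fin (R + 1))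
    (r : ℝ) :
    ∑ s : S, ∑ p : Fin R, (if (s : Fin m) = s₀ ∧ (p : ℕ) + 1 = q then r else 0) •
      y s ((p : ℕ) + 1) = r • y s₀ q := by
  classical
  rw [Finset.sum_eq_single (⟨s₀, hs₀⟩ : S)]
  · by_cases hq : (q : ℕ) = 0
    · rw [hq, hy, smul_zero]
      refine Finset.sum_eq_zero fun p _ => ?_
      rw [if_neg (by rintro ⟨_, h⟩; omega), zero_smul]
    · have hlt : (q : ℕ) - 1 < R := by have := q.2; omega
      rw [Finset.sum_eq_single (⟨(q : ℕ) - 1, hlt⟩ : Fin R)]
      · have h1 : (q : ℕ) - 1 + 1 = q := by omega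
        simp only [h1, and_self, if_true]
      · intro p _ hp
        rw [if_neg, zero_smul]
        rintro ⟨_, h⟩
        apply hp
        ext
        simp only
        omega
      · simp
  · intro s _ hs
    refine Finset.sum_eq_zero fun p _ => ?_
    rw [if_neg, zero_smul]
    rintro ⟨h, _⟩
    exact hs (Subtype.ext h)
  · simp

lemma sum3_comm {A B C X : Type} [Fintype A] [Fintype B] [Fintype C] [AddCommMonoid X]
    (f : A → B → C → X) : ∑ s, ∑ p, ∑ l, f s p l = ∑ l, ∑ s, ∑ p, f s p l := by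
  rw [Finset.sum_comm (f := fun l s => ∑ p, f s p l)]
  refine Finset.sum_congr rfl fun s _ => ?_
  exact Finset.sum_comm

lemma pick_abs {m R : ℕ} (S : Finset (Fin m)) (s₀ : Fin m) (q : Fin (R + 1)) (r : ℝ) :
    ∑ s : S, ∑ p : Fin R, |if (s : Fin m) = s₀ ∧ (p : ℕ) + 1 = q then r else 0| ≤ |r| := by
  classical
  have h1 : ∀ (s : S) (p : Fin R), |if (s : Fin m) = s₀ ∧ (p : ℕ) + 1 = q then r else 0| =
      (if (s : Fin m) = s₀ then 1 else 0) * (if (p : ℕ) + 1 = q then |r| else 0) := by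
    intro s p
    by_cases h2 : (s : Fin m) = s₀ <;> by_cases h3 : (p : ℕ) + 1 = q <;> simp [h2, h3]
  simp only [h1]
  rw [← Finset.sum_mul_sum]
  have h4 : ∑ s : S, (if (s : Fin m) = s₀ then (1 : ℝ) else 0) ≤ 1 := by
    rw [Finset.sum_ite, Finset.sum_const_zero, add_zero, Finset.sum_const, nsmul_eq_mul, mul_one]
    have : (univ.filter fun s : S => (s : Fin m) = s₀).card ≤ 1 := by
      rw [Finset.card_le_one]
      intro a ha b hb
      rw [mem_filter] at ha hb
      exact Subtype.ext (ha.2.trans hb.2.symm)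
    exact_mod_cast this
  have h5 : ∑ p : Fin R, (if (p : ℕ) + 1 = q then |r| else 0) ≤ |r| := by
    rw [Finset.sum_ite, Finset.sum_const_zero, add_zero, Finset.sum_const, nsmul_eq_mul]
    have : (univ.filter fun p : Fin R => (p : ℕ) + 1 = q).card ≤ 1 := by
      rw [Finset.card_le_one]
      intro a ha b hb
      rw [mem_filter] at ha hb
      ext
      omega
    have h6 : ((univ.filter fun p : Fin R => (p : ℕ) + 1 = q).card : ℝ) ≤ 1 := by
      exact_mod_cast this
    nlinarith [abs_nonneg r]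
  have h6 : 0 ≤ ∑ p : Fin R, (if (p : ℕ) + 1 = q then |r| else 0) :=
    Finset.sum_nonneg fun p _ => by split_ifs <;> simp
  have h7 : 0 ≤ ∑ s : S, (if (s : Fin m) = s₀ then (1 : ℝ) else 0) :=
    Finset.sum_nonneg fun p _ => by split_ifs <;> simp
  nlinarith [abs_nonneg r]

end pick

theorem cTransfer_holds (hT : TreeStmt) (hN : NormStmt) (hI : NearIsoStmt)
    (hC : TransferCoreStmt) : CTransferStmt := by
  classical
  intro h d M m ρ' δ ω K B a hh hd hM hm hρ' hρ'1 hδ hNO hK hKB hB hmB C hC0 α β t ht hβ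
  have hcard0 : 0 < Fintype.card (Cd h d M) := by
    rw [card_Cd, hT.card]
    have h1 : 0 < 2 ^ d - 1 := by
      have : 2 ≤ 2 ^ d := by
        calc 2 = 2 ^ 1 := by norm_num
          _ ≤ _ := Nat.pow_le_pow_right (by norm_num) (by omega)
      omega
    positivity
  have hNd0 : 0 < Fintype.card (Nd h d) := by
    rw [card_Cd] at hcard0
    by_contra hcon
    have : Fintype.card (Nd h d) = 0 := by omega
    rw [this] at hcard0
    simp at hcard0
  have hgen : ∀ q, ‖gen h d M ω q‖ ≤ 2 := norm_gen_le hT hcard0 ω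
  have htwo := hN.two _ _ (gen h d M ω) ρ' hρ' hρ'1 hgen
  have hlow := hN.low _ _ (gen h d M ω) ρ' hρ'
  have hnE0 : ∀ z, 0 ≤ nE (gen h d M ω) ρ' z := fun z => by
    have := htwo z
    have := norm_nonneg z
    linarith
  have hK0R : (0 : ℝ) < K := by
    by_contra hcon
    push Not at hcon
    nlinarith [sq_nonneg ρ']
  have hK0 : 0 < K := by exact_mod_cast hK0R
  have hmne : Nonempty (Fin m) := ⟨⟨0, hm⟩⟩
  set n : Fin a.m → ℝ := fun i => nE (gen h d M ω) ρ' (α (a.w i)) with hn
  -- Maurey approximation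
  have hmau : ∀ i : Fin a.m, ∃ j : Fin K → (Fin (len h d + 1) × Fin m) × Bool,
      ‖∑ l, (2 * n i / K * SPB65.sg (j l).2) • gen h d M ω (j l).1 - α (a.w i)‖ ≤
        ρ' * (4 * n i) := by
    intro i
    rcases (hnE0 (α (a.w i))).eq_or_lt with h0 | h0
    · refine ⟨fun _ => Classical.arbitrary _, ?_⟩
      have h1 : n i = 0 := h0.symm
      have h2 : α (a.w i) = 0 := by
        have := htwo (α (a.w i))
        rw [← h0, mul_zero] at this
        exact norm_le_zero_iff.1 this
      rw [h1, h2]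
      simp
    · have h1 : 0 < n i := h0
      obtain ⟨c, hc⟩ := hN.attain _ _ (gen h d M ω) ρ' (2 * n i) hρ' (α (a.w i))
        (by rw [hn] at h1 ⊢; simp only at h1 ⊢; linarith)
      have hc0 : 0 ≤ ∑ q, |c q| := Finset.sum_nonneg fun _ _ => abs_nonneg _
      have hc1 : ∑ q, |c q| ≤ 2 * n i := by
        have : 0 ≤ ‖α (a.w i) - ∑ q, c q • gen h d M ω q‖ / ρ' := by positivity
        linarith
      have hc2 : ‖α (a.w i) - ∑ q, c q • gen h d M ω q‖ ≤ 2 * n i * ρ' := by
        have h3 : ‖α (a.w i) - ∑ q, c q • gen h d M ω q‖ / ρ' ≤ 2 * n i := by linarith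
        rwa [div_le_iff₀ hρ'] at h3
      obtain ⟨j, hj⟩ := SPB65.maurey (gen h d M ω) hgen (by linarith : 0 < 2 * n i) hc1 hK0
      refine ⟨j, ?_⟩
      have h4 : 2 * n i * 2 / Real.sqrt K ≤ 2 * n i * ρ' := by
        rw [div_le_iff₀ (Real.sqrt_pos.2 hK0R)]
        have h5 : 2 ≤ ρ' * Real.sqrt K := by
          have h6 : (2 : ℝ) = Real.sqrt 4 := by
            rw [show (4 : ℝ) = 2 ^ 2 by norm_num, Real.sqrt_sq (by norm_num)]
          rw [h6]
          have h7 : Real.sqrt 4 ≤ Real.sqrt (ρ' ^ 2 * K) := Real.sqrt_le_sqrt hK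
          rwa [Real.sqrt_mul (by positivity), Real.sqrt_sq hρ'.le] at h7
        nlinarith
      have h8 : ∑ l, (2 * n i / K * SPB65.sg (j l).2) • gen h d M ω (j l).1 - α (a.w i) =
          (∑ l, (2 * n i / K * SPB65.sg (j l).2) • gen h d M ω (j l).1 -
            ∑ q, c q • gen h d M ω q) - (α (a.w i) - ∑ q, c q • gen h d M ω q) := by abel
      rw [h8]
      refine (norm_sub_le _ _).trans ?_
      linarith
  choose j hj using hmau
  set S : Finset (Fin m) := univ.image fun x : Fin a.m × Fin K => (j x.1 x.2).1.2 with hS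
  have hScard : S.card ≤ B * K := by
    refine card_image_le.trans ?_
    rw [card_univ, Fintype.card_prod, Fintype.card_fin, Fintype.card_fin]
    exact Nat.mul_le_mul_right _ hmB
  have hSδ : 20 * (S.card : ℝ) * δ ≤ 1 := by
    refine le_trans ?_ hKB
    have h1 : (S.card : ℝ) ≤ K * B := by
      have : (S.card : ℝ) ≤ ((B * K : ℕ) : ℝ) := by exact_mod_cast hScard
      push_cast at this
      linarith
    gcongr
  have hmemS : ∀ i l, (j i l).1.2 ∈ S := fun i l => mem_image.2 ⟨(i, l), mem_univ _, rfl⟩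
  -- near isometry
  have hiso : ∀ D : S → Fin (len h d) → ℝ,
      (3 / 10) * (1 / (2 * Fintype.card (Nd h d))) * (∑ s, ∑ q, D s q ^ 2) ≤
        ‖∑ s, ∑ q : Fin (len h d), D s q • (U h d M (q + 1) (sv (ω s)) -
          U h d M q (sv (ω s)))‖ ^ 2 ∧
      ‖∑ s, ∑ q : Fin (len h d), D s q • (U h d M (q + 1) (sv (ω s)) -
          U h d M q (sv (ω s)))‖ ^ 2 ≤
        3 * (1 / (2 * Fintype.card (Nd h d))) * (∑ s, ∑ q, D s q ^ 2) := by
    intro D
    let D' : Fin m → ℕ → ℝ := fun s q => if hs : s ∈ S then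
      (if hq : q < len h d then D ⟨s, hs⟩ ⟨q, hq⟩ else 0) else 0
    have hD' : ∀ (s : S) (q : Fin (len h d)), D' s q = D s q := by
      intro s q
      simp only [D', s.2, q.2, dif_pos]
    have h1 := hI h d M m δ ω hh hd hM hδ hNO S hSδ D'
    have e1 : ∑ s ∈ S, ∑ q ∈ Finset.range (len h d), D' s q ^ 2 = ∑ s : S, ∑ q, D s q ^ 2 := by
      rw [← Finset.sum_coe_sort S]
      refine Finset.sum_congr rfl fun s _ => ?_
      rw [Finset.sum_range]
      exact Finset.sum_congr rfl fun q _ => by rw [hD']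
    have e2 : ∑ s ∈ S, ∑ q ∈ Finset.range (len h d),
        D' s q • (U h d M (q + 1) (sv (ω s)) - U h d M q (sv (ω s))) =
        ∑ s : S, ∑ q : Fin (len h d), D s q • (U h d M (q + 1) (sv (ω s)) -
          U h d M q (sv (ω s))) := by
      rw [← Finset.sum_coe_sort S]
      refine Finset.sum_congr rfl fun s _ => ?_
      rw [Finset.sum_range]
      exact Finset.sum_congr rfl fun q _ => by rw [hD']
    rw [e1, e2] at h1
    exact h1
  have hNdR : (0 : ℝ) < Fintype.card (Nd h d) := Nat.cast_pos.2 hNd0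
  have key := hC a.ι (Cd h d M) S a.m a.w (len h d) (fun s p => U h d M p (sv (ω s)))
    (1 / (2 * Fintype.card (Nd h d))) a.ρ ρ' C α (t ∘ₗ β) (fun i => 4 * n i)
    hB.m_pos (by positivity) a.ρ_pos hρ' hC0 hB.i1 hB.i2
    (fun s => by rw [U_zero]; rfl)
    (fun D => (hiso D).1) (fun D => (hiso D).2) ?_ ?_ ?_ ?_
  · have e1 : t ∘ₗ β ∘ₗ α = (t ∘ₗ β) ∘ₗ α := rfl
    rw [e1]
    refine key.trans (le_of_eq ?_)
    rw [← Finset.mul_sum]
    have : (a.N : ℝ) = Fintype.card a.ι := rfl
    rw [this]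
    ring
  · -- decompositions
    intro i
    refine ⟨fun s p => ∑ l, if (s : Fin m) = (j i l).1.2 ∧ (p : ℕ) + 1 = (j i l).1.1 then
      2 * n i / K * SPB65.sg (j i l).2 else 0, ?_, ?_⟩
    · have hn0 : 0 ≤ n i := hnE0 _
      calc _ ≤ ∑ s : S, ∑ p : Fin (len h d), ∑ l, |if (s : Fin m) = (j i l).1.2 ∧
            (p : ℕ) + 1 = (j i l).1.1 then 2 * n i / K * SPB65.sg (j i l).2 else 0| :=
            Finset.sum_le_sum fun s _ => Finset.sum_le_sum fun p _ =>
              Finset.abs_sum_le_sum_abs _ _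
        _ = ∑ l, ∑ s : S, ∑ p : Fin (len h d), |if (s : Fin m) = (j i l).1.2 ∧
            (p : ℕ) + 1 = (j i l).1.1 then 2 * n i / K * SPB65.sg (j i l).2 else 0| := by
            exact sum3_comm _
        _ ≤ ∑ l : Fin K, |2 * n i / K * SPB65.sg (j i l).2| :=
            Finset.sum_le_sum fun l _ => pick_abs S _ _ _
        _ = ∑ l : Fin K, 2 * n i / K := by
            refine Finset.sum_congr rfl fun l _ => ?_
            have : |SPB65.sg (j i l).2| = 1 := by cases (j i l).2 <;> simp [SPB65.sg]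
            rw [abs_mul, this, mul_one, abs_of_nonneg (by positivity)]
        _ = 2 * n i := by
            rw [Finset.sum_const, Finset.card_univ, Fintype.card_fin, nsmul_eq_mul,
              mul_div_cancel₀ _ hK0R.ne']
        _ ≤ 4 * n i := by linarith
    · have e1 : ∑ s : S, ∑ p : Fin (len h d), (∑ l, if (s : Fin m) = (j i l).1.2 ∧
          (p : ℕ) + 1 = (j i l).1.1 then 2 * n i / K * SPB65.sg (j i l).2 else 0) •
          U h d M ((p : ℕ) + 1) (sv (ω s)) =
          ∑ l, (2 * n i / K * SPB65.sg (j i l).2) • gen h d M ω (j i l).1 := by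
        have e2 : ∀ l, (2 * n i / K * SPB65.sg (j i l).2) • gen h d M ω (j i l).1 =
            ∑ s : S, ∑ p : Fin (len h d), (if (s : Fin m) = (j i l).1.2 ∧
              (p : ℕ) + 1 = (j i l).1.1 then 2 * n i / K * SPB65.sg (j i l).2 else 0) •
              U h d M ((p : ℕ) + 1) (sv (ω s)) := by
          intro l
          rw [pick_smul S (fun s p => U h d M p (sv (ω s))) (fun s => by rw [U_zero]; rfl)
            (hmemS i l) (j i l).1.1]
          rfl
        simp only [e2]
        rw [← sum3_comm]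
        refine Finset.sum_congr rfl fun s _ => ?_
        refine Finset.sum_congr rfl fun p _ => ?_
        rw [Finset.sum_smul]
      simp only
      rw [e1, norm_sub_rev]
      exact hj i
  · intro s p hp
    have h1 : ‖(t ∘ₗ β) (U h d M p (sv (ω s)))‖ ≤ ‖β (U h d M p (sv (ω s)))‖ := ht _
    have h2 := hB.two (β (U h d M p (sv (ω s))))
    have h3 := hβ (U h d M p (sv (ω s)))
    have h4 : nE (gen h d M ω) ρ' (U h d M p (sv (ω s))) ≤ 1 :=
      hN.gen _ _ (gen h d M ω) ρ' hρ' (⟨p, by omega⟩, s)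
    have h5 := mul_le_mul_of_nonneg_left h4 hC0.le
    linarith
  · have h1 : hs2 (t ∘ₗ β) ≤ hs2 β := by
      have := hs2_comp_left β t (c := 1) (fun z => by rw [one_mul]; exact ht z)
      rwa [one_pow, one_mul] at this
    refine h1.trans ?_
    rw [← hs2_tp]
    have hb : ∀ l, ‖tp β (bv l)‖ ≤ C * a.ρ / ρ' := by
      intro l
      set y := tp β (bv l) with hy
      have e1 : ‖y‖ ^ 2 ≤ C * a.ρ / ρ' * ‖y‖ := by
        have e2 : ‖y‖ ^ 2 = (β y) l := by
          rw [← real_inner_self_eq_norm_sq]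
          conv_lhs => rw [hy]
          rw [inner_tp, ← hy, inner_bv]
        rw [e2]
        calc (β y) l ≤ |(β y) l| := le_abs_self _
          _ ≤ a.ρ * a.nrm (β y) := hB.coord _ _
          _ ≤ a.ρ * (C * nE (gen h d M ω) ρ' y) :=
              mul_le_mul_of_nonneg_left (hβ y) a.ρ_pos.le
          _ ≤ a.ρ * (C * (‖y‖ / ρ')) :=
              mul_le_mul_of_nonneg_left (mul_le_mul_of_nonneg_left (hlow y) hC0.le) a.ρ_pos.le
          _ = C * a.ρ / ρ' * ‖y‖ := by ring
      have hc : 0 ≤ C * a.ρ / ρ' := by have := a.ρ_pos; positivity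
      by_contra hcon
      push Not at hcon
      have : 0 < ‖y‖ := lt_of_le_of_lt hc hcon
      nlinarith
    unfold hs2
    calc ∑ l, ‖tp β (bv l)‖ ^ 2 ≤ ∑ _l : a.ι, (C * a.ρ / ρ') ^ 2 :=
          Finset.sum_le_sum fun l _ => pow_le_pow_left₀ (norm_nonneg _) (hb l) 2
      _ = (C * a.ρ / ρ') ^ 2 * Fintype.card a.ι := by
          rw [Finset.sum_const, Finset.card_univ, nsmul_eq_mul, mul_comm]
  · exact hB.ρN

end SPB
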