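import Pool.Agent.SPB.CStmts

/-!
# C3c: chains on the complexification
-/

namespace SPB

open Filter Topology

section

variable {X : Type} [NormedAddCommGroup X] [NormedSpace ℝ X]

theorem Cx.norm_map (T : Cx X) : ‖T.map‖ = ‖T‖ := rfl

theorem Cx.norm_mk (T : ℂ →L[ℝ] X) : ‖Cx.mk T‖ = ‖T‖ := rfl

theorem Cx.map_mk (T : ℂ →L[ℝ] X) : (Cx.mk T).map = T := rfl

theorem Cx.sub_apply (S T : Cx X) (w : ℂ) : (S - T).map w = S.map w - T.map w := rfl

theorem Cx.map_eq (T : Cx X) (w : ℂ) : T.map w = w.re • T.map 1 + w.im • T.map Complex.I := by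
  have h : w = w.re • (1 : ℂ) + w.im • Complex.I := by
    apply Complex.ext <;> simp
  conv_lhs => rw [h]
  rw [map_add, map_smul, map_smul]

/-- The real vector `x` as an element of the complexification. -/
noncomputable def hat (x : X) : Cx X := Cx.mk (Complex.reCLM.smulRight x)

theorem hat_map (x : X) (w : ℂ) : (hat x).map w = w.re • x := rfl

theorem hat_add (x y : X) : hat (x + y) = hat x + hat y := by
  apply Cx.ext'
  intro w
  rw [Cx.add_apply, hat_map, hat_map, hat_map, smul_add]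

theorem hat_smul (r : ℝ) (x : X) : hat (r • x) = (r : ℂ) • hat x := by
  apply Cx.ext'
  intro w
  rw [Cx.smul_apply, hat_map, hat_map, Complex.re_ofReal_mul, smul_smul, mul_comm]

theorem norm_hat_le (x : X) : ‖hat x‖ ≤ ‖x‖ := by
  rw [hat, Cx.norm_mk, ContinuousLinearMap.norm_smulRight_apply, Complex.reCLM_norm, one_mul]

theorem Cx.norm_map_le (T : Cx X) (w : ℂ) : ‖T.map w‖ ≤ ‖T‖ * ‖w‖ := T.map.le_opNorm w

theorem Cx.norm_le (T : Cx X) : ‖T‖ ≤ ‖T.map 1‖ + ‖T.map Complex.I‖ := by
  refine ContinuousLinearMap.opNorm_le_bound T.map (by positivity) fun w => ?_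
  rw [Cx.map_eq]
  calc ‖w.re • T.map 1 + w.im • T.map Complex.I‖
      ≤ ‖w.re • T.map 1‖ + ‖w.im • T.map Complex.I‖ := norm_add_le _ _
    _ = |w.re| * ‖T.map 1‖ + |w.im| * ‖T.map Complex.I‖ := by
        rw [norm_smul, norm_smul, Real.norm_eq_abs, Real.norm_eq_abs]
    _ ≤ ‖w‖ * ‖T.map 1‖ + ‖w‖ * ‖T.map Complex.I‖ := by
        gcongr
        · exact Complex.abs_re_le_norm w
        · exact Complex.abs_im_le_norm w
    _ = (‖T.map 1‖ + ‖T.map Complex.I‖) * ‖w‖ := by ring

theorem Cx.eq_hat (T : Cx X) : T = hat (T.map 1) + Complex.I • hat (-T.map Complex.I) := by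
  apply Cx.ext'
  intro w
  rw [Cx.add_apply, Cx.smul_apply, hat_map, hat_map, Cx.map_eq]
  simp

theorem Cx.map_ofReal (T : Cx X) (r : ℝ) : T.map (r : ℂ) = r • T.map 1 := by
  rw [Cx.map_eq]
  simp

/-- Evaluation at `1`. -/
noncomputable def evOne (X : Type) [NormedAddCommGroup X] [NormedSpace ℝ X] : Cx X →ₗ[ℝ] X where
  toFun T := T.map 1
  map_add' S T := rfl
  map_smul' r T := by
    have h : r • T = (r : ℂ) • T := rfl
    rw [h, Cx.smul_apply, mul_one, Cx.map_ofReal]
    rfl

theorem evOne_surjective : Function.Surjective (evOne X) := by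
  intro x
  refine ⟨hat x, ?_⟩
  change (hat x).map 1 = x
  rw [hat_map, Complex.one_re, one_smul]

/-- The complexification of an operator. -/
noncomputable def cxOp (W : X →L[ℝ] X) : Cx X →L[ℂ] Cx X :=
  LinearMap.mkContinuous
    { toFun := fun T => Cx.mk (W ∘L T.map)
      map_add' := fun S T => by
        apply Cx.ext'
        intro w
        change W (S.map w + T.map w) = W (S.map w) + W (T.map w)
        exact map_add _ _ _
      map_smul' := fun z T => rfl } ‖W‖ (fun T => ContinuousLinearMap.opNorm_comp_le W T.map)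

theorem cxOp_map (W : X →L[ℝ] X) (T : Cx X) (w : ℂ) : (cxOp W T).map w = W (T.map w) := rfl

theorem norm_cxOp_le (W : X →L[ℝ] X) : ‖cxOp W‖ ≤ ‖W‖ :=
  LinearMap.mkContinuous_norm_le _ (norm_nonneg _) _

/-- The real part of a complex operator on the complexification. -/
noncomputable def cxRe (P : Cx X →L[ℂ] Cx X) : X →L[ℝ] X :=
  LinearMap.mkContinuous
    { toFun := fun x => (P (hat x)).map 1
      map_add' := fun x y => by rw [hat_add, map_add, Cx.add_apply]
      map_smul' := fun r x => by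
        rw [hat_smul, map_smul, Cx.smul_apply, mul_one, Cx.map_ofReal]
        rfl } ‖P‖ (fun x => by
      calc ‖(P (hat x)).map 1‖ ≤ ‖P (hat x)‖ * ‖(1 : ℂ)‖ := Cx.norm_map_le _ _
        _ = ‖P (hat x)‖ := by rw [norm_one, mul_one]
        _ ≤ ‖P‖ * ‖hat x‖ := P.le_opNorm _
        _ ≤ ‖P‖ * ‖x‖ := by
            gcongr
            exact norm_hat_le x)

/-- The imaginary part of a complex operator on the complexification. -/
noncomputable def cxIm (P : Cx X →L[ℂ] Cx X) : X →L[ℝ] X :=
  LinearMap.mkContinuous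
    { toFun := fun x => -(P (hat x)).map Complex.I
      map_add' := fun x y => by rw [hat_add, map_add, Cx.add_apply, neg_add]
      map_smul' := fun r x => by
        have h : (r : ℂ) * Complex.I = r • Complex.I := rfl
        rw [hat_smul, map_smul, Cx.smul_apply, h, map_smul, RingHom.id_apply, smul_neg] } ‖P‖
    (fun x => by
      calc ‖-(P (hat x)).map Complex.I‖ = ‖(P (hat x)).map Complex.I‖ := norm_neg _
        _ ≤ ‖P (hat x)‖ * ‖Complex.I‖ := Cx.norm_map_le _ _
        _ = ‖P (hat x)‖ := by rw [Complex.norm_I, mul_one]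
        _ ≤ ‖P‖ * ‖hat x‖ := P.le_opNorm _
        _ ≤ ‖P‖ * ‖x‖ := by
            gcongr
            exact norm_hat_le x)

theorem cxRe_apply (P : Cx X →L[ℂ] Cx X) (x : X) : cxRe P x = (P (hat x)).map 1 := rfl

theorem cxIm_apply (P : Cx X →L[ℂ] Cx X) (x : X) : cxIm P x = -(P (hat x)).map Complex.I := rfl

theorem apply_hat (P : Cx X →L[ℂ] Cx X) (x : X) :
    P (hat x) = hat (cxRe P x) + Complex.I • hat (cxIm P x) := Cx.eq_hat _

theorem cx_comp (P Q : Cx X →L[ℂ] Cx X) (x : X) :
    P (Q (hat x)) = hat (cxRe P (cxRe Q x) - cxIm P (cxIm Q x)) +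
      Complex.I • hat (cxRe P (cxIm Q x) + cxIm P (cxRe Q x)) := by
  rw [apply_hat Q x, map_add, map_smul, apply_hat P (cxRe Q x), apply_hat P (cxIm Q x)]
  apply Cx.ext'
  intro w
  simp only [Cx.add_apply, Cx.smul_apply, hat_map, Complex.mul_re, Complex.mul_im, Complex.I_re,
    Complex.I_im, smul_sub, smul_add]
  simp only [zero_mul, one_mul, zero_add, neg_smul, sub_eq_add_neg]
  abel

theorem cxRe_comp (P Q : Cx X →L[ℂ] Cx X) :
    cxRe (P ∘L Q) = cxRe P ∘L cxRe Q - cxIm P ∘L cxIm Q := by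
  ext x
  change (P (Q (hat x))).map 1 = cxRe P (cxRe Q x) - cxIm P (cxIm Q x)
  rw [cx_comp, Cx.add_apply, Cx.smul_apply, hat_map, hat_map]
  simp

theorem cxIm_comp (P Q : Cx X →L[ℂ] Cx X) :
    cxIm (P ∘L Q) = cxRe P ∘L cxIm Q + cxIm P ∘L cxRe Q := by
  ext x
  change -(P (Q (hat x))).map Complex.I = cxRe P (cxIm Q x) + cxIm P (cxRe Q x)
  rw [cx_comp, Cx.add_apply, Cx.smul_apply, hat_map, hat_map]
  simp [add_comm]

end

theorem cx_holds : CxStmt where
  inf := by
    intro X _ _ hX hfin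
    apply hX
    have h1 : FiniteDimensional ℝ (Cx X) := FiniteDimensional.complexToReal (Cx X)
    exact Module.Finite.of_surjective (evOne X) evOne_surjective
  up := by
    rintro X _ _ W lam ⟨h0, hcomp, hrank, hnorm, hlim⟩
    refine ⟨fun t => cxOp (W t), ?_, ?_, ?_, ?_, ?_⟩
    · ext T
      apply Cx.ext'
      intro w
      rw [cxOp_map, h0]
      rfl
    · intro t s hts
      ext T
      apply Cx.ext'
      intro w
      change W s (W t (T.map w)) = W t (T.map w)
      exact congrArg (fun f : X →L[ℝ] X => f (T.map w)) (hcomp t s hts)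
    · intro t
      obtain ⟨e, he⟩ := hrank t
      refine ⟨hat e, fun T => ?_⟩
      obtain ⟨a, ha⟩ := Submodule.mem_span_singleton.1 (he (T.map 1))
      obtain ⟨b, hb⟩ := Submodule.mem_span_singleton.1 (he (T.map Complex.I))
      refine Submodule.mem_span_singleton.2 ⟨⟨a, -b⟩, ?_⟩
      apply Cx.ext'
      intro w
      rw [Cx.smul_apply, hat_map, Cx.map_eq, Cx.sub_apply, Cx.sub_apply, cxOp_map, cxOp_map,
        cxOp_map, cxOp_map, ← ha, ← hb, smul_smul, smul_smul, ← add_smul]
      congr 1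
      rw [Complex.mul_re]
      ring
    · intro t
      exact (norm_cxOp_le _).trans (hnorm t)
    · intro T
      rw [tendsto_iff_norm_sub_tendsto_zero]
      have h1 := (tendsto_iff_norm_sub_tendsto_zero.1 (hlim (T.map 1))).add
        (tendsto_iff_norm_sub_tendsto_zero.1 (hlim (T.map Complex.I)))
      rw [add_zero] at h1
      refine squeeze_zero (fun _ => norm_nonneg _) (fun t => ?_) h1
      have h2 := Cx.norm_le (cxOp (W t) T - T)
      rw [Cx.sub_apply, Cx.sub_apply, cxOp_map, cxOp_map] at h2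
      exact h2
  down := by
    rintro X _ _ P C ⟨h0, hcomp, hrank, hnorm, hlim⟩
    have hRe : ∀ n, ‖cxRe (P n)‖ ≤ C := fun n =>
      (LinearMap.mkContinuous_norm_le _ (norm_nonneg _) _).trans (hnorm n)
    have hIm : ∀ n, ‖cxIm (P n)‖ ≤ C := fun n =>
      (LinearMap.mkContinuous_norm_le _ (norm_nonneg _) _).trans (hnorm n)
    refine ⟨fun n => cxRe (P n), fun n => cxIm (P n), ?_, ?_, ?_, ?_, hRe, hIm, ?_, ?_⟩
    · ext x
      rw [cxRe_apply, h0]
      rfl
    · ext x
      rw [cxIm_apply, h0]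
      exact neg_zero
    · intro n m
      rw [← cxRe_comp, hcomp]
    · intro n m
      rw [← cxIm_comp, hcomp]
    · intro n
      obtain ⟨e, he⟩ := hrank n
      refine ⟨e.map 1, e.map Complex.I, fun x => ?_⟩
      obtain ⟨c, hc⟩ := Submodule.mem_span_singleton.1 (he (hat x))
      rw [cxRe_apply, cxRe_apply, ← Cx.sub_apply, ← hc, Cx.smul_apply, mul_one]
      exact Submodule.mem_span_pair.2 ⟨c.re, c.im, (Cx.map_eq e c).symm⟩
    · intro x
      have h1 := hlim (hat x)
      rw [tendsto_iff_norm_sub_tendsto_zero] at h1 ⊢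
      refine squeeze_zero (fun _ => norm_nonneg _) (fun n => ?_) h1
      have h2 := Cx.norm_map_le (P n (hat x) - hat x) 1
      rw [norm_one, mul_one, Cx.sub_apply, hat_map, Complex.one_re, one_smul] at h2
      exact h2

end SPB
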