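import Mathlib

/-!
# Strict pi-bases and Schauder bases: common definitions

Blueprint in the table `notes` (problem `MP_57a847_an`).
-/

namespace SPB

open scoped BigOperators InnerProductSpace

/-! ## Linear algebra on Euclidean spaces -/

/-- Coordinate vectors. -/
noncomputable def bv {ι : Type} [DecidableEq ι] [Fintype ι] (l : ι) : EuclideanSpace ℝ ι :=
  EuclideanSpace.single l (1 : ℝ)

/-- Trace. -/
noncomputable def tr {ι : Type} [DecidableEq ι] [Fintype ι]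
    (T : EuclideanSpace ℝ ι →ₗ[ℝ] EuclideanSpace ℝ ι) : ℝ :=
  ∑ l, (T (bv l)) l

/-- Square of the Hilbert-Schmidt norm. -/
noncomputable def hs2 {ι : Type} [DecidableEq ι] [Fintype ι] {F : Type} [NormedAddCommGroup F]
    [NormedSpace ℝ F] (T : EuclideanSpace ℝ ι →ₗ[ℝ] F) : ℝ :=
  ∑ l, ‖T (bv l)‖ ^ 2

/-! ## Sign vectors -/

/-- Rademacher sign. -/
def sg (b : Bool) : ℝ := if b then 1 else -1

/-- Normalised sign vector (Euclidean norm `1` if `ι` is nonempty). -/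
noncomputable def sv {ι : Type} [Fintype ι] (ε : ι → Bool) : EuclideanSpace ℝ ι :=
  WithLp.toLp 2 (fun i => sg (ε i) / √(Fintype.card ι : ℝ))

/-! ## The block norm -/

/-- The norm with unit ball (closure of) `absconv {x q} + ρ * (Euclidean ball)` up to the usual
exchange: `inf_c (Σ |c q| + ‖z - Σ c q x q‖ / ρ)`. -/
noncomputable def nE {ι Q : Type} [Fintype ι] [Fintype Q] (x : Q → EuclideanSpace ℝ ι) (ρ : ℝ)
    (z : EuclideanSpace ℝ ι) : ℝ :=
  ⨅ c : Q → ℝ, (∑ q, |c q|) + ‖z - ∑ q, c q • x q‖ / ρ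

/-! ## Moment conditions on a finite family of vectors -/

/-- `(N/m) Σ ⟨w i,u⟩ w i` is close to `u`. -/
def I1 {ι : Type} [Fintype ι] {m : ℕ} (w : Fin m → EuclideanSpace ℝ ι) : Prop :=
  ∀ u : EuclideanSpace ℝ ι,
    ‖((Fintype.card ι : ℝ) / m) • (∑ i, ⟪w i, u⟫_ℝ • w i) - u‖ ≤ ‖u‖ / 10

/-- Fourth moment condition. -/
def I2 {ι : Type} [Fintype ι] {m : ℕ} (w : Fin m → EuclideanSpace ℝ ι) : Prop :=
  ∀ u : EuclideanSpace ℝ ι,
    ((Fintype.card ι : ℝ) ^ 2 / m) * (∑ i, ⟪w i, u⟫_ℝ ^ 4) ≤ 4 * ‖u‖ ^ 4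

/-! ## Few operators property -/

/-- Every operator of Euclidean norm at most `2C/ρ` which maps each `g j` to a vector of the form
`Σ c_{p,i} U_p g_i + h` with `Σ |c| ≤ C`, `‖h‖ ≤ Cρ` is within `7Cρ√N` (Hilbert-Schmidt) of
`C · absconv {U_p}`. -/
def FewOp {ι P : Type} [DecidableEq ι] [Fintype ι] [Fintype P] {m : ℕ}
    (U : P → EuclideanSpace ℝ ι →ₗ[ℝ] EuclideanSpace ℝ ι) (C ρ : ℝ)
    (g : Fin m → EuclideanSpace ℝ ι) : Prop :=
  ∀ T : EuclideanSpace ℝ ι →ₗ[ℝ] EuclideanSpace ℝ ι,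
    (∀ z, ‖T z‖ ≤ 2 * C / ρ * ‖z‖) →
    (∀ j, ∃ c : P × Fin m → ℝ, (∑ q, |c q|) ≤ C ∧
      ‖T (g j) - ∑ q, c q • U q.1 (g q.2)‖ ≤ C * ρ) →
    ∃ c : P → ℝ, (∑ p, |c p|) ≤ C ∧
      hs2 (T - ∑ p, c p • U p) ≤ (7 * C * ρ) ^ 2 * (Fintype.card ι : ℝ)

/-! ## The tree of pairs and the positions of their events -/

/-- Pairs of cells of the tree of depth `d` with `h` pairs per node. -/
def Nd (h : ℕ) : ℕ → Type
  | 0 => Empty
  | d + 1 => Fin h ⊕ (Nd h d ⊕ Nd h d)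

instance instFintypeNd (h : ℕ) : (d : ℕ) → Fintype (Nd h d)
  | 0 => inferInstanceAs (Fintype Empty)
  | d + 1 =>
    letI := instFintypeNd h d
    inferInstanceAs (Fintype (Fin h ⊕ (Nd h d ⊕ Nd h d)))

instance instDecidableEqNd (h : ℕ) : (d : ℕ) → DecidableEq (Nd h d)
  | 0 => inferInstanceAs (DecidableEq Empty)
  | d + 1 =>
    letI := instDecidableEqNd h d
    inferInstanceAs (DecidableEq (Fin h ⊕ (Nd h d ⊕ Nd h d)))

/-- Number of positions of the tree. -/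
def len (h : ℕ) : ℕ → ℕ
  | 0 => 0
  | d + 1 => 3 * h + 2 * len h d

/-- Position of the first event of a pair. -/
def pa (h : ℕ) : (d : ℕ) → Nd h d → ℕ
  | 0, x => Empty.elim x
  | _ + 1, Sum.inl τ => (τ : ℕ)
  | d + 1, Sum.inr (Sum.inl x) => h + pa h d x
  | d + 1, Sum.inr (Sum.inr x) => 2 * h + len h d + pa h d x

/-- Position of the second event of a pair. -/
def pb (h : ℕ) : (d : ℕ) → Nd h d → ℕ
  | 0, x => Empty.elim x
  | d + 1, Sum.inl τ => h + len h d + (τ : ℕ)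
  | d + 1, Sum.inr (Sum.inl x) => h + pb h d x
  | d + 1, Sum.inr (Sum.inr x) => 2 * h + len h d + pb h d x

/-- Position of the third event of a pair. -/
def pc (h : ℕ) : (d : ℕ) → Nd h d → ℕ
  | 0, x => Empty.elim x
  | d + 1, Sum.inl τ => 2 * h + 2 * len h d + (τ : ℕ)
  | d + 1, Sum.inr (Sum.inl x) => h + pc h d x
  | d + 1, Sum.inr (Sum.inr x) => 2 * h + len h d + pc h d x

/-- Nodes of the tree of depth `d` placed at offset `o`, as triples of starting positions of their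
three blocks of length `h`. -/
def nodes (h : ℕ) : (d : ℕ) → (o : ℕ) → Set (ℕ × ℕ × ℕ)
  | 0, _ => ∅
  | d + 1, o => insert (o, o + h + len h d, o + 2 * h + 2 * len h d)
      (nodes h d (o + h) ∪ nodes h d (o + 2 * h + len h d))

/-- Coordinates of the block space: (pair, target/source cell), slot. `false` is the target cell
`t`, `true` the source cell `s`. -/
abbrev Cd (h d M : ℕ) : Type := (Nd h d × Bool) × Fin M

/-- The block space as a vector space. -/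
abbrev VV (h d M : ℕ) : Type := EuclideanSpace ℝ (Cd h d M)

/-- The operator given on slot `μ` of pair `π` by the matrix
`[[D μ a, D μ b - D μ c], [0, D μ c]]`. -/
noncomputable def Op (h d M : ℕ) (D : Fin M → ℕ → ℝ) : VV h d M →ₗ[ℝ] VV h d M where
  toFun z := WithLp.toLp 2 fun l => match l with
    | ((π, false), μ) => D μ (pa h d π) * z ((π, false), μ)
        + (D μ (pb h d π) - D μ (pc h d π)) * z ((π, true), μ)
    | ((π, true), μ) => D μ (pc h d π) * z ((π, true), μ)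
  map_add' x y := by
    ext ⟨⟨π, b⟩, μ⟩
    cases b <;> simp <;> ring
  map_smul' c x := by
    ext ⟨⟨π, b⟩, μ⟩
    cases b <;> simp <;> ring

/-- Step function `1_{q < p}`. -/
def st (p : ℕ) : ℕ → ℝ := fun q => if q < p then 1 else 0

/-- The chain of projections. -/
noncomputable def U (h d M : ℕ) (p : ℕ) : VV h d M →ₗ[ℝ] VV h d M := Op h d M fun _ => st p

/-- The slotwise refinement of the chain. -/
noncomputable def Wt (h d M : ℕ) (t : ℕ) : VV h d M →ₗ[ℝ] VV h d M :=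
  Op h d M fun μ => st ((t + (M - 1 - (μ : ℕ))) / M)

/-- Near orthogonality of the restrictions of the sample to cells. -/
def NO (h d M : ℕ) {m : ℕ} (δ : ℝ) (ω : Fin m → Cd h d M → Bool) : Prop :=
  ∀ i i' : Fin m, ∀ c c' : Nd h d × Bool, (i, c) ≠ (i', c') →
    |∑ μ : Fin M, sg (ω i (c, μ)) * sg (ω i' (c', μ))| ≤ δ * M

/-- The generating family of the block: `x (p,i) = U_p g_i`. -/
noncomputable def gen (h d M : ℕ) {m : ℕ} (ω : Fin m → Cd h d M → Bool) :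
    Fin (len h d + 1) × Fin m → VV h d M :=
  fun q => U h d M q.1 (sv (ω q.2))

/-! ## Abstract blocks -/

/-- A finite dimensional space: a Euclidean space with a second norm `nrm`, a parameter `ρ` and
a finite family of vectors `w`. -/
structure Blk where
  ι : Type
  fι : Fintype ι
  dι : DecidableEq ι
  nrm : EuclideanSpace ℝ ι → ℝ
  nrm_add : ∀ x y, nrm (x + y) ≤ nrm x + nrm y
  nrm_smul : ∀ (c : ℝ) x, nrm (c • x) = |c| * nrm x
  nrm_eq_zero : ∀ x, nrm x = 0 → x = 0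
  ρ : ℝ
  ρ_pos : 0 < ρ
  m : ℕ
  w : Fin m → EuclideanSpace ℝ ι

attribute [instance] Blk.fι Blk.dι

/-- The underlying Euclidean space. -/
abbrev Blk.V (b : Blk) : Type := EuclideanSpace ℝ b.ι

/-- The dimension. -/
def Blk.N (b : Blk) : ℕ := Fintype.card b.ι

/-- Basic properties of a block. -/
structure Blk.Basic (b : Blk) : Prop where
  ρ_le : b.ρ ≤ 1
  ρN : 2 ≤ b.ρ * √(b.N : ℝ)
  m_pos : 0 < b.m
  two : ∀ z, ‖z‖ ≤ 2 * b.nrm z
  low : ∀ z, b.nrm z ≤ ‖z‖ / b.ρ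
  coord : ∀ (z : b.V) (l : b.ι), |z l| ≤ b.ρ * b.nrm z
  w_nrm : ∀ i, b.nrm (b.w i) ≤ 1
  i1 : I1 b.w
  i2 : I2 b.w

/-- `α` has norm at most `C` with respect to the block norms. -/
def OpBd (a b : Blk) (α : a.V →ₗ[ℝ] b.V) (C : ℝ) : Prop := ∀ z, b.nrm (α z) ≤ C * a.nrm z

/-- The block has a strict flag of projections of norm at most `4`. -/
def Blk.Flag (b : Blk) : Prop :=
  ∃ (W : ℕ → b.V →ₗ[ℝ] b.V) (L : ℕ), W 0 = 0 ∧ (∀ t, L ≤ t → W t = LinearMap.id) ∧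
    (∀ t s, t ≤ s → W s ∘ₗ W t = W t) ∧
    (∀ t, ∃ e : b.V, ∀ z, W (t + 1) z - W t z ∈ Submodule.span ℝ {e}) ∧
    (∀ t z, b.nrm (W t z) ≤ 4 * b.nrm z)

/-- Trace estimate for operators from a lower block `a` to an upper block `b` and back. -/
def Transfer (a b : Blk) : Prop :=
  ∀ C : ℝ, 0 < C → ∀ (α : a.V →ₗ[ℝ] b.V) (β : b.V →ₗ[ℝ] a.V) (t : a.V →ₗ[ℝ] a.V),
    (∀ z, ‖t z‖ ≤ ‖z‖) → OpBd b a β C →
    |tr (t ∘ₗ β ∘ₗ α)| ≤ 840 * C * a.ρ * a.N * ((1 / (a.m : ℝ)) * ∑ i, b.nrm (α (a.w i)))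

/-- There is no long chain of almost commuting almost idempotents of norm less than `k+1`,
starting at `0`, ending at `1`, with rank one steps. -/
def NoChain (k : ℕ) (b : Blk) : Prop :=
  ∀ C : ℝ, 0 < C → C < k + 1 → ¬ ∃ T : ℕ → b.V →ₗ[ℝ] b.V,
    T 0 = 0 ∧ (∀ n, OpBd b b (T n) C) ∧
    (∀ z, Filter.Tendsto (fun n => T n z) Filter.atTop (nhds z)) ∧
    (∀ n, ∃ e : b.V, ∀ z, T (n + 1) z - T n z ∈ Submodule.span ℝ {e}) ∧
    (∀ n n', ∀ t : b.V →ₗ[ℝ] b.V, (∀ z, ‖t z‖ ≤ ‖z‖) →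
      |tr (t ∘ₗ (T n ∘ₗ T n' - T (min n n')))| ≤ 841 * ((k : ℝ) + 1) ^ 2 * b.ρ * b.N)

/-- The block `b` is good for step `k` relative to the bound `B` on the lower blocks. -/
structure Good (k B : ℕ) (b : Blk) : Prop where
  basic : b.Basic
  flag : b.Flag
  large : 4 * (k : ℝ) * (k + 1) ^ 2 * (B : ℝ) ^ 2 ≤ b.ρ ^ 2 * b.N
  transfer : ∀ a : Blk, a.Basic → a.m ≤ B → Transfer a b
  noChain : NoChain k b

end SPB
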