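import Pool.Agent.SPB.Stmts
import Pool.Agent.Lib_helper87.SPB.AtomNorm

/-!
# M7: properties of the block norm
-/

namespace SPB

open SPB87

lemma nE_eq_atomN {ι Q : Type} [Fintype ι] [Fintype Q] (x : Q → EuclideanSpace ℝ ι) (ρ : ℝ)
    (z : EuclideanSpace ℝ ι) : nE x ρ z = atomN x ρ z := rfl

theorem norm_holds : NormStmt where
  add ι Q _ _ x ρ hρ y z := atomN_add_le x hρ y z
  smul ι Q _ _ x ρ hρ a z := atomN_smul x hρ a z
  two ι Q _ _ x ρ hρ hρ1 hx z := norm_le_atomN x hρ hx (by linarith) z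
  low ι Q _ _ x ρ hρ z := atomN_le_norm x hρ z
  gen ι Q _ _ x ρ hρ q := by
    classical
    exact atomN_atom_le x hρ q
  coord ι Q _ _ x ρ hρ hx z l := by
    have h := abs_le_of_dual x hρ
      { toFun := fun v => v l, map_add' := fun _ _ => rfl, map_smul' := fun _ _ => rfl }
      (M := ρ)
      (fun q => hx q l) (fun v => ?_) z
    · exact h
    · rw [mul_div_cancel₀ _ hρ.ne']
      exact PiLp.norm_apply_le v l
  attain ι Q _ _ x ρ A hρ z h := by
    obtain ⟨c, hc⟩ := exists_cost_eq x hρ z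
    refine ⟨c, ?_⟩
    change cost x ρ z c < A
    rw [hc]
    exact h
  op ι Q _ _ x ρ A hρ T hA hx hT z := atomN_map_le x hρ T hx hT z

end SPB
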