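import Pool.Agent.SPB.CFlag
import Pool.Agent.SPB.Norm

set_option linter.unusedSectionVars false

/-!
# M15: existence of good blocks
-/

namespace SPB

open scoped BigOperators InnerProductSpace

/-- The concrete block. -/
noncomputable def cblk (hT : TreeStmt) (h d M m : ℕ) (ρ : ℝ) (ω : Fin m → Cd h d M → Bool)
    (hN : 0 < Fintype.card (Cd h d M)) (hρ : 0 < ρ) (hρ1 : ρ ≤ 1) : Blk where
  ι := Cd h d M
  fι := inferInstance
  dι := inferInstance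
  nrm := nE (gen h d M ω) ρ
  nrm_add x y := norm_holds.add _ _ _ _ hρ x y
  nrm_smul c x := norm_holds.smul _ _ _ _ hρ c x
  nrm_eq_zero x hx := by
    have := norm_holds.two _ _ (gen h d M ω) ρ hρ hρ1 (norm_gen_le hT hN ω) x
    rw [hx, mul_zero] at this
    exact norm_le_zero_iff.mp this
  ρ := ρ
  ρ_pos := hρ
  m := m
  w := fun j => sv (ω j)

theorem existsGood_of (hT : TreeStmt) (hS : SampleStmt) (hF : CFlagStmt) (hC : CNoChainStmt)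
    (hTr : CTransferStmt) : ExistsGoodStmt := by
  intro k B
  obtain ⟨d, hd⟩ : ∃ d : ℕ, d = 2 * (10 * (k + 1) + 1) + 1 := ⟨_, rfl⟩
  have hd0 : 0 < d := by omega
  obtain ⟨ρ, hρdef⟩ : ∃ ρ : ℝ, ρ = 1 / (10 ^ 6 * ((k : ℝ) + 1) ^ 2 * 2 ^ d) := ⟨_, rfl⟩
  have hk0 : (0 : ℝ) ≤ k := Nat.cast_nonneg _
  have hk1 : (1 : ℝ) ≤ (k : ℝ) + 1 := by linarith
  have hρ : 0 < ρ := by rw [hρdef]; positivity
  have hρ1 : ρ ≤ 1 := by
    rw [hρdef, div_le_one (by positivity)]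
    have h1 : (1 : ℝ) ≤ ((k : ℝ) + 1) ^ 2 := by nlinarith
    have h2 : (1 : ℝ) ≤ 2 ^ d := one_le_pow₀ (by norm_num)
    nlinarith
  have hρ2 : 0 < ρ ^ 2 := by positivity
  -- `h`
  obtain ⟨h, hhdef⟩ : ∃ h : ℕ, h = ⌈8 / ρ ^ 2⌉₊ := ⟨_, rfl⟩
  have hh1 : 8 / ρ ^ 2 ≤ (h : ℝ) := by rw [hhdef]; exact Nat.le_ceil _
  have hh0 : 0 < h := by
    rw [hhdef]
    exact Nat.ceil_pos.mpr (by positivity)
  have hcard : h ≤ Fintype.card (Nd h d) := by
    rw [hT.card]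
    have : 1 ≤ 2 ^ d - 1 := by
      have : 2 ^ 1 ≤ 2 ^ d := Nat.pow_le_pow_right (by norm_num) hd0
      omega
    exact Nat.le_mul_of_pos_right h this
  have hcardR : (h : ℝ) ≤ Fintype.card (Nd h d) := by exact_mod_cast hcard
  have h8 : 8 ≤ ρ ^ 2 * (2 * Fintype.card (Nd h d)) := by
    have h1 : 8 ≤ ρ ^ 2 * h := by
      rw [div_le_iff₀ hρ2] at hh1
      linarith
    nlinarith
  -- `K` and `δ`
  obtain ⟨K, hKdef⟩ : ∃ K : ℕ, K = ⌈4 / ρ ^ 2⌉₊ := ⟨_, rfl⟩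
  have hK : 4 ≤ ρ ^ 2 * K := by
    have h1 : 4 / ρ ^ 2 ≤ (K : ℝ) := by rw [hKdef]; exact Nat.le_ceil _
    rw [div_le_iff₀ hρ2] at h1
    linarith
  obtain ⟨δ, hδdef⟩ : ∃ δ : ℝ, δ = 1 / (20 * ((K : ℝ) * B + 1)) := ⟨_, rfl⟩
  have hKB : (0 : ℝ) ≤ (K : ℝ) * B := by positivity
  have hδ : 0 < δ := by rw [hδdef]; positivity
  have hKBδ : 20 * ((K : ℝ) * B) * δ ≤ 1 := by
    rw [hδdef, mul_one_div, div_le_one (by positivity)]
    linarith
  -- `M`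
  obtain ⟨M0, hM0⟩ := hS h d hh0 hd0 ((k : ℝ) + 1) ρ δ hk1 hρ hρ1 hδ
  obtain ⟨M1, hM1⟩ := exists_nat_ge (400 * ((k : ℝ) + 1) / ρ)
  obtain ⟨M2, hM2⟩ := exists_nat_ge (4 * (k : ℝ) * (k + 1) ^ 2 * (B : ℝ) ^ 2 / ρ ^ 2)
  obtain ⟨M, hMdef⟩ : ∃ M : ℕ, M = max (max M0 M1) (max M2 1) := ⟨_, rfl⟩
  have hMM0 : M0 ≤ M := by rw [hMdef]; simp
  have hMM1 : M1 ≤ M := by rw [hMdef]; simp
  have hMM2 : M2 ≤ M := by rw [hMdef]; simp
  have hM : 0 < M := by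
    have : 1 ≤ M := by rw [hMdef]; simp
    exact this
  obtain ⟨m, ω, hm, hFew, hI1, hI2, hNO⟩ := hM0 M hMM0
  have hh1' : (1 : ℝ) ≤ h := by exact_mod_cast hh0
  have hM1' : (1 : ℝ) ≤ M := by exact_mod_cast hM
  have hN : 0 < Fintype.card (Cd h d M) := by
    rw [card_Cd]
    have : 0 < Fintype.card (Nd h d) := lt_of_lt_of_le hh0 hcard
    positivity
  have hNR : (Fintype.card (Cd h d M) : ℝ) = 2 * Fintype.card (Nd h d) * M := by
    rw [card_Cd]; push_cast; ring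
  have hρN : 2 ≤ ρ * √(Fintype.card (Cd h d M) : ℝ) := by
    have h1 : (8 : ℝ) ≤ ρ ^ 2 * (Fintype.card (Cd h d M) : ℝ) := by
      rw [hNR]
      have h2 : ρ ^ 2 * (2 * (Fintype.card (Nd h d) : ℝ)) ≤
          ρ ^ 2 * (2 * Fintype.card (Nd h d) * M) := by
        apply mul_le_mul_of_nonneg_left _ hρ2.le
        have : (0 : ℝ) ≤ 2 * (Fintype.card (Nd h d) : ℝ) := by positivity
        nlinarith
      linarith
    have h3 : √(4 : ℝ) ≤ √(ρ ^ 2 * (Fintype.card (Cd h d M) : ℝ)) :=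
      Real.sqrt_le_sqrt (by linarith)
    rw [Real.sqrt_mul (by positivity), Real.sqrt_sq hρ.le] at h3
    have h4 : √(4 : ℝ) = 2 := by
      rw [show (4 : ℝ) = 2 ^ 2 by norm_num, Real.sqrt_sq (by norm_num)]
    rwa [h4] at h3
  obtain ⟨hf1, hf2, hf3, hf4, hf5⟩ := hF h d M m ρ ω hh0 hd0 hM hρ hρ1 h8
  refine ⟨cblk hT h d M m ρ ω hN hρ hρ1, ?_⟩
  have hgen2 := norm_gen_le hT hN ω
  constructor
  · -- basic
    constructor
    · exact hρ1
    · exact hρN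
    · exact hm
    · exact norm_holds.two _ _ (gen h d M ω) ρ hρ hρ1 hgen2
    · exact norm_holds.low _ _ (gen h d M ω) ρ hρ
    · refine norm_holds.coord _ _ (gen h d M ω) ρ hρ fun q l => ?_
      refine (abs_gen_le hT ω q l).trans ?_
      rw [div_le_iff₀ (Real.sqrt_pos.mpr (by exact_mod_cast hN))]
      exact hρN
    · intro i
      have h1 := norm_holds.gen _ _ (gen h d M ω) ρ hρ (⟨len h d, Nat.lt_succ_self _⟩, i)
      have h2 : gen h d M ω (⟨len h d, Nat.lt_succ_self _⟩, i) = sv (ω i) := by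
        show U h d M (len h d) (sv (ω i)) = sv (ω i)
        rw [U_len hT]
        rfl
      rw [h2] at h1
      exact h1
    · exact hI1
    · exact hI2
  · -- flag
    exact ⟨Wt h d M, len h d * M, hf1, hf2, hf3, hf4, hf5⟩
  · -- large
    show 4 * (k : ℝ) * (k + 1) ^ 2 * (B : ℝ) ^ 2 ≤ ρ ^ 2 * (Fintype.card (Cd h d M) : ℝ)
    have h1 : 4 * (k : ℝ) * (k + 1) ^ 2 * (B : ℝ) ^ 2 / ρ ^ 2 ≤ M :=
      hM2.trans (by exact_mod_cast hMM2)
    rw [div_le_iff₀ hρ2] at h1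
    have h2 : (M : ℝ) ≤ (Fintype.card (Cd h d M) : ℝ) := by
      rw [hNR]
      have : (1 : ℝ) ≤ 2 * (Fintype.card (Nd h d) : ℝ) := by linarith
      nlinarith
    nlinarith
  · -- transfer
    intro a ha ham
    have key := hTr h d M m ρ δ ω K B a hh0 hd0 hM hm hρ hρ1 hδ.le hNO hK hKBδ ha ham
    exact key
  · -- no chain
    intro C hC0 hCk
    have h400 : 400 * ((k : ℝ) + 1) ≤ ρ * (h * M) := by
      have h1 : 400 * ((k : ℝ) + 1) / ρ ≤ M := hM1.trans (by exact_mod_cast hMM1)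
      rw [div_le_iff₀ hρ] at h1
      have h2 : (M : ℝ) ≤ h * M := by nlinarith
      nlinarith
    exact hC k h M m d ρ ω hd hh0 hM hm hρdef h400 hFew C hC0 hCk

end SPB
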