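import Pool.Agent.SPB.Stmts
import Pool.Agent.Lib_helper87.SPB.Hoeffding

/-!
# M3a, M3b: the moment conditions hold for most samples
-/

namespace SPB

open Finset SPB87
open scoped BigOperators InnerProductSpace

set_option linter.unusedSectionVars false

lemma inner_sv {ι : Type} [Fintype ι] (ε : ι → Bool) (u : EuclideanSpace ℝ ι) :
    ⟪sv ε, u⟫_ℝ = (∑ l, sg (ε l) * u l) / √(Fintype.card ι : ℝ) := by
  rw [PiLp.inner_apply, sum_div]
  refine sum_congr rfl fun l _ => ?_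
  simp only [sv, RCLike.inner_apply, conj_trivial]
  ring

lemma cnt_eq {Ω : Type} [Fintype Ω] (P : Ω → Prop) [DecidablePred P] :
    cnt P = ((univ.filter P).card : ℝ) := by
  unfold cnt
  congr!

lemma cnt_markov {Ω : Type} [Fintype Ω] (P : Ω → Prop) (Z : Ω → ℝ)
    (hZ : ∀ ω, 0 ≤ Z ω) {a S : ℝ} (ha : ∀ ω, P ω → a ≤ Z ω) (hS : ∑ ω, Z ω ≤ S) :
    cnt P * a ≤ S := by
  classical
  rw [cnt_eq]
  exact markov_count P Z hZ ha hS

section one

variable {ι : Type} [Fintype ι] [DecidableEq ι] {m : ℕ}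

/-- off-diagonal Gram sums -/
noncomputable def gsum (ω : Fin m → (ι → Bool)) (l l' : ι) : ℝ :=
  ∑ i, sg (ω i l) * sg (ω i l')

/-- square sum of the off-diagonal Gram sums -/
noncomputable def Z1 (ω : Fin m → (ι → Bool)) : ℝ :=
  ∑ l, ∑ l', if l = l' then 0 else gsum ω l l' ^ 2

lemma Z1_nonneg (ω : Fin m → (ι → Bool)) : 0 ≤ Z1 ω := by
  unfold Z1
  refine sum_nonneg fun l _ => sum_nonneg fun l' _ => ?_
  split_ifs
  · exact le_rfl
  · positivity

lemma sum_Z1_le :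
    ∑ ω : Fin m → (ι → Bool), Z1 ω ≤
      (Fintype.card ι : ℝ) ^ 2 * (m * Fintype.card (Fin m → (ι → Bool))) := by
  unfold Z1
  rw [sum_comm]
  have h1 : ∀ l l' : ι, ∑ ω : Fin m → (ι → Bool), (if l = l' then 0 else gsum ω l l' ^ 2) ≤
      m * Fintype.card (Fin m → (ι → Bool)) := by
    intro l l'
    by_cases h : l = l'
    · simp only [h, if_true, sum_const_zero]
      positivity
    · simp only [h, if_false]
      have := (balanced_two h).second_moment (ι := Fin m)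
      rw [Fintype.card_fin] at this
      exact this.le
  calc ∑ l, ∑ ω : Fin m → (ι → Bool), ∑ l', (if l = l' then 0 else gsum ω l l' ^ 2)
      = ∑ l, ∑ l', ∑ ω : Fin m → (ι → Bool), (if l = l' then 0 else gsum ω l l' ^ 2) :=
        sum_congr rfl fun l _ => sum_comm
    _ ≤ ∑ _l : ι, ∑ _l' : ι, (m * Fintype.card (Fin m → (ι → Bool)) : ℝ) :=
        sum_le_sum fun l _ => sum_le_sum fun l' _ => h1 l l'
    _ = _ := by
        simp only [sum_const, card_univ, nsmul_eq_mul]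
        ring

lemma I1_of_Z1 (hm : 0 < m) (hN : 0 < Fintype.card ι) (ω : Fin m → (ι → Bool))
    (h : Z1 ω ≤ (m : ℝ) ^ 2 / 100) : I1 (fun j => sv (ω j)) := by
  intro u
  have hm' : (0 : ℝ) < m := Nat.cast_pos.2 hm
  have hN' : (0 : ℝ) < Fintype.card ι := Nat.cast_pos.2 hN
  set N : ℝ := (Fintype.card ι : ℝ) with hNdef
  set v : EuclideanSpace ℝ ι :=
    (N / m) • (∑ i, ⟪sv (ω i), u⟫_ℝ • sv (ω i)) - u with hv
  have hvl : ∀ l, v l = (1 / m) * ∑ l', (if l = l' then 0 else gsum ω l l' * u l') := by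
    intro l
    have h1 : v l = (N / m) * (∑ i, ⟪sv (ω i), u⟫_ℝ * (sg (ω i l) / √N)) - u l := by
      rw [hv]
      simp only [PiLp.sub_apply, PiLp.smul_apply, smul_eq_mul, WithLp.ofLp_sum,
        Finset.sum_apply, PiLp.smul_apply]
      rfl
    rw [h1]
    have h2 : ∀ i, ⟪sv (ω i), u⟫_ℝ * (sg (ω i l) / √N) =
        (1 / N) * ∑ l', sg (ω i l) * sg (ω i l') * u l' := by
      intro i
      rw [inner_sv, ← hNdef]
      have : √N * √N = N := Real.mul_self_sqrt hN'.le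
      rw [div_mul_div_comm, this, mul_sum, sum_mul, sum_div]
      refine sum_congr rfl fun l' _ => ?_
      ring
    simp only [h2]
    rw [← mul_sum, sum_comm]
    have h3 : ∀ l', ∑ i, sg (ω i l) * sg (ω i l') * u l' =
        (if l = l' then 0 else gsum ω l l' * u l') + (if l = l' then (m : ℝ) * u l' else 0) := by
      intro l'
      by_cases hl : l = l'
      · subst hl
        simp [sg_mul_self]
      · simp only [hl, if_false, add_zero, gsum, sum_mul]
    simp only [h3, sum_add_distrib, sum_ite_eq, mem_univ, if_true]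
    field_simp
    ring
  have hsq : ‖v‖ ^ 2 ≤ (1 / m) ^ 2 * (Z1 ω * ‖u‖ ^ 2) := by
    rw [EuclideanSpace.norm_sq_eq, EuclideanSpace.norm_sq_eq]
    unfold Z1
    rw [sum_mul, mul_sum]
    refine sum_le_sum fun l _ => ?_
    rw [hvl, Real.norm_eq_abs, sq_abs, mul_pow]
    refine mul_le_mul_of_nonneg_left ?_ (by positivity)
    have h4 : ∑ l', (if l = l' then 0 else gsum ω l l' * u l') =
        ∑ l', (if l = l' then 0 else gsum ω l l') * u l' := by
      refine sum_congr rfl fun l' _ => ?_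
      split_ifs <;> simp
    rw [h4]
    refine (sum_mul_sq_le_sq_mul_sq _ _ _).trans (le_of_eq ?_)
    congr 1
    · refine sum_congr rfl fun l' _ => ?_
      split_ifs <;> simp
    · refine sum_congr rfl fun l' _ => ?_
      rw [Real.norm_eq_abs, sq_abs]
  have h5 : ‖v‖ ^ 2 ≤ (‖u‖ / 10) ^ 2 := by
    refine hsq.trans ?_
    have h6 : Z1 ω * ‖u‖ ^ 2 ≤ (m : ℝ) ^ 2 / 100 * ‖u‖ ^ 2 :=
      mul_le_mul_of_nonneg_right h (by positivity)
    calc (1 / (m : ℝ)) ^ 2 * (Z1 ω * ‖u‖ ^ 2) ≤ (1 / (m : ℝ)) ^ 2 * ((m : ℝ) ^ 2 / 100 * ‖u‖ ^ 2) :=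
          mul_le_mul_of_nonneg_left h6 (by positivity)
      _ = (‖u‖ / 10) ^ 2 := by
          field_simp
          ring
  exact abs_le_of_sq_le_sq' h5 (by positivity) |>.2

end one

theorem i1_holds : I1Stmt := by
  intro ι _ _ m hm hN
  have hm' : (0 : ℝ) < m := Nat.cast_pos.2 hm
  have h1 := cnt_markov (fun ω : Fin m → (ι → Bool) => ¬ I1 (fun j => sv (ω j))) Z1 Z1_nonneg
    (a := (m : ℝ) ^ 2 / 100) (fun ω hω => by
      by_contra hlt
      exact hω (I1_of_Z1 hm hN ω (not_le.1 hlt).le)) sum_Z1_le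
  rw [← le_div_iff₀ (by positivity)] at h1
  refine h1.trans (le_of_eq ?_)
  field_simp

section two

variable {ι : Type} [Fintype ι] [DecidableEq ι] {m : ℕ}

/-- fourth order sums -/
noncomputable def qsum (ω : Fin m → (ι → Bool)) (q : ι × ι × ι × ι) : ℝ :=
  ∑ i, sg (ω i q.1) * sg (ω i q.2.1) * sg (ω i q.2.2.1) * sg (ω i q.2.2.2)

/-- unpaired square sum -/
noncomputable def Z2 (ω : Fin m → (ι → Bool)) : ℝ :=
  ∑ q : ι × ι × ι × ι, if Paired q.1 q.2.1 q.2.2.1 q.2.2.2 then 0 else qsum ω q ^ 2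

lemma Z2_nonneg (ω : Fin m → (ι → Bool)) : 0 ≤ Z2 ω := by
  unfold Z2
  refine sum_nonneg fun q _ => ?_
  split_ifs
  · exact le_rfl
  · positivity

lemma sum_Z2_le :
    ∑ ω : Fin m → (ι → Bool), Z2 ω ≤
      (Fintype.card ι : ℝ) ^ 4 * (m * Fintype.card (Fin m → (ι → Bool))) := by
  unfold Z2
  rw [sum_comm]
  have h1 : ∀ q : ι × ι × ι × ι, ∑ ω : Fin m → (ι → Bool),
      (if Paired q.1 q.2.1 q.2.2.1 q.2.2.2 then 0 else qsum ω q ^ 2) ≤
      m * Fintype.card (Fin m → (ι → Bool)) := by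
    intro q
    by_cases h : Paired q.1 q.2.1 q.2.2.1 q.2.2.2
    · simp only [h, if_true, sum_const_zero]
      positivity
    · simp only [h, if_false]
      have := (balanced_four h).second_moment (ι := Fin m)
      rw [Fintype.card_fin] at this
      exact this.le
  refine (sum_le_sum fun q _ => h1 q).trans (le_of_eq ?_)
  rw [sum_const, card_univ, nsmul_eq_mul]
  simp only [Fintype.card_prod, Nat.cast_mul]
  ring

/-- the fourth power of a sum -/
lemma sum_pow_four (f : ι → ℝ) :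
    (∑ l, f l) ^ 4 = ∑ q : ι × ι × ι × ι, f q.1 * f q.2.1 * f q.2.2.1 * f q.2.2.2 := by
  simp only [Fintype.sum_prod_type]
  have h : (∑ l, f l) ^ 4 = (∑ l, f l) * ((∑ l, f l) * ((∑ l, f l) * ∑ l, f l)) := by ring
  rw [h]
  simp only [sum_mul, mul_sum]
  refine sum_congr rfl fun a _ => ?_
  rw [sum_comm]
  refine sum_congr rfl fun b _ => ?_
  rw [sum_comm]
  refine sum_congr rfl fun c _ => ?_
  refine sum_congr rfl fun d _ => ?_
  ring

lemma paired_sum_le (f : ι → ℝ) :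
    ∑ q : ι × ι × ι × ι, (if Paired q.1 q.2.1 q.2.2.1 q.2.2.2 then
      f q.1 * f q.2.1 * f q.2.2.1 * f q.2.2.2 else 0) ≤ 3 * (∑ l, f l ^ 2) ^ 2 := by
  have h1 : ∀ q : ι × ι × ι × ι, (if Paired q.1 q.2.1 q.2.2.1 q.2.2.2 then
      f q.1 * f q.2.1 * f q.2.2.1 * f q.2.2.2 else 0) ≤
      (if q.1 = q.2.1 then (if q.2.2.1 = q.2.2.2 then f q.1 ^ 2 * f q.2.2.1 ^ 2 else 0) else 0) +
      (if q.1 = q.2.2.1 then (if q.2.1 = q.2.2.2 then f q.1 ^ 2 * f q.2.1 ^ 2 else 0) else 0) +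
      (if q.1 = q.2.2.2 then (if q.2.1 = q.2.2.1 then f q.1 ^ 2 * f q.2.1 ^ 2 else 0) else 0) := by
    rintro ⟨a, b, c, d⟩
    simp only
    have e1 : 0 ≤ (if a = b then (if c = d then f a ^ 2 * f c ^ 2 else 0) else 0) := by
      split_ifs <;> positivity
    have e2 : 0 ≤ (if a = c then (if b = d then f a ^ 2 * f b ^ 2 else 0) else 0) := by
      split_ifs <;> positivity
    have e3 : 0 ≤ (if a = d then (if b = c then f a ^ 2 * f b ^ 2 else 0) else 0) := by
      split_ifs <;> positivity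
    by_cases h : Paired a b c d
    · rw [if_pos h]
      rcases h with ⟨h, h'⟩ | ⟨h, h'⟩ | ⟨h, h'⟩
      · rw [if_pos h, if_pos h'] at e1 ⊢
        subst h; subst h'
        nlinarith
      · rw [if_pos h, if_pos h'] at e2
        rw [if_pos (c := a = c) h, if_pos (c := b = d) h']
        subst h; subst h'
        nlinarith
      · rw [if_pos h, if_pos h'] at e3
        rw [if_pos (c := a = d) h, if_pos (c := b = c) h']
        subst h; subst h'
        nlinarith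
    · rw [if_neg h]
      linarith
  refine (sum_le_sum fun q _ => h1 q).trans (le_of_eq ?_)
  rw [sum_add_distrib, sum_add_distrib]
  simp only [Fintype.sum_prod_type]
  have hsq : (∑ l, f l ^ 2) ^ 2 = ∑ a, ∑ b, f a ^ 2 * f b ^ 2 := by rw [sq, sum_mul_sum]
  have t1 : ∑ a, ∑ b, ∑ c, ∑ d, (if a = b then (if c = d then f a ^ 2 * f c ^ 2 else 0) else 0) =
      (∑ l, f l ^ 2) ^ 2 := by
    rw [hsq]
    refine sum_congr rfl fun a _ => ?_
    rw [sum_eq_single a]
    · refine sum_congr rfl fun c _ => ?_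
      simp
    · intro b _ hb
      simp [Ne.symm hb]
    · intro h
      exact absurd (mem_univ a) h
  have t2 : ∑ a, ∑ b, ∑ c, ∑ d, (if a = c then (if b = d then f a ^ 2 * f b ^ 2 else 0) else 0) =
      (∑ l, f l ^ 2) ^ 2 := by
    rw [hsq]
    refine sum_congr rfl fun a _ => sum_congr rfl fun b _ => ?_
    rw [sum_eq_single a]
    · simp
    · intro c _ hc
      simp [Ne.symm hc]
    · intro h
      exact absurd (mem_univ a) h
  have t3 : ∑ a, ∑ b, ∑ c, ∑ d, (if a = d then (if b = c then f a ^ 2 * f b ^ 2 else 0) else 0) =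
      (∑ l, f l ^ 2) ^ 2 := by
    rw [hsq]
    refine sum_congr rfl fun a _ => sum_congr rfl fun b _ => ?_
    rw [sum_eq_single b]
    · simp
    · intro c _ hc
      simp [Ne.symm hc]
    · intro h
      exact absurd (mem_univ b) h
  rw [t1, t2, t3]
  ring

lemma I2_of_Z2 (hm : 0 < m) (hN : 0 < Fintype.card ι) (ω : Fin m → (ι → Bool))
    (h : Z2 ω ≤ (m : ℝ) ^ 2) : I2 (fun j => sv (ω j)) := by
  intro u
  have hm' : (0 : ℝ) < m := Nat.cast_pos.2 hm
  have hN' : (0 : ℝ) < Fintype.card ι := Nat.cast_pos.2 hN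
  set N : ℝ := (Fintype.card ι : ℝ) with hNdef
  have hu4 : ‖u‖ ^ 4 = (∑ l, u l ^ 2) ^ 2 := by
    have : ‖u‖ ^ 2 = ∑ l, u l ^ 2 := by
      rw [EuclideanSpace.norm_sq_eq]
      exact sum_congr rfl fun l _ => by rw [Real.norm_eq_abs, sq_abs]
    rw [← this]
    ring
  -- expand
  have h1 : ∀ i, ⟪sv (ω i), u⟫_ℝ ^ 4 = (1 / N ^ 2) *
      ∑ q : ι × ι × ι × ι, (sg (ω i q.1) * sg (ω i q.2.1) * sg (ω i q.2.2.1) * sg (ω i q.2.2.2)) *
        (u q.1 * u q.2.1 * u q.2.2.1 * u q.2.2.2) := by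
    intro i
    rw [inner_sv, div_pow, sum_pow_four, ← hNdef]
    have : √N ^ 4 = N ^ 2 := by
      calc √N ^ 4 = (√N ^ 2) ^ 2 := by ring
        _ = N ^ 2 := by rw [Real.sq_sqrt hN'.le]
    rw [this, div_eq_mul_one_div, mul_comm]
    congr 1
    refine sum_congr rfl fun q _ => ?_
    ring
  have h2 : N ^ 2 / m * ∑ i, ⟪sv (ω i), u⟫_ℝ ^ 4 =
      (1 / m) * ∑ q : ι × ι × ι × ι, qsum ω q * (u q.1 * u q.2.1 * u q.2.2.1 * u q.2.2.2) := by
    simp only [h1]
    rw [← mul_sum, sum_comm]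
    have : ∀ q : ι × ι × ι × ι, ∑ i, (sg (ω i q.1) * sg (ω i q.2.1) * sg (ω i q.2.2.1) *
        sg (ω i q.2.2.2)) * (u q.1 * u q.2.1 * u q.2.2.1 * u q.2.2.2) =
        qsum ω q * (u q.1 * u q.2.1 * u q.2.2.1 * u q.2.2.2) := by
      intro q
      rw [← sum_mul]
      rfl
    simp only [this]
    field_simp
  rw [h2]
  -- split
  have h3 : ∑ q : ι × ι × ι × ι, qsum ω q * (u q.1 * u q.2.1 * u q.2.2.1 * u q.2.2.2) =
      (m : ℝ) * ∑ q : ι × ι × ι × ι, (if Paired q.1 q.2.1 q.2.2.1 q.2.2.2 then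
        u q.1 * u q.2.1 * u q.2.2.1 * u q.2.2.2 else 0) +
      ∑ q : ι × ι × ι × ι, (if Paired q.1 q.2.1 q.2.2.1 q.2.2.2 then 0 else qsum ω q) *
        (u q.1 * u q.2.1 * u q.2.2.1 * u q.2.2.2) := by
    rw [mul_sum, ← sum_add_distrib]
    refine sum_congr rfl fun q _ => ?_
    by_cases hq : Paired q.1 q.2.1 q.2.2.1 q.2.2.2
    · have : qsum ω q = m := by
        unfold qsum
        rw [sum_congr rfl fun i _ => paired_prod hq (ω i)]
        simp
      simp only [hq, if_true, this, zero_mul, add_zero]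
    · simp only [hq, if_false, mul_zero, zero_add]
  have h4 : ∑ q : ι × ι × ι × ι, (u q.1 * u q.2.1 * u q.2.2.1 * u q.2.2.2) ^ 2 =
      (∑ l, u l ^ 2) ^ 4 := by
    rw [sum_pow_four]
    refine sum_congr rfl fun q _ => ?_
    ring
  have h5 : (∑ q : ι × ι × ι × ι, (if Paired q.1 q.2.1 q.2.2.1 q.2.2.2 then 0 else qsum ω q) *
        (u q.1 * u q.2.1 * u q.2.2.1 * u q.2.2.2)) ^ 2 ≤ (m * (∑ l, u l ^ 2) ^ 2) ^ 2 := by
    refine (sum_mul_sq_le_sq_mul_sq _ _ _).trans ?_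
    rw [h4]
    have h6 : ∑ q : ι × ι × ι × ι,
        (if Paired q.1 q.2.1 q.2.2.1 q.2.2.2 then 0 else qsum ω q) ^ 2 = Z2 ω := by
      unfold Z2
      refine sum_congr rfl fun q _ => ?_
      split_ifs <;> simp
    rw [h6]
    calc Z2 ω * (∑ l, u l ^ 2) ^ 4 ≤ (m : ℝ) ^ 2 * (∑ l, u l ^ 2) ^ 4 :=
          mul_le_mul_of_nonneg_right h (by positivity)
      _ = _ := by ring
  have h7 := (abs_le_of_sq_le_sq' h5 (by positivity)).2
  have h8 := paired_sum_le (fun l => u l)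
  rw [h3, hu4]
  have h9 : (m : ℝ) * ∑ q : ι × ι × ι × ι, (if Paired q.1 q.2.1 q.2.2.1 q.2.2.2 then
        u q.1 * u q.2.1 * u q.2.2.1 * u q.2.2.2 else 0) ≤ m * (3 * (∑ l, u l ^ 2) ^ 2) :=
    mul_le_mul_of_nonneg_left h8 hm'.le
  calc (1 / (m : ℝ)) * ((m : ℝ) * ∑ q : ι × ι × ι × ι, (if Paired q.1 q.2.1 q.2.2.1 q.2.2.2 then
        u q.1 * u q.2.1 * u q.2.2.1 * u q.2.2.2 else 0) +
      ∑ q : ι × ι × ι × ι, (if Paired q.1 q.2.1 q.2.2.1 q.2.2.2 then 0 else qsum ω q) *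
        (u q.1 * u q.2.1 * u q.2.2.1 * u q.2.2.2)) ≤
      (1 / (m : ℝ)) * (m * (3 * (∑ l, u l ^ 2) ^ 2) + m * (∑ l, u l ^ 2) ^ 2) :=
        mul_le_mul_of_nonneg_left (add_le_add h9 h7) (by positivity)
    _ = 4 * (∑ l, u l ^ 2) ^ 2 := by
        field_simp
        ring

end two

theorem i2_holds : I2Stmt := by
  intro ι _ _ m hm hN
  have hm' : (0 : ℝ) < m := Nat.cast_pos.2 hm
  have h1 := cnt_markov (fun ω : Fin m → (ι → Bool) => ¬ I2 (fun j => sv (ω j))) Z2 Z2_nonneg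
    (a := (m : ℝ) ^ 2) (fun ω hω => by
      by_contra hlt
      exact hω (I2_of_Z2 hm hN ω (not_le.1 hlt).le)) sum_Z2_le
  rw [← le_div_iff₀ (by positivity)] at h1
  refine h1.trans (le_of_eq ?_)
  field_simp

end SPB
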