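import Pool.Agent.SPB.Stmts

/-!
# M4a: combinatorics of the positions
-/

namespace SPB

open scoped BigOperators

theorem pa_lt_pb (h : ℕ) : ∀ (d : ℕ) (π : Nd h d), pa h d π < pb h d π
  | 0, x => Empty.elim x
  | d + 1, Sum.inl τ => by
      have := τ.2
      simp only [pa, pb]
      omega
  | d + 1, Sum.inr (Sum.inl x) => by
      have := pa_lt_pb h d x
      simp only [pa, pb]
      omega
  | d + 1, Sum.inr (Sum.inr x) => by
      have := pa_lt_pb h d x
      simp only [pa, pb]
      omega

theorem pb_lt_pc (h : ℕ) : ∀ (d : ℕ) (π : Nd h d), pb h d π < pc h d π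
  | 0, x => Empty.elim x
  | d + 1, Sum.inl τ => by
      have := τ.2
      simp only [pb, pc]
      omega
  | d + 1, Sum.inr (Sum.inl x) => by
      have := pb_lt_pc h d x
      simp only [pb, pc]
      omega
  | d + 1, Sum.inr (Sum.inr x) => by
      have := pb_lt_pc h d x
      simp only [pb, pc]
      omega

theorem pc_lt_len (h : ℕ) : ∀ (d : ℕ) (π : Nd h d), pc h d π < len h d
  | 0, x => Empty.elim x
  | d + 1, Sum.inl τ => by
      have := τ.2
      simp only [pc, len]
      omega
  | d + 1, Sum.inr (Sum.inl x) => by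
      have := pc_lt_len h d x
      simp only [pc, len]
      omega
  | d + 1, Sum.inr (Sum.inr x) => by
      have := pc_lt_len h d x
      simp only [pc, len]
      omega

theorem card_Nd_succ (h d : ℕ) : Fintype.card (Nd h (d + 1)) = h + 2 * Fintype.card (Nd h d) := by
  have h1 : Fintype.card (Nd h (d + 1)) = Fintype.card (Fin h ⊕ (Nd h d ⊕ Nd h d)) := rfl
  rw [h1, Fintype.card_sum, Fintype.card_sum, Fintype.card_fin]
  ring

theorem card_Nd (h d : ℕ) : Fintype.card (Nd h d) = h * (2 ^ d - 1) := by
  induction d with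
  | zero =>
    have h1 : Fintype.card (Nd h 0) = Fintype.card Empty := rfl
    rw [h1]
    simp
  | succ d ih =>
    rw [card_Nd_succ, ih, pow_succ]
    obtain ⟨n, hn⟩ : ∃ n, 2 ^ d = n + 1 := ⟨2 ^ d - 1, by have := Nat.one_le_two_pow (n := d); omega⟩
    rw [hn]
    have e1 : (n + 1) * 2 - 1 = 2 * n + 1 := by omega
    have e2 : n + 1 - 1 = n := by omega
    rw [e1, e2]
    ring

theorem sum_Nd_succ {A : Type} [AddCommMonoid A] (h d : ℕ) (F : Nd h (d + 1) → A) :
    ∑ π : Nd h (d + 1), F π = ∑ τ : Fin h, F (Sum.inl τ) +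
      (∑ x : Nd h d, F (Sum.inr (Sum.inl x)) + ∑ x : Nd h d, F (Sum.inr (Sum.inr x))) := by
  have key : ∀ G : Fin h ⊕ (Nd h d ⊕ Nd h d) → A, ∑ π, G π = ∑ τ, G (Sum.inl τ) +
      (∑ x, G (Sum.inr (Sum.inl x)) + ∑ x, G (Sum.inr (Sum.inr x))) := fun G => by
    rw [Fintype.sum_sum_type, Fintype.sum_sum_type]
  exact key F

theorem sum_pos_Nd (h d : ℕ) (f : ℕ → ℝ) :
    ∑ π : Nd h d, (f (pa h d π) + f (pb h d π) + f (pc h d π)) =
      ∑ q ∈ Finset.range (len h d), f q := by
  induction d generalizing f with
  | zero =>
    have h1 : len h 0 = 0 := rfl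
    rw [h1, Finset.range_zero, Finset.sum_empty]
    exact Finset.sum_empty
  | succ d ih =>
    rw [sum_Nd_succ]
    have i1 := ih (fun q => f (h + q))
    have i2 := ih (fun q => f (2 * h + len h d + q))
    simp only [pa, pb, pc]
    rw [i1, i2]
    have h1 : len h (d + 1) = h + len h d + h + len h d + h := by rw [len]; ring
    rw [h1, Finset.sum_range_add, Finset.sum_range_add, Finset.sum_range_add,
      Finset.sum_range_add]
    rw [Finset.sum_add_distrib, Finset.sum_add_distrib]
    have e1 : ∑ τ : Fin h, f (τ : ℕ) = ∑ q ∈ Finset.range h, f q := Fin.sum_univ_eq_sum_range f h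
    have e2 : ∑ τ : Fin h, f (h + len h d + (τ : ℕ)) = ∑ q ∈ Finset.range h, f (h + len h d + q) :=
      Fin.sum_univ_eq_sum_range (fun q => f (h + len h d + q)) h
    have e3 : ∑ τ : Fin h, f (2 * h + 2 * len h d + (τ : ℕ)) =
        ∑ q ∈ Finset.range h, f (2 * h + 2 * len h d + q) :=
      Fin.sum_univ_eq_sum_range (fun q => f (2 * h + 2 * len h d + q)) h
    rw [e1, e2, e3]
    have e4 : h + len h d + h = 2 * h + len h d := by ring
    have e5 : h + len h d + h + len h d = 2 * h + 2 * len h d := by ring
    rw [e5, e4]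
    ring

theorem closure_Nd (h d p q : ℕ) : ∃ p' q' : ℕ, p' ≤ q' ∧ q' ≤ len h d ∧
    ∀ π : Nd h d, ¬ (p' ≤ pa h d π ∧ pa h d π < q') ∧ ¬ (p' ≤ pc h d π ∧ pc h d π < q') ∧
      ((p' ≤ pb h d π ∧ pb h d π < q') ↔
        (pa h d π < p ∧ p ≤ pb h d π ∧ pb h d π < q ∧ q ≤ pc h d π)) := by
  induction d generalizing p q with
  | zero =>
    exact ⟨0, 0, le_rfl, Nat.zero_le _, fun π => Empty.elim π⟩
  | succ d ih =>
    have hlen : len h (d + 1) = 3 * h + 2 * len h d := rfl
    by_cases hpq : p < q
    swap
    · refine ⟨0, 0, le_rfl, Nat.zero_le _, fun π => ⟨by omega, by omega, ?_⟩⟩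
      constructor
      · intro H; omega
      · intro H; omega
    by_cases hA : q ≤ h + len h d
    · -- only the left subtree
      obtain ⟨p', q', h1, h2, h3⟩ := ih (p - h) (q - h)
      refine ⟨h + p', h + q', by omega, by omega, fun π => ?_⟩
      match π with
      | Sum.inl τ =>
        have := τ.2
        simp only [pa, pb, pc]
        omega
      | Sum.inr (Sum.inl x) =>
        have a1 := h3 x
        have a2 := pa_lt_pb h d x
        have a3 := pb_lt_pc h d x
        have a4 := pc_lt_len h d x
        simp only [pa, pb, pc]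
        omega
      | Sum.inr (Sum.inr x) =>
        have a2 := pa_lt_pb h d x
        have a3 := pb_lt_pc h d x
        have a4 := pc_lt_len h d x
        simp only [pa, pb, pc]
        omega
    by_cases hC : 2 * h + len h d ≤ p
    · obtain ⟨p', q', h1, h2, h3⟩ := ih (p - (2 * h + len h d)) (q - (2 * h + len h d))
      refine ⟨2 * h + len h d + p', 2 * h + len h d + q', by omega, by omega, fun π => ?_⟩
      match π with
      | Sum.inl τ =>
        have := τ.2
        simp only [pa, pb, pc]
        omega
      | Sum.inr (Sum.inl x) =>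
        have a2 := pa_lt_pb h d x
        have a3 := pb_lt_pc h d x
        have a4 := pc_lt_len h d x
        simp only [pa, pb, pc]
        omega
      | Sum.inr (Sum.inr x) =>
        have a1 := h3 x
        have a2 := pa_lt_pb h d x
        have a3 := pb_lt_pc h d x
        have a4 := pc_lt_len h d x
        simp only [pa, pb, pc]
        omega
    · -- only the root pairs
      by_cases huv : max (p - (h + len h d)) (q - (2 * h + 2 * len h d)) ≤
          min p (min (q - (h + len h d)) h)
      · refine ⟨h + len h d + max (p - (h + len h d)) (q - (2 * h + 2 * len h d)),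
          h + len h d + min p (min (q - (h + len h d)) h), by omega, by omega, fun π => ?_⟩
        match π with
        | Sum.inl τ =>
          have := τ.2
          simp only [pa, pb, pc]
          omega
        | Sum.inr (Sum.inl x) =>
          have a2 := pa_lt_pb h d x
          have a3 := pb_lt_pc h d x
          have a4 := pc_lt_len h d x
          simp only [pa, pb, pc]
          omega
        | Sum.inr (Sum.inr x) =>
          have a2 := pa_lt_pb h d x
          have a3 := pb_lt_pc h d x
          have a4 := pc_lt_len h d x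
          simp only [pa, pb, pc]
          omega
      · refine ⟨0, 0, le_rfl, Nat.zero_le _, fun π => ⟨by omega, by omega, ?_⟩⟩
        match π with
        | Sum.inl τ =>
          have := τ.2
          simp only [pa, pb, pc]
          omega
        | Sum.inr (Sum.inl x) =>
          have a2 := pa_lt_pb h d x
          have a3 := pb_lt_pc h d x
          have a4 := pc_lt_len h d x
          simp only [pa, pb, pc]
          omega
        | Sum.inr (Sum.inr x) =>
          have a2 := pa_lt_pb h d x
          have a3 := pb_lt_pc h d x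
          have a4 := pc_lt_len h d x
          simp only [pa, pb, pc]
          omega

theorem emb_Nd (h d o : ℕ) (v : ℕ × ℕ × ℕ) (hv : v ∈ nodes h d o) : ∃ f : Fin h → Nd h d,
    Function.Injective f ∧ ∀ τ, o + pa h d (f τ) = v.1 + τ ∧ o + pb h d (f τ) = v.2.1 + τ ∧
      o + pc h d (f τ) = v.2.2 + τ := by
  induction d generalizing o with
  | zero => exact absurd hv (Set.notMem_empty _)
  | succ d ih =>
    rcases hv with hv | hv | hv
    · refine ⟨fun τ => Sum.inl τ, Sum.inl_injective, fun τ => ?_⟩
      subst hv
      refine ⟨?_, ?_, ?_⟩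
      · change o + (τ : ℕ) = o + (τ : ℕ)
        rfl
      · change o + (h + len h d + (τ : ℕ)) = o + h + len h d + (τ : ℕ)
        omega
      · change o + (2 * h + 2 * len h d + (τ : ℕ)) = o + 2 * h + 2 * len h d + (τ : ℕ)
        omega
    · obtain ⟨f, hf, h1⟩ := ih (o + h) hv
      refine ⟨fun τ => Sum.inr (Sum.inl (f τ)), ?_, fun τ => ?_⟩
      · exact Sum.inr_injective.comp (Sum.inl_injective.comp hf)
      · have := h1 τ
        simp only [pa, pb, pc]
        omega
    · obtain ⟨f, hf, h1⟩ := ih (o + 2 * h + len h d) hv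
      refine ⟨fun τ => Sum.inr (Sum.inr (f τ)), ?_, fun τ => ?_⟩
      · exact Sum.inr_injective.comp (Sum.inr_injective.comp hf)
      · have := h1 τ
        simp only [pa, pb, pc]
        omega

theorem tree_holds : TreeStmt where
  ab := pa_lt_pb
  bc := pb_lt_pc
  cl := pc_lt_len
  card := card_Nd
  sum_pos := sum_pos_Nd
  closure := fun h d p q _ => closure_Nd h d p q
  emb := emb_Nd

end SPB
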