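import Pool.Agent.SPB.OpLemmas
import Pool.Agent.SPB.Tree

/-!
# M4b: near isometry
-/

namespace SPB

open Finset
open scoped BigOperators InnerProductSpace

/-- Gram matrices close to `M` times the identity. -/
lemma gram_close {T : Type} [DecidableEq T] {M : ℕ} (x : T → Fin M → ℝ) (S : Finset T)
    (δ : ℝ) (hd : ∀ t ∈ S, ∑ μ, x t μ * x t μ = M)
    (ho : ∀ t ∈ S, ∀ t' ∈ S, t ≠ t' → |∑ μ, x t μ * x t' μ| ≤ δ * M) (hδ : 0 ≤ δ)
    (c : T → ℝ) :
    |∑ μ, (∑ t ∈ S, c t * x t μ) ^ 2 - M * ∑ t ∈ S, c t ^ 2| ≤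
      δ * M * S.card * ∑ t ∈ S, c t ^ 2 := by
  have h1 : ∑ μ, (∑ t ∈ S, c t * x t μ) ^ 2 =
      ∑ t ∈ S, ∑ t' ∈ S, c t * c t' * ∑ μ, x t μ * x t' μ := by
    calc ∑ μ, (∑ t ∈ S, c t * x t μ) ^ 2
        = ∑ μ, ∑ t ∈ S, ∑ t' ∈ S, c t * c t' * (x t μ * x t' μ) := by
          refine Finset.sum_congr rfl fun μ _ => ?_
          rw [sq, Finset.sum_mul_sum]
          refine Finset.sum_congr rfl fun t _ => Finset.sum_congr rfl fun t' _ => ?_
          ring
      _ = ∑ t ∈ S, ∑ μ, ∑ t' ∈ S, c t * c t' * (x t μ * x t' μ) := Finset.sum_comm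
      _ = ∑ t ∈ S, ∑ t' ∈ S, c t * c t' * ∑ μ, x t μ * x t' μ := by
          refine Finset.sum_congr rfl fun t _ => ?_
          rw [Finset.sum_comm]
          refine Finset.sum_congr rfl fun t' _ => ?_
          rw [Finset.mul_sum]
  have h2 : M * ∑ t ∈ S, c t ^ 2 = ∑ t ∈ S, ∑ t' ∈ S, if t = t' then c t * c t' * M else 0 := by
    rw [Finset.mul_sum]
    refine Finset.sum_congr rfl fun t ht => ?_
    rw [Finset.sum_ite_eq, if_pos ht]
    ring
  rw [h1, h2, ← Finset.sum_sub_distrib]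
  have h3 : ∀ t ∈ S, |∑ t' ∈ S, c t * c t' * ∑ μ, x t μ * x t' μ -
      ∑ t' ∈ S, (if t = t' then c t * c t' * (M : ℝ) else 0)| ≤
      ∑ t' ∈ S, |c t| * |c t'| * (δ * M) := by
    intro t ht
    rw [← Finset.sum_sub_distrib]
    refine (Finset.abs_sum_le_sum_abs _ _).trans (Finset.sum_le_sum fun t' ht' => ?_)
    by_cases h : t = t'
    · rw [if_pos h, ← h, hd t ht, sub_self, abs_zero]
      positivity
    · rw [if_neg h, sub_zero, abs_mul, abs_mul]
      exact mul_le_mul_of_nonneg_left (ho t ht t' ht' h) (by positivity)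
  calc |∑ t ∈ S, (∑ t' ∈ S, c t * c t' * ∑ μ, x t μ * x t' μ -
        ∑ t' ∈ S, (if t = t' then c t * c t' * (M : ℝ) else 0))|
      ≤ ∑ t ∈ S, |∑ t' ∈ S, c t * c t' * ∑ μ, x t μ * x t' μ -
        ∑ t' ∈ S, (if t = t' then c t * c t' * (M : ℝ) else 0)| := Finset.abs_sum_le_sum_abs _ _
    _ ≤ ∑ t ∈ S, ∑ t' ∈ S, |c t| * |c t'| * (δ * M) := Finset.sum_le_sum h3
    _ = δ * M * (∑ t ∈ S, |c t|) ^ 2 := by
        rw [sq, Finset.sum_mul_sum, Finset.mul_sum]
        refine Finset.sum_congr rfl fun t _ => ?_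
        rw [Finset.mul_sum]
        refine Finset.sum_congr rfl fun t' _ => ?_
        ring
    _ ≤ δ * M * (S.card * ∑ t ∈ S, c t ^ 2) := by
        refine mul_le_mul_of_nonneg_left ?_ (by positivity)
        have := sq_sum_le_card_mul_sum_sq (s := S) (f := fun t => |c t|)
        simpa only [sq_abs] using this
    _ = δ * M * S.card * ∑ t ∈ S, c t ^ 2 := by ring

/-- Consequence: if `20 |S| δ ≤ 1`, the quadratic form is within a factor `1 ± 1/10` for families
of `2|S|` vectors. -/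
lemma gram_close' {T : Type} [DecidableEq T] {M : ℕ} (x : T → Fin M → ℝ) (S : Finset T)
    (δ : ℝ) (hd : ∀ t ∈ S, ∑ μ, x t μ * x t μ = M)
    (ho : ∀ t ∈ S, ∀ t' ∈ S, t ≠ t' → |∑ μ, x t μ * x t' μ| ≤ δ * M) (hδ : 0 ≤ δ)
    (hS : 10 * (S.card : ℝ) * δ ≤ 1) (c : T → ℝ) :
    |∑ μ, (∑ t ∈ S, c t * x t μ) ^ 2 - M * ∑ t ∈ S, c t ^ 2| ≤
      (M : ℝ) / 10 * ∑ t ∈ S, c t ^ 2 := by
  refine (gram_close x S δ hd ho hδ c).trans ?_
  refine mul_le_mul_of_nonneg_right ?_ (Finset.sum_nonneg fun _ _ => sq_nonneg _)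
  have hM : (0 : ℝ) ≤ M := Nat.cast_nonneg _
  nlinarith

lemma sg_mul_self (b : Bool) : sg b * sg b = 1 := by cases b <;> simp [sg]

lemma U_succ_sub_false {h d M : ℕ} (q : ℕ) (z : VV h d M) (π : Nd h d) (μ : Fin M) :
    (U h d M (q + 1) z - U h d M q z) ((π, false), μ) =
      (if pa h d π = q then z ((π, false), μ) else 0) +
      ((if pb h d π = q then z ((π, true), μ) else 0) -
        (if pc h d π = q then z ((π, true), μ) else 0)) := by
  have hst : ∀ x, st (q + 1) x = st q x + if x = q then 1 else 0 := by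
    intro x
    simp only [st]
    split_ifs <;> first | omega | simp
  rw [PiLp.sub_apply, U, U, Op_false, Op_false, hst, hst, hst]
  split_ifs <;> ring

lemma U_succ_sub_true {h d M : ℕ} (q : ℕ) (z : VV h d M) (π : Nd h d) (μ : Fin M) :
    (U h d M (q + 1) z - U h d M q z) ((π, true), μ) =
      (if pc h d π = q then z ((π, true), μ) else 0) := by
  have hst : ∀ x, st (q + 1) x = st q x + if x = q then 1 else 0 := by
    intro x
    simp only [st]
    split_ifs <;> first | omega | simp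
  rw [PiLp.sub_apply, U, U, Op_true, Op_true, hst]
  split_ifs <;> ring

theorem nearIso_holds : NearIsoStmt := by
  classical
  intro h d M m δ ω hh hd hM hδ hNO S hS D
  set K : ℕ := Fintype.card (Nd h d) with hK
  have hKpos : 0 < K := by
    rw [hK, card_Nd]
    have h1 : 2 ^ 1 ≤ 2 ^ d := Nat.pow_le_pow_right (by norm_num) hd
    exact Nat.mul_pos hh (by omega)
  set y : VV h d M := ∑ s ∈ S, ∑ q ∈ Finset.range (len h d),
            D s q • (U h d M (q + 1) (sv (ω s)) - U h d M q (sv (ω s))) with hy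
  have hMr : (0 : ℝ) < M := by exact_mod_cast hM
  have hKr : (0 : ℝ) < K := by exact_mod_cast hKpos
  -- the normalising constant
  set r : ℝ := √(Fintype.card (Cd h d M) : ℝ) with hr
  have hr2 : r ^ 2 = 2 * K * M := by
    rw [hr, Real.sq_sqrt (Nat.cast_nonneg _), card_Cd]
    push_cast
    ring
  have hrpos : 0 < r := by
    rw [hr]
    apply Real.sqrt_pos.2
    rw [card_Cd]
    positivity
  -- coordinates of y
  have hpa : ∀ π : Nd h d, pa h d π < len h d := fun π =>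
    (pa_lt_pb h d π).trans ((pb_lt_pc h d π).trans (pc_lt_len h d π))
  have hpb : ∀ π : Nd h d, pb h d π < len h d := fun π =>
    (pb_lt_pc h d π).trans (pc_lt_len h d π)
  have hpc : ∀ π : Nd h d, pc h d π < len h d := fun π => pc_lt_len h d π
  have hyt : ∀ π μ, y ((π, true), μ) = (∑ s ∈ S, D s (pc h d π) * sg (ω s ((π, true), μ))) / r := by
    intro π μ
    rw [hy, WithLp.ofLp_sum, Finset.sum_apply, Finset.sum_div]
    refine Finset.sum_congr rfl fun s _ => ?_
    rw [WithLp.ofLp_sum, Finset.sum_apply]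
    have : ∀ q, (D s q • (U h d M (q + 1) (sv (ω s)) - U h d M q (sv (ω s)))) ((π, true), μ) =
        if pc h d π = q then D s q * (sv (ω s)) ((π, true), μ) else 0 := by
      intro q
      rw [PiLp.smul_apply, U_succ_sub_true, smul_eq_mul]
      split_ifs <;> ring
    rw [Finset.sum_congr rfl fun q _ => this q, Finset.sum_ite_eq,
      if_pos (Finset.mem_range.2 (hpc π)), sv_apply]
    ring
  have hyf : ∀ π μ, y ((π, false), μ) = (∑ s ∈ S, (D s (pa h d π) * sg (ω s ((π, false), μ)) +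
      (D s (pb h d π) - D s (pc h d π)) * sg (ω s ((π, true), μ)))) / r := by
    intro π μ
    rw [hy, WithLp.ofLp_sum, Finset.sum_apply, Finset.sum_div]
    refine Finset.sum_congr rfl fun s _ => ?_
    rw [WithLp.ofLp_sum, Finset.sum_apply]
    have : ∀ q, (D s q • (U h d M (q + 1) (sv (ω s)) - U h d M q (sv (ω s)))) ((π, false), μ) =
        (if pa h d π = q then D s q * (sv (ω s)) ((π, false), μ) else 0) +
        ((if pb h d π = q then D s q * (sv (ω s)) ((π, true), μ) else 0) -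
          (if pc h d π = q then D s q * (sv (ω s)) ((π, true), μ) else 0)) := by
      intro q
      rw [PiLp.smul_apply, U_succ_sub_false, smul_eq_mul]
      split_ifs <;> ring
    rw [Finset.sum_congr rfl fun q _ => this q, Finset.sum_add_distrib, Finset.sum_sub_distrib,
      Finset.sum_ite_eq, Finset.sum_ite_eq, Finset.sum_ite_eq,
      if_pos (Finset.mem_range.2 (hpa π)), if_pos (Finset.mem_range.2 (hpb π)),
      if_pos (Finset.mem_range.2 (hpc π)), sv_apply, sv_apply]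
    ring
  -- the two quadratic forms for a fixed pair
  have hA : ∀ π : Nd h d, |r ^ 2 * ∑ μ, y ((π, true), μ) ^ 2 -
      M * ∑ s ∈ S, D s (pc h d π) ^ 2| ≤ (M : ℝ) / 10 * ∑ s ∈ S, D s (pc h d π) ^ 2 := by
    intro π
    have h1 := gram_close' (fun (s : Fin m) (μ : Fin M) => sg (ω s ((π, true), μ))) S δ
      (fun t _ => by simp [sg_mul_self])
      (fun t _ t' _ htt' => hNO t t' (π, true) (π, true)
        (fun hne => htt' (congrArg Prod.fst hne))) hδ (by nlinarith [Nat.cast_nonneg (α := ℝ) S.card])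
      (fun s => D s (pc h d π))
    have h2 : r ^ 2 * ∑ μ, y ((π, true), μ) ^ 2 =
        ∑ μ, (∑ s ∈ S, D s (pc h d π) * sg (ω s ((π, true), μ))) ^ 2 := by
      rw [Finset.mul_sum]
      refine Finset.sum_congr rfl fun μ _ => ?_
      rw [hyt, div_pow]
      field_simp
    rw [h2]
    exact h1
  have hB : ∀ π : Nd h d, |r ^ 2 * ∑ μ, y ((π, false), μ) ^ 2 -
      M * ∑ s ∈ S, (D s (pa h d π) ^ 2 + (D s (pb h d π) - D s (pc h d π)) ^ 2)| ≤
      (M : ℝ) / 10 *
        ∑ s ∈ S, (D s (pa h d π) ^ 2 + (D s (pb h d π) - D s (pc h d π)) ^ 2) := by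
    intro π
    have h1 := gram_close' (fun (t : Fin m × Bool) (μ : Fin M) => sg (ω t.1 ((π, t.2), μ)))
      (S ×ˢ (Finset.univ : Finset Bool)) δ
      (fun t _ => by simp [sg_mul_self])
      (fun t _ t' _ htt' => hNO t.1 t'.1 (π, t.2) (π, t'.2) (fun hne => htt' (by
        rw [Prod.mk.injEq, Prod.mk.injEq] at hne
        exact Prod.ext hne.1 hne.2.2))) hδ (by
          rw [Finset.card_product, Finset.card_univ, Fintype.card_bool]
          push_cast
          linarith)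
      (fun t => if t.2 then D t.1 (pb h d π) - D t.1 (pc h d π) else D t.1 (pa h d π))
    have h3 : ∀ g : Fin m × Bool → ℝ, ∑ t ∈ S ×ˢ (Finset.univ : Finset Bool), g t =
        ∑ s ∈ S, (g (s, false) + g (s, true)) := by
      intro g
      rw [Finset.sum_product]
      refine Finset.sum_congr rfl fun s _ => ?_
      rw [Fintype.sum_bool, add_comm]
    have h2 : r ^ 2 * ∑ μ, y ((π, false), μ) ^ 2 =
        ∑ μ, (∑ s ∈ S, (D s (pa h d π) * sg (ω s ((π, false), μ)) +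
      (D s (pb h d π) - D s (pc h d π)) * sg (ω s ((π, true), μ)))) ^ 2 := by
      rw [Finset.mul_sum]
      refine Finset.sum_congr rfl fun μ _ => ?_
      rw [hyf, div_pow]
      field_simp
    rw [h2]
    simp only [h3] at h1
    simpa using h1
  have hAB : ∀ π : Nd h d,
      (3 / 10) * M * (∑ s ∈ S, (D s (pa h d π) ^ 2 + D s (pb h d π) ^ 2 + D s (pc h d π) ^ 2)) ≤
        r ^ 2 * (∑ μ, (y ((π, false), μ) ^ 2 + y ((π, true), μ) ^ 2)) ∧
      r ^ 2 * (∑ μ, (y ((π, false), μ) ^ 2 + y ((π, true), μ) ^ 2)) ≤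
      3 * M * (∑ s ∈ S, (D s (pa h d π) ^ 2 + D s (pb h d π) ^ 2 + D s (pc h d π) ^ 2)) := by
    intro π
    have h1 := abs_le.1 (hA π)
    have h2 := abs_le.1 (hB π)
    have h3 : r ^ 2 * (∑ μ, (y ((π, false), μ) ^ 2 + y ((π, true), μ) ^ 2)) =
        r ^ 2 * ∑ μ, y ((π, false), μ) ^ 2 + r ^ 2 * ∑ μ, y ((π, true), μ) ^ 2 := by
      rw [Finset.sum_add_distrib]
      ring
    have h4 : (3 / 10) * M * (∑ s ∈ S, (D s (pa h d π) ^ 2 + D s (pb h d π) ^ 2 +
        D s (pc h d π) ^ 2)) ≤ (9 / 10) * M * (∑ s ∈ S, (D s (pa h d π) ^ 2 +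
        (D s (pb h d π) - D s (pc h d π)) ^ 2) + ∑ s ∈ S, D s (pc h d π) ^ 2) := by
      rw [← Finset.sum_add_distrib, Finset.mul_sum, Finset.mul_sum]
      refine Finset.sum_le_sum fun s _ => ?_
      have e : 0 ≤ (9 / 10) * (D s (pa h d π) ^ 2 + (D s (pb h d π) - D s (pc h d π)) ^ 2 +
          D s (pc h d π) ^ 2) - (3 / 10) * (D s (pa h d π) ^ 2 + D s (pb h d π) ^ 2 +
          D s (pc h d π) ^ 2) := by
        nlinarith [sq_nonneg (D s (pa h d π)), sq_nonneg (D s (pb h d π) - (3 / 2) * D s (pc h d π)),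
          sq_nonneg (D s (pc h d π))]
      nlinarith [mul_nonneg hMr.le e]
    have h5 : (11 / 10) * M * (∑ s ∈ S, (D s (pa h d π) ^ 2 +
        (D s (pb h d π) - D s (pc h d π)) ^ 2) + ∑ s ∈ S, D s (pc h d π) ^ 2) ≤
        3 * M * (∑ s ∈ S, (D s (pa h d π) ^ 2 + D s (pb h d π) ^ 2 + D s (pc h d π) ^ 2)) := by
      rw [← Finset.sum_add_distrib, Finset.mul_sum, Finset.mul_sum]
      refine Finset.sum_le_sum fun s _ => ?_
      have e : 0 ≤ 3 * (D s (pa h d π) ^ 2 + D s (pb h d π) ^ 2 + D s (pc h d π) ^ 2) -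
          (11 / 10) * (D s (pa h d π) ^ 2 + (D s (pb h d π) - D s (pc h d π)) ^ 2 +
          D s (pc h d π) ^ 2) := by
        nlinarith [sq_nonneg (D s (pa h d π)), sq_nonneg (D s (pb h d π) + (11 / 19) * D s (pc h d π)),
          sq_nonneg (D s (pc h d π))]
      nlinarith [mul_nonneg hMr.le e]
    rw [h3]
    constructor
    · nlinarith [h1.1, h2.1, h4]
    · nlinarith [h1.2, h2.2, h5]
  -- sum over the pairs
  have hsum : ∑ s ∈ S, ∑ q ∈ Finset.range (len h d), D s q ^ 2 =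
      ∑ π : Nd h d, ∑ s ∈ S, (D s (pa h d π) ^ 2 + D s (pb h d π) ^ 2 + D s (pc h d π) ^ 2) := by
    calc ∑ s ∈ S, ∑ q ∈ Finset.range (len h d), D s q ^ 2
        = ∑ s ∈ S, ∑ π : Nd h d,
          (D s (pa h d π) ^ 2 + D s (pb h d π) ^ 2 + D s (pc h d π) ^ 2) :=
          Finset.sum_congr rfl fun s _ => (sum_pos_Nd h d (fun q => D s q ^ 2)).symm
      _ = _ := Finset.sum_comm
  have hnorm : r ^ 2 * ‖y‖ ^ 2 =
      ∑ π : Nd h d, r ^ 2 * (∑ μ, (y ((π, false), μ) ^ 2 + y ((π, true), μ) ^ 2)) := by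
    rw [sq_norm_VV, Finset.mul_sum]
  have hlow : (3 / 10) * M * (∑ s ∈ S, ∑ q ∈ Finset.range (len h d), D s q ^ 2) ≤
      r ^ 2 * ‖y‖ ^ 2 := by
    rw [hsum, hnorm, Finset.mul_sum]
    exact Finset.sum_le_sum fun π _ => (hAB π).1
  have hupp : r ^ 2 * ‖y‖ ^ 2 ≤
      3 * M * (∑ s ∈ S, ∑ q ∈ Finset.range (len h d), D s q ^ 2) := by
    rw [hsum, hnorm, Finset.mul_sum]
    exact Finset.sum_le_sum fun π _ => (hAB π).2
  rw [hr2] at hlow hupp
  set Q := ∑ s ∈ S, ∑ q ∈ Finset.range (len h d), D s q ^ 2 with hQ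
  have h2K : (0 : ℝ) < 2 * K := by positivity
  constructor
  · have e : (3 / 10) * (1 / (2 * (K : ℝ))) * Q = (3 / 10) * Q / (2 * K) := by ring
    rw [e, div_le_iff₀ h2K]
    have : M * ((3 / 10) * Q) ≤ M * (‖y‖ ^ 2 * (2 * K)) := by nlinarith
    exact le_of_mul_le_mul_left this hMr
  · have e : 3 * (1 / (2 * (K : ℝ))) * Q = 3 * Q / (2 * K) := by ring
    rw [e, le_div_iff₀ h2K]
    have : M * (‖y‖ ^ 2 * (2 * K)) ≤ M * (3 * Q) := by nlinarith
    exact le_of_mul_le_mul_left this hMr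

end SPB
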