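import Pool.Agent.SPB.Stmts
import Pool.Agent.Lib_helper87.SPB.Hoeffding

/-!
# M3c: near orthogonality of the cells of most samples
-/

namespace SPB

open Finset SPB87
open scoped BigOperators InnerProductSpace

lemma cnt_eq' {Ω : Type} [Fintype Ω] (P : Ω → Prop) [DecidablePred P] :
    cnt P = ((univ.filter P).card : ℝ) := by
  unfold cnt
  congr!

/-- regrouping of a sample by slots -/
def slotEquiv (m M : ℕ) (c : Type) :
    (Fin m → (c × Fin M) → Bool) ≃ (Fin M → (Fin m × c) → Bool) where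
  toFun ω μ p := ω p.1 (p.2, μ)
  invFun η i p := η p.2 (i, p.1)
  left_inv _ := rfl
  right_inv _ := rfl

theorem no_holds : NOStmt := by
  classical
  intro h d M m δ hδ hM
  set c : Type := Nd h d × Bool with hc
  set T : ℝ := (Fintype.card (Fin m → Cd h d M → Bool) : ℝ) with hT
  have hM' : (0 : ℝ) < M := Nat.cast_pos.2 hM
  -- one pair
  have hone : ∀ q : (Fin m × c) × (Fin m × c),
      ((univ.filter fun ω : Fin m → Cd h d M → Bool => q.1 ≠ q.2 ∧
        δ * M < |∑ μ : Fin M, sg (ω q.1.1 (q.1.2, μ)) * sg (ω q.2.1 (q.2.2, μ))|).card : ℝ) ≤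
      2 * T * Real.exp (-(δ ^ 2 * M / 2)) := by
    intro q
    by_cases hq : q.1 = q.2
    · have : (univ.filter fun ω : Fin m → Cd h d M → Bool => q.1 ≠ q.2 ∧
        δ * M < |∑ μ : Fin M, sg (ω q.1.1 (q.1.2, μ)) * sg (ω q.2.1 (q.2.2, μ))|) = ∅ := by
        apply filter_eq_empty_iff.2
        intro ω _ h2
        exact h2.1 hq
      rw [this, card_empty, Nat.cast_zero]
      positivity
    · have hb := (balanced_two hq).card_abs_gt (ι := Fin M) (by simpa using hM)
        (t := δ * M) (by positivity)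
      have h1 : (univ.filter fun ω : Fin m → Cd h d M → Bool => q.1 ≠ q.2 ∧
          δ * M < |∑ μ : Fin M, sg (ω q.1.1 (q.1.2, μ)) * sg (ω q.2.1 (q.2.2, μ))|).card =
          (univ.filter fun η : Fin M → (Fin m × c) → Bool =>
            δ * M < |∑ μ, sg (η μ q.1) * sg (η μ q.2)|).card := by
        apply card_equiv (slotEquiv m M c)
        intro ω
        rw [mem_filter, mem_filter]
        constructor
        · rintro ⟨-, -, h2⟩
          exact ⟨mem_univ _, h2⟩
        · rintro ⟨-, h2⟩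
          exact ⟨mem_univ _, hq, h2⟩
      rw [h1]
      refine hb.trans (le_of_eq ?_)
      have h2 : (Fintype.card ((Fin m × c) → Bool) : ℝ) ^ Fintype.card (Fin M) = T := by
        rw [hT, ← Nat.cast_pow]
        congr 1
        rw [← Fintype.card_fun]
        exact (Fintype.card_congr (slotEquiv m M c)).symm
      rw [h2, Fintype.card_fin]
      congr 3
      field_simp
  have hall := card_exists_le (fun (q : (Fin m × c) × (Fin m × c))
    (ω : Fin m → Cd h d M → Bool) => q.1 ≠ q.2 ∧
        δ * M < |∑ μ : Fin M, sg (ω q.1.1 (q.1.2, μ)) * sg (ω q.2.1 (q.2.2, μ))|) hone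
  rw [cnt_eq']
  have hsub : (univ.filter fun ω : Fin m → Cd h d M → Bool => ¬ NO h d M δ ω) ⊆
      (univ.filter fun ω : Fin m → Cd h d M → Bool => ∃ q : (Fin m × c) × (Fin m × c),
        q.1 ≠ q.2 ∧
        δ * M < |∑ μ : Fin M, sg (ω q.1.1 (q.1.2, μ)) * sg (ω q.2.1 (q.2.2, μ))|) := by
    intro ω hω
    rw [mem_filter] at hω ⊢
    refine ⟨mem_univ _, ?_⟩
    by_contra hne
    push Not at hne
    apply hω.2
    intro i i' c1 c2 hne2
    exact hne ((i, c1), (i', c2)) hne2
  have hcard : ((univ.filter fun ω : Fin m → Cd h d M → Bool => ¬ NO h d M δ ω).card : ℝ) ≤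
      ((univ.filter fun ω : Fin m → Cd h d M → Bool => ∃ q : (Fin m × c) × (Fin m × c),
        q.1 ≠ q.2 ∧
        δ * M < |∑ μ : Fin M, sg (ω q.1.1 (q.1.2, μ)) * sg (ω q.2.1 (q.2.2, μ))|).card : ℝ) := by
    exact_mod_cast card_le_card hsub
  refine (hcard.trans hall).trans (le_of_eq ?_)
  have hc2 : (Fintype.card ((Fin m × c) × (Fin m × c)) : ℝ) =
      ((m : ℝ) * (2 * Fintype.card (Nd h d))) ^ 2 := by
    simp only [hc, Fintype.card_prod, Fintype.card_fin, Fintype.card_bool, Nat.cast_mul,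
      Nat.cast_ofNat]
    ring
  rw [hc2]
  ring

end SPB
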