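import Pool.Agent.SPB.Stmts
import Pool.Agent.SPB.HS

/-!
# The trace estimate (module M5)
-/

set_option linter.unusedSectionVars false

namespace SPB

open scoped BigOperators InnerProductSpace

namespace TC

/-! ### Truncation -/

/-- Truncation at level `T`. -/
noncomputable def cl (T t : ℝ) : ℝ := max (-T) (min T t)

theorem abs_cl_le {T : ℝ} (hT : 0 ≤ T) (t : ℝ) : |cl T t| ≤ T := by
  rw [abs_le]
  unfold cl
  exact ⟨le_max_left _ _, max_le (by linarith) (min_le_left _ _)⟩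

theorem cl_of_abs_le {T t : ℝ} (h : |t| ≤ T) : cl T t = t := by
  obtain ⟨h1, h2⟩ := abs_le.1 h
  unfold cl
  rw [min_eq_right h2, max_eq_right h1]

theorem cl_zero {T : ℝ} (hT : 0 ≤ T) : cl T 0 = 0 := cl_of_abs_le (by simpa using hT)

theorem cl_aux (T : ℝ) {t t' : ℝ} (h : t' ≤ t) :
    0 ≤ cl T t - cl T t' ∧ cl T t - cl T t' ≤ t - t' := by
  unfold cl
  simp only [max_def, min_def]
  split_ifs <;> constructor <;> linarith

theorem abs_cl_sub_le (T t t' : ℝ) : |cl T t - cl T t'| ≤ |t - t'| := by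
  rcases le_total t' t with h | h
  · obtain ⟨h1, h2⟩ := cl_aux T h
    rw [abs_of_nonneg h1]
    exact h2.trans (le_abs_self _)
  · obtain ⟨h1, h2⟩ := cl_aux T h
    rw [abs_sub_comm, abs_sub_comm t, abs_of_nonneg h1]
    exact h2.trans (le_abs_self _)

theorem abs_sub_cl_le (T t t' : ℝ) : |(t - t') - (cl T t - cl T t')| ≤ |t - t'| := by
  rcases le_total t' t with h | h
  · obtain ⟨h1, h2⟩ := cl_aux T h
    rw [abs_of_nonneg (by linarith), abs_of_nonneg (by linarith)]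
    linarith
  · obtain ⟨h1, h2⟩ := cl_aux T h
    rw [abs_of_nonpos (by linarith), abs_of_nonpos (by linarith)]
    linarith

/-! ### Moments -/

variable {V : Type} [NormedAddCommGroup V] [InnerProductSpace ℝ V] {m : ℕ}

/-- Almost isotropic families with bounded fourth moments. -/
structure Mom (G : Fin m → V) : Prop where
  iso : ∀ u : V, ‖(1 / (m : ℝ)) • (∑ i, ⟪G i, u⟫_ℝ • G i) - u‖ ≤ ‖u‖ / 10
  four : ∀ u : V, (1 / (m : ℝ)) * (∑ i, ⟪G i, u⟫_ℝ ^ 4) ≤ 4 * ‖u‖ ^ 4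

variable {G : Fin m → V}

theorem cs_avg (f g : Fin m → ℝ) :
    ((1 / (m : ℝ)) * ∑ i, f i * g i) ^ 2 ≤
      ((1 / (m : ℝ)) * ∑ i, f i ^ 2) * ((1 / (m : ℝ)) * ∑ i, g i ^ 2) := by
  have h := Finset.sum_mul_sq_le_sq_mul_sq (Finset.univ : Finset (Fin m)) f g
  have h1 : (0 : ℝ) ≤ (1 / (m : ℝ)) ^ 2 := by positivity
  calc ((1 / (m : ℝ)) * ∑ i, f i * g i) ^ 2 = (1 / (m : ℝ)) ^ 2 * (∑ i, f i * g i) ^ 2 := by ring
    _ ≤ (1 / (m : ℝ)) ^ 2 * ((∑ i, f i ^ 2) * ∑ i, g i ^ 2) := mul_le_mul_of_nonneg_left h h1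
    _ = _ := by ring

theorem Mom.four' (hG : Mom G) (u v : V) :
    (1 / (m : ℝ)) * ∑ i, ⟪G i, u⟫_ℝ ^ 2 * ⟪G i, v⟫_ℝ ^ 2 ≤ 4 * (‖u‖ ^ 2 * ‖v‖ ^ 2) := by
  apply le_of_abs_le
  apply abs_le_of_sq_le_sq _ (by positivity)
  refine (cs_avg _ _).trans ?_
  have h1 := hG.four u
  have h2 := hG.four v
  have e1 : ∀ x : V, ∑ i, (⟪G i, x⟫_ℝ ^ 2) ^ 2 = ∑ i, ⟪G i, x⟫_ℝ ^ 4 := fun x =>
    Finset.sum_congr rfl fun i _ => by ring
  rw [e1, e1]
  calc _ ≤ (4 * ‖u‖ ^ 4) * (4 * ‖v‖ ^ 4) := mul_le_mul h1 h2 (by positivity) (by positivity)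
    _ = _ := by ring

theorem Mom.four_fam (hG : Mom G) {K : Type} [Fintype K] (u : K → V) :
    (1 / (m : ℝ)) * ∑ i, (∑ k, ⟪G i, u k⟫_ℝ ^ 2) ^ 2 ≤ 4 * (∑ k, ‖u k‖ ^ 2) ^ 2 := by
  have e1 : (1 / (m : ℝ)) * ∑ i, (∑ k, ⟪G i, u k⟫_ℝ ^ 2) ^ 2 =
      ∑ k, ∑ k', (1 / (m : ℝ)) * ∑ i, ⟪G i, u k⟫_ℝ ^ 2 * ⟪G i, u k'⟫_ℝ ^ 2 := by
    simp only [← Finset.mul_sum]
    congr 1
    have : ∀ i, (∑ k, ⟪G i, u k⟫_ℝ ^ 2) ^ 2 =
        ∑ k, ∑ k', ⟪G i, u k⟫_ℝ ^ 2 * ⟪G i, u k'⟫_ℝ ^ 2 := fun i => by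
      rw [sq, Finset.sum_mul_sum]
    rw [Finset.sum_congr rfl fun i _ => this i, Finset.sum_comm]
    refine Finset.sum_congr rfl fun k _ => ?_
    rw [Finset.sum_comm]
  have e2 : 4 * (∑ k, ‖u k‖ ^ 2) ^ 2 = ∑ k, ∑ k', 4 * (‖u k‖ ^ 2 * ‖u k'‖ ^ 2) := by
    rw [sq, Finset.sum_mul_sum]
    simp only [Finset.mul_sum]
  rw [e1, e2]
  exact Finset.sum_le_sum fun k _ => Finset.sum_le_sum fun k' _ => hG.four' _ _

theorem Mom.two_ge (hG : Mom G) (u : V) :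
    9 / 10 * ‖u‖ ^ 2 ≤ (1 / (m : ℝ)) * ∑ i, ⟪G i, u⟫_ℝ ^ 2 := by
  have h1 : ⟪(1 / (m : ℝ)) • (∑ i, ⟪G i, u⟫_ℝ • G i), u⟫_ℝ =
      (1 / (m : ℝ)) * ∑ i, ⟪G i, u⟫_ℝ ^ 2 := by
    rw [real_inner_smul_left, sum_inner]
    congr 1
    refine Finset.sum_congr rfl fun i _ => ?_
    rw [real_inner_smul_left, sq]
  have h2 : |⟪(1 / (m : ℝ)) • (∑ i, ⟪G i, u⟫_ℝ • G i) - u, u⟫_ℝ| ≤ ‖u‖ / 10 * ‖u‖ :=
    (abs_real_inner_le_norm _ _).trans (mul_le_mul_of_nonneg_right (hG.iso u) (norm_nonneg _))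
  rw [inner_sub_left, h1, real_inner_self_eq_norm_sq] at h2
  have := (abs_le.1 h2).1
  nlinarith

/-- Coefficients carried by a small set of indices give a small vector. -/
theorem Mom.small (hG : Mom G) (B : Finset (Fin m)) {κ : ℝ}
    (hB : (1 / (m : ℝ)) * B.card ≤ κ) (b : Fin m → ℝ) (v : V) (hb0 : ∀ i, i ∉ B → b i = 0)
    (hb : ∀ i, |b i| ≤ |⟪G i, v⟫_ℝ|) :
    ‖(1 / (m : ℝ)) • ∑ i, b i • G i‖ ^ 2 ≤ 4 * κ * ‖v‖ ^ 2 := by
  classical
  set e : V := (1 / (m : ℝ)) • ∑ i, b i • G i with he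
  have h1 : ‖e‖ ^ 2 = (1 / (m : ℝ)) * ∑ i, (if i ∈ B then 1 else 0) * (b i * ⟪G i, e⟫_ℝ) := by
    have h0 : ⟪e, e⟫_ℝ = ⟪(1 / (m : ℝ)) • ∑ i, b i • G i, e⟫_ℝ := by rw [← he]
    rw [← real_inner_self_eq_norm_sq, h0, real_inner_smul_left, sum_inner]
    congr 1
    refine Finset.sum_congr rfl fun i _ => ?_
    rw [real_inner_smul_left]
    by_cases hi : i ∈ B
    · rw [if_pos hi, one_mul]
    · rw [if_neg hi, hb0 i hi]
      ring
  have h2 := cs_avg (m := m) (fun i => if i ∈ B then 1 else 0) (fun i => b i * ⟪G i, e⟫_ℝ)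
  rw [← h1] at h2
  have h3 : (1 / (m : ℝ)) * ∑ i, (if i ∈ B then (1 : ℝ) else 0) ^ 2 ≤ κ := by
    refine le_trans (le_of_eq ?_) hB
    congr 1
    simp
  have h4 : (1 / (m : ℝ)) * ∑ i, (b i * ⟪G i, e⟫_ℝ) ^ 2 ≤ 4 * (‖v‖ ^ 2 * ‖e‖ ^ 2) := by
    refine le_trans ?_ (hG.four' v e)
    refine mul_le_mul_of_nonneg_left (Finset.sum_le_sum fun i _ => ?_) (by positivity)
    rw [mul_pow]
    exact mul_le_mul_of_nonneg_right (sq_le_sq.2 (hb i)) (sq_nonneg _)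
  have hκ : 0 ≤ κ := le_trans (by positivity) hB
  have h5 : (‖e‖ ^ 2) ^ 2 ≤ κ * (4 * (‖v‖ ^ 2 * ‖e‖ ^ 2)) :=
    h2.trans (mul_le_mul h3 h4 (by positivity) hκ)
  rcases (norm_nonneg e).eq_or_lt with h0 | h0
  · rw [← h0]
    simp only [ne_eq, OfNat.ofNat_ne_zero, not_false_eq_true, zero_pow]
    positivity
  · have h6 : 0 < ‖e‖ ^ 2 := by positivity
    have h7 : ‖e‖ ^ 2 * ‖e‖ ^ 2 ≤ (4 * κ * ‖v‖ ^ 2) * ‖e‖ ^ 2 := by nlinarith
    exact le_of_mul_le_mul_right h7 h6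

/-! ### The truncated field -/

/-- The truncation map. -/
noncomputable def Th (G : Fin m → V) (T : ℝ) (B : Finset (Fin m)) (v : V) : V :=
  (1 / (m : ℝ)) • ∑ i, (if i ∈ B then 0 else cl T ⟪G i, v⟫_ℝ) • G i

/-- Chebyshev. -/
theorem Mom.cheb (hG : Mom G) {T : ℝ} (hT : 0 < T) {K : Type} [Fintype K] (u : K → V) {Γ : ℝ}
    (hΓ : 0 < Γ) (hu : ∑ k, ‖u k‖ ^ 2 ≤ Γ) (B : Finset (Fin m))
    (hB : ∀ i ∈ B, T ^ 2 * Γ ≤ ∑ k, ⟪G i, u k⟫_ℝ ^ 2) :
    (1 / (m : ℝ)) * B.card ≤ 4 / T ^ 4 := by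
  have h1 := hG.four_fam u
  have h2 : (∑ k, ‖u k‖ ^ 2) ^ 2 ≤ Γ ^ 2 :=
    pow_le_pow_left₀ (Finset.sum_nonneg fun _ _ => sq_nonneg _) hu 2
  have h3 : (B.card : ℝ) * (T ^ 2 * Γ) ^ 2 ≤ ∑ i, (∑ k, ⟪G i, u k⟫_ℝ ^ 2) ^ 2 := by
    calc (B.card : ℝ) * (T ^ 2 * Γ) ^ 2 = ∑ i ∈ B, (T ^ 2 * Γ) ^ 2 := by
          rw [Finset.sum_const, nsmul_eq_mul]
      _ ≤ ∑ i ∈ B, (∑ k, ⟪G i, u k⟫_ℝ ^ 2) ^ 2 :=
          Finset.sum_le_sum fun i hi => pow_le_pow_left₀ (by positivity) (hB i hi) 2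
      _ ≤ _ := Finset.sum_le_sum_of_subset_of_nonneg (Finset.subset_univ _)
          fun _ _ _ => sq_nonneg _
  have h4 : (1 / (m : ℝ)) * ((B.card : ℝ) * (T ^ 2 * Γ) ^ 2) ≤ 4 * Γ ^ 2 :=
    (mul_le_mul_of_nonneg_left h3 (by positivity)).trans (h1.trans (by linarith))
  rw [le_div_iff₀ (by positivity)]
  have h5 : 0 < Γ ^ 2 := by positivity
  have h6 : (1 / (m : ℝ) * B.card * T ^ 4) * Γ ^ 2 ≤ 4 * Γ ^ 2 := by
    calc _ = (1 / (m : ℝ)) * ((B.card : ℝ) * (T ^ 2 * Γ) ^ 2) := by ring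
      _ ≤ _ := h4
  exact le_of_mul_le_mul_right h6 h5

/-- `v - Θ v` is Lipschitz with constant `1 / 2` on the unit ball. -/
theorem Mom.lip (hG : Mom G) (B : Finset (Fin m)) (hB : (1 / (m : ℝ)) * B.card ≤ 4 / 20 ^ 4)
    (u v : V) (hu : ‖u‖ ≤ 1) (hv : ‖v‖ ≤ 1) :
    ‖(u - Th G 20 B u) - (v - Th G 20 B v)‖ ≤ 1 / 2 * ‖u - v‖ := by
  classical
  set B1 : Finset (Fin m) := Finset.univ.filter fun i => 20 < |⟪G i, u⟫_ℝ| with hB1
  set B2 : Finset (Fin m) := Finset.univ.filter fun i => 20 < |⟪G i, v⟫_ℝ| with hB2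
  have hc : ∀ x : V, ‖x‖ ≤ 1 → ∀ B' : Finset (Fin m), (∀ i ∈ B', 20 < |⟪G i, x⟫_ℝ|) →
      (1 / (m : ℝ)) * B'.card ≤ 4 / 20 ^ 4 := by
    intro x hx B' hB'
    refine hG.cheb (by norm_num) (K := Unit) (fun _ => x) (Γ := 1) one_pos ?_ B' ?_
    · simpa using hx
    · intro i hi
      have h1 := hB' i hi
      have h2 : (20 : ℝ) ^ 2 ≤ |⟪G i, x⟫_ℝ| ^ 2 := pow_le_pow_left₀ (by norm_num) h1.le 2
      rw [sq_abs] at h2
      simpa using h2
  have h1 := hc u hu B1 fun i hi => by simpa [hB1] using hi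
  have h2 := hc v hv B2 fun i hi => by simpa [hB2] using hi
  set b : Fin m → ℝ := fun i => ⟪G i, u - v⟫_ℝ -
    ((if i ∈ B then 0 else cl 20 ⟪G i, u⟫_ℝ) - (if i ∈ B then 0 else cl 20 ⟪G i, v⟫_ℝ)) with hb
  have key : (u - Th G 20 B u) - (v - Th G 20 B v) =
      (1 / (m : ℝ)) • ∑ i, b i • G i -
        ((1 / (m : ℝ)) • (∑ i, ⟪G i, u - v⟫_ℝ • G i) - (u - v)) := by
    simp only [Th, hb, sub_smul, Finset.sum_sub_distrib, smul_sub]
    abel
  have h3 : ‖(1 / (m : ℝ)) • ∑ i, b i • G i‖ ^ 2 ≤ 4 * (12 / 20 ^ 4) * ‖u - v‖ ^ 2 := by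
    refine hG.small (B ∪ B1 ∪ B2) ?_ b (u - v) ?_ ?_
    · have h4 : ((B ∪ B1 ∪ B2).card : ℝ) ≤ B.card + B1.card + B2.card := by
        have := (Finset.card_union_le (B ∪ B1) B2).trans
          (Nat.add_le_add_right (Finset.card_union_le B B1) _)
        exact_mod_cast this
      calc (1 / (m : ℝ)) * ((B ∪ B1 ∪ B2).card : ℝ)
          ≤ (1 / (m : ℝ)) * (B.card + B1.card + B2.card) :=
            mul_le_mul_of_nonneg_left h4 (by positivity)
        _ = (1 / (m : ℝ)) * B.card + (1 / (m : ℝ)) * B1.card + (1 / (m : ℝ)) * B2.card := by ring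
        _ ≤ 4 / 20 ^ 4 + 4 / 20 ^ 4 + 4 / 20 ^ 4 := by linarith
        _ = 12 / 20 ^ 4 := by norm_num
    · intro i hi
      simp only [Finset.mem_union, not_or] at hi
      obtain ⟨⟨hi1, hi2⟩, hi3⟩ := hi
      have hi2' : |⟪G i, u⟫_ℝ| ≤ 20 := by simpa [hB1] using hi2
      have hi3' : |⟪G i, v⟫_ℝ| ≤ 20 := by simpa [hB2] using hi3
      simp only [hb, if_neg hi1]
      rw [cl_of_abs_le hi2', cl_of_abs_le hi3', inner_sub_right]
      ring
    · intro i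
      by_cases hi : i ∈ B
      · simp only [hb, if_pos hi]
        simp
      · simp only [hb, if_neg hi]
        rw [inner_sub_right]
        exact abs_sub_cl_le _ _ _
  have h5 : ‖(1 / (m : ℝ)) • ∑ i, b i • G i‖ ≤ 4 / 10 * ‖u - v‖ := by
    refine le_of_abs_le (abs_le_of_sq_le_sq ?_ (by positivity))
    refine h3.trans ?_
    rw [mul_pow]
    exact mul_le_mul_of_nonneg_right (by norm_num) (sq_nonneg _)
  rw [key]
  calc _ ≤ _ := norm_sub_le _ _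
    _ ≤ 4 / 10 * ‖u - v‖ + ‖u - v‖ / 10 := add_le_add h5 (hG.iso _)
    _ = 1 / 2 * ‖u - v‖ := by ring

theorem Th_zero (T : ℝ) (hT : 0 ≤ T) (B : Finset (Fin m)) : Th G T B 0 = 0 := by
  simp [Th, cl_zero hT]

/-! ### Fields -/

variable {S : Type} [Fintype S] {R : ℕ}

/-- Increments. -/
def inc (R : ℕ) (φ : S → ℕ → V) : S → Fin R → V := fun s q => φ s (q + 1) - φ s q

/-- Fields with values in the unit ball, vanishing at `0`, of energy at most `Γ`. -/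
structure InF (R : ℕ) (Γ : ℝ) (φ : S → ℕ → V) : Prop where
  zero : ∀ s, φ s 0 = 0
  bd : ∀ s, ∀ q ≤ R, ‖φ s q‖ ≤ 1
  en : ∑ s, ∑ q : Fin R, ‖inc R φ s q‖ ^ 2 ≤ Γ

/-- The main step. -/
theorem Mom.step (hG : Mom G) {Γ : ℝ} (hΓ : 0 < Γ) (L : (S → Fin R → V) →ₗ[ℝ] ℝ)
    (K : Fin m → ℝ) (hK : ∀ i, 0 ≤ K i)
    (hL : ∀ i, ∀ τ : S → ℕ → ℝ, (∀ s, τ s 0 = 0) → (∀ s, ∀ q ≤ R, |τ s q| ≤ 20) →
      ∑ s, ∑ q : Fin R, (τ s (q + 1) - τ s q) ^ 2 ≤ 20 ^ 2 * Γ →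
      L (fun s q => (τ s (q + 1) - τ s q) • G i) ≤ K i)
    (φ : S → ℕ → V) (hφ : InF R Γ φ) :
    ∃ φ' : S → ℕ → V, InF R Γ φ' ∧
      L (inc R φ) ≤ (1 / (m : ℝ)) * ∑ i, K i + 1 / 2 * L (inc R φ') := by
  classical
  set B : Finset (Fin m) := Finset.univ.filter fun i =>
    20 ^ 2 * Γ < ∑ p : S × Fin R, ⟪G i, inc R φ p.1 p.2⟫_ℝ ^ 2 with hBdef
  have hB : (1 / (m : ℝ)) * B.card ≤ 4 / 20 ^ 4 := by
    refine hG.cheb (by norm_num) (fun p : S × Fin R => inc R φ p.1 p.2) hΓ ?_ B ?_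
    · rw [Fintype.sum_prod_type]
      exact hφ.en
    · intro i hi
      have : 20 ^ 2 * Γ < ∑ p : S × Fin R, ⟪G i, inc R φ p.1 p.2⟫_ℝ ^ 2 := by
        simpa [hBdef] using hi
      exact this.le
  refine ⟨fun s q => (2 : ℝ) • (φ s q - Th G 20 B (φ s q)), ⟨?_, ?_, ?_⟩, ?_⟩
  · intro s
    simp only [hφ.zero s, Th_zero (G := G) 20 (by norm_num) B]
    simp
  · intro s q hq
    have h1 := hG.lip B hB (φ s q) 0 (hφ.bd s q hq) (by simp)
    rw [Th_zero (G := G) 20 (by norm_num) B, sub_zero, sub_zero, sub_zero] at h1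
    rw [norm_smul]
    have h2 := hφ.bd s q hq
    norm_num
    linarith
  · refine le_trans (Finset.sum_le_sum fun s _ => Finset.sum_le_sum fun q _ => ?_) hφ.en
    have h1 := hG.lip B hB (φ s (q + 1)) (φ s q) (hφ.bd s _ (by omega)) (hφ.bd s _ (by omega))
    have h2 : ‖inc R (fun s q => (2 : ℝ) • (φ s q - Th G 20 B (φ s q))) s q‖ ≤
        ‖inc R φ s q‖ := by
      simp only [inc]
      rw [← smul_sub, norm_smul]
      norm_num
      linarith
    exact pow_le_pow_left₀ (norm_nonneg _) h2 2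
  · have e1 : inc R φ = inc R (fun s q => Th G 20 B (φ s q)) +
        (1 / 2 : ℝ) • inc R (fun s q => (2 : ℝ) • (φ s q - Th G 20 B (φ s q))) := by
      funext s q
      simp only [inc, Pi.add_apply, Pi.smul_apply, ← smul_sub, smul_smul]
      norm_num
      abel
    have e2 : inc R (fun s q => Th G 20 B (φ s q)) = (1 / (m : ℝ)) • ∑ i, (fun s (q : Fin R) =>
        ((if i ∈ B then 0 else cl 20 ⟪G i, φ s (q + 1)⟫_ℝ) -
          (if i ∈ B then 0 else cl 20 ⟪G i, φ s q⟫_ℝ)) • G i) := by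
      funext s q
      simp only [inc, Th, Pi.smul_apply, Finset.sum_apply, sub_smul, Finset.sum_sub_distrib,
        smul_sub]
    rw [e1, map_add, map_smul, e2, map_smul, map_sum]
    simp only [smul_eq_mul]
    refine add_le_add (mul_le_mul_of_nonneg_left (Finset.sum_le_sum fun i _ => ?_)
      (by positivity)) le_rfl
    by_cases hi : i ∈ B
    · simp only [if_pos hi, sub_self, zero_smul]
      have : (fun (s : S) (q : Fin R) => (0 : V)) = 0 := rfl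
      rw [this, map_zero]
      exact hK i
    · simp only [if_neg hi]
      refine hL i (fun s q => cl 20 ⟪G i, φ s q⟫_ℝ) ?_ ?_ ?_
      · intro s
        rw [hφ.zero s, inner_zero_right, cl_zero (by norm_num)]
      · intro s q _
        exact abs_cl_le (by norm_num) _
      · have h1 : ¬ 20 ^ 2 * Γ < ∑ p : S × Fin R, ⟪G i, inc R φ p.1 p.2⟫_ℝ ^ 2 := by
          simpa [hBdef] using hi
        rw [Fintype.sum_prod_type] at h1
        refine le_trans (Finset.sum_le_sum fun s _ => Finset.sum_le_sum fun q _ => ?_) (not_lt.1 h1)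
        rw [inc, inner_sub_right]
        exact sq_le_sq.2 (abs_cl_sub_le _ _ _)

/-- The supremum argument. -/
theorem Mom.sup (hG : Mom G) {Γ : ℝ} (hΓ : 0 < Γ) (L : (S → Fin R → V) →ₗ[ℝ] ℝ)
    (K : Fin m → ℝ) (hK : ∀ i, 0 ≤ K i)
    (hL : ∀ i, ∀ τ : S → ℕ → ℝ, (∀ s, τ s 0 = 0) → (∀ s, ∀ q ≤ R, |τ s q| ≤ 20) →
      ∑ s, ∑ q : Fin R, (τ s (q + 1) - τ s q) ^ 2 ≤ 20 ^ 2 * Γ →
      L (fun s q => (τ s (q + 1) - τ s q) • G i) ≤ K i)
    (hbd : ∃ b : ℝ, ∀ φ : S → ℕ → V, InF R Γ φ → L (inc R φ) ≤ b)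
    (φ : S → ℕ → V) (hφ : InF R Γ φ) : L (inc R φ) ≤ 2 * ((1 / (m : ℝ)) * ∑ i, K i) := by
  set A : Set ℝ := {r | ∃ φ : S → ℕ → V, InF R Γ φ ∧ r = L (inc R φ)} with hA
  have h1 : BddAbove A := by
    obtain ⟨b, hb⟩ := hbd
    refine ⟨b, ?_⟩
    rintro r ⟨ψ, hψ, rfl⟩
    exact hb ψ hψ
  have h2 : A.Nonempty := ⟨_, φ, hφ, rfl⟩
  have h3 : sSup A ≤ (1 / (m : ℝ)) * ∑ i, K i + 1 / 2 * sSup A := by
    refine csSup_le h2 ?_
    rintro r ⟨ψ, hψ, rfl⟩
    obtain ⟨ψ', hψ', h⟩ := hG.step hΓ L K hK hL ψ hψ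
    have := le_csSup h1 ⟨ψ', hψ', rfl⟩
    linarith
  have h4 := le_csSup h1 ⟨φ, hφ, rfl⟩
  linarith

/-! ### Coefficients -/

/-- Coefficient functionals of a family satisfying a lower Riesz estimate. -/
theorem exists_cf {κ : Type} [Fintype κ] (Δ : S → Fin R → EuclideanSpace ℝ κ) {c : ℝ}
    (hc : 0 < c) (h : ∀ D : S → Fin R → ℝ, c * (∑ s, ∑ q, D s q ^ 2) ≤
      ‖∑ s, ∑ q, D s q • Δ s q‖ ^ 2) :
    ∃ cf : EuclideanSpace ℝ κ →ₗ[ℝ] (S → Fin R → ℝ),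
      (∀ D : S → Fin R → ℝ, cf (∑ s, ∑ q, D s q • Δ s q) = D) ∧
      (∀ v, ‖v - ∑ s, ∑ q, cf v s q • Δ s q‖ ≤ ‖v‖) ∧
      (∀ v, c * (∑ s, ∑ q, cf v s q ^ 2) ≤ ‖v‖ ^ 2) := by
  classical
  let sy : (S → Fin R → ℝ) →ₗ[ℝ] EuclideanSpace ℝ κ :=
    { toFun := fun D => ∑ s, ∑ q, D s q • Δ s q
      map_add' := fun D D' => by
        simp only [Pi.add_apply, add_smul, Finset.sum_add_distrib]
      map_smul' := fun a D => by
        simp only [Pi.smul_apply, smul_eq_mul, RingHom.id_apply, Finset.smul_sum, smul_smul] }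
  have hsy : ∀ D, sy D = ∑ s, ∑ q, D s q • Δ s q := fun _ => rfl
  have hinj : Function.Injective sy := by
    rw [injective_iff_map_eq_zero]
    intro D hD
    have h1 := h D
    rw [← hsy, hD, norm_zero] at h1
    have h2 : ∑ s, ∑ q, D s q ^ 2 ≤ 0 := by
      by_contra h3
      have := mul_pos hc (not_le.1 h3)
      norm_num at h1
      linarith
    have h3 : ∑ s, ∑ q, D s q ^ 2 = 0 :=
      le_antisymm h2 (Finset.sum_nonneg fun _ _ => Finset.sum_nonneg fun _ _ => sq_nonneg _)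
    funext s q
    have h4 := (Finset.sum_eq_zero_iff_of_nonneg fun s _ =>
      Finset.sum_nonneg fun q _ => sq_nonneg (D s q)).1 h3 s (Finset.mem_univ _)
    have h5 := (Finset.sum_eq_zero_iff_of_nonneg fun q _ => sq_nonneg (D s q)).1 h4 q
      (Finset.mem_univ _)
    simpa using h5
  let e := LinearEquiv.ofInjective sy hinj
  let P := (LinearMap.range sy).orthogonalProjectionOnto
  have he : ∀ v, sy (e.symm (P v)) = (LinearMap.range sy).starProjection v := by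
    intro v
    have h1 : ((e (e.symm (P v)) : LinearMap.range sy) : EuclideanSpace ℝ κ) = P v := by
      rw [e.apply_symm_apply]
    rw [LinearEquiv.ofInjective_apply] at h1
    exact h1
  refine ⟨e.symm.toLinearMap ∘ₗ (P : EuclideanSpace ℝ κ →ₗ[ℝ] LinearMap.range sy), ?_, ?_, ?_⟩
  · intro D
    rw [← hsy]
    apply hinj
    change sy (e.symm (P (sy D))) = sy D
    rw [he, Submodule.starProjection_eq_self_iff]
    exact LinearMap.mem_range_self _ _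
  · intro v
    change ‖v - sy (e.symm (P v))‖ ≤ ‖v‖
    rw [he]
    have h1 := Submodule.norm_sq_eq_add_norm_sq_starProjection v (LinearMap.range sy)
    have h2 : v - (LinearMap.range sy).starProjection v = (LinearMap.range sy)ᗮ.starProjection v := by
      rw [sub_eq_iff_eq_add']
      exact (Submodule.starProjection_add_starProjection_orthogonal (K := LinearMap.range sy) v).symm
    rw [h2]
    refine le_of_abs_le (abs_le_of_sq_le_sq ?_ (norm_nonneg _))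
    nlinarith [sq_nonneg ‖(LinearMap.range sy).starProjection v‖]
  · intro v
    refine (h _).trans ?_
    change ‖sy (e.symm (P v))‖ ^ 2 ≤ _
    rw [he]
    exact pow_le_pow_left₀ (norm_nonneg _) (Submodule.norm_starProjection_apply_le _ _) 2

/-! ### Remainder -/

/-- Hilbert-Schmidt norms and first moments. -/
theorem Mom.hs {ι κ : Type} [Fintype ι] [DecidableEq ι] [Fintype κ] [DecidableEq κ]
    {G : Fin m → EuclideanSpace ℝ ι} (hG : Mom G)
    (A : EuclideanSpace ℝ ι →ₗ[ℝ] EuclideanSpace ℝ κ) {b : ℝ}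
    (hb : (1 / (m : ℝ)) * ∑ i, ‖A (G i)‖ ≤ b) : √(hs2 A) ≤ 6.2 * b := by
  have hb0 : 0 ≤ b := le_trans (mul_nonneg (by positivity)
    (Finset.sum_nonneg fun _ _ => norm_nonneg _)) hb
  have e1 : ∀ i, ‖A (G i)‖ ^ 2 = ∑ k, ⟪G i, tp A (bv k)⟫_ℝ ^ 2 := by
    intro i
    rw [sq_norm_eq]
    refine Finset.sum_congr rfl fun k _ => ?_
    rw [real_inner_comm, inner_tp, inner_bv]
  have e2 : ∑ k, ‖tp A (bv k)‖ ^ 2 = hs2 A := by rw [← hs2_tp A]; rfl
  have h1 : 9 / 10 * hs2 A ≤ (1 / (m : ℝ)) * ∑ i, ‖A (G i)‖ ^ 2 := by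
    calc 9 / 10 * hs2 A = ∑ k, 9 / 10 * ‖tp A (bv k)‖ ^ 2 := by rw [← Finset.mul_sum, e2]
      _ ≤ ∑ k, (1 / (m : ℝ)) * ∑ i, ⟪G i, tp A (bv k)⟫_ℝ ^ 2 :=
          Finset.sum_le_sum fun k _ => hG.two_ge _
      _ = _ := by
          rw [← Finset.mul_sum, Finset.sum_comm]
          simp only [e1]
  have h2 : (1 / (m : ℝ)) * ∑ i, (‖A (G i)‖ ^ 2) ^ 2 ≤ 4 * hs2 A ^ 2 := by
    have := hG.four_fam fun k => tp A (bv k)
    rw [e2] at this
    simpa only [e1] using this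
  set H := hs2 A with hH
  have hH0 : 0 ≤ H := hs2_nonneg A
  rcases hH0.eq_or_lt with h0 | h0
  · rw [← h0, Real.sqrt_zero]
    positivity
  · set r := √H with hr
    have hr0 : 0 < r := Real.sqrt_pos.2 h0
    have hrr : r ^ 2 = H := Real.sq_sqrt hH0
    have h3 : ∀ i, ‖A (G i)‖ ^ 2 ≤ 4 * r * ‖A (G i)‖ + (‖A (G i)‖ ^ 2) ^ 2 / (16 * H) := by
      intro i
      set X := ‖A (G i)‖ with hX
      have hX0 : 0 ≤ X := norm_nonneg _
      rcases le_total X (4 * r) with h | h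
      · have : 0 ≤ (X ^ 2) ^ 2 / (16 * H) := by positivity
        nlinarith
      · have h4 : 16 * H ≤ X ^ 2 := by nlinarith
        have h5 : X ^ 2 ≤ (X ^ 2) ^ 2 / (16 * H) := by
          rw [le_div_iff₀ (by positivity), sq (X ^ 2)]
          exact mul_le_mul_of_nonneg_left h4 (sq_nonneg _)
        have : 0 ≤ 4 * r * X := by positivity
        linarith
    have h4 : (1 / (m : ℝ)) * ∑ i, ‖A (G i)‖ ^ 2 ≤
        4 * r * ((1 / (m : ℝ)) * ∑ i, ‖A (G i)‖) +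
          ((1 / (m : ℝ)) * ∑ i, (‖A (G i)‖ ^ 2) ^ 2) / (16 * H) := by
      calc _ ≤ (1 / (m : ℝ)) * ∑ i, (4 * r * ‖A (G i)‖ + (‖A (G i)‖ ^ 2) ^ 2 / (16 * H)) :=
            mul_le_mul_of_nonneg_left (Finset.sum_le_sum fun i _ => h3 i) (by positivity)
        _ = _ := by
            rw [Finset.sum_add_distrib, ← Finset.mul_sum, ← Finset.sum_div]
            ring
    have h5 : ((1 / (m : ℝ)) * ∑ i, (‖A (G i)‖ ^ 2) ^ 2) / (16 * H) ≤ H / 4 := by
      rw [div_le_iff₀ (by positivity)]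
      nlinarith
    have h6 : 4 * r * ((1 / (m : ℝ)) * ∑ i, ‖A (G i)‖) ≤ 4 * r * b :=
      mul_le_mul_of_nonneg_left hb (by positivity)
    have h7 : 65 / 100 * r * r ≤ 4 * b * r := by nlinarith
    have h8 : 65 / 100 * r ≤ 4 * b := le_of_mul_le_mul_right h7 hr0
    linarith

/-! ### Telescoping -/

theorem tele {A : Type} [AddCommGroup A] (f : ℕ → A) (h0 : f 0 = 0) (p : Fin R) :
    f (p + 1) = ∑ q : Fin R, if (q : ℕ) ≤ p then f (q + 1) - f q else 0 := by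
  rw [Fin.sum_univ_eq_sum_range (fun q => if q ≤ (p : ℕ) then f (q + 1) - f q else 0) R,
    ← Finset.sum_filter]
  have : (Finset.range R).filter (fun q => q ≤ (p : ℕ)) = Finset.range (p + 1) := by
    ext q
    simp only [Finset.mem_filter, Finset.mem_range]
    have := p.2
    omega
  rw [this, Finset.sum_range_sub, h0, sub_zero]

/-- Rescaling. -/
theorem mom_of {ι : Type} [Fintype ι] [DecidableEq ι] {w : Fin m → EuclideanSpace ℝ ι}
    (h1 : I1 w) (h2 : I2 w) : Mom fun i => √(Fintype.card ι : ℝ) • w i := by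
  have hN : √(Fintype.card ι : ℝ) ^ 2 = Fintype.card ι := Real.sq_sqrt (by positivity)
  refine ⟨fun u => ?_, fun u => ?_⟩
  · have e : (1 / (m : ℝ)) • (∑ i, ⟪√(Fintype.card ι : ℝ) • w i, u⟫_ℝ •
        (√(Fintype.card ι : ℝ) • w i)) =
        ((Fintype.card ι : ℝ) / m) • (∑ i, ⟪w i, u⟫_ℝ • w i) := by
      have : ∀ i, ⟪√(Fintype.card ι : ℝ) • w i, u⟫_ℝ • (√(Fintype.card ι : ℝ) • w i) =
          (Fintype.card ι : ℝ) • (⟪w i, u⟫_ℝ • w i) := by
        intro i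
        rw [real_inner_smul_left, smul_smul, smul_smul]
        congr 1
        calc √(Fintype.card ι : ℝ) * ⟪w i, u⟫_ℝ * √(Fintype.card ι : ℝ)
            = √(Fintype.card ι : ℝ) ^ 2 * ⟪w i, u⟫_ℝ := by ring
          _ = (Fintype.card ι : ℝ) * ⟪w i, u⟫_ℝ := by rw [hN]
      rw [Finset.sum_congr rfl fun i _ => this i, ← Finset.smul_sum, smul_smul]
      congr 1
      ring
    rw [e]
    exact h1 u
  · have e : (1 / (m : ℝ)) * (∑ i, ⟪√(Fintype.card ι : ℝ) • w i, u⟫_ℝ ^ 4) =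
        ((Fintype.card ι : ℝ) ^ 2 / m) * (∑ i, ⟪w i, u⟫_ℝ ^ 4) := by
      have : ∀ i, ⟪√(Fintype.card ι : ℝ) • w i, u⟫_ℝ ^ 4 =
          (Fintype.card ι : ℝ) ^ 2 * ⟪w i, u⟫_ℝ ^ 4 := by
        intro i
        rw [real_inner_smul_left, mul_pow]
        congr 1
        conv_rhs => rw [← hN]
        ring
      rw [Finset.sum_congr rfl fun i _ => this i, ← Finset.mul_sum]
      ring
    rw [e]
    exact h2 u

/-- The pairing of a linear family of coefficients with a field. -/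
noncomputable def pr {ι : Type} [Fintype ι] [DecidableEq ι]
    (ψ : EuclideanSpace ℝ ι →ₗ[ℝ] (S → Fin R → ℝ)) :
    (S → Fin R → EuclideanSpace ℝ ι) →ₗ[ℝ] ℝ where
  toFun δ := ∑ l, ∑ s, ∑ q, ψ (bv l) s q * (δ s q) l
  map_add' δ δ' := by
    simp only [Pi.add_apply, PiLp.add_apply, mul_add, Finset.sum_add_distrib]
  map_smul' c δ := by
    simp only [Pi.smul_apply, PiLp.smul_apply, smul_eq_mul, RingHom.id_apply, Finset.mul_sum]
    refine Finset.sum_congr rfl fun _ _ => Finset.sum_congr rfl fun _ _ =>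
      Finset.sum_congr rfl fun _ _ => ?_
    ring

theorem pr_smul {ι : Type} [Fintype ι] [DecidableEq ι]
    (ψ : EuclideanSpace ℝ ι →ₗ[ℝ] (S → Fin R → ℝ)) (t : S → Fin R → ℝ)
    (v : EuclideanSpace ℝ ι) :
    pr ψ (fun s q => t s q • v) = ∑ s, ∑ q, t s q * ψ v s q := by
  have h1 : ψ v = ∑ l, v l • ψ (bv l) := by
    conv_lhs => rw [← sum_bv v]
    rw [map_sum]
    simp only [map_smul]
  change ∑ l, ∑ s, ∑ q, ψ (bv l) s q * (t s q • v) l = _
  rw [Finset.sum_comm]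
  refine Finset.sum_congr rfl fun s _ => ?_
  rw [Finset.sum_comm]
  refine Finset.sum_congr rfl fun q _ => ?_
  rw [h1, Finset.sum_apply, Finset.sum_apply, Finset.mul_sum]
  refine Finset.sum_congr rfl fun l _ => ?_
  simp only [PiLp.smul_apply, Pi.smul_apply, smul_eq_mul]
  ring

/-- The key estimate `hL` of the supremum argument. -/
theorem key {κ : Type} [Fintype κ] [DecidableEq κ] (x : S → ℕ → EuclideanSpace ℝ κ)
    (hx0 : ∀ s, x s 0 = 0) {γ ρ' a : ℝ} (hγ : 0 < γ) (hρ' : 0 < ρ')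
    (cf : EuclideanSpace ℝ κ →ₗ[ℝ] (S → Fin R → ℝ))
    (hcf1 : ∀ D : S → Fin R → ℝ,
      cf (∑ s, ∑ q : Fin R, D s q • (x s (q + 1) - x s q)) = D)
    (hcf3 : ∀ v, (3 / 10) * γ * (∑ s, ∑ q, cf v s q ^ 2) ≤ ‖v‖ ^ 2)
    (y : EuclideanSpace ℝ κ) (c : S → Fin R → ℝ) (hc : (∑ s, ∑ p, |c s p|) ≤ a)
    (hy : ‖y - ∑ s, ∑ p : Fin R, c s p • x s (p + 1)‖ ≤ ρ' * a)
    (τ : S → ℕ → ℝ) (hτ0 : ∀ s, τ s 0 = 0) (hτ : ∀ s, ∀ q ≤ R, |τ s q| ≤ 20)
    (hen : ∑ s, ∑ q : Fin R, (τ s (q + 1) - τ s q) ^ 2 ≤ 20 ^ 2 * (3 * γ / ρ' ^ 2)) :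
    ∑ s, ∑ q : Fin R, (τ s (q + 1) - τ s q) * cf y s q ≤ 84 * a := by
  have ha : 0 ≤ a := le_trans (Finset.sum_nonneg fun _ _ =>
    Finset.sum_nonneg fun _ _ => abs_nonneg _) hc
  set D : S → Fin R → ℝ := fun s q => ∑ p : Fin R, if (q : ℕ) ≤ p then c s p else 0 with hD
  have e1 : ∑ s, ∑ p : Fin R, c s p • x s (p + 1) =
      ∑ s, ∑ q : Fin R, D s q • (x s (q + 1) - x s q) := by
    refine Finset.sum_congr rfl fun s _ => ?_
    simp only [hD, Finset.sum_smul]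
    rw [Finset.sum_comm]
    refine Finset.sum_congr rfl fun p _ => ?_
    rw [tele (x s) (hx0 s) p, Finset.smul_sum]
    refine Finset.sum_congr rfl fun q _ => ?_
    by_cases h : (q : ℕ) ≤ p
    · rw [if_pos h, if_pos h]
    · rw [if_neg h, if_neg h, smul_zero, zero_smul]
  set h : EuclideanSpace ℝ κ := y - ∑ s, ∑ p : Fin R, c s p • x s (p + 1) with hh
  have e2 : cf y = D + cf h := by
    rw [hh, map_sub, e1, hcf1]
    abel
  have e3 : ∑ s, ∑ q : Fin R, (τ s (q + 1) - τ s q) * D s q =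
      ∑ s, ∑ p : Fin R, c s p * τ s (p + 1) := by
    refine Finset.sum_congr rfl fun s _ => ?_
    simp only [hD, Finset.mul_sum]
    rw [Finset.sum_comm]
    refine Finset.sum_congr rfl fun p _ => ?_
    rw [tele (τ s) (hτ0 s) p, Finset.mul_sum]
    refine Finset.sum_congr rfl fun q _ => ?_
    by_cases h : (q : ℕ) ≤ p
    · rw [if_pos h, if_pos h, mul_comm]
    · rw [if_neg h, if_neg h, mul_zero, mul_zero]
  have h1 : ∑ s, ∑ q : Fin R, (τ s (q + 1) - τ s q) * D s q ≤ 20 * a := by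
    rw [e3]
    calc ∑ s, ∑ p : Fin R, c s p * τ s (p + 1) ≤ ∑ s, ∑ p : Fin R, 20 * |c s p| := by
          refine Finset.sum_le_sum fun s _ => Finset.sum_le_sum fun p _ => ?_
          calc c s p * τ s (p + 1) ≤ |c s p| * |τ s (p + 1)| := by
                rw [← abs_mul]
                exact le_abs_self _
            _ ≤ |c s p| * 20 :=
                mul_le_mul_of_nonneg_left (hτ s _ (by omega)) (abs_nonneg _)
            _ = 20 * |c s p| := mul_comm _ _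
      _ = 20 * ∑ s, ∑ p : Fin R, |c s p| := by
          simp only [Finset.mul_sum]
      _ ≤ 20 * a := mul_le_mul_of_nonneg_left hc (by norm_num)
  have h2 : ∑ s, ∑ q : Fin R, (τ s (q + 1) - τ s q) * cf h s q ≤ 64 * a := by
    refine le_of_abs_le (abs_le_of_sq_le_sq ?_ (by positivity))
    have e4 : ∀ f : S → Fin R → ℝ, ∑ s, ∑ q, f s q = ∑ p : S × Fin R, f p.1 p.2 := fun f => by
      rw [Fintype.sum_prod_type]
    have h3 : (∑ s, ∑ q : Fin R, (τ s (q + 1) - τ s q) * cf h s q) ^ 2 ≤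
        (∑ s, ∑ q : Fin R, (τ s (q + 1) - τ s q) ^ 2) * ∑ s, ∑ q, cf h s q ^ 2 := by
      rw [e4, e4, e4]
      exact Finset.sum_mul_sq_le_sq_mul_sq _ _ _
    have h4 : ∑ s, ∑ q, cf h s q ^ 2 ≤ (ρ' * a) ^ 2 / ((3 / 10) * γ) := by
      rw [le_div_iff₀ (by positivity)]
      have := hcf3 h
      have h5 : ‖h‖ ^ 2 ≤ (ρ' * a) ^ 2 := pow_le_pow_left₀ (norm_nonneg _) hy 2
      linarith
    refine h3.trans ((mul_le_mul hen h4 (Finset.sum_nonneg fun _ _ =>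
      Finset.sum_nonneg fun _ _ => sq_nonneg _) (by positivity)).trans ?_)
    have e5 : 20 ^ 2 * (3 * γ / ρ' ^ 2) * ((ρ' * a) ^ 2 / (3 / 10 * γ)) = 4000 * a ^ 2 := by
      field_simp
      ring
    rw [e5]
    nlinarith [sq_nonneg a]
  have e6 : ∑ s, ∑ q : Fin R, (τ s (q + 1) - τ s q) * cf y s q =
      ∑ s, ∑ q : Fin R, (τ s (q + 1) - τ s q) * D s q +
        ∑ s, ∑ q : Fin R, (τ s (q + 1) - τ s q) * cf h s q := by
    rw [e2]
    simp only [Pi.add_apply, mul_add, Finset.sum_add_distrib]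
  rw [e6]
  linarith

end TC

open TC in
/-- **M5.** The trace estimate. -/
theorem transferCore_holds : TransferCoreStmt := by
  intro ι κ S _ _ _ _ _ m w R x γ ρ ρ' C α β a hm hγ hρ hρ' hC h1 h2 hx0 hlow hup hdec hβx hβhs
    h2ρ
  set N : ℝ := (Fintype.card ι : ℝ) with hN
  have hNr : 0 < √N := by
    by_contra h
    have h0 : √N = 0 := le_antisymm (not_lt.1 h) (Real.sqrt_nonneg _)
    rw [h0] at h2ρ
    norm_num at h2ρ
  have hN0 : 0 < N := Real.sqrt_pos.1 hNr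
  have hNN : √N * √N = N := Real.mul_self_sqrt hN0.le
  have hG := mom_of h1 h2
  rw [← hN] at hG
  choose c hc hch using hdec
  have ha : ∀ i, 0 ≤ a i := fun i => le_trans (Finset.sum_nonneg fun _ _ =>
    Finset.sum_nonneg fun _ _ => abs_nonneg _) (hc i)
  set Δ : S → Fin R → EuclideanSpace ℝ κ := fun s q => x s (q + 1) - x s q with hΔ
  obtain ⟨cf, hcf1, hcf2, hcf3⟩ := exists_cf Δ (c := 3 / 10 * γ) (by positivity) hlow
  set av : ℝ := (1 / (m : ℝ)) * ∑ i, a i with hav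
  have hav0 : 0 ≤ av := mul_nonneg (by positivity) (Finset.sum_nonneg fun i _ => ha i)
  -- the synthesis map
  let sy : (S → Fin R → ℝ) →ₗ[ℝ] EuclideanSpace ℝ κ :=
    { toFun := fun D => ∑ s, ∑ q, D s q • Δ s q
      map_add' := fun D D' => by
        simp only [Pi.add_apply, add_smul, Finset.sum_add_distrib]
      map_smul' := fun a D => by
        simp only [Pi.smul_apply, smul_eq_mul, RingHom.id_apply, Finset.smul_sum, smul_smul] }
  have hsy : ∀ D, sy D = ∑ s, ∑ q, D s q • Δ s q := fun _ => rfl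
  let ψ : EuclideanSpace ℝ ι →ₗ[ℝ] (S → Fin R → ℝ) := cf ∘ₗ α
  let A : EuclideanSpace ℝ ι →ₗ[ℝ] EuclideanSpace ℝ κ := α - sy ∘ₗ ψ
  have hsplit : β ∘ₗ α = β ∘ₗ (sy ∘ₗ ψ) + β ∘ₗ A := by
    rw [← LinearMap.comp_add]
    congr 1
    simp [A]
  -- remainder
  have hAw : ∀ i, ‖A (w i)‖ ≤ ρ' * a i := by
    intro i
    have e1 : ∑ s, ∑ p : Fin R, c i s p • x s (p + 1) = sy (fun s q =>
        ∑ p : Fin R, if (q : ℕ) ≤ p then c i s p else 0) := by
      rw [hsy]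
      refine Finset.sum_congr rfl fun s _ => ?_
      simp only [Finset.sum_smul]
      rw [Finset.sum_comm]
      refine Finset.sum_congr rfl fun p _ => ?_
      rw [tele (x s) (hx0 s) p, Finset.smul_sum]
      refine Finset.sum_congr rfl fun q _ => ?_
      by_cases h : (q : ℕ) ≤ p
      · rw [if_pos h, if_pos h]
      · rw [if_neg h, if_neg h, smul_zero, zero_smul]
    have e2 : A (w i) = (α (w i) - ∑ s, ∑ p : Fin R, c i s p • x s (p + 1)) -
        ∑ s, ∑ q, cf (α (w i) - ∑ s, ∑ p : Fin R, c i s p • x s (p + 1)) s q • Δ s q := by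
      have e3 : cf (α (w i) - ∑ s, ∑ p : Fin R, c i s p • x s (p + 1)) = ψ (w i) -
          (fun (s : S) (q : Fin R) => ∑ p : Fin R, if (q : ℕ) ≤ p then c i s p else 0) := by
        rw [map_sub, e1, hsy, hcf1]
        rfl
      rw [← hsy, e3, map_sub, ← e1]
      simp only [A, LinearMap.sub_apply, LinearMap.comp_apply]
      abel
    rw [e2]
    exact (hcf2 _).trans (hch i)
  have hAhs : √(hs2 A) ≤ 6.2 * (√N * ρ' * av) := by
    refine hG.hs A ?_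
    calc (1 / (m : ℝ)) * ∑ i, ‖A (√N • w i)‖ ≤ (1 / (m : ℝ)) * ∑ i, √N * ρ' * a i := by
          refine mul_le_mul_of_nonneg_left (Finset.sum_le_sum fun i _ => ?_) (by positivity)
          rw [map_smul, norm_smul, Real.norm_of_nonneg hNr.le, mul_assoc]
          exact mul_le_mul_of_nonneg_left (hAw i) hNr.le
      _ = √N * ρ' * av := by
          rw [← Finset.mul_sum, hav]
          ring
  have hβs : √(hs2 β) ≤ C * ρ / ρ' * √N := by
    rw [show C * ρ / ρ' * √N = √((C * ρ / ρ') ^ 2 * N) by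
      rw [Real.sqrt_mul (by positivity), Real.sqrt_sq (by positivity)]]
    exact Real.sqrt_le_sqrt hβhs
  have hrem : |tr (β ∘ₗ A)| ≤ 6.2 * C * ρ * N * av := by
    calc |tr (β ∘ₗ A)| ≤ √(hs2 β) * √(hs2 A) := abs_tr_comp_le A β
      _ ≤ (C * ρ / ρ' * √N) * (6.2 * (√N * ρ' * av)) :=
          mul_le_mul hβs hAhs (Real.sqrt_nonneg _) (by positivity)
      _ = 6.2 * C * ρ * (√N * √N) * av := by
          field_simp
      _ = _ := by rw [hNN]
  -- main part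
  set Γ : ℝ := 3 * γ / ρ' ^ 2 with hΓ
  have hΓ0 : 0 < Γ := by positivity
  have hsup := hG.sup (S := S) (R := R) hΓ0 (pr ψ) (fun i => √N * (84 * a i))
    (fun i => mul_nonneg hNr.le (mul_nonneg (by norm_num) (ha i)))
    (by
      intro i τ hτ0 hτ hen
      have e1 : (fun s (q : Fin R) => (τ s (q + 1) - τ s q) • (√N • w i)) =
          √N • (fun s (q : Fin R) => (τ s (q + 1) - τ s q) • w i) := by
        funext s q
        simp only [Pi.smul_apply]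
        rw [smul_comm]
      rw [e1, map_smul, smul_eq_mul, pr_smul]
      refine mul_le_mul_of_nonneg_left ?_ hNr.le
      exact key x hx0 hγ hρ' cf hcf1 hcf3 (α (w i)) (c i) (hc i) (hch i) τ hτ0 hτ hen)
    (by
      refine ⟨∑ l, ∑ s, ∑ q, |ψ (bv l) s q| * 2, ?_⟩
      intro φ hφ
      change ∑ l, ∑ s, ∑ q, ψ (bv l) s q * (inc R φ s q) l ≤ _
      refine Finset.sum_le_sum fun l _ => Finset.sum_le_sum fun s _ =>
        Finset.sum_le_sum fun q _ => ?_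
      have h3 : |(inc R φ s q) l| ≤ 2 := by
        rw [← inner_bv l]
        calc |⟪bv l, inc R φ s q⟫_ℝ| ≤ ‖bv l‖ * ‖inc R φ s q‖ := abs_real_inner_le_norm _ _
          _ ≤ 1 * (1 + 1) := by
              rw [norm_bv]
              refine mul_le_mul_of_nonneg_left ?_ zero_le_one
              refine (norm_sub_le _ _).trans (add_le_add (hφ.bd s _ ?_) (hφ.bd s _ ?_))
              · have := q.2
                omega
              · have := q.2
                omega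
          _ = 2 := by norm_num
      calc ψ (bv l) s q * (inc R φ s q) l ≤ |ψ (bv l) s q| * |(inc R φ s q) l| := by
            rw [← abs_mul]
            exact le_abs_self _
        _ ≤ |ψ (bv l) s q| * 2 := mul_le_mul_of_nonneg_left h3 (abs_nonneg _))
  have hKav : 2 * ((1 / (m : ℝ)) * ∑ i, √N * (84 * a i)) = 168 * √N * av := by
    rw [← Finset.mul_sum, ← Finset.mul_sum, hav]
    ring
  rw [hKav] at hsup
  have hCN : 0 < C * ρ * √N := by positivity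
  have hF : ∀ e : ℝ, |e| = 1 → InF R Γ (fun s q => (e / (C * ρ * √N)) • β (x s q)) := by
    intro e he
    have hnorm : ‖e / (C * ρ * √N)‖ = 1 / (C * ρ * √N) := by
      rw [norm_div, Real.norm_eq_abs, he, Real.norm_of_nonneg hCN.le]
    refine ⟨?_, ?_, ?_⟩
    · intro s
      rw [hx0, map_zero, smul_zero]
    · intro s q hq
      rw [norm_smul, hnorm, one_div, inv_mul_le_iff₀ hCN, mul_one]
      refine (hβx s q hq).trans ?_
      calc 2 * C ≤ (ρ * √N) * C := mul_le_mul_of_nonneg_right h2ρ hC.le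
        _ = C * ρ * √N := by ring
    · have e1 : ∀ s (q : Fin R), ‖inc R (fun s q => (e / (C * ρ * √N)) • β (x s q)) s q‖ ^ 2 =
          (1 / (C * ρ * √N)) ^ 2 * ‖β (Δ s q)‖ ^ 2 := by
        intro s q
        rw [← mul_pow, ← hnorm, ← norm_smul]
        congr 2
        simp only [inc, hΔ, map_sub, smul_sub]
      simp only [e1, ← Finset.mul_sum]
      have e2 : ∑ s, ∑ q, ‖β (Δ s q)‖ ^ 2 ≤ 3 * γ * hs2 β := by
        have e3 : ∀ s q, ‖β (Δ s q)‖ ^ 2 = ∑ l, ⟪tp β (bv l), Δ s q⟫_ℝ ^ 2 := by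
          intro s q
          rw [sq_norm_eq]
          refine Finset.sum_congr rfl fun l _ => ?_
          rw [inner_tp, inner_bv]
        have e4 : ∑ s, ∑ q, ‖β (Δ s q)‖ ^ 2 = ∑ l, ∑ s, ∑ q, ⟪tp β (bv l), Δ s q⟫_ℝ ^ 2 := by
          simp only [e3]
          rw [Finset.sum_comm' (s := Finset.univ) (t := fun _ => Finset.univ)
            (t' := Finset.univ) (s' := fun _ => Finset.univ) (by simp)]
          have : ∀ q : Fin R, ∑ s, ∑ l, ⟪tp β (bv l), Δ s q⟫_ℝ ^ 2 =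
              ∑ l, ∑ s, ⟪tp β (bv l), Δ s q⟫_ℝ ^ 2 := fun q => Finset.sum_comm
          simp only [this]
          rw [Finset.sum_comm]
          refine Finset.sum_congr rfl fun l _ => ?_
          rw [Finset.sum_comm]
        have e5 : ∀ u : EuclideanSpace ℝ κ, ∑ s, ∑ q, ⟪u, Δ s q⟫_ℝ ^ 2 ≤ 3 * γ * ‖u‖ ^ 2 := by
          intro u
          set X : ℝ := ∑ s, ∑ q, ⟪u, Δ s q⟫_ℝ ^ 2 with hX
          have hX0 : 0 ≤ X := Finset.sum_nonneg fun _ _ => Finset.sum_nonneg fun _ _ =>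
            sq_nonneg _
          have h3 := hup fun s q => ⟪u, Δ s q⟫_ℝ
          rw [← hX] at h3
          have h4 : X = ⟪u, ∑ s, ∑ q, ⟪u, Δ s q⟫_ℝ • Δ s q⟫_ℝ := by
            rw [inner_sum, hX]
            refine Finset.sum_congr rfl fun s _ => ?_
            rw [inner_sum]
            refine Finset.sum_congr rfl fun q _ => ?_
            rw [real_inner_smul_right, sq]
          have h5 : X ^ 2 ≤ ‖u‖ ^ 2 * (3 * γ * X) := by
            have h6 : |X| ≤ ‖u‖ * ‖∑ s, ∑ q, ⟪u, Δ s q⟫_ℝ • Δ s q‖ := by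
              conv_lhs => rw [h4]
              exact abs_real_inner_le_norm _ _
            calc X ^ 2 = |X| ^ 2 := (sq_abs X).symm
              _ ≤ (‖u‖ * ‖∑ s, ∑ q, ⟪u, Δ s q⟫_ℝ • Δ s q‖) ^ 2 :=
                  pow_le_pow_left₀ (abs_nonneg _) h6 2
              _ = ‖u‖ ^ 2 * ‖∑ s, ∑ q, ⟪u, Δ s q⟫_ℝ • Δ s q‖ ^ 2 := mul_pow _ _ _
              _ ≤ ‖u‖ ^ 2 * (3 * γ * X) := mul_le_mul_of_nonneg_left h3 (sq_nonneg _)
          rcases hX0.eq_or_lt with h0 | h0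
          · rw [← h0]
            positivity
          · have : X * X ≤ (3 * γ * ‖u‖ ^ 2) * X := by nlinarith
            exact le_of_mul_le_mul_right this h0
        rw [e4]
        calc ∑ l, ∑ s, ∑ q, ⟪tp β (bv l), Δ s q⟫_ℝ ^ 2 ≤ ∑ l, 3 * γ * ‖tp β (bv l)‖ ^ 2 :=
              Finset.sum_le_sum fun l _ => e5 _
          _ = 3 * γ * hs2 β := by
              rw [← Finset.mul_sum, ← hs2_tp β]
              rfl
      calc (1 / (C * ρ * √N)) ^ 2 * ∑ s, ∑ q, ‖β (Δ s q)‖ ^ 2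
          ≤ (1 / (C * ρ * √N)) ^ 2 * (3 * γ * ((C * ρ / ρ') ^ 2 * N)) :=
            mul_le_mul_of_nonneg_left (e2.trans (mul_le_mul_of_nonneg_left hβhs
              (by positivity))) (by positivity)
        _ = Γ := by
            rw [hΓ, show (1 / (C * ρ * √N)) ^ 2 = 1 / ((C * ρ) ^ 2 * N) by
              rw [div_pow, mul_pow, Real.sq_sqrt hN0.le, one_pow]]
            field_simp
  have htr : tr (β ∘ₗ (sy ∘ₗ ψ)) = pr ψ (fun s q => β (Δ s q)) := by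
    change ∑ l, (β (sy (ψ (bv l)))) l = ∑ l, ∑ s, ∑ q, ψ (bv l) s q * (β (Δ s q)) l
    refine Finset.sum_congr rfl fun l _ => ?_
    rw [hsy]
    simp only [map_sum, map_smul]
    simp
  have hmain : ∀ e : ℝ, |e| = 1 → e * tr (β ∘ₗ (sy ∘ₗ ψ)) ≤ 168 * C * ρ * N * av := by
    intro e he
    have h3 := hsup _ (hF e he)
    have e1 : inc R (fun s q => (e / (C * ρ * √N)) • β (x s q)) =
        (e / (C * ρ * √N)) • (fun s (q : Fin R) => β (Δ s q)) := by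
      funext s q
      simp only [inc, hΔ, map_sub, smul_sub, Pi.smul_apply]
    rw [e1, map_smul, smul_eq_mul, ← htr] at h3
    have h4 := mul_le_mul_of_nonneg_left h3 hCN.le
    calc e * tr (β ∘ₗ (sy ∘ₗ ψ)) =
          C * ρ * √N * (e / (C * ρ * √N) * tr (β ∘ₗ (sy ∘ₗ ψ))) := by field_simp
      _ ≤ C * ρ * √N * (168 * √N * av) := h4
      _ = 168 * C * ρ * (√N * √N) * av := by ring
      _ = _ := by rw [hNN]
  have hmain' : |tr (β ∘ₗ (sy ∘ₗ ψ))| ≤ 168 * C * ρ * N * av := by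
    rw [abs_le]
    have h3 := hmain 1 (by simp)
    have h4 := hmain (-1) (by simp)
    constructor <;> linarith
  rw [hsplit, tr_add]
  have hP : 0 ≤ C * ρ * N * av := by positivity
  calc |tr (β ∘ₗ (sy ∘ₗ ψ)) + tr (β ∘ₗ A)|
      ≤ |tr (β ∘ₗ (sy ∘ₗ ψ))| + |tr (β ∘ₗ A)| := abs_add_le _ _
    _ ≤ 168 * C * ρ * N * av + 6.2 * C * ρ * N * av := add_le_add hmain' hrem
    _ ≤ 210 * C * ρ * N * av := by nlinarith

end SPB
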