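import Pool.Agent.SPB.FinalOf
import Pool.Agent.SPB.Tree
import Pool.Agent.SPB.NearIso
import Pool.Agent.SPB.CNoChain
import Pool.Agent.SPB.CTransfer
import Pool.Agent.SPB.TransferCore
import Pool.Agent.SPB.FewOp
import Pool.Agent.SPB.Moments
import Pool.Agent.SPB.NearOrth
import Pool.Agent.SPB.Sample

/-!
# The final statement
-/

namespace SPB

theorem existsGood_holds : ExistsGoodStmt :=
  existsGood_of tree_holds (sample_holds fewOp_holds i1_holds i2_holds no_holds)
    (cFlag_holds tree_holds norm_holds) (cNoChain_holds tree_holds norm_holds)
    (cTransfer_holds tree_holds norm_holds nearIso_holds transferCore_holds)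

theorem final_holds : FinalStmt := final_of existsGood_holds

end SPB
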