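import Pool.Agent.SPB.Space
import Pool.Agent.Lib_helper87.SPB.LOne

/-!
# M10: the flags of the blocks give a slow chain on the `ℓ¹`-sum
-/

namespace SPB

open Filter Topology SPB87
open scoped ENNReal

/-- time of block `j` at global time `t` -/
def btime (L : ℕ → ℕ) (t j : ℕ) : ℕ := min (L j) (t - ∑ i ∈ Finset.range j, L i)

lemma btime_mono (L : ℕ → ℕ) {t s : ℕ} (h : t ≤ s) (j : ℕ) : btime L t j ≤ btime L s j :=
  min_le_min le_rfl (Nat.sub_le_sub_right h _)

lemma btime_eq_L (L : ℕ → ℕ) {t j : ℕ} (h : ∑ i ∈ Finset.range (j + 1), L i ≤ t) :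
    btime L t j = L j := by
  rw [Finset.sum_range_succ] at h
  rw [btime]
  omega

/-- at each time at most one block moves, by one step -/
lemma btime_succ (L : ℕ → ℕ) (t : ℕ) : ∃ j0, (∀ j, j ≠ j0 → btime L (t + 1) j = btime L t j) ∧
    (btime L (t + 1) j0 = btime L t j0 ∨ btime L (t + 1) j0 = btime L t j0 + 1) := by
  classical
  have hS : ∀ j, ∑ i ∈ Finset.range (j + 1), L i = ∑ i ∈ Finset.range j, L i + L j :=
    fun j => Finset.sum_range_succ _ _
  have hmono : ∀ i j, i ≤ j → ∑ l ∈ Finset.range i, L l ≤ ∑ l ∈ Finset.range j, L l := by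
    intro i j hij
    exact Finset.sum_le_sum_of_subset (Finset.range_mono hij)
  by_cases hex : ∃ j, ∑ i ∈ Finset.range j, L i ≤ t ∧ t < ∑ i ∈ Finset.range (j + 1), L i
  · obtain ⟨j0, h1, h2⟩ := hex
    refine ⟨j0, ?_, ?_⟩
    · intro j hj
      rcases lt_or_gt_of_ne hj with hlt | hgt
      · have h3 := hmono (j + 1) j0 hlt
        rw [btime_eq_L L (by omega), btime_eq_L L (by omega)]
      · have h3 := hmono (j0 + 1) j hgt
        rw [btime, btime]
        omega
    · rw [hS] at h2
      rw [btime, btime]
      omega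
  · push Not at hex
    refine ⟨0, ?_, ?_⟩
    · intro j _
      by_cases h1 : ∑ i ∈ Finset.range j, L i ≤ t
      · have h2 := hex j h1
        rw [btime_eq_L L (by omega), btime_eq_L L h2]
      · rw [btime, btime]
        omega
    · left
      by_cases h1 : ∑ i ∈ Finset.range 0, L i ≤ t
      · have h2 := hex 0 h1
        rw [btime_eq_L L (by omega), btime_eq_L L h2]
      · rw [btime, btime]
        omega

/-- a linear map on the Euclidean space of a block as an operator of the block -/
noncomputable def Blk.opE (b : Blk) (W : b.V →ₗ[ℝ] b.V) : b.E →L[ℝ] b.E :=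
  LinearMap.toContinuousLinearMap (b.toE.toLinearMap ∘ₗ W ∘ₗ b.ofE.toLinearMap)

lemma Blk.opE_apply (b : Blk) (W : b.V →ₗ[ℝ] b.V) (x : b.E) :
    b.opE W x = b.toE (W (b.ofE x)) := rfl

lemma Blk.norm_opE_le (b : Blk) (W : b.V →ₗ[ℝ] b.V) {C : ℝ} (hC : 0 ≤ C)
    (h : ∀ z, b.nrm (W z) ≤ C * b.nrm z) : ‖b.opE W‖ ≤ C :=
  ContinuousLinearMap.opNorm_le_bound _ hC fun x => h (b.ofE x)

theorem sumFlag_holds : SumFlagStmt := by
  classical
  intro b hflag hN
  have hnt : ∀ k, Nontrivial (b k).E := by
    intro k
    have h1 : 0 < Fintype.card (b k).ι := hN k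
    obtain ⟨i⟩ := Fintype.card_pos_iff.1 h1
    refine ⟨⟨(b k).toE (EuclideanSpace.single i 1), 0, fun h => ?_⟩⟩
    have h2 : (EuclideanSpace.single i (1 : ℝ) : (b k).V) = 0 :=
      (b k).toE.injective (h.trans (map_zero _).symm)
    have h3 := congrArg (fun v : (b k).V => v i) h2
    simp at h3
  constructor
  · -- infinite dimensional
    intro hfin
    have hv : ∀ k, ∃ v : (b k).E, v ≠ 0 := fun k => exists_ne 0
    choose v hv using hv
    have hli : LinearIndependent ℝ (fun k : ℕ => (lp.single 1 k (v k) : XX b)) := by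
      rw [linearIndependent_iff']
      intro s g hg k hk
      have h1 := congrArg (fun x : XX b => x k) hg
      simp only [lp.coeFn_sum, Finset.sum_apply, lp.coeFn_smul, Pi.smul_apply,
        lp.coeFn_zero, Pi.zero_apply] at h1
      rw [Finset.sum_eq_single k] at h1
      · rw [lp.single_apply_self] at h1
        exact (smul_eq_zero.1 h1).resolve_right (hv k)
      · intro j _ hj
        have h2 : (lp.single (E := fun k => (b k).E) 1 j (v j)) k = 0 :=
          lp.single_apply_ne (E := fun k => (b k).E) 1 j (v j) (Ne.symm hj)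
        exact (congrArg (fun y => g j • y) h2).trans (smul_zero _)
      · intro h
        exact absurd hk h
    exact hli.finite.false
  · choose W L hW0 hWL hnest hstep hnorm using hflag
    have hM : ∀ t j, ‖(b j).opE (W j (btime L t j))‖ ≤ 4 := fun t j =>
      (b j).norm_opE_le _ (by norm_num) (hnorm j _)
    have hLpos : ∀ k, 0 < L k := by
      intro k
      by_contra h0
      have h1 : L k = 0 := by omega
      have h2 := hWL k 0 (by omega)
      rw [hW0] at h2
      obtain ⟨x, hx⟩ := exists_ne (0 : (b k).E)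
      apply hx
      have h3 := congrArg (fun f : (b k).V →ₗ[ℝ] (b k).V => f ((b k).ofE x)) h2
      have h4 : (b k).ofE x = 0 := h3.symm
      exact (b k).ofE.injective (h4.trans (map_zero _).symm)
    refine ⟨fun t => diag (E := fun k => (b k).E)
      (fun j => (b j).opE (W j (btime L t j))) 4 (hM t), ?_, ?_, ?_, ?_, ?_⟩
    · ext x j
      have : btime L 0 j = 0 := by rw [btime]; omega
      change (b j).opE (W j (btime L 0 j)) (x j) = 0
      rw [this, hW0]
      rfl
    · intro t s hts
      ext x j
      change (b j).opE (W j (btime L s j)) ((b j).opE (W j (btime L t j)) (x j)) =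
        (b j).opE (W j (btime L t j)) (x j)
      have := congrArg (fun f : (b j).V →ₗ[ℝ] (b j).V => f ((b j).ofE (x j)))
        (hnest j _ _ (btime_mono L hts j))
      exact this
    · intro t
      obtain ⟨j0, h1, h2⟩ := btime_succ L t
      obtain ⟨e, he⟩ := hstep j0 (btime L t j0)
      refine ⟨lp.single 1 j0 ((b j0).toE e), fun x => ?_⟩
      obtain ⟨c, hc⟩ : ∃ c : ℝ, W j0 (btime L (t + 1) j0) ((b j0).ofE (x j0)) -
          W j0 (btime L t j0) ((b j0).ofE (x j0)) = c • e := by
        rcases h2 with h2 | h2
        · exact ⟨0, by rw [h2]; simp⟩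
        · rw [h2]
          obtain ⟨c, hc⟩ := Submodule.mem_span_singleton.1 (he ((b j0).ofE (x j0)))
          exact ⟨c, hc.symm⟩
      refine Submodule.mem_span_singleton.2 ⟨c, ?_⟩
      ext j
      rw [lp.coeFn_smul, Pi.smul_apply, lp.coeFn_sub, Pi.sub_apply, diag_apply, diag_apply]
      by_cases hj : j = j0
      · subst hj
        rw [lp.single_apply_self]
        have h3 := congrArg (b j).toE hc
        rw [map_sub, map_smul] at h3
        exact h3.symm
      · rw [lp.single_apply_ne 1 j0 _ hj, smul_zero, h1 j hj, sub_self]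
    · intro t
      exact norm_diag_le _ _ _
    · intro x
      rw [tendsto_iff_norm_sub_tendsto_zero]
      have key : Tendsto (fun t => ∑' j, ‖(b j).opE (W j (btime L t j)) (x j) - x j‖) atTop
          (𝓝 (∑' _ : ℕ, (0 : ℝ))) := by
        refine tendsto_tsum_of_dominated_convergence (bound := fun j => 5 * ‖x j‖)
          ((l1_summable (E := fun k => (b k).E) x).mul_left _) ?_ ?_
        · intro j
          apply tendsto_const_nhds.congr'
          filter_upwards [eventually_ge_atTop (∑ i ∈ Finset.range (j + 1), L i)] with t ht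
          rw [btime_eq_L L ht, hWL j _ le_rfl]
          have : (b j).opE LinearMap.id (x j) = x j := rfl
          rw [this, sub_self, norm_zero]
        · refine Eventually.of_forall fun t j => ?_
          rw [Real.norm_of_nonneg (norm_nonneg _)]
          calc ‖(b j).opE (W j (btime L t j)) (x j) - x j‖
              ≤ ‖(b j).opE (W j (btime L t j)) (x j)‖ + ‖x j‖ := norm_sub_le _ _
            _ ≤ 4 * ‖x j‖ + ‖x j‖ := by
                refine add_le_add_left ?_ _
                exact (((b j).opE _).le_opNorm _).trans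
                  (mul_le_mul_of_nonneg_right (hM t j) (norm_nonneg _))
            _ = 5 * ‖x j‖ := by ring
      simp only [tsum_zero] at key
      refine key.congr fun t => ?_
      rw [l1_norm_eq]
      rfl

end SPB
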