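import Pool.Agent.SPB.ExistsGoodC
import Pool.Agent.SPB.SumFlag

set_option linter.unusedSectionVars false

/-!
# Assembly of the complex version
-/

namespace SPB

open scoped BigOperators InnerProductSpace

/-- The bounds on the blocks chosen so far. -/
noncomputable def bndC (hE : ExistsGoodCStmt) : ℕ → ℕ
  | 0 => 0
  | k + 1 => max (bndC hE k) (max (hE k (bndC hE k)).choose.m
      (max (hE k (bndC hE k)).choose.N ⌈1 / (hE k (bndC hE k)).choose.ρ⌉₊))

/-- The sequence of blocks. -/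
noncomputable def blksC (hE : ExistsGoodCStmt) (k : ℕ) : Blk := (hE k (bndC hE k)).choose

theorem blksC_good (hE : ExistsGoodCStmt) (k : ℕ) : GoodC k (bndC hE k) (blksC hE k) :=
  (hE k (bndC hE k)).choose_spec

theorem bndC_succ (hE : ExistsGoodCStmt) (k : ℕ) :
    bndC hE (k + 1) = max (bndC hE k) (max (blksC hE k).m
      (max (blksC hE k).N ⌈1 / (blksC hE k).ρ⌉₊)) := rfl

theorem bndC_mono (hE : ExistsGoodCStmt) : Monotone (bndC hE) := by
  apply monotone_nat_of_le_succ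
  intro k
  rw [bndC_succ]
  exact le_max_left _ _

theorem blksC_bound (hE : ExistsGoodCStmt) (j k : ℕ) (hjk : j < k) :
    (blksC hE j).m ≤ bndC hE k ∧ (blksC hE j).N ≤ bndC hE k ∧ 1 / (blksC hE j).ρ ≤ bndC hE k := by
  have h1 : bndC hE (j + 1) ≤ bndC hE k := bndC_mono hE hjk
  rw [bndC_succ] at h1
  have h2 : (blksC hE j).m ≤ bndC hE k := by
    refine le_trans ?_ h1
    exact le_trans (le_max_left _ _) (le_max_right _ _)
  have h3 : (blksC hE j).N ≤ bndC hE k := by
    refine le_trans ?_ h1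
    exact le_trans (le_trans (le_max_left _ _) (le_max_right _ _)) (le_max_right _ _)
  have h4 : ⌈1 / (blksC hE j).ρ⌉₊ ≤ bndC hE k := by
    refine le_trans ?_ h1
    exact le_trans (le_trans (le_max_right _ _) (le_max_right _ _)) (le_max_right _ _)
  exact ⟨h2, h3, (Nat.le_ceil _).trans (by exact_mod_cast h4)⟩

theorem answers_of (hE : ExistsGoodCStmt) (hB : BasisKStmt) (hSP : StrictPiKStmt) (hCx : CxStmt)
    (hNB : NoBasisCStmt) : Answer ℝ ∧ Answer ℂ := by
  set b := blksC hE with hb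
  have hgood : ∀ k, GoodC k (bndC hE k) (b k) := blksC_good hE
  have hNpos : ∀ k, 0 < (b k).N := by
    intro k
    have h1 := (hgood k).basic.ρN
    rcases Nat.eq_zero_or_pos (b k).N with h0 | h0
    · rw [h0] at h1
      norm_num at h1
    · exact h0
  obtain ⟨hinf, W, hW0, hWc, hWr, hWn, hWt⟩ := sumFlag_holds b (fun k => (hgood k).flag) hNpos
  have hW : SlowChain ℝ W 4 := ⟨hW0, hWc, hWr, hWn, hWt⟩
  have hno := hNB b (bndC hE) hgood (blksC_bound hE)
  constructor
  · obtain ⟨u, hu1, hu2, hu3, hu4⟩ := hSP ℝ (XX b) W 4 hinf hW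
    refine ⟨XX b, inferInstance, inferInstance, inferInstance,
      ⟨u, fun n => hu2 n n le_rfl, fun m n hnm => hu2 n m hnm, hu1, hu3, hu4⟩, ?_⟩
    rintro ⟨e, he⟩
    obtain ⟨P, C, hP⟩ := hB ℝ (XX b) e he
    refine hno ⟨P, fun _ => 0, C, hP.zero, rfl, ?_, ?_, hP.norm, ?_, ?_, hP.lim⟩
    · intro n m
      rw [hP.comp]
      simp
    · intro n m
      simp
    · intro n
      have h0 := hP.norm 0
      rw [hP.zero] at h0
      simpa using h0
    · intro n
      obtain ⟨e', he'⟩ := hP.rank n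
      refine ⟨e', 0, fun x => ?_⟩
      exact Submodule.span_mono (by simp) (he' x)
  · obtain ⟨W', hW'⟩ := hCx.up (XX b) W 4 hW
    obtain ⟨u, hu1, hu2, hu3, hu4⟩ := hSP ℂ (Cx (XX b)) W' 4 (hCx.inf (XX b) hinf) hW'
    refine ⟨Cx (XX b), inferInstance, inferInstance, inferInstance,
      ⟨u, fun n => hu2 n n le_rfl, fun m n hnm => hu2 n m hnm, hu1, hu3, hu4⟩, ?_⟩
    rintro ⟨e, he⟩
    obtain ⟨P, C, hP⟩ := hB ℂ (Cx (XX b)) e he
    obtain ⟨A, S, h1, h2, h3, h4, h5, h6, h7, h8⟩ := hCx.down (XX b) P C hP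
    exact hno ⟨A, S, C, h1, h2, h3, h4, h5, h6, h7, h8⟩

end SPB
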