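import Pool.Agent.SPB.Space
import Pool.Agent.SPB.HS
import Pool.Agent.Lib_helper87.SPB.LOne

/-!
# M11: the sum of good blocks has no bounded chain of commuting projections with rank one steps
-/

namespace SPB

open Filter Topology SPB87
open scoped ENNReal BigOperators

/-- the block operator `E_j → E_k` of an operator of the sum -/
noncomputable def blkOp (b : ℕ → Blk) (k j : ℕ) (P : XX b →L[ℝ] XX b) :
    (b j).V →ₗ[ℝ] (b k).V :=
  (b k).ofE.toLinearMap ∘ₗ (QQ b k : XX b →ₗ[ℝ] (b k).E) ∘ₗ (P : XX b →ₗ[ℝ] XX b) ∘ₗ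
    (JJ b j : (b j).E →ₗ[ℝ] XX b) ∘ₗ (b j).toE.toLinearMap

lemma blkOp_apply (b : ℕ → Blk) (k j : ℕ) (P : XX b →L[ℝ] XX b) (z : (b j).V) :
    blkOp b k j P z = (b k).ofE (QQ b k (P (JJ b j ((b j).toE z)))) := rfl

lemma norm_JJ (b : ℕ → Blk) (j : ℕ) (x : (b j).E) : ‖JJ b j x‖ = ‖x‖ :=
  lp.norm_single (E := fun k => (b k).E) (p := 1) (by simp) j x

lemma norm_QQ_le (b : ℕ → Blk) (j : ℕ) (y : XX b) : ‖QQ b j y‖ ≤ ‖y‖ :=
  lp.norm_apply_le_norm (E := fun k => (b k).E) (p := 1) (by simp) y j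

lemma QQ_apply (b : ℕ → Blk) (j : ℕ) (y : XX b) : QQ b j y = y j := rfl

lemma QQ_JJ (b : ℕ → Blk) (j : ℕ) (x : (b j).E) : QQ b j (JJ b j x) = x :=
  lp.single_apply_self (E := fun k => (b k).E) 1 j x

lemma hasSum_JJ_QQ (b : ℕ → Blk) (y : XX b) : HasSum (fun j => JJ b j (QQ b j y)) y :=
  lp.hasSum_single (E := fun k => (b k).E) (p := 1) (by simp) y

lemma nrm_blkOp_le (b : ℕ → Blk) (k j : ℕ) (P : XX b →L[ℝ] XX b) {C : ℝ} (hP : ‖P‖ ≤ C)
    (z : (b j).V) : (b k).nrm (blkOp b k j P z) ≤ C * (b j).nrm z := by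
  have h1 : (b k).nrm (blkOp b k j P z) = ‖QQ b k (P (JJ b j ((b j).toE z)))‖ := rfl
  rw [h1]
  calc ‖QQ b k (P (JJ b j ((b j).toE z)))‖ ≤ ‖P (JJ b j ((b j).toE z))‖ := norm_QQ_le b k _
    _ ≤ C * ‖JJ b j ((b j).toE z)‖ := P.le_of_opNorm_le hP _
    _ = C * (b j).nrm z := by rw [norm_JJ, Blk.norm_toE]

lemma sum_nrm_blkOp_le (b : ℕ → Blk) (k : ℕ) (P : XX b →L[ℝ] XX b) {C : ℝ} (hP : ‖P‖ ≤ C)
    (z : (b k).V) (F : Finset ℕ) :
    ∑ j ∈ F, (b j).nrm (blkOp b j k P z) ≤ C * (b k).nrm z := by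
  calc ∑ j ∈ F, (b j).nrm (blkOp b j k P z)
      = ∑ j ∈ F, ‖(P (JJ b k ((b k).toE z))) j‖ := Finset.sum_congr rfl fun j _ => rfl
    _ ≤ ∑' j, ‖(P (JJ b k ((b k).toE z))) j‖ :=
        (l1_summable _).sum_le_tsum F (fun _ _ => norm_nonneg _)
    _ = ‖P (JJ b k ((b k).toE z))‖ := (l1_norm_eq _).symm
    _ ≤ C * ‖JJ b k ((b k).toE z)‖ := P.le_of_opNorm_le hP _
    _ = C * (b k).nrm z := by rw [norm_JJ, Blk.norm_toE]

/-- convergence in the block norm and in the Euclidean norm are the same -/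
lemma tendsto_ofE (b : Blk) {f : ℕ → b.E} {x : b.E} (h : Tendsto f atTop (𝓝 x)) :
    Tendsto (fun n => b.ofE (f n)) atTop (𝓝 (b.ofE x)) := by
  have hc : Continuous (b.ofE : b.E → b.V) :=
    LinearMap.continuous_of_finiteDimensional (b.ofE.toLinearMap)
  exact (hc.tendsto x).comp h

/-- the composition formula -/
lemma hasSum_tr_blkOp (b : ℕ → Blk) (k : ℕ) (P P' : XX b →L[ℝ] XX b)
    (t : (b k).V →ₗ[ℝ] (b k).V) :
    HasSum (fun j => tr (t ∘ₗ blkOp b k j P ∘ₗ blkOp b j k P'))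
      (tr (t ∘ₗ blkOp b k k (P ∘L P'))) := by
  unfold tr
  apply hasSum_sum
  intro l _
  -- continuous linear map y ↦ (t (ofE (Q_k (P y)))) l
  let G : XX b →L[ℝ] (b k).V :=
    (LinearMap.toContinuousLinearMap (t ∘ₗ (b k).ofE.toLinearMap)) ∘L (QQ b k) ∘L P
  let H : XX b →L[ℝ] ℝ := (EuclideanSpace.proj l) ∘L G
  have h1 := (hasSum_JJ_QQ b (P' (JJ b k ((b k).toE (bv l))))).mapL H
  exact h1

/-- contribution of a lower block -/
lemma abs_tr_lower (a c : Blk) (ha : a.Basic) (hc : c.Basic) {C B : ℝ} (hC : 0 ≤ C) (hB : 0 ≤ B)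
    (hN : (a.N : ℝ) ≤ B) (hρ : 1 / a.ρ ≤ B) (α : c.V →ₗ[ℝ] a.V) (β : a.V →ₗ[ℝ] c.V)
    (t : c.V →ₗ[ℝ] c.V) (hα : ∀ z, a.nrm (α z) ≤ C * c.nrm z)
    (hβ : ∀ z, c.nrm (β z) ≤ C * a.nrm z) (ht : ∀ z, ‖t z‖ ≤ ‖z‖) :
    |tr (t ∘ₗ β ∘ₗ α)| ≤ 4 * C ^ 2 * B ^ 2 / c.ρ := by
  have hcρ := c.ρ_pos
  have haρ := a.ρ_pos
  have h1 : tr (t ∘ₗ β ∘ₗ α) = tr (α ∘ₗ (t ∘ₗ β)) := by
    rw [← tr_comm α (t ∘ₗ β), LinearMap.comp_assoc]
  have h2 : ∀ z, ‖(α ∘ₗ (t ∘ₗ β)) z‖ ≤ (4 * C ^ 2 * (1 / a.ρ) / c.ρ) * ‖z‖ := by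
    intro z
    calc ‖α (t (β z))‖ ≤ 2 * a.nrm (α (t (β z))) := ha.two _
      _ ≤ 2 * (C * c.nrm (t (β z))) := by gcongr; exact hα _
      _ ≤ 2 * (C * (‖t (β z)‖ / c.ρ)) := by gcongr; exact hc.low _
      _ ≤ 2 * (C * (‖β z‖ / c.ρ)) := by gcongr; exact ht _
      _ ≤ 2 * (C * (2 * c.nrm (β z) / c.ρ)) := by gcongr; exact hc.two _
      _ ≤ 2 * (C * (2 * (C * a.nrm z) / c.ρ)) := by gcongr; exact hβ _
      _ ≤ 2 * (C * (2 * (C * (‖z‖ / a.ρ)) / c.ρ)) := by gcongr; exact ha.low _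
      _ = (4 * C ^ 2 * (1 / a.ρ) / c.ρ) * ‖z‖ := by ring
  have h3 := abs_tr_le_card (α ∘ₗ (t ∘ₗ β)) h2
  rw [h1]
  refine h3.trans ?_
  have h4 : ((Fintype.card a.ι : ℕ) : ℝ) ≤ B := hN
  calc 4 * C ^ 2 * (1 / a.ρ) / c.ρ * (Fintype.card a.ι : ℝ)
      ≤ 4 * C ^ 2 * B / c.ρ * B := by gcongr
    _ = 4 * C ^ 2 * B ^ 2 / c.ρ := by ring

theorem noBasis_holds : NoBasisStmt := by
  classical
  rintro b B hgood hB ⟨P, C₀, hP0, hPP, hPC₀, hrank, hlim⟩
  set C : ℝ := max C₀ 1 with hCdef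
  have hPC : ∀ n, ‖P n‖ ≤ C := fun n => (hPC₀ n).trans (le_max_left _ _)
  have hC1 : 1 ≤ C := le_max_right _ _
  have hC0 : 0 < C := by linarith
  obtain ⟨k, hk⟩ := exists_nat_gt C
  have hk1 : C < (k : ℝ) + 1 := by linarith
  have hg := hgood k
  have hbas := hg.basic
  refine hg.noChain C hC0 hk1 ⟨fun n => blkOp b k k (P n), ?_, ?_, ?_, ?_, ?_⟩
  · change blkOp b k k (P 0) = 0
    rw [hP0]
    ext z : 1
    rw [blkOp_apply]
    simp
  · intro n z
    exact nrm_blkOp_le b k k (P n) (hPC n) z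
  · intro z
    have h1 := ((QQ b k).continuous.tendsto _).comp (hlim (JJ b k ((b k).toE z)))
    have h2 := tendsto_ofE (b k) h1
    have h3 : (b k).ofE (QQ b k (JJ b k ((b k).toE z))) = z := by
      rw [QQ_JJ]
      exact (b k).toE.symm_apply_apply z
    rw [h3] at h2
    exact h2
  · intro n
    obtain ⟨e, he⟩ := hrank n
    refine ⟨(b k).ofE (QQ b k e), fun z => ?_⟩
    obtain ⟨c, hc⟩ := Submodule.mem_span_singleton.1 (he (JJ b k ((b k).toE z)))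
    refine Submodule.mem_span_singleton.2 ⟨c, ?_⟩
    rw [blkOp_apply, blkOp_apply, ← map_sub, ← map_sub, ← hc, map_smul, map_smul]
  · intro n n' t ht
    have hρ := (b k).ρ_pos
    set f : ℕ → ℝ := fun j => tr (t ∘ₗ blkOp b k j (P n) ∘ₗ blkOp b j k (P n')) with hf
    have h1 := hasSum_tr_blkOp b k (P n) (P n') t
    rw [hPP] at h1
    have h2 := hasSum_ite_sub_hasSum h1 k
    have h3 : tr (t ∘ₗ (blkOp b k k (P n) ∘ₗ blkOp b k k (P n') - blkOp b k k (P (min n n')))) =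
        -(tr (t ∘ₗ blkOp b k k (P (min n n'))) - f k) := by
      rw [LinearMap.comp_sub, tr_sub, hf]
      ring
    rw [h3, abs_neg]
    -- bound of the finite partial sums
    set L1 : ℝ := 4 * C ^ 2 * (B k : ℝ) ^ 2 / (b k).ρ with hL1
    have hL1n : 0 ≤ L1 := by positivity
    set g2 : ℕ → ℝ := fun j => 840 * C * (b k).ρ * (b k).N *
      ((1 / ((b k).m : ℝ)) * ∑ i, (b j).nrm (blkOp b j k (P n') ((b k).w i))) with hg2
    have hg2n : ∀ j, 0 ≤ g2 j := by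
      intro j
      have : 0 ≤ ∑ i, (b j).nrm (blkOp b j k (P n') ((b k).w i)) :=
        Finset.sum_nonneg fun i _ => (b j).nrm_nonneg _
      rw [hg2]
      positivity
    have h4 : ∀ j, |if j = k then 0 else f j| ≤ (if j < k then L1 else 0) + g2 j := by
      intro j
      rcases lt_trichotomy j k with hlt | heq | hgt
      · rw [if_neg hlt.ne, if_pos hlt]
        obtain ⟨hm, hN, hr⟩ := hB j k hlt
        have := abs_tr_lower (b j) (b k) (hgood j).basic hbas hC0.le (Nat.cast_nonneg (B k))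
          (Nat.cast_le.2 hN) hr (blkOp b j k (P n')) (blkOp b k j (P n)) t
          (nrm_blkOp_le b j k (P n') (hPC n')) (nrm_blkOp_le b k j (P n) (hPC n)) ht
        have h5 := hg2n j
        exact this.trans (by rw [hL1]; linarith)
      · rw [if_pos heq, abs_zero]
        have h5 := hg2n j
        split_ifs <;> linarith
      · rw [if_neg hgt.ne', if_neg (not_lt.2 hgt.le), zero_add]
        obtain ⟨hm, hN, hr⟩ := hB k j hgt
        exact (hgood j).transfer (b k) hbas hm C hC0 (blkOp b j k (P n')) (blkOp b k j (P n)) t ht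
          (nrm_blkOp_le b k j (P n) (hPC n))
    have h5 : ∀ F : Finset ℕ, |∑ j ∈ F, if j = k then 0 else f j| ≤
        841 * ((k : ℝ) + 1) ^ 2 * (b k).ρ * (b k).N := by
      intro F
      have h6 : ∑ j ∈ F, (if j < k then L1 else 0) ≤ k * L1 := by
        rw [← Finset.sum_filter, Finset.sum_const, nsmul_eq_mul]
        refine mul_le_mul_of_nonneg_right ?_ hL1n
        have h7 : F.filter (fun j => j < k) ⊆ Finset.range k := by
          intro j hj
          rw [Finset.mem_filter] at hj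
          exact Finset.mem_range.2 hj.2
        have h8 := Finset.card_le_card h7
        rw [Finset.card_range] at h8
        exact_mod_cast h8
      have h7 : ∑ j ∈ F, g2 j ≤ 840 * C ^ 2 * (b k).ρ * (b k).N := by
        rw [hg2, ← Finset.mul_sum, ← Finset.mul_sum, Finset.sum_comm]
        have h8 : ∀ i, ∑ j ∈ F, (b j).nrm (blkOp b j k (P n') ((b k).w i)) ≤ C := by
          intro i
          refine (sum_nrm_blkOp_le b k (P n') (hPC n') ((b k).w i) F).trans ?_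
          calc C * (b k).nrm ((b k).w i) ≤ C * 1 := by
                gcongr
                exact hbas.w_nrm i
            _ = C := mul_one C
        have h9 : ∑ i, ∑ j ∈ F, (b j).nrm (blkOp b j k (P n') ((b k).w i)) ≤ (b k).m * C := by
          refine (Finset.sum_le_sum fun i _ => h8 i).trans ?_
          rw [Finset.sum_const, Finset.card_univ, Fintype.card_fin, nsmul_eq_mul]
        have hm : (0 : ℝ) < (b k).m := by exact_mod_cast hbas.m_pos
        calc 840 * C * (b k).ρ * ((b k).N : ℝ) * ((1 / ((b k).m : ℝ)) *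
              ∑ i, ∑ j ∈ F, (b j).nrm (blkOp b j k (P n') ((b k).w i)))
            ≤ 840 * C * (b k).ρ * ((b k).N : ℝ) * ((1 / ((b k).m : ℝ)) * ((b k).m * C)) := by
              gcongr
          _ = 840 * C ^ 2 * (b k).ρ * (b k).N := by
              field_simp
      have h8 : (k : ℝ) * L1 ≤ (b k).ρ * (b k).N := by
        have h9 := hg.large
        have hC2 : C ^ 2 ≤ ((k : ℝ) + 1) ^ 2 := pow_le_pow_left₀ hC0.le hk1.le 2
        rw [hL1, mul_div_assoc', div_le_iff₀ hρ]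
        calc (k : ℝ) * (4 * C ^ 2 * (B k : ℝ) ^ 2)
            ≤ (k : ℝ) * (4 * ((k : ℝ) + 1) ^ 2 * (B k : ℝ) ^ 2) := by gcongr
          _ = 4 * (k : ℝ) * ((k : ℝ) + 1) ^ 2 * (B k : ℝ) ^ 2 := by ring
          _ ≤ (b k).ρ ^ 2 * (b k).N := h9
          _ = (b k).ρ * (b k).N * (b k).ρ := by ring
      have hC2 : C ^ 2 ≤ ((k : ℝ) + 1) ^ 2 := pow_le_pow_left₀ hC0.le hk1.le 2
      have hk2 : (1 : ℝ) ≤ ((k : ℝ) + 1) ^ 2 := by nlinarith [Nat.cast_nonneg (α := ℝ) k]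
      have hρN : 0 ≤ (b k).ρ * (b k).N := by positivity
      calc |∑ j ∈ F, if j = k then 0 else f j|
          ≤ ∑ j ∈ F, |if j = k then 0 else f j| := Finset.abs_sum_le_sum_abs _ _
        _ ≤ ∑ j ∈ F, ((if j < k then L1 else 0) + g2 j) := Finset.sum_le_sum fun j _ => h4 j
        _ = ∑ j ∈ F, (if j < k then L1 else 0) + ∑ j ∈ F, g2 j := Finset.sum_add_distrib
        _ ≤ (b k).ρ * (b k).N + 840 * C ^ 2 * (b k).ρ * (b k).N := by linarith
        _ ≤ 841 * ((k : ℝ) + 1) ^ 2 * (b k).ρ * (b k).N := by nlinarith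
    have h6 : Tendsto (fun F : Finset ℕ => |∑ j ∈ F, if j = k then 0 else f j|) atTop
        (𝓝 |tr (t ∘ₗ blkOp b k k (P (min n n'))) - f k|) := Filter.Tendsto.abs h2
    exact le_of_tendsto' h6 h5

end SPB
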