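import Pool.Agent.SPB.CStmts
import Pool.Agent.SPB.NoBasis

/-!
# C4: no complex chain on the sum
-/

namespace SPB

open Filter Topology SPB87
open scoped ENNReal BigOperators

lemma blkOp_add (b : ℕ → Blk) (k j : ℕ) (P P' : XX b →L[ℝ] XX b) :
    blkOp b k j (P + P') = blkOp b k j P + blkOp b k j P' := by
  ext z : 1
  rw [LinearMap.add_apply, blkOp_apply, blkOp_apply, blkOp_apply, _root_.add_apply,
    map_add, map_add]

lemma blkOp_sub (b : ℕ → Blk) (k j : ℕ) (P P' : XX b →L[ℝ] XX b) :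
    blkOp b k j (P - P') = blkOp b k j P - blkOp b k j P' := by
  ext z : 1
  rw [LinearMap.sub_apply, blkOp_apply, blkOp_apply, blkOp_apply, _root_.sub_apply,
    map_sub, map_sub]

/-- The diagonal block of a product is almost the product of the diagonal blocks. -/
lemma abs_tr_comp_diag (b : ℕ → Blk) (B : ℕ → ℕ) (hbasic : ∀ k, (b k).Basic)
    (htrans : ∀ j, ∀ a : Blk, a.Basic → a.m ≤ B j → Transfer a (b j))
    (hB : ∀ j k, j < k → (b j).m ≤ B k ∧ (b j).N ≤ B k ∧ 1 / (b j).ρ ≤ B k) (k : ℕ)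
    (hlarge : 4 * (k : ℝ) * (k + 1) ^ 2 * (B k : ℝ) ^ 2 ≤ (b k).ρ ^ 2 * (b k).N)
    {C : ℝ} (hC0 : 0 < C) (hk1 : C < (k : ℝ) + 1) (P P' : XX b →L[ℝ] XX b) (hP : ‖P‖ ≤ C)
    (hP' : ‖P'‖ ≤ C) (t : (b k).V →ₗ[ℝ] (b k).V) (ht : ∀ z, ‖t z‖ ≤ ‖z‖) :
    |tr (t ∘ₗ (blkOp b k k P ∘ₗ blkOp b k k P' - blkOp b k k (P ∘L P')))| ≤
      841 * ((k : ℝ) + 1) ^ 2 * (b k).ρ * (b k).N := by
  classical
  have hbas := hbasic k
  have hρ := (b k).ρ_pos
  set f : ℕ → ℝ := fun j => tr (t ∘ₗ blkOp b k j (P) ∘ₗ blkOp b j k (P')) with hf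
  have h1 := hasSum_tr_blkOp b k (P) (P') t
  have h2 := hasSum_ite_sub_hasSum h1 k
  have h3 : tr (t ∘ₗ (blkOp b k k (P) ∘ₗ blkOp b k k (P') - blkOp b k k (P ∘L P'))) =
      -(tr (t ∘ₗ blkOp b k k (P ∘L P')) - f k) := by
    rw [LinearMap.comp_sub, tr_sub, hf]
    ring
  rw [h3, abs_neg]
  -- bound of the finite partial sums
  set L1 : ℝ := 4 * C ^ 2 * (B k : ℝ) ^ 2 / (b k).ρ with hL1
  have hL1n : 0 ≤ L1 := by positivity
  set g2 : ℕ → ℝ := fun j => 840 * C * (b k).ρ * (b k).N *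
    ((1 / ((b k).m : ℝ)) * ∑ i, (b j).nrm (blkOp b j k (P') ((b k).w i))) with hg2
  have hg2n : ∀ j, 0 ≤ g2 j := by
    intro j
    have : 0 ≤ ∑ i, (b j).nrm (blkOp b j k (P') ((b k).w i)) :=
      Finset.sum_nonneg fun i _ => (b j).nrm_nonneg _
    rw [hg2]
    positivity
  have h4 : ∀ j, |if j = k then 0 else f j| ≤ (if j < k then L1 else 0) + g2 j := by
    intro j
    rcases lt_trichotomy j k with hlt | heq | hgt
    · rw [if_neg hlt.ne, if_pos hlt]
      obtain ⟨hm, hN, hr⟩ := hB j k hlt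
      have := abs_tr_lower (b j) (b k) (hbasic j) hbas hC0.le (Nat.cast_nonneg (B k))
        (Nat.cast_le.2 hN) hr (blkOp b j k (P')) (blkOp b k j (P)) t
        (nrm_blkOp_le b j k (P') (hP')) (nrm_blkOp_le b k j (P) (hP)) ht
      have h5 := hg2n j
      exact this.trans (by rw [hL1]; linarith)
    · rw [if_pos heq, abs_zero]
      have h5 := hg2n j
      split_ifs <;> linarith
    · rw [if_neg hgt.ne', if_neg (not_lt.2 hgt.le), zero_add]
      obtain ⟨hm, hN, hr⟩ := hB k j hgt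
      exact htrans j (b k) hbas hm C hC0 (blkOp b j k (P')) (blkOp b k j (P)) t ht
        (nrm_blkOp_le b k j (P) (hP))
  have h5 : ∀ F : Finset ℕ, |∑ j ∈ F, if j = k then 0 else f j| ≤
      841 * ((k : ℝ) + 1) ^ 2 * (b k).ρ * (b k).N := by
    intro F
    have h6 : ∑ j ∈ F, (if j < k then L1 else 0) ≤ k * L1 := by
      rw [← Finset.sum_filter, Finset.sum_const, nsmul_eq_mul]
      refine mul_le_mul_of_nonneg_right ?_ hL1n
      have h7 : F.filter (fun j => j < k) ⊆ Finset.range k := by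
        intro j hj
        rw [Finset.mem_filter] at hj
        exact Finset.mem_range.2 hj.2
      have h8 := Finset.card_le_card h7
      rw [Finset.card_range] at h8
      exact_mod_cast h8
    have h7 : ∑ j ∈ F, g2 j ≤ 840 * C ^ 2 * (b k).ρ * (b k).N := by
      rw [hg2, ← Finset.mul_sum, ← Finset.mul_sum, Finset.sum_comm]
      have h8 : ∀ i, ∑ j ∈ F, (b j).nrm (blkOp b j k (P') ((b k).w i)) ≤ C := by
        intro i
        refine (sum_nrm_blkOp_le b k (P') (hP') ((b k).w i) F).trans ?_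
        calc C * (b k).nrm ((b k).w i) ≤ C * 1 := by
              gcongr
              exact hbas.w_nrm i
          _ = C := mul_one C
      have h9 : ∑ i, ∑ j ∈ F, (b j).nrm (blkOp b j k (P') ((b k).w i)) ≤ (b k).m * C := by
        refine (Finset.sum_le_sum fun i _ => h8 i).trans ?_
        rw [Finset.sum_const, Finset.card_univ, Fintype.card_fin, nsmul_eq_mul]
      have hm : (0 : ℝ) < (b k).m := by exact_mod_cast hbas.m_pos
      calc 840 * C * (b k).ρ * ((b k).N : ℝ) * ((1 / ((b k).m : ℝ)) *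
            ∑ i, ∑ j ∈ F, (b j).nrm (blkOp b j k (P') ((b k).w i)))
          ≤ 840 * C * (b k).ρ * ((b k).N : ℝ) * ((1 / ((b k).m : ℝ)) * ((b k).m * C)) := by
            gcongr
        _ = 840 * C ^ 2 * (b k).ρ * (b k).N := by
            field_simp
    have h8 : (k : ℝ) * L1 ≤ (b k).ρ * (b k).N := by
      have h9 := hlarge
      have hC2 : C ^ 2 ≤ ((k : ℝ) + 1) ^ 2 := pow_le_pow_left₀ hC0.le hk1.le 2
      rw [hL1, mul_div_assoc', div_le_iff₀ hρ]
      calc (k : ℝ) * (4 * C ^ 2 * (B k : ℝ) ^ 2)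
          ≤ (k : ℝ) * (4 * ((k : ℝ) + 1) ^ 2 * (B k : ℝ) ^ 2) := by gcongr
        _ = 4 * (k : ℝ) * ((k : ℝ) + 1) ^ 2 * (B k : ℝ) ^ 2 := by ring
        _ ≤ (b k).ρ ^ 2 * (b k).N := h9
        _ = (b k).ρ * (b k).N * (b k).ρ := by ring
    have hC2 : C ^ 2 ≤ ((k : ℝ) + 1) ^ 2 := pow_le_pow_left₀ hC0.le hk1.le 2
    have hk2 : (1 : ℝ) ≤ ((k : ℝ) + 1) ^ 2 := by nlinarith [Nat.cast_nonneg (α := ℝ) k]
    have hρN : 0 ≤ (b k).ρ * (b k).N := by positivity
    calc |∑ j ∈ F, if j = k then 0 else f j|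
        ≤ ∑ j ∈ F, |if j = k then 0 else f j| := Finset.abs_sum_le_sum_abs _ _
      _ ≤ ∑ j ∈ F, ((if j < k then L1 else 0) + g2 j) := Finset.sum_le_sum fun j _ => h4 j
      _ = ∑ j ∈ F, (if j < k then L1 else 0) + ∑ j ∈ F, g2 j := Finset.sum_add_distrib
      _ ≤ (b k).ρ * (b k).N + 840 * C ^ 2 * (b k).ρ * (b k).N := by linarith
      _ ≤ 841 * ((k : ℝ) + 1) ^ 2 * (b k).ρ * (b k).N := by nlinarith
  have h6 : Tendsto (fun F : Finset ℕ => |∑ j ∈ F, if j = k then 0 else f j|) atTop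
      (𝓝 |tr (t ∘ₗ blkOp b k k (P ∘L P')) - f k|) := Filter.Tendsto.abs h2
  exact le_of_tendsto' h6 h5


theorem noBasisC_holds : NoBasisCStmt := by
  classical
  rintro b B hgood hB ⟨A, S, C₀, hA0, hS0, hAA, hAS, hAC₀, hSC₀, hrank, hlim⟩
  set C : ℝ := max C₀ 1 with hCdef
  have hAC : ∀ n, ‖A n‖ ≤ C := fun n => (hAC₀ n).trans (le_max_left _ _)
  have hSC : ∀ n, ‖S n‖ ≤ C := fun n => (hSC₀ n).trans (le_max_left _ _)
  have hC1 : 1 ≤ C := le_max_right _ _
  have hC0 : 0 < C := by linarith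
  obtain ⟨k, hk⟩ := exists_nat_gt C
  have hk1 : C < (k : ℝ) + 1 := by linarith
  have hg := hgood k
  have hbas := hg.basic
  have hcore := fun (P P' : XX b →L[ℝ] XX b) (hP : ‖P‖ ≤ C) (hP' : ‖P'‖ ≤ C) =>
    abs_tr_comp_diag b B (fun k => (hgood k).basic) (fun j => (hgood j).transfer) hB k hg.large
      hC0 hk1 P P' hP hP'
  refine hg.noChain C hC0 hk1 ⟨fun n => blkOp b k k (A n), fun n => blkOp b k k (S n),
    ?_, ?_, ?_, ?_, ?_, ?_, ?_, ?_⟩
  · change blkOp b k k (A 0) = 0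
    rw [hA0]
    ext z : 1
    rw [blkOp_apply]
    simp
  · change blkOp b k k (S 0) = 0
    rw [hS0]
    ext z : 1
    rw [blkOp_apply]
    simp
  · intro n z
    exact nrm_blkOp_le b k k (A n) (hAC n) z
  · intro n z
    exact nrm_blkOp_le b k k (S n) (hSC n) z
  · intro z
    have h1 := ((QQ b k).continuous.tendsto _).comp (hlim (JJ b k ((b k).toE z)))
    have h2 := tendsto_ofE (b k) h1
    have h3 : (b k).ofE (QQ b k (JJ b k ((b k).toE z))) = z := by
      rw [QQ_JJ]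
      exact (b k).toE.symm_apply_apply z
    rw [h3] at h2
    exact h2
  · intro n
    obtain ⟨e, e', he⟩ := hrank n
    refine ⟨(b k).ofE (QQ b k e), (b k).ofE (QQ b k e'), fun z => ?_⟩
    obtain ⟨c, c', hc⟩ := Submodule.mem_span_pair.1 (he (JJ b k ((b k).toE z)))
    refine Submodule.mem_span_pair.2 ⟨c, c', ?_⟩
    rw [blkOp_apply, blkOp_apply, ← map_sub, ← map_sub, ← hc, map_add, map_add, map_smul,
      map_smul, map_smul, map_smul]
  · intro n n' t ht
    have e : blkOp b k k (A n) ∘ₗ blkOp b k k (A n') - blkOp b k k (S n) ∘ₗ blkOp b k k (S n') -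
        blkOp b k k (A (min n n')) =
        (blkOp b k k (A n) ∘ₗ blkOp b k k (A n') - blkOp b k k (A n ∘L A n')) -
        (blkOp b k k (S n) ∘ₗ blkOp b k k (S n') - blkOp b k k (S n ∘L S n')) := by
      rw [← hAA, blkOp_sub]
      abel
    rw [e, LinearMap.comp_sub, tr_sub]
    have h1 := hcore (A n) (A n') (hAC n) (hAC n') t ht
    have h2 := hcore (S n) (S n') (hSC n) (hSC n') t ht
    calc |tr (t ∘ₗ (blkOp b k k (A n) ∘ₗ blkOp b k k (A n') - blkOp b k k (A n ∘L A n'))) -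
        tr (t ∘ₗ (blkOp b k k (S n) ∘ₗ blkOp b k k (S n') - blkOp b k k (S n ∘L S n')))|
        ≤ _ := abs_sub _ _
      _ ≤ _ := by linarith
  · intro n n' t ht
    have e : blkOp b k k (A n) ∘ₗ blkOp b k k (S n') + blkOp b k k (S n) ∘ₗ blkOp b k k (A n') -
        blkOp b k k (S (min n n')) =
        (blkOp b k k (A n) ∘ₗ blkOp b k k (S n') - blkOp b k k (A n ∘L S n')) +
        (blkOp b k k (S n) ∘ₗ blkOp b k k (A n') - blkOp b k k (S n ∘L A n')) := by
      rw [← hAS, blkOp_add]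
      abel
    rw [e, LinearMap.comp_add, tr_add]
    have h1 := hcore (A n) (S n') (hAC n) (hSC n') t ht
    have h2 := hcore (S n) (A n') (hSC n) (hAC n') t ht
    calc |tr (t ∘ₗ (blkOp b k k (A n) ∘ₗ blkOp b k k (S n') - blkOp b k k (A n ∘L S n'))) +
        tr (t ∘ₗ (blkOp b k k (S n) ∘ₗ blkOp b k k (A n') - blkOp b k k (S n ∘L A n')))|
        ≤ _ := abs_add_le _ _
      _ ≤ _ := by linarith

end SPB
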