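import Pool.Agent.SPB.CStmts

/-!
# C3b: a slow chain of projections contains a strict one, over `ℝ` or `ℂ`
-/

namespace SPB

open Filter Topology

theorem strictPiK_holds : StrictPiKStmt := by
  rintro 𝕜 _ X _ _ W lam hX ⟨h0, hnest, hstep, hnorm, hlim⟩
  set R : ℕ → Submodule 𝕜 X := fun t => LinearMap.range (W t : X →ₗ[𝕜] X) with hR
  have hR0 : R 0 = ⊥ := by
    rw [hR]
    simp only [h0]
    exact LinearMap.range_eq_bot.2 rfl
  have hmono : ∀ t s, t ≤ s → R t ≤ R s := by
    intro t s hts
    rintro _ ⟨x, rfl⟩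
    refine ⟨W t x, ?_⟩
    exact congrArg (fun f : X →L[𝕜] X => f x) (hnest t s hts)
  have hsucc : ∀ t, ∃ e : X, R (t + 1) ≤ R t ⊔ Submodule.span 𝕜 {e} := by
    intro t
    obtain ⟨e, he⟩ := hstep t
    refine ⟨e, ?_⟩
    rintro _ ⟨x, rfl⟩
    have : W (t + 1) x = W t x + (W (t + 1) x - W t x) := by abel
    change W (t + 1) x ∈ _
    rw [this]
    exact Submodule.add_mem_sup ⟨x, rfl⟩ (he x)
  have hfin : ∀ t, FiniteDimensional 𝕜 (R t) := by
    intro t
    induction t with
    | zero => rw [hR0]; infer_instance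
    | succ t ih =>
      obtain ⟨e, he⟩ := hsucc t
      have : FiniteDimensional 𝕜 (R t ⊔ Submodule.span 𝕜 {e} : Submodule 𝕜 X) :=
        Submodule.finiteDimensional_sup _ _
      exact Submodule.finiteDimensional_of_le he
  set r : ℕ → ℕ := fun t => Module.finrank 𝕜 (R t) with hr
  have hr0 : r 0 = 0 := by
    change Module.finrank 𝕜 (R 0) = 0
    rw [hR0, finrank_bot]
  have hrmono : Monotone r := by
    intro t s hts
    have := hfin s
    exact Submodule.finrank_mono (hmono t s hts)
  have hrsucc : ∀ t, r (t + 1) ≤ r t + 1 := by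
    intro t
    obtain ⟨e, he⟩ := hsucc t
    have := hfin t
    have : FiniteDimensional 𝕜 (R t ⊔ Submodule.span 𝕜 {e} : Submodule 𝕜 X) :=
      Submodule.finiteDimensional_sup _ _
    refine (Submodule.finrank_mono he).trans ?_
    refine (Submodule.finrank_add_le_finrank_add_finrank _ _).trans ?_
    exact Nat.add_le_add_left (finrank_span_le_card (R := 𝕜) {e} |>.trans (by simp)) _
  -- unboundedness
  have hunb : ∀ n, ∃ t, n ≤ r t := by
    intro n
    by_contra hne
    push Not at hne
    obtain ⟨t0, ht0⟩ : ∃ t0, ∀ t, t0 ≤ t → r t = r t0 := by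
      obtain ⟨t0, ht0⟩ : ∃ t0, ∀ t, r t ≤ r t0 := by
        have hbdd : BddAbove (Set.range r) := ⟨n, by rintro _ ⟨t, rfl⟩; exact (hne t).le⟩
        have hmem := Nat.sSup_mem (Set.range_nonempty r) hbdd
        obtain ⟨t0, ht0⟩ := hmem
        exact ⟨t0, fun t => by rw [ht0]; exact le_csSup hbdd ⟨t, rfl⟩⟩
      exact ⟨t0, fun t ht => le_antisymm (ht0 t) (hrmono ht)⟩
    have hstab : ∀ t, t0 ≤ t → R t = R t0 := by
      intro t ht
      have := hfin t
      exact (Submodule.eq_of_le_of_finrank_eq (hmono t0 t ht) (ht0 t ht).symm).symm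
    have hcl : IsClosed (R t0 : Set X) := by
      have := hfin t0
      exact Submodule.closed_of_finiteDimensional _
    have htop : R t0 = ⊤ := by
      rw [eq_top_iff]
      intro x _
      refine hcl.mem_of_tendsto (hlim x) ?_
      filter_upwards [eventually_ge_atTop t0] with t ht
      have : W t x ∈ R t := ⟨x, rfl⟩
      rw [hstab t ht] at this
      exact this
    apply hX
    have := hfin t0
    rw [htop] at this
    exact (Submodule.topEquiv (R := 𝕜) (M := X)).finiteDimensional
  have hex : ∀ n, ∃ t, r t = n ∧ ∀ s, s < t → r s < n := by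
    intro n
    have := hunb n
    classical
    refine ⟨Nat.find this, ?_, fun s hs => not_le.1 (Nat.find_min this hs)⟩
    have h1 := Nat.find_spec this
    refine le_antisymm ?_ h1
    rcases Nat.eq_zero_or_pos (Nat.find this) with hz | hpos
    · rw [hz, hr0]
      exact Nat.zero_le _
    · obtain ⟨t', ht'⟩ : ∃ t', Nat.find this = t' + 1 := ⟨Nat.find this - 1, by omega⟩
      have h2 : r t' < n := not_le.1 (Nat.find_min this (by omega))
      rw [ht']
      exact (hrsucc t').trans h2
  choose τ hτ hτ' using hex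
  have hτmono : ∀ n m, n ≤ m → τ n ≤ τ m := by
    intro n m hnm
    by_contra hlt
    have h1 := hτ' n (τ m) (not_le.1 hlt)
    rw [hτ m] at h1
    omega
  have hτge : ∀ n, n ≤ τ n := by
    have hle : ∀ t, r t ≤ t := by
      intro t
      induction t with
      | zero => rw [hr0]
      | succ t ih => exact (hrsucc t).trans (by omega)
    intro n
    have := hle (τ n)
    rwa [hτ n] at this
  refine ⟨fun n => W (τ n), fun n => ⟨hfin (τ n), hτ n⟩, ?_, fun n => hnorm _, ?_⟩
  · intro n m hnm
    exact hnest _ _ (hτmono n m hnm)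
  · intro x
    exact (hlim x).comp (tendsto_atTop_mono hτge tendsto_id)

end SPB
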