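import Pool.Agent.SPB.Final
import Pool.Agent.SPB.FinalCOf
import Pool.Agent.SPB.CNoChainC
import Pool.Agent.SPB.ObstructionC
import Pool.Agent.SPB.NoBasisC
import Pool.Agent.SPB.BasisK
import Pool.Agent.SPB.StrictPiK
import Pool.Agent.SPB.Complexify

/-!
# The final statement for real and complex scalars
-/

namespace SPB

theorem existsGoodC_holds : ExistsGoodCStmt :=
  existsGoodC_of tree_holds (sample_holds fewOp_holds i1_holds i2_holds no_holds)
    (cFlag_holds tree_holds norm_holds) (cNoChainC_of tree_holds norm_holds obstructionC_holds)
    (cTransfer_holds tree_holds norm_holds nearIso_holds transferCore_holds)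

theorem answers_hold : Answer ℝ ∧ Answer ℂ :=
  answers_of existsGoodC_holds basisK_holds strictPiK_holds cx_holds noBasisC_holds

end SPB
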