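import Pool.Agent.SPB.ExistsGood
import Pool.Agent.SPB.Basis
import Pool.Agent.SPB.StrictPi
import Pool.Agent.SPB.SumFlag
import Pool.Agent.SPB.NoBasis

set_option linter.unusedSectionVars false

/-!
# Assembly of the final statement
-/

namespace SPB

open scoped BigOperators InnerProductSpace

/-- The bounds on the blocks chosen so far. -/
noncomputable def bnd (hE : ExistsGoodStmt) : ℕ → ℕ
  | 0 => 0
  | k + 1 => max (bnd hE k) (max (hE k (bnd hE k)).choose.m
      (max (hE k (bnd hE k)).choose.N ⌈1 / (hE k (bnd hE k)).choose.ρ⌉₊))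

/-- The sequence of blocks. -/
noncomputable def blks (hE : ExistsGoodStmt) (k : ℕ) : Blk := (hE k (bnd hE k)).choose

theorem blks_good (hE : ExistsGoodStmt) (k : ℕ) : Good k (bnd hE k) (blks hE k) :=
  (hE k (bnd hE k)).choose_spec

theorem bnd_succ (hE : ExistsGoodStmt) (k : ℕ) :
    bnd hE (k + 1) = max (bnd hE k) (max (blks hE k).m
      (max (blks hE k).N ⌈1 / (blks hE k).ρ⌉₊)) := rfl

theorem bnd_mono (hE : ExistsGoodStmt) : Monotone (bnd hE) := by
  apply monotone_nat_of_le_succ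
  intro k
  rw [bnd_succ]
  exact le_max_left _ _

theorem blks_bound (hE : ExistsGoodStmt) (j k : ℕ) (hjk : j < k) :
    (blks hE j).m ≤ bnd hE k ∧ (blks hE j).N ≤ bnd hE k ∧ 1 / (blks hE j).ρ ≤ bnd hE k := by
  have h1 : bnd hE (j + 1) ≤ bnd hE k := bnd_mono hE hjk
  rw [bnd_succ] at h1
  have h2 : (blks hE j).m ≤ bnd hE k := by
    refine le_trans ?_ h1
    exact le_trans (le_max_left _ _) (le_max_right _ _)
  have h3 : (blks hE j).N ≤ bnd hE k := by
    refine le_trans ?_ h1
    exact le_trans (le_trans (le_max_left _ _) (le_max_right _ _)) (le_max_right _ _)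
  have h4 : ⌈1 / (blks hE j).ρ⌉₊ ≤ bnd hE k := by
    refine le_trans ?_ h1
    exact le_trans (le_trans (le_max_right _ _) (le_max_right _ _)) (le_max_right _ _)
  exact ⟨h2, h3, (Nat.le_ceil _).trans (by exact_mod_cast h4)⟩

theorem final_of (hE : ExistsGoodStmt) : FinalStmt := by
  set b := blks hE with hb
  have hgood : ∀ k, Good k (bnd hE k) (b k) := blks_good hE
  have hNpos : ∀ k, 0 < (b k).N := by
    intro k
    have h1 := (hgood k).basic.ρN
    rcases Nat.eq_zero_or_pos (b k).N with h0 | h0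
    · rw [h0] at h1
      norm_num at h1
    · exact h0
  obtain ⟨hinf, W, hW0, hWc, hWr, hWn, hWt⟩ := sumFlag_holds b (fun k => (hgood k).flag) hNpos
  obtain ⟨u, hu1, hu2, hu3, hu4⟩ := strictPi_holds (XX b) W 4 hinf hW0 hWc hWr hWn hWt
  refine ⟨XX b, inferInstance, inferInstance, inferInstance, ⟨u, hu1, hu2, hu3, hu4⟩, ?_⟩
  rintro ⟨e, he⟩
  obtain ⟨P, C, hP0, hPc, hPn, hPr, hPt⟩ := basis_holds (XX b) e he
  exact noBasis_holds b (bnd hE) hgood (blks_bound hE)
    ⟨P, C, hP0, hPc, hPn, fun n => ⟨e n, hPr n⟩, hPt⟩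

end SPB
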